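import Mathlib

/-!
# Minimal monic equations over integrally closed domains
-/

set_option autoImplicit false

namespace Pool.Agent.Helper10.TD

open Polynomial

theorem min_hom {A L : Type} [CommRing A] [IsDomain A] [IsIntegrallyClosed A] [Field L]
    (f : A →+* L) (hf : Function.Injective f) (ζ : L) (hζ : f.IsIntegralElem ζ) :
    ∃ Φ : A[X], Φ.Monic ∧ Φ.eval₂ f ζ = 0 ∧ 1 ≤ Φ.natDegree ∧
      ∀ g : A[X], g ≠ 0 → g.eval₂ f ζ = 0 → Φ.natDegree ≤ g.natDegree := by
  letI := f.toAlgebra
  haveI : Module.IsTorsionFree A L := by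
    rw [Module.isTorsionFree_iff_algebraMap_injective]
    exact hf
  have hint : IsIntegral A ζ := hζ
  refine ⟨minpoly A ζ, minpoly.monic hint, ?_, minpoly.natDegree_pos hint, ?_⟩
  · have := minpoly.aeval A ζ
    rwa [aeval_def] at this
  · intro g hg h0
    have h2 : aeval ζ g = 0 := by rw [aeval_def]; exact h0
    have h1 := minpoly.IsIntegrallyClosed.degree_le_of_ne_zero (R := A) (s := ζ) hg h2
    exact natDegree_le_natDegree h1

end Pool.Agent.Helper10.TD
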