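import Pool.Agent.Helper10.TD.Defs
import Pool.Agent.Helper10.TD.MinH
import Pool.Agent.Helper38.TP.Int
import Pool.Agent.Helper38.TN.IntN

/-!
# The point over a large field
-/

set_option autoImplicit false

namespace Pool.Agent.Helper10.TD

open Pool.Agent.Helper10.Sub MvPolynomial

/-- A point `x` of the cone over `X` with values in a field `L`, with `F i (x) = D i * w i ^ d i`. -/
structure AD (K Ω L : Type) [Field K] [Field Ω] [Algebra K Ω] [Field L] [Algebra K L] {N n : ℕ}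
    (J₀ : Set (MvPolynomial (Fin (N + 1)) K)) (F : Fin (n + 1) → MvPolynomial (Fin (N + 1)) K)
    (d : Fin (n + 1) → ℕ) (D : Fin (n + 1) → K) (x : Fin (N + 1) → L) (w : Fin (n + 1) → L) :
    Prop where
  hJ₀ : ∀ f ∈ J₀, ∃ e, f.IsHomogeneous e
  hd : ∀ i, 1 ≤ d i
  hF : ∀ i, (F i).IsHomogeneous (d i)
  hD : ∀ i, D i ≠ 0
  hempty : ∀ A : Fin (N + 1) → Ω, OnV J₀ A → (∀ i, aeval A (F i) = 0) → A = 0
  onV : ∀ f ∈ J₀, aeval x f = 0
  val : ∀ i, aeval x (F i) = algebraMap K L (D i) * w i ^ d i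
  ne : ∀ i, w i ≠ 0

/-- The coordinates `w i / w a`, `i ≠ a`. -/
def zz {L : Type} [Field L] {n : ℕ} (w : Fin (n + 1) → L) (a : Fin (n + 1)) : Fin (n + 1) → L :=
  fun i => if i = a then 0 else w i / w a

/-- The linear form `lam` at `x`. -/
def lin {K L : Type} [Field K] [Field L] [Algebra K L] {N : ℕ} (lam : Fin (N + 1) → K)
    (x : Fin (N + 1) → L) : L := ∑ k, algebraMap K L (lam k) * x k

end Pool.Agent.Helper10.TD
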