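import Pool.Agent.Helper10.TD.IntL

/-!
# Independent units: the minimal equations of a linear form

`hind`: the `w i` satisfy no homogeneous polynomial relation. For fixed `a` let
`R = MvPolynomial {i // i ≠ a} K` and `f : R →+* L`, `X i ↦ w i / w a`; `f` is injective
(homogenise), `R` is integrally closed (UFD), and `ξ / w a` (`ξ = lin lam x`) is integral over the
image: `int_L` at `y = x / w a`, `A` = range of `f` as a subalgebra; `aeval y (F i) = D i (w i / w a) ^ d i`
(homogeneity of `F i`). `min_hom` gives `Φ a` over `R`, rename to `MvPolynomial (Fin (n + 1)) K`.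
The degree is the same for all `a` and there is no homogeneous relation of smaller degree: a relation
`∑ j < e, ξ ^ j B_j(w) = 0` with `B_j` homogeneous of degree `m - j` gives, divided by `w a ^ m`,
a relation for `ξ / w a` over `f(R)` of degree `< e`, and conversely a relation for `ξ / w a` over
`f(R)` gives a homogeneous one (multiply by a large power of `w a`). Take `δ` the degree of `Φ 0`.
-/

set_option autoImplicit false

namespace Pool.Agent.Helper10.TD

open Pool.Agent.Helper10.Sub MvPolynomial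

section algA1aux

variable {K L : Type} [Field K] [Field L] [Algebra K L]

lemma algA1_smul {σ : Type} {f : MvPolynomial σ K} {n : ℕ} (hf : f.IsHomogeneous n) (c : L)
    (x : σ → L) : aeval (fun i => c * x i) f = c ^ n * aeval x f := by
  classical
  rw [aeval_def, aeval_def, eval₂_eq, eval₂_eq, Finset.mul_sum]
  apply Finset.sum_congr rfl
  intro e he
  have h1 : ∑ i ∈ e.support, e i = n := by
    have := hf (mem_support_iff.mp he)
    rw [Finsupp.weight_apply] at this
    simpa [Finsupp.sum] using this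
  have h2 : ∏ i ∈ e.support, (c * x i) ^ e i = c ^ n * ∏ i ∈ e.support, x i ^ e i := by
    rw [← h1, ← Finset.prod_pow_eq_pow_sum, ← Finset.prod_mul_distrib]
    exact Finset.prod_congr rfl fun i _ => mul_pow _ _ _
  rw [h2]
  ring

variable {n : ℕ}

/-- The embedding of the polynomial ring in the coordinates `i ≠ a`. -/
noncomputable def algA1f (w : Fin (n + 1) → L) (a : Fin (n + 1)) :
    MvPolynomial {i : Fin (n + 1) // i ≠ a} K →ₐ[K] L := aeval (fun i => w i.1 / w a)

/-- Put `X a = 1`. -/
noncomputable def algA1one (a : Fin (n + 1)) :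
    MvPolynomial (Fin (n + 1)) K →ₐ[K] MvPolynomial {i : Fin (n + 1) // i ≠ a} K :=
  aeval (fun i => if h : i ≠ a then X ⟨i, h⟩ else 1)

lemma algA1_dehom (w : Fin (n + 1) → L) (a : Fin (n + 1)) (hw : w a ≠ 0)
    {B : MvPolynomial (Fin (n + 1)) K} {k : ℕ} (hB : B.IsHomogeneous k) :
    aeval w B = w a ^ k * algA1f w a (algA1one a B) := by
  have h1 : (algA1f (K := K) w a).comp (algA1one a) = aeval (fun i => w i / w a) := by
    apply algHom_ext
    intro i
    rw [AlgHom.comp_apply, algA1one, aeval_X, aeval_X]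
    split_ifs with h
    · rw [algA1f, aeval_X]
    · push Not at h
      subst h
      rw [map_one, div_self hw]
  have h2 : algA1f w a (algA1one a B) = aeval (fun i => w i / w a) B := by
    rw [← h1, AlgHom.comp_apply]
  rw [h2, ← algA1_smul hB]
  congr 2
  funext i
  rw [mul_div_cancel₀ _ hw]

lemma algA1_hom (a : Fin (n + 1)) (g : MvPolynomial {i : Fin (n + 1) // i ≠ a} K) {m : ℕ}
    (hm : g.totalDegree ≤ m) :
    ∃ G : MvPolynomial (Fin (n + 1)) K, G.IsHomogeneous m ∧ algA1one a G = g := by
  classical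
  refine ⟨∑ k ∈ Finset.range (g.totalDegree + 1),
    X a ^ (m - k) * rename Subtype.val (homogeneousComponent k g), ?_, ?_⟩
  · refine IsHomogeneous.sum _ _ _ fun k hk => ?_
    rw [Finset.mem_range] at hk
    have h1 := (isHomogeneous_X_pow (R := K) a (m - k)).mul
      ((homogeneousComponent_isHomogeneous k g).rename_isHomogeneous
        (f := (Subtype.val : {i : Fin (n + 1) // i ≠ a} → Fin (n + 1))))
    have h2 : m - k + k = m := by omega
    rwa [h2] at h1
  · rw [map_sum]
    have h3 : ∀ q : MvPolynomial {i : Fin (n + 1) // i ≠ a} K,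
        algA1one a (rename Subtype.val q) = q := by
      intro q
      have h4 : (algA1one (K := K) a).comp (rename Subtype.val) =
          AlgHom.id K (MvPolynomial {i : Fin (n + 1) // i ≠ a} K) := by
        apply algHom_ext
        intro i
        rw [AlgHom.comp_apply, rename_X, algA1one, aeval_X, dif_pos i.2]
        rfl
      exact DFunLike.congr_fun h4 q
    have h5 : algA1one (K := K) a (X a) = 1 := by
      rw [algA1one, aeval_X, dif_neg (by simp)]
    conv_rhs => rw [← sum_homogeneousComponent g]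
    refine Finset.sum_congr rfl fun k _ => ?_
    rw [map_mul, map_pow, h5, one_pow, one_mul, h3]

lemma algA1_inj (w : Fin (n + 1) → L) (a : Fin (n + 1)) (hw : w a ≠ 0)
    (hind : ∀ (m : ℕ) (p : MvPolynomial (Fin (n + 1)) K), p.IsHomogeneous m →
      aeval w p = 0 → p = 0) :
    Function.Injective (algA1f (K := K) w a) := by
  rw [injective_iff_map_eq_zero]
  intro g hg
  obtain ⟨G, hG, hGg⟩ := algA1_hom a g le_rfl
  have h1 := algA1_dehom w a hw hG
  rw [hGg, hg, mul_zero] at h1
  rw [← hGg, hind _ G hG h1, map_zero]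

end algA1aux

theorem algA1 {K Ω L : Type} [Field K] [Field Ω] [IsAlgClosed Ω] [Algebra K Ω] [Field L]
    [Algebra K L] {N n : ℕ} {J₀ : Set (MvPolynomial (Fin (N + 1)) K)}
    {F : Fin (n + 1) → MvPolynomial (Fin (N + 1)) K} {d : Fin (n + 1) → ℕ} {D : Fin (n + 1) → K}
    {x : Fin (N + 1) → L} {w : Fin (n + 1) → L} (h : AD K Ω L J₀ F d D x w)
    (hind : ∀ (m : ℕ) (p : MvPolynomial (Fin (n + 1)) K), p.IsHomogeneous m → aeval w p = 0 → p = 0)
    (lam : Fin (N + 1) → K) :
    ∃ δ : ℕ, 1 ≤ δ ∧
      (∀ (m : ℕ) (B : ℕ → MvPolynomial (Fin (n + 1)) K), δ ≤ m + 1 →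
        (∀ j < δ, (B j).IsHomogeneous (m - j)) →
        ∑ j ∈ Finset.range δ, lin lam x ^ j * aeval w (B j) = 0 → ∀ j < δ, B j = 0) ∧
      ∀ a : Fin (n + 1), ∃ Φ : Polynomial (MvPolynomial (Fin (n + 1)) K),
        Φ.Monic ∧ Φ.natDegree = δ ∧ ev (zz w a) (lin lam x / w a) Φ = 0 := by
  classical
  set ξ : L := lin lam x with hξ
  have hw := h.ne
  -- integrality
  have hint : ∀ a, ((algA1f (K := K) w a : MvPolynomial {i : Fin (n + 1) // i ≠ a} K →ₐ[K] L) :
      MvPolynomial {i : Fin (n + 1) // i ≠ a} K →+* L).IsIntegralElem (ξ / w a) := by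
    intro a
    set A : Subalgebra K L := (algA1f (K := K) w a).range with hAdef
    have hmem : ∀ i, w i / w a ∈ A := by
      intro i
      by_cases hi : i = a
      · subst hi
        rw [div_self (hw i)]
        exact A.one_mem
      · exact ⟨X ⟨i, hi⟩, by rw [AlgHom.toRingHom_eq_coe, RingHom.coe_coe, algA1f, aeval_X]⟩
    have hy0 : ∀ f ∈ J₀, aeval (fun k => (w a)⁻¹ * x k) f = 0 := by
      intro f hf
      obtain ⟨e, he⟩ := h.hJ₀ f hf
      rw [algA1_smul he, h.onV f hf, mul_zero]
    have hA : ∀ i, aeval (fun k => (w a)⁻¹ * x k) (F i) ∈ A := by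
      intro i
      rw [algA1_smul (h.hF i), h.val i]
      have h1 : (w a)⁻¹ ^ d i * (algebraMap K L (D i) * w i ^ d i) =
          algebraMap K L (D i) * (w i / w a) ^ d i := by
        rw [div_eq_mul_inv, mul_pow]; ring
      rw [h1]
      exact A.mul_mem (A.algebraMap_mem _) (A.pow_mem (hmem i) _)
    have hk := fun k => int_L J₀ h.hJ₀ F d h.hd h.hF h.hempty (fun k => (w a)⁻¹ * x k) hy0 A hA k
    have hζ : IsIntegral A (ξ / w a) := by
      have h2 : ξ / w a = ∑ k, algebraMap K L (lam k) * ((w a)⁻¹ * x k) := by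
        rw [hξ, lin, Finset.sum_div]
        refine Finset.sum_congr rfl fun k _ => ?_
        rw [div_eq_mul_inv]; ring
      rw [h2]
      refine IsIntegral.sum _ fun k _ => ?_
      refine IsIntegral.mul ?_ (hk k)
      exact isIntegral_algebraMap (R := A) (A := L)
        (x := (⟨algebraMap K L (lam k), A.algebraMap_mem _⟩ : A))
    obtain ⟨p, hp, hp0⟩ := hζ
    have hsurj : Function.Surjective
        ((algA1f (K := K) w a).rangeRestrict : MvPolynomial {i : Fin (n + 1) // i ≠ a} K →+* A) :=
      (algA1f (K := K) w a).rangeRestrict_surjective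
    have hlift : p ∈ Polynomial.lifts
        ((algA1f (K := K) w a).rangeRestrict : MvPolynomial {i : Fin (n + 1) // i ≠ a} K →+* A) := by
      rw [Polynomial.mem_lifts]
      exact Polynomial.map_surjective _ hsurj p
    obtain ⟨q, hq1, _, hq3⟩ := Polynomial.lifts_and_natDegree_eq_and_monic hlift hp
    refine ⟨q, hq3, ?_⟩
    rw [← hq1, Polynomial.eval₂_map] at hp0
    exact hp0
  have hmin := fun a => min_hom _ (algA1_inj (K := K) w a (hw a) hind) (ξ / w a) (hint a)
  choose Φ hΦ1 hΦ2 hΦ3 hΦ4 using hmin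
  have key : ∀ a (j m : ℕ), j ≤ m → ∀ B : MvPolynomial (Fin (n + 1)) K, B.IsHomogeneous (m - j) →
      ξ ^ j * aeval w B = w a ^ m * (algA1f (K := K) w a (algA1one a B) * (ξ / w a) ^ j) := by
    intro a j m hj B hB
    rw [algA1_dehom w a (hw a) hB, div_pow]
    have h1 : w a ^ m = w a ^ (m - j) * w a ^ j := by rw [← pow_add]; congr 1; omega
    rw [h1]
    have h2 := pow_ne_zero j (hw a)
    field_simp
  -- no relations of small degree
  have hno : ∀ a (e : ℕ), e ≤ (Φ a).natDegree →
      ∀ (m : ℕ) (B : ℕ → MvPolynomial (Fin (n + 1)) K), e ≤ m + 1 →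
        (∀ j < e, (B j).IsHomogeneous (m - j)) →
        ∑ j ∈ Finset.range e, ξ ^ j * aeval w (B j) = 0 → ∀ j < e, B j = 0 := by
    intro a e he m B hem hB h0
    set g : Polynomial (MvPolynomial {i : Fin (n + 1) // i ≠ a} K) :=
      ∑ j ∈ Finset.range e, Polynomial.monomial j (algA1one a (B j)) with hg
    have hc : ∀ k, g.coeff k = if k < e then algA1one a (B k) else 0 := by
      intro k
      rw [hg, Polynomial.finsetSum_coeff]
      simp only [Polynomial.coeff_monomial]
      rw [Finset.sum_ite_eq']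
      simp only [Finset.mem_range]
    have hev : g.eval₂ (algA1f (K := K) w a : MvPolynomial {i : Fin (n + 1) // i ≠ a} K →+* L)
        (ξ / w a) = 0 := by
      have h1 : w a ^ m * g.eval₂ (algA1f (K := K) w a :
          MvPolynomial {i : Fin (n + 1) // i ≠ a} K →+* L) (ξ / w a) = 0 := by
        rw [← h0, hg, Polynomial.eval₂_finsetSum, Finset.mul_sum]
        refine Finset.sum_congr rfl fun j hj => ?_
        rw [Finset.mem_range] at hj
        rw [Polynomial.eval₂_monomial, key a j m (by omega) (B j) (hB j hj)]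
        rfl
      exact (mul_eq_zero.1 h1).resolve_left (pow_ne_zero _ (hw a))
    have hg0 : g = 0 := by
      by_contra hne
      have h1 := hΦ4 a g hne hev
      have h2 : g.coeff g.natDegree ≠ 0 := by
        rw [Polynomial.coeff_natDegree]
        exact Polynomial.leadingCoeff_ne_zero.2 hne
      rw [hc] at h2
      have h3 : g.natDegree < e := by
        by_contra h4
        rw [if_neg h4] at h2
        exact h2 rfl
      omega
    intro j hj
    have h1 := hc j
    rw [hg0, if_pos hj, Polynomial.coeff_zero] at h1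
    refine hind _ _ (hB j hj) ?_
    rw [algA1_dehom w a (hw a) (hB j hj), ← h1, map_zero, mul_zero]
  have hle : ∀ a b, (Φ b).natDegree ≤ (Φ a).natDegree := by
    intro a b
    by_contra hlt
    push Not at hlt
    set δ := (Φ a).natDegree with hδ
    set M := ∑ j ∈ Finset.range (δ + 1), ((Φ a).coeff j).totalDegree with hM
    have hB : ∀ j, ∃ B : MvPolynomial (Fin (n + 1)) K, j < δ + 1 →
        B.IsHomogeneous (M + δ - j) ∧ algA1one a B = (Φ a).coeff j := by
      intro j
      by_cases hj : j < δ + 1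
      · have h1 : ((Φ a).coeff j).totalDegree ≤ M := by
          rw [hM]
          exact Finset.single_le_sum (f := fun j => ((Φ a).coeff j).totalDegree)
            (fun _ _ => Nat.zero_le _) (Finset.mem_range.2 hj)
        obtain ⟨B, hB1, hB2⟩ := algA1_hom a ((Φ a).coeff j) (m := M + δ - j) (by omega)
        exact ⟨B, fun _ => ⟨hB1, hB2⟩⟩
      · exact ⟨0, fun h => absurd h hj⟩
    choose B hB using hB
    have h0 : ∑ j ∈ Finset.range (δ + 1), ξ ^ j * aeval w (B j) = 0 := by
      have h1 := hΦ2 a
      rw [Polynomial.eval₂_eq_sum_range, ← hδ] at h1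
      have h2 : ∑ j ∈ Finset.range (δ + 1), ξ ^ j * aeval w (B j) = w a ^ (M + δ) *
          ∑ i ∈ Finset.range (δ + 1), (algA1f (K := K) w a :
            MvPolynomial {i : Fin (n + 1) // i ≠ a} K →+* L) ((Φ a).coeff i) * (ξ / w a) ^ i := by
        rw [Finset.mul_sum]
        refine Finset.sum_congr rfl fun j hj => ?_
        rw [Finset.mem_range] at hj
        rw [key a j (M + δ) (by omega) (B j) (hB j hj).1, (hB j hj).2]
        rfl
      exact h2.trans (mul_eq_zero_of_right _ h1)
    have h3 := hno b (δ + 1) (by omega) (M + δ) B (by omega) (fun j hj => (hB j hj).1) h0 δ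
      (by omega)
    have h4 := (hB δ (by omega)).2
    have h5 : (Φ a).coeff δ = 1 := by rw [hδ]; exact hΦ1 a
    rw [h3, h5, map_zero] at h4
    exact zero_ne_one h4
  refine ⟨(Φ 0).natDegree, hΦ3 0, hno 0 _ le_rfl, fun a => ?_⟩
  refine ⟨(Φ a).map ((rename Subtype.val : MvPolynomial {i : Fin (n + 1) // i ≠ a} K →ₐ[K]
    MvPolynomial (Fin (n + 1)) K) : MvPolynomial {i : Fin (n + 1) // i ≠ a} K →+*
    MvPolynomial (Fin (n + 1)) K), (hΦ1 a).map _, ?_, ?_⟩
  · rw [(hΦ1 a).natDegree_map]
    exact le_antisymm (hle 0 a) (hle a 0)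
  · have h1 : ((aeval (zz w a) : MvPolynomial (Fin (n + 1)) K →ₐ[K] L)).comp
        (rename Subtype.val : MvPolynomial {i : Fin (n + 1) // i ≠ a} K →ₐ[K] _) =
        algA1f (K := K) w a := by
      apply algHom_ext
      intro i
      rw [AlgHom.comp_apply, rename_X, aeval_X, algA1f, aeval_X, zz, if_neg i.2]
    have h2 : ((aeval (zz w a) : MvPolynomial (Fin (n + 1)) K →ₐ[K] L) :
        MvPolynomial (Fin (n + 1)) K →+* L).comp
        ((rename Subtype.val : MvPolynomial {i : Fin (n + 1) // i ≠ a} K →ₐ[K] _) :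
          MvPolynomial {i : Fin (n + 1) // i ≠ a} K →+* MvPolynomial (Fin (n + 1)) K) =
        (algA1f (K := K) w a : MvPolynomial {i : Fin (n + 1) // i ≠ a} K →+* L) := by
      rw [← h1]
      rfl
    change Polynomial.eval₂ _ (ξ / w a) _ = 0
    rw [Polynomial.eval₂_map, h2]
    exact hΦ2 a

end Pool.Agent.Helper10.TD
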