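import Pool.Agent.Helper10.TD.AD

/-!
# Specialisation at a corner point

`X` irreducible, `w` without homogeneous relation, `P` a point of `X` over `Ω` where all `F i`,
`i ≠ a`, vanish. Then the equation of `ξ / w a` specialises to an equation for `ξ(P) / ω` with
`D a * ω ^ d a = F a (P)`.

Proof. Let `I = {f | ∀ A, OnV J₀ A → aeval A f = 0}` (ideal of `K[X_0..X_N]`; prime by `hirr`;
`1 ∉ I` because of `A = 0`; stable under taking homogeneous components because `OnV J₀` is stable
under scaling, `K`, `Ω` infinite). `θ : K[X] → L[T]`, `X k ↦ x k T` (`L[T]` = `Polynomial L`, or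
`RatFunc L`/`FractionRing`): `I ≤ ker θ`, and `ker θ ≤ I`: `C = K[X] ⧸ I` is a domain, integral over
the image of `K[Y_0..Y_n]`, `Y i ↦ F i` (from `int_span_top` as in `Helper38/TN/IntN.lean`, `int_eqN`),
and `K[Y] → L[T]`, `Y i ↦ D i (w i) ^ (d i) T ^ (d i)` is injective by `hind` (homogeneous components
in `T`; distinct monomials in the `w i ^ d i` stay distinct); a non-zero ideal of the integral extension
`C` meets the image of `K[Y]` non-trivially (`Ideal.eq_bot_of_comap_eq_bot` or similar). To show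
`I ≤ ker θ` one needs: `f ∈ I` homogeneous implies `aeval x f = 0`; this is the hypothesis `hx`.
So `P` defines a homomorphism from the range of `θ` to `Ω`. The ring `B = K[x k T, w i T] ⊆ L[T]` is
integral over the range of `θ` (`(w i T) ^ d i = θ(F i) / D i`), so the homomorphism extends to
`φ : B → Ω` (`Ω` algebraically closed; a prime over the kernel, then an embedding of the algebraic
extension of the residue fields). `φ (w i T) = 0` for `i ≠ a` (its `d i`-th power is `F i (P) / D i`),
`ω := φ (w a T)`, `D a * ω ^ d a = F a (P) ≠ 0` by `hempty`. Multiply `ev (zz w a) (ξ / w a) Φ = 0` by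
a large power of `w a T`: a relation in `B`; apply `φ`; only the constant terms of the coefficients of
`Φ` survive (terms with `Z a` are zero from the start, `zz w a a = 0`).
-/

set_option autoImplicit false

namespace Pool.Agent.Helper10.TD

open Pool.Agent.Helper10.Sub Pool.Agent.Helper38.TP MvPolynomial

section ext

/-- homomorphisms to algebraically closed fields extend to integral extensions -/
theorem algA2_ext {R B Ω : Type} [CommRing R] [CommRing B] [Algebra R B]
    [Algebra.IsIntegral R B] [Field Ω] [IsAlgClosed Ω] (ψ : R →+* Ω)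
    (hinj : Function.Injective (algebraMap R B)) :
    ∃ φ : B →+* Ω, ∀ r, φ (algebraMap R B r) = ψ r := by
  haveI : (RingHom.ker ψ).IsPrime := RingHom.ker_isPrime ψ
  obtain ⟨Q, -, hQ, hQP⟩ := Ideal.exists_ideal_over_prime_of_isIntegral (S := B)
    (RingHom.ker ψ) ⊥ (by
      rw [← RingHom.ker_eq_comap_bot, (RingHom.injective_iff_ker_eq_bot _).1 hinj]
      exact bot_le)
  have h1 : ∀ r ∈ Q.comap (algebraMap R B), ψ r = 0 := by
    intro r hr
    rw [hQP] at hr
    exact hr
  let ψ' : (R ⧸ Q.comap (algebraMap R B)) →+* Ω := Ideal.Quotient.lift _ ψ h1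
  letI : Algebra (R ⧸ Q.comap (algebraMap R B)) Ω := ψ'.toAlgebra
  have hψ' : Function.Injective (algebraMap (R ⧸ Q.comap (algebraMap R B)) Ω) := by
    change Function.Injective ψ'
    rw [injective_iff_map_eq_zero]
    intro r hr
    obtain ⟨s, rfl⟩ := Ideal.Quotient.mk_surjective r
    rw [Ideal.Quotient.eq_zero_iff_mem, hQP]
    exact hr
  have h2 : Function.Injective (algebraMap (R ⧸ Q.comap (algebraMap R B)) (B ⧸ Q)) :=
    Ideal.algebraMap_quotient_injective
  haveI : (Q.comap (algebraMap R B)).IsPrime := Ideal.comap_isPrime _ Q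
  haveI : Module.IsTorsionFree (R ⧸ Q.comap (algebraMap R B)) Ω := by
    rw [Module.isTorsionFree_iff_algebraMap_injective]
    exact hψ'
  haveI : Module.IsTorsionFree (R ⧸ Q.comap (algebraMap R B)) (B ⧸ Q) := by
    rw [Module.isTorsionFree_iff_algebraMap_injective]
    exact h2
  haveI : Algebra.IsIntegral (R ⧸ Q.comap (algebraMap R B)) (B ⧸ Q) := inferInstance
  haveI : Algebra.IsAlgebraic (R ⧸ Q.comap (algebraMap R B)) (B ⧸ Q) := inferInstance
  let F : (B ⧸ Q) →ₐ[R ⧸ Q.comap (algebraMap R B)] Ω := IsAlgClosed.lift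
  refine ⟨(F : (B ⧸ Q) →+* Ω).comp (Ideal.Quotient.mk Q), fun r => ?_⟩
  have h3 := F.commutes (Ideal.Quotient.mk _ r)
  exact h3

/-- factorisation through a surjection -/
theorem algA2_fac {R S T : Type} [CommRing R] [CommRing S] [CommRing T] (θ : R →+* S)
    (hs : Function.Surjective θ) (π : R →+* T) (h : ∀ r, θ r = 0 → π r = 0) :
    ∃ ψ : S →+* T, ∀ r, ψ (θ r) = π r := by
  refine ⟨RingHom.liftOfSurjective θ hs ⟨π, fun r hr => h r hr⟩, fun r => ?_⟩
  have h1 := RingHom.liftOfRightInverse_comp_apply θ (Function.surjInv hs)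
    (Function.rightInverse_surjInv hs) ⟨π, fun r hr => h r hr⟩ r
  exact h1

end ext

section coeff

variable {K L : Type} [Field K] [Field L] [Algebra K L]

/-- the coefficients of `f (x T)` -/
theorem algA2_coeff {σ : Type} (x : σ → L) (f : MvPolynomial σ K) (k : ℕ) :
    (aeval (fun i => Polynomial.C (x i) * (Polynomial.X : Polynomial L)) f).coeff k =
      aeval x (homogeneousComponent k f) := by
  classical
  have h1 : ∀ (μ : σ →₀ ℕ) (c : K),
      aeval (fun i => Polynomial.C (x i) * (Polynomial.X : Polynomial L)) (monomial μ c) =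
        Polynomial.C (aeval x (monomial μ c)) * Polynomial.X ^ μ.degree := by
    intro μ c
    rw [aeval_monomial, aeval_monomial]
    simp only [mul_pow]
    rw [Finsupp.prod, Finset.prod_mul_distrib, Finset.prod_pow_eq_pow_sum, map_mul]
    simp only [Finsupp.prod, map_prod, map_pow]
    rw [← Finsupp.degree_apply, ← mul_assoc]
    rfl
  rw [f.as_sum, map_sum, Polynomial.finsetSum_coeff, map_sum, map_sum]
  refine Finset.sum_congr rfl fun μ _ => ?_
  rw [h1, Polynomial.coeff_C_mul, Polynomial.coeff_X_pow]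
  rw [homogeneousComponent_of_mem (n := μ.degree) (isHomogeneous_monomial _ rfl)]
  by_cases hk : k = μ.degree
  · rw [if_pos hk, if_pos hk, mul_one]
  · rw [if_neg hk, if_neg hk, mul_zero, map_zero]

theorem algA2_hom {σ : Type} (x : σ → L) (f : MvPolynomial σ K) (d : ℕ)
    (hf : f.IsHomogeneous d) :
    aeval (fun i => Polynomial.C (x i) * (Polynomial.X : Polynomial L)) f =
      Polynomial.C (aeval x f) * Polynomial.X ^ d := by
  classical
  ext k
  rw [algA2_coeff, Polynomial.coeff_C_mul, Polynomial.coeff_X_pow,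
    homogeneousComponent_of_mem hf]
  by_cases hk : k = d
  · rw [if_pos hk, if_pos hk, mul_one]
  · rw [if_neg hk, if_neg hk, mul_zero, map_zero]

/-- `Y i ↦ D i * Y i ^ d i` is injective -/
theorem algA2_pow {n : ℕ} (D : Fin (n + 1) → K) (hD : ∀ i, D i ≠ 0) (d : Fin (n + 1) → ℕ)
    (hd : ∀ i, 1 ≤ d i) (p : MvPolynomial (Fin (n + 1)) K)
    (hp : aeval (fun i => C (D i) * (X i : MvPolynomial (Fin (n + 1)) K) ^ d i) p = 0) :
    p = 0 := by
  classical
  set e : (Fin (n + 1) →₀ ℕ) → (Fin (n + 1) →₀ ℕ) := fun μ =>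
    Finsupp.equivFunOnFinite.symm (fun i => d i * μ i) with he
  have heinj : Function.Injective e := by
    intro μ ν h
    ext i
    have h1 : e μ i = e ν i := by rw [h]
    have h2 : d i * μ i = d i * ν i := h1
    exact Nat.eq_of_mul_eq_mul_left (hd i) h2
  have h1 : ∀ (μ : Fin (n + 1) →₀ ℕ) (c : K),
      aeval (fun i => C (D i) * (X i : MvPolynomial (Fin (n + 1)) K) ^ d i) (monomial μ c) =
        monomial (e μ) (c * ∏ i, D i ^ μ i) := by
    intro μ c
    rw [aeval_monomial, monomial_eq, Finsupp.prod_fintype _ _ (by intro i; simp),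
      Finsupp.prod_fintype _ _ (by intro i; simp)]
    simp only [mul_pow]
    rw [Finset.prod_mul_distrib, map_mul, map_prod, MvPolynomial.algebraMap_eq, mul_assoc]
    simp only [map_pow]
    congr 2
    refine Finset.prod_congr rfl fun i _ => ?_
    rw [← pow_mul]
    rfl
  ext μ
  rw [p.as_sum, map_sum] at hp
  simp only [h1] at hp
  have h2 := congrArg (coeff (e μ)) hp
  rw [coeff_sum, coeff_zero] at h2
  simp only [coeff_monomial] at h2
  by_cases hμ : μ ∈ p.support
  · rw [Finset.sum_eq_single μ] at h2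
    · rw [if_pos rfl] at h2
      have h3 : ∏ i, D i ^ μ i ≠ 0 := Finset.prod_ne_zero_iff.2 fun i _ => pow_ne_zero _ (hD i)
      rw [coeff_zero]
      exact (mul_eq_zero.1 h2).resolve_right h3
    · intro ν _ hν
      rw [if_neg (fun h => hν (heinj h))]
    · intro h
      exact absurd hμ h
  · rw [coeff_zero]
    exact notMem_support_iff.1 hμ

/-- the forms `D i * w i ^ d i * T ^ d i` satisfy no relation -/
theorem algA2_ind {n : ℕ} (D : Fin (n + 1) → K) (hD : ∀ i, D i ≠ 0) (d : Fin (n + 1) → ℕ)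
    (hd : ∀ i, 1 ≤ d i) (w : Fin (n + 1) → L)
    (hind : ∀ (m : ℕ) (p : MvPolynomial (Fin (n + 1)) K), p.IsHomogeneous m → aeval w p = 0 →
      p = 0)
    (p : MvPolynomial (Fin (n + 1)) K)
    (hp : aeval (fun i => Polynomial.C (algebraMap K L (D i) * w i ^ d i) *
      (Polynomial.X : Polynomial L) ^ d i) p = 0) : p = 0 := by
  classical
  apply algA2_pow D hD d hd
  set q := aeval (fun i => C (D i) * (X i : MvPolynomial (Fin (n + 1)) K) ^ d i) p with hq
  have h1 : aeval (fun i => Polynomial.C (w i) * (Polynomial.X : Polynomial L)) q = 0 := by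
    rw [← hp, hq, ← AlgHom.comp_apply, comp_aeval]
    have h2 : (fun i => aeval (fun i => Polynomial.C (w i) * (Polynomial.X : Polynomial L))
        (C (D i) * (X i : MvPolynomial (Fin (n + 1)) K) ^ d i)) =
        fun i => Polynomial.C (algebraMap K L (D i) * w i ^ d i) *
          (Polynomial.X : Polynomial L) ^ d i := by
      funext i
      rw [map_mul, map_pow, aeval_X, algHom_C, mul_pow, map_mul, map_pow, mul_assoc]
      rfl
    rw [h2]
  rw [← sum_homogeneousComponent q]
  refine Finset.sum_eq_zero fun k _ => ?_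
  apply hind k _ (homogeneousComponent_isHomogeneous k q)
  rw [← algA2_coeff, h1, Polynomial.coeff_zero]

end coeff

section cone

variable {K Ω : Type} [Field K] [Field Ω] [Algebra K Ω] {N : ℕ}

/-- the ideal of the polynomials vanishing on the cone -/
def algA2_I (Ω : Type) [Field Ω] [Algebra K Ω] (J₀ : Set (MvPolynomial (Fin (N + 1)) K)) :
    Ideal (MvPolynomial (Fin (N + 1)) K) where
  carrier := {f | ∀ A : Fin (N + 1) → Ω, OnV J₀ A → aeval A f = 0}
  add_mem' := by
    intro f g hf hg A hA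
    rw [map_add, hf A hA, hg A hA, add_zero]
  zero_mem' := by
    intro A _
    rw [map_zero]
  smul_mem' := by
    intro c f hf A hA
    rw [smul_eq_mul, map_mul, hf A hA, mul_zero]

theorem algA2_mem {J₀ : Set (MvPolynomial (Fin (N + 1)) K)} {f : MvPolynomial (Fin (N + 1)) K} :
    f ∈ algA2_I Ω J₀ ↔ ∀ A : Fin (N + 1) → Ω, OnV J₀ A → aeval A f = 0 := Iff.rfl

theorem algA2_smul (A : Fin (N + 1) → Ω) (t : Ω) (f : MvPolynomial (Fin (N + 1)) K) (e : ℕ)
    (hf : f.IsHomogeneous e) : aeval (fun i => A i * t) f = aeval A f * t ^ e := by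
  have h1 := congrArg (Polynomial.eval t) (algA2_hom A f e hf)
  rw [Polynomial.eval_mul, Polynomial.eval_C, Polynomial.eval_pow, Polynomial.eval_X] at h1
  rw [← h1]
  have h2 : ∀ g : MvPolynomial (Fin (N + 1)) K, aeval (fun i => A i * t) g = Polynomial.eval t
      (aeval (fun i => Polynomial.C (A i) * (Polynomial.X : Polynomial Ω)) g) := by
    intro g
    induction g using MvPolynomial.induction_on with
    | C a =>
      rw [algHom_C, algHom_C]
      change _ = Polynomial.eval t (Polynomial.C (algebraMap K Ω a))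
      rw [Polynomial.eval_C]
    | add f g hf hg => rw [map_add, map_add, Polynomial.eval_add, hf, hg]
    | mul_X f j hf =>
      rw [map_mul, map_mul, Polynomial.eval_mul, hf, aeval_X, aeval_X, Polynomial.eval_mul,
        Polynomial.eval_C, Polynomial.eval_X]
  exact h2 f

/-- the ideal is homogeneous -/
theorem algA2_comp [Infinite Ω] {J₀ : Set (MvPolynomial (Fin (N + 1)) K)}
    (hJ₀ : ∀ f ∈ J₀, ∃ e, f.IsHomogeneous e) (f : MvPolynomial (Fin (N + 1)) K)
    (hf : f ∈ algA2_I Ω J₀) (k : ℕ) : homogeneousComponent k f ∈ algA2_I Ω J₀ := by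
  intro A hA
  rw [← algA2_coeff]
  have h1 : aeval (fun i => Polynomial.C (A i) * (Polynomial.X : Polynomial Ω)) f = 0 := by
    apply Polynomial.funext
    intro t
    rw [Polynomial.eval_zero]
    have h2 : ∀ g : MvPolynomial (Fin (N + 1)) K, aeval (fun i => A i * t) g = Polynomial.eval t
        (aeval (fun i => Polynomial.C (A i) * (Polynomial.X : Polynomial Ω)) g) := by
      intro g
      induction g using MvPolynomial.induction_on with
      | C a =>
        rw [algHom_C, algHom_C]
        change _ = Polynomial.eval t (Polynomial.C (algebraMap K Ω a))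
        rw [Polynomial.eval_C]
      | add f g hf hg => rw [map_add, map_add, Polynomial.eval_add, hf, hg]
      | mul_X f j hf =>
        rw [map_mul, map_mul, Polynomial.eval_mul, hf, aeval_X, aeval_X, Polynomial.eval_mul,
          Polynomial.eval_C, Polynomial.eval_X]
    rw [← h2]
    apply hf
    intro g hg
    obtain ⟨e, he⟩ := hJ₀ g hg
    have h3 : aeval A g = 0 := hA g hg
    rw [algA2_smul A t g e he, h3, zero_mul]
  rw [h1, Polynomial.coeff_zero]

variable {L : Type} [Field L] [Algebra K L]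

/-- a polynomial which vanishes at `x T` vanishes on the cone -/
theorem algA2_ker [IsAlgClosed Ω] {n : ℕ} {J₀ : Set (MvPolynomial (Fin (N + 1)) K)}
    {F : Fin (n + 1) → MvPolynomial (Fin (N + 1)) K} {d : Fin (n + 1) → ℕ} {D : Fin (n + 1) → K}
    {x : Fin (N + 1) → L} {w : Fin (n + 1) → L} (h : AD K Ω L J₀ F d D x w)
    (hind : ∀ (m : ℕ) (p : MvPolynomial (Fin (n + 1)) K), p.IsHomogeneous m → aeval w p = 0 → p = 0)
    (hx : ∀ (f : MvPolynomial (Fin (N + 1)) K) (e : ℕ), f.IsHomogeneous e →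
      (∀ A : Fin (N + 1) → Ω, OnV J₀ A → aeval A f = 0) → aeval x f = 0)
    (hirr : ∀ f g : MvPolynomial (Fin (N + 1)) K,
      (∀ A : Fin (N + 1) → Ω, OnV J₀ A → aeval A f * aeval A g = 0) →
      (∀ A : Fin (N + 1) → Ω, OnV J₀ A → aeval A f = 0) ∨
        ∀ A : Fin (N + 1) → Ω, OnV J₀ A → aeval A g = 0)
    (P : Fin (N + 1) → Ω) (hPV : OnV J₀ P) (f : MvPolynomial (Fin (N + 1)) K)
    (hf : aeval (fun i => Polynomial.C (x i) * (Polynomial.X : Polynomial L)) f = 0) :
    f ∈ algA2_I Ω J₀ := by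
  classical
  haveI : Infinite Ω := IsAlgClosed.instInfinite
  set I := algA2_I Ω J₀ with hI
  have hIprime : I.IsPrime := by
    refine ⟨?_, ?_⟩
    · rw [Ideal.ne_top_iff_one]
      intro h1
      have h2 := h1 P hPV
      rw [map_one] at h2
      exact one_ne_zero h2
    · intro f g hfg
      apply hirr f g
      intro A hA
      have h1 := hfg A hA
      rwa [map_mul] at h1
  have hIθ : ∀ g ∈ I, aeval (fun i => Polynomial.C (x i) * (Polynomial.X : Polynomial L)) g =
      0 := by
    intro g hg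
    ext k
    rw [algA2_coeff, Polynomial.coeff_zero]
    exact hx _ k (homogeneousComponent_isHomogeneous k g) (algA2_comp h.hJ₀ g hg k)
  set θ' : (MvPolynomial (Fin (N + 1)) K ⧸ I) →ₐ[K] Polynomial L := Ideal.Quotient.liftₐ I
    (aeval (fun i => Polynomial.C (x i) * (Polynomial.X : Polynomial L))) hIθ with hθ'
  have hθ'1 : ∀ g, θ' (Ideal.Quotient.mk I g) =
      aeval (fun i => Polynomial.C (x i) * (Polynomial.X : Polynomial L)) g := fun g => rfl
  have hfin := int_span_top (Ω := Ω) I (fun f hf n => algA2_comp h.hJ₀ f hf n) F d h.hd h.hF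
    (fun y hy hy' => h.hempty y (fun f hf => hy f (fun A hA => hA f hf)) hy')
  haveI : IsDomain (MvPolynomial (Fin (N + 1)) K ⧸ I) := Ideal.Quotient.isDomain I
  by_contra hfI
  have hne : Ideal.Quotient.mk I f ≠ 0 := fun h0 => hfI (Ideal.Quotient.eq_zero_iff_mem.1 h0)
  have hint : IsIntegral (Algebra.adjoin K (Set.range fun i => Ideal.Quotient.mk I (F i)))
      (Ideal.Quotient.mk I f) := by
    have h1 : Algebra.IsIntegral (Algebra.adjoin K (Set.range fun i => Ideal.Quotient.mk I (F i)))
      (MvPolynomial (Fin (N + 1)) K ⧸ I) := Algebra.IsIntegral.of_finite _ _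
    exact h1.isIntegral _
  have hmem : Ideal.Quotient.mk I f ∈ RingHom.ker (θ' : (MvPolynomial (Fin (N + 1)) K ⧸ I) →+*
      Polynomial L) := by
    rw [RingHom.mem_ker]
    exact (hθ'1 f).trans hf
  have h1 := Ideal.comap_ne_bot_of_integral_mem hne hmem hint
  rw [Submodule.ne_bot_iff] at h1
  obtain ⟨z, hz, hz0⟩ := h1
  obtain ⟨z, hzA⟩ := z
  rw [Algebra.adjoin_range_eq_range_aeval, AlgHom.mem_range] at hzA
  obtain ⟨p, hp⟩ := hzA
  have h2 : θ' z = 0 := hz
  have h3 : aeval (fun i => Polynomial.C (algebraMap K L (D i) * w i ^ d i) *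
      (Polynomial.X : Polynomial L) ^ d i) p = 0 := by
    rw [← hp, ← AlgHom.comp_apply, comp_aeval] at h2
    rw [← h2]
    have h4 : (fun i => Polynomial.C (algebraMap K L (D i) * w i ^ d i) *
        (Polynomial.X : Polynomial L) ^ d i) = fun i => θ' (Ideal.Quotient.mk I (F i)) := by
      funext i
      rw [hθ'1, algA2_hom x (F i) (d i) (h.hF i), h.val i]
    rw [h4]
  have h5 := algA2_ind D h.hD d h.hd w hind p h3
  apply hz0
  apply Subtype.ext
  change z = 0
  rw [← hp, h5, map_zero]

end cone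

section clear

/-- the relation between the values of denominators -/
theorem algA2_sub {B E Ω : Type} [CommRing B] [CommRing E] [Field Ω] (ι : B →+* E)
    (φ : B →+* Ω) (b : B) :
    ∃ S : Subring (E × Ω), ∀ u v, (u, v) ∈ S ↔ ∃ (M : ℕ) (y : B), ι y = ι b ^ M * u ∧
      φ y = φ b ^ M * v := by
  refine ⟨{ carrier := {z | ∃ (M : ℕ) (y : B), ι y = ι b ^ M * z.1 ∧ φ y = φ b ^ M * z.2}
            mul_mem' := ?_
            one_mem' := ?_
            add_mem' := ?_
            zero_mem' := ?_
            neg_mem' := ?_ }, fun u v => Iff.rfl⟩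
  · rintro ⟨u, v⟩ ⟨u', v'⟩ ⟨M, y, h1, h2⟩ ⟨M', y', h1', h2'⟩
    refine ⟨M + M', y * y', ?_, ?_⟩
    · rw [map_mul, h1, h1', pow_add]
      change _ = _ * (u * u')
      ring
    · rw [map_mul, h2, h2', pow_add]
      change _ = _ * (v * v')
      ring
  · refine ⟨0, 1, ?_, ?_⟩
    · change ι 1 = ι b ^ 0 * 1
      rw [map_one, pow_zero, one_mul]
    · change φ 1 = φ b ^ 0 * 1
      rw [map_one, pow_zero, one_mul]
  · rintro ⟨u, v⟩ ⟨u', v'⟩ ⟨M, y, h1, h2⟩ ⟨M', y', h1', h2'⟩
    refine ⟨M + M', b ^ M' * y + b ^ M * y', ?_, ?_⟩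
    · rw [map_add, map_mul, map_mul, map_pow, map_pow, h1, h1', pow_add]
      change _ = _ * (u + u')
      ring
    · rw [map_add, map_mul, map_mul, map_pow, map_pow, h2, h2', pow_add]
      change _ = _ * (v + v')
      ring
  · refine ⟨0, 0, ?_, ?_⟩
    · change ι 0 = ι b ^ 0 * 0
      rw [map_zero, mul_zero]
    · change φ 0 = φ b ^ 0 * 0
      rw [map_zero, mul_zero]
  · rintro ⟨u, v⟩ ⟨M, y, h1, h2⟩
    refine ⟨M, -y, ?_, ?_⟩
    · rw [map_neg, h1]
      change _ = _ * (-u)
      ring
    · rw [map_neg, h2]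
      change _ = _ * (-v)
      ring

/-- a relation is preserved -/
theorem algA2_clear {B E Ω : Type} [CommRing B] [CommRing E] [Field Ω] (ι : B →+* E)
    (hι : Function.Injective ι) (φ : B →+* Ω) (b : B) (hb : φ b ≠ 0) {κ : Type} [CommRing κ]
    {σ : Type} (cE : κ →+* E) (cΩ : κ →+* Ω) (hc : ∀ c, ∃ y : B, ι y = cE c ∧ φ y = cΩ c)
    (zE : σ → E) (zΩ : σ → Ω)
    (hz : ∀ i, ∃ y : B, ι y = ι b * zE i ∧ φ y = φ b * zΩ i)
    (ζE : E) (ζΩ : Ω) (hζ : ∃ y : B, ι y = ι b * ζE ∧ φ y = φ b * ζΩ)
    (Φ : Polynomial (MvPolynomial σ κ))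
    (hΦ : Φ.eval₂ (eval₂Hom cE zE) ζE = 0) : Φ.eval₂ (eval₂Hom cΩ zΩ) ζΩ = 0 := by
  obtain ⟨S, hS⟩ := algA2_sub ι φ b
  have h1 : ∀ g : MvPolynomial σ κ, (eval₂Hom cE zE g, eval₂Hom cΩ zΩ g) ∈ S := by
    intro g
    induction g using MvPolynomial.induction_on with
    | C a =>
      rw [eval₂Hom_C, eval₂Hom_C, hS]
      obtain ⟨y, h1, h2⟩ := hc a
      refine ⟨0, y, ?_, ?_⟩
      · rw [h1, pow_zero, one_mul]
      · rw [h2, pow_zero, one_mul]
    | add f g hf hg =>
      rw [map_add, map_add]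
      exact S.add_mem hf hg
    | mul_X f j hf =>
      rw [map_mul, map_mul, eval₂Hom_X', eval₂Hom_X']
      have h3 : (zE j, zΩ j) ∈ S := by
        rw [hS]
        obtain ⟨y, h1, h2⟩ := hz j
        refine ⟨1, y, ?_, ?_⟩
        · rw [h1, pow_one]
        · rw [h2, pow_one]
      exact S.mul_mem hf h3
  have h2 : ∀ G : Polynomial (MvPolynomial σ κ),
      (G.eval₂ (eval₂Hom cE zE) ζE, G.eval₂ (eval₂Hom cΩ zΩ) ζΩ) ∈ S := by
    intro G
    induction G using Polynomial.induction_on' with
    | add p q hp hq =>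
      rw [Polynomial.eval₂_add, Polynomial.eval₂_add]
      exact S.add_mem hp hq
    | monomial m c =>
      rw [Polynomial.eval₂_monomial, Polynomial.eval₂_monomial]
      have h3 : (ζE, ζΩ) ∈ S := by
        rw [hS]
        obtain ⟨y, h1, h2⟩ := hζ
        refine ⟨1, y, ?_, ?_⟩
        · rw [h1, pow_one]
        · rw [h2, pow_one]
      exact S.mul_mem (h1 c) (S.pow_mem h3 m)
  have h3 := h2 Φ
  rw [hΦ, hS] at h3
  obtain ⟨M, y, h4, h5⟩ := h3
  rw [mul_zero] at h4
  have h6 : y = 0 := hι (by rw [h4, map_zero])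
  rw [h6, map_zero] at h5
  exact (mul_eq_zero.1 h5.symm).resolve_left (pow_ne_zero _ hb)

end clear

theorem algA2 {K Ω L : Type} [Field K] [CharZero K] [Field Ω] [IsAlgClosed Ω] [Algebra K Ω]
    [Field L] [Algebra K L] {N n : ℕ} {J₀ : Set (MvPolynomial (Fin (N + 1)) K)}
    {F : Fin (n + 1) → MvPolynomial (Fin (N + 1)) K} {d : Fin (n + 1) → ℕ} {D : Fin (n + 1) → K}
    {x : Fin (N + 1) → L} {w : Fin (n + 1) → L} (h : AD K Ω L J₀ F d D x w)
    (hind : ∀ (m : ℕ) (p : MvPolynomial (Fin (n + 1)) K), p.IsHomogeneous m → aeval w p = 0 → p = 0)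
    (hx : ∀ (f : MvPolynomial (Fin (N + 1)) K) (e : ℕ), f.IsHomogeneous e →
      (∀ A : Fin (N + 1) → Ω, OnV J₀ A → aeval A f = 0) → aeval x f = 0)
    (hirr : ∀ f g : MvPolynomial (Fin (N + 1)) K,
      (∀ A : Fin (N + 1) → Ω, OnV J₀ A → aeval A f * aeval A g = 0) →
      (∀ A : Fin (N + 1) → Ω, OnV J₀ A → aeval A f = 0) ∨
        ∀ A : Fin (N + 1) → Ω, OnV J₀ A → aeval A g = 0)
    (lam : Fin (N + 1) → K) (a : Fin (n + 1)) (Φ : Polynomial (MvPolynomial (Fin (n + 1)) K))
    (hΦ : ev (zz w a) (lin lam x / w a) Φ = 0)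
    (P : Fin (N + 1) → Ω) (hP : P ≠ 0) (hPV : OnV J₀ P) (hPF : ∀ i, i ≠ a → aeval P (F i) = 0) :
    ∃ ω : Ω, ω ≠ 0 ∧ algebraMap K Ω (D a) * ω ^ d a = aeval P (F a) ∧
      Polynomial.aeval (lin lam P / ω) (res Φ) = 0 := by
  classical
  set θ : MvPolynomial (Fin (N + 1)) K →ₐ[K] Polynomial L :=
    aeval (fun i => Polynomial.C (x i) * (Polynomial.X : Polynomial L)) with hθ
  -- the homomorphism defined by `P` on the range of `θ`
  obtain ⟨ψ, hψ⟩ := algA2_fac (θ.rangeRestrict : MvPolynomial (Fin (N + 1)) K →+* θ.range)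
    θ.rangeRestrict_surjective (aeval P : MvPolynomial (Fin (N + 1)) K →ₐ[K] Ω).toRingHom (by
      intro r hr
      have h1 : θ r = 0 := congrArg Subtype.val hr
      exact algA2_ker h hind hx hirr P hPV r h1 P hPV)
  obtain ⟨φ, hφ⟩ := algA2_ext (R := θ.range) (B := integralClosure θ.range (Polynomial L)) ψ (by
    intro u v huv
    have h1 := congrArg (Subtype.val : integralClosure θ.range (Polynomial L) → Polynomial L) huv
    exact Subtype.ext h1)
  have hφ' : ∀ f : MvPolynomial (Fin (N + 1)) K,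
      φ (algebraMap θ.range (integralClosure θ.range (Polynomial L)) (θ.rangeRestrict f)) =
        aeval P f := by
    intro f
    rw [hφ]
    exact hψ f
  set ι : integralClosure θ.range (Polynomial L) →+* Polynomial L :=
    (integralClosure θ.range (Polynomial L)).val.toRingHom with hι
  have hιinj : Function.Injective ι := Subtype.val_injective
  have hι' : ∀ f : MvPolynomial (Fin (N + 1)) K,
      ι (algebraMap θ.range (integralClosure θ.range (Polynomial L)) (θ.rangeRestrict f)) =
        θ f := fun f => rfl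
  -- the elements `w i * T`
  have hDL : ∀ i, algebraMap K L (D i) ≠ 0 := fun i => by
    rw [map_ne_zero]
    exact h.hD i
  have hDΩ : ∀ i, algebraMap K Ω (D i) ≠ 0 := fun i => by
    rw [map_ne_zero]
    exact h.hD i
  have hpow : ∀ i, (Polynomial.C (w i) * Polynomial.X : Polynomial L) ^ d i =
      θ (C (D i)⁻¹ * F i) := by
    intro i
    rw [map_mul, algHom_C, algA2_hom x (F i) (d i) (h.hF i), h.val i, mul_pow, ← mul_assoc]
    congr 1
    change _ = Polynomial.C (algebraMap K L (D i)⁻¹) * _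
    rw [← map_mul, ← mul_assoc, ← map_mul (algebraMap K L), inv_mul_cancel₀ (h.hD i), map_one,
      one_mul, map_pow]
  have hwI : ∀ i, (Polynomial.C (w i) * Polynomial.X : Polynomial L) ∈
      integralClosure θ.range (Polynomial L) := by
    intro i
    refine IsIntegral.of_pow (n := d i) (h.hd i) ?_
    rw [hpow i]
    exact isIntegral_algebraMap (x := θ.rangeRestrict (C (D i)⁻¹ * F i))
  set W : Fin (n + 1) → integralClosure θ.range (Polynomial L) := fun i => ⟨_, hwI i⟩ with hW
  have hWι : ∀ i, ι (W i) = Polynomial.C (w i) * Polynomial.X := fun i => rfl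
  have hWφ : ∀ i, algebraMap K Ω (D i) * φ (W i) ^ d i = aeval P (F i) := by
    intro i
    have h1 : W i ^ d i = algebraMap θ.range (integralClosure θ.range (Polynomial L))
        (θ.rangeRestrict (C (D i)⁻¹ * F i)) := by
      apply hιinj
      rw [map_pow, hWι, hpow, hι']
    rw [← map_pow, h1, hφ', map_mul, algHom_C, ← mul_assoc, ← map_mul,
      mul_inv_cancel₀ (h.hD i), map_one, one_mul]
  have hW0 : ∀ i, i ≠ a → φ (W i) = 0 := by
    intro i hi
    have h1 := hWφ i
    rw [hPF i hi] at h1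
    exact pow_eq_zero_iff (Nat.one_le_iff_ne_zero.1 (h.hd i)) |>.1
      ((mul_eq_zero.1 h1).resolve_left (hDΩ i))
  have hWa : φ (W a) ≠ 0 := by
    intro h0
    apply hP
    apply h.hempty P hPV
    intro i
    by_cases hi : i = a
    · rw [hi, ← hWφ a, h0, zero_pow (Nat.one_le_iff_ne_zero.1 (h.hd a)), mul_zero]
    · exact hPF i hi
  refine ⟨φ (W a), hWa, hWφ a, ?_⟩
  have hlin : ∀ {E : Type} [Field E] [Algebra K E] (y : Fin (N + 1) → E),
      aeval y (∑ k, C (lam k) * X k : MvPolynomial (Fin (N + 1)) K) = lin lam y := by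
    intro E _ _ y
    rw [map_sum, lin]
    refine Finset.sum_congr rfl fun k _ => ?_
    rw [map_mul, algHom_C, aeval_X]
  have hlinhom : (∑ k, C (lam k) * X k : MvPolynomial (Fin (N + 1)) K).IsHomogeneous 1 := by
    refine IsHomogeneous.sum _ _ _ fun k _ => ?_
    exact (isHomogeneous_C_mul_X (lam k) k)
  have hfin := algA2_clear ι hιinj φ (W a) hWa
    ((Polynomial.C : L →+* Polynomial L).comp (algebraMap K L)) (algebraMap K Ω)
    (fun c => ⟨algebraMap θ.range (integralClosure θ.range (Polynomial L))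
      (θ.rangeRestrict (C c)), by
        rw [hι', algHom_C]
        rfl, by
        rw [hφ', algHom_C]⟩)
    (fun i => Polynomial.C (zz w a i)) (fun _ => (0 : Ω))
    (fun i => by
      by_cases hi : i = a
      · refine ⟨0, ?_, ?_⟩
        · rw [hi, zz, if_pos rfl, map_zero, map_zero, mul_zero]
        · rw [map_zero, mul_zero]
      · refine ⟨W i, ?_, ?_⟩
        · rw [hWι, hWι, zz, if_neg hi, mul_right_comm, ← map_mul, mul_div_cancel₀ _ (h.ne a)]
        · rw [hW0 i hi, mul_zero])
    (Polynomial.C (lin lam x / w a)) (lin lam P / φ (W a))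
    ⟨algebraMap θ.range (integralClosure θ.range (Polynomial L))
      (θ.rangeRestrict (∑ k, C (lam k) * X k)), by
        rw [hι', show θ _ = _ from algA2_hom x _ 1 hlinhom, hlin, hWι, mul_right_comm, ← map_mul,
          mul_div_cancel₀ _ (h.ne a), pow_one], by
        rw [hφ', hlin, mul_div_cancel₀ _ hWa]⟩
    Φ (by
      have h1 := congrArg (Polynomial.C : L →+* Polynomial L) hΦ
      rw [map_zero] at h1
      rw [← h1]
      change _ = (Polynomial.C : L →+* Polynomial L) (Polynomial.eval₂ _ _ _)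
      rw [Polynomial.hom_eval₂]
      congr 1
      apply MvPolynomial.ringHom_ext
      · intro c
        rw [eval₂Hom_C]
        change _ = Polynomial.C (aeval (zz w a) (C c))
        rw [algHom_C]
        rfl
      · intro i
        rw [eval₂Hom_X']
        change _ = Polynomial.C (aeval (zz w a) (X i))
        rw [aeval_X])
  rw [res, Polynomial.aeval_def, Polynomial.eval₂_map]
  rw [← hfin]
  congr 1
  apply MvPolynomial.ringHom_ext
  · intro c
    rw [eval₂Hom_C, RingHom.comp_apply, constantCoeff_C]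
  · intro i
    rw [eval₂Hom_X', RingHom.comp_apply, constantCoeff_X, map_zero]

end Pool.Agent.Helper10.TD
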