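import Pool.Agent.Helper38.TN.Defs

/-!
# Roots of units

The unit group `U` of `Z` is finitely generated: the logarithmic map
`u ↦ (log ‖u‖_s)_s` has finite fibres over bounded sets by `Z.fin` (`u ∈ Z.O` and all `‖u‖_s ≤ B`), so its
image is a discrete subgroup of `Λ → ℝ` and its kernel is finite. So `U / U ^ m` is finite, and by
`LN.partition` (finitely many classes `κ`) a large subset of `E` lies in one class `κ U ^ m`.
Here: every class of `U` modulo `m`-th powers has a representative of bounded size (subtract from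
the logarithm vector, written in units `w i` whose logarithm vectors are a basis, the integral parts
of the coordinates divided by `m`).
-/

set_option autoImplicit false

namespace Pool.Agent.Helper10.TD

open Pool.Agent.Helper10.Sub Pool.Agent.Helper38.TP Pool.Agent.Helper38.TN

section
variable {K : Type} [Field K] {Λ : Type} [Fintype Λ] {L : Λ → Type}
    [∀ s, NontriviallyNormedField (L s)] [∀ s, Algebra K (L s)]

/-- The logarithm vector. -/
private noncomputable def lg (L : Λ → Type) [∀ s, NontriviallyNormedField (L s)]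
    [∀ s, Algebra K (L s)] (u : K) : Λ → ℝ :=
  fun s => Real.log ‖algebraMap K (L s) u‖

private lemma lg_mul {Z : MP K L} {u v : K} (hu : Z.U u) (hv : Z.U v) :
    lg L (u * v) = lg L u + lg L v := by
  funext s
  simp only [lg, Pi.add_apply]
  rw [map_mul, norm_mul, Real.log_mul (hu.pos s).ne' (hv.pos s).ne']

private lemma lg_zpow (u : K) (n : ℤ) : lg L (u ^ n) = (n : ℝ) • lg L u := by
  funext s
  simp only [lg, Pi.smul_apply, smul_eq_mul]
  rw [map_zpow₀, norm_zpow, Real.log_zpow]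

private lemma lg_pow (u : K) (n : ℕ) : lg L (u ^ n) = (n : ℝ) • lg L u := by
  funext s
  simp only [lg, Pi.smul_apply, smul_eq_mul]
  rw [map_pow, norm_pow, Real.log_pow]

private lemma lg_prod {Z : MP K L} {α : Type*} (t : Finset α) {u : α → K}
    (hu : ∀ i ∈ t, Z.U (u i)) : lg L (∏ i ∈ t, u i) = ∑ i ∈ t, lg L (u i) := by
  classical
  induction t using Finset.induction_on with
  | empty =>
    rw [Finset.prod_empty, Finset.sum_empty]
    funext s
    simp [lg]
  | insert a s ha ih =>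
    rw [Finset.prod_insert ha, Finset.sum_insert ha,
      lg_mul (hu a (Finset.mem_insert_self _ _))
        (MP.U.prod s fun i hi => hu i (Finset.mem_insert_of_mem hi)),
      ih fun i hi => hu i (Finset.mem_insert_of_mem hi)]

/-- Every unit is an `m`-th power of a unit up to a unit of bounded size. -/
private lemma bounded_class (Z : MP K L) (m : ℕ) (hm : 1 ≤ m) :
    ∃ R : ℝ, ∀ u : K, Z.U u → ∃ κ s : K, Z.U κ ∧ Z.U s ∧ u = κ * s ^ m ∧
      ∀ t, ‖algebraMap K (L t) κ‖ ≤ R := by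
  classical
  have hm0 : (0 : ℝ) < m := by exact_mod_cast hm
  obtain ⟨b, hbs, hspan, hli⟩ := exists_linearIndependent ℝ {γ : Λ → ℝ | ∃ u, Z.U u ∧ lg L u = γ}
  have hbfin : b.Finite := hli.setFinite
  have : Fintype b := hbfin.fintype
  choose w hw hlw using fun i : b => hbs i.2
  set R0 : ℝ := ∑ i : b, ∑ t : Λ, (m : ℝ) * |(i : Λ → ℝ) t| with hR0
  refine ⟨Real.exp R0, fun u hu => ?_⟩
  have hmem : lg L u ∈ Submodule.span ℝ (Set.range (fun i : b => (i : Λ → ℝ))) := by
    rw [Subtype.range_coe, hspan]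
    exact Submodule.subset_span ⟨u, hu, rfl⟩
  obtain ⟨c, hc⟩ := (Submodule.mem_span_range_iff_exists_fun ℝ).mp hmem
  set s : K := ∏ i : b, w i ^ ⌊c i / m⌋ with hs
  have hsU : Z.U s := MP.U.prod _ fun i _ => U_zpow (hw i) _
  have hκU : Z.U (u / s ^ m) := hu.div (hsU.pow m)
  refine ⟨u / s ^ m, s, hκU, hsU, ?_, fun t => ?_⟩
  · rw [div_mul_cancel₀ _ (pow_ne_zero _ hsU.ne)]
  have hlgs : lg L s = ∑ i : b, (⌊c i / m⌋ : ℝ) • (i : Λ → ℝ) := by
    rw [hs, lg_prod (Z := Z) _ fun i _ => U_zpow (hw i) _]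
    exact Finset.sum_congr rfl fun i _ => by rw [lg_zpow, hlw]
  have hlgu : lg L u = lg L (u / s ^ m) + (m : ℝ) • lg L s := by
    rw [← lg_pow, ← lg_mul hκU (hsU.pow m), div_mul_cancel₀ _ (pow_ne_zero _ hsU.ne)]
  have hlg : lg L (u / s ^ m) = ∑ i : b, (c i - m * ⌊c i / m⌋) • (i : Λ → ℝ) := by
    have h1 : lg L (u / s ^ m) = lg L u - (m : ℝ) • lg L s := by rw [hlgu]; simp
    rw [h1, ← hc, hlgs, Finset.smul_sum, ← Finset.sum_sub_distrib]
    exact Finset.sum_congr rfl fun i _ => by rw [smul_smul, ← sub_smul]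
  have hco : ∀ i : b, |c i - m * ⌊c i / m⌋| ≤ m := by
    intro i
    have h1 := Int.floor_le (c i / m)
    have h2 := Int.lt_floor_add_one (c i / m)
    rw [le_div_iff₀ hm0] at h1
    rw [div_lt_iff₀ hm0] at h2
    rw [abs_le]
    constructor <;> nlinarith
  have hle : Real.log ‖algebraMap K (L t) (u / s ^ m)‖ ≤ R0 := by
    have h1 : Real.log ‖algebraMap K (L t) (u / s ^ m)‖
        = ∑ i : b, (c i - m * ⌊c i / m⌋) * (i : Λ → ℝ) t := by
      have h2 := congrFun hlg t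
      simp only [lg, Finset.sum_apply, Pi.smul_apply, smul_eq_mul] at h2
      exact h2
    rw [h1, hR0]
    refine Finset.sum_le_sum fun i _ => ?_
    calc (c i - m * ⌊c i / m⌋) * (i : Λ → ℝ) t
        ≤ |(c i - m * ⌊c i / m⌋) * (i : Λ → ℝ) t| := le_abs_self _
      _ = |c i - m * ⌊c i / m⌋| * |(i : Λ → ℝ) t| := abs_mul _ _
      _ ≤ m * |(i : Λ → ℝ) t| := mul_le_mul_of_nonneg_right (hco i) (abs_nonneg _)
      _ ≤ ∑ t : Λ, (m : ℝ) * |(i : Λ → ℝ) t| :=
          Finset.single_le_sum (f := fun t : Λ => (m : ℝ) * |(i : Λ → ℝ) t|)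
            (fun t _ => by positivity) (Finset.mem_univ t)
  calc ‖algebraMap K (L t) (u / s ^ m)‖
      = Real.exp (Real.log ‖algebraMap K (L t) (u / s ^ m)‖) := (Real.exp_log (hκU.pos t)).symm
    _ ≤ Real.exp R0 := Real.exp_le_exp.mpr hle

end

theorem unit_root {K : Type} [Field K] {Λ : Type} [Fintype Λ] {L : Λ → Type}
    [∀ s, NontriviallyNormedField (L s)] [∀ s, Algebra K (L s)] (Z : MP K L)
    {β : Type} (𝔅 : LN β) (u : β → K) (E : Set β) (hE : 𝔅.Big E) (hu : ∀ x ∈ E, Z.U (u x))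
    (m : ℕ) (hm : 1 ≤ m) :
    ∃ E' ⊆ E, 𝔅.Big E' ∧ ∃ (κ : K) (s : β → K), Z.U κ ∧ (∀ x ∈ E', Z.U (s x)) ∧
      ∀ x ∈ E', u x = κ * s x ^ m := by
  classical
  obtain ⟨R, hR⟩ := bounded_class Z m hm
  obtain ⟨κ, -, hκ⟩ := 𝔅.partition (Z.fin R).toFinset hE
    (fun κ x => Z.U κ ∧ ∃ s : K, Z.U s ∧ u x = κ * s ^ m) (by
      intro x hx
      obtain ⟨κ, s, hκ, hs, h1, h2⟩ := hR (u x) (hu x hx)
      exact ⟨κ, (Z.fin R).mem_toFinset.mpr ⟨hκ.mem, h2⟩, hκ, s, hs, h1⟩)
  refine ⟨{x | x ∈ E ∧ Z.U κ ∧ ∃ s : K, Z.U s ∧ u x = κ * s ^ m}, fun x hx => hx.1, hκ, κ,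
    fun x => if h : ∃ s : K, Z.U s ∧ u x = κ * s ^ m then h.choose else 1, ?_, ?_, ?_⟩
  · obtain ⟨x, hx⟩ := 𝔅.nonempty hκ
    exact hx.2.1
  · rintro x ⟨-, -, hx⟩
    simp only [dif_pos hx]
    exact hx.choose_spec.1
  · rintro x ⟨-, -, hx⟩
    simp only [dif_pos hx]
    exact hx.choose_spec.2

end Pool.Agent.Helper10.TD
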