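import Pool.Agent.Helper10.TD.AD

/-!
# Integrality of the coordinates

Proof: as in `Helper38/TN/IntN.lean` (`int_eqN`): with `I = Ideal.span J₀` the ring
`MvPolynomial (Fin (N + 1)) K ⧸ I` is finite over `Algebra.adjoin K (Set.range fun i => mk I (F i))`
(`int_span_top`), so `mk I (X k)` satisfies a monic equation; apply the ring homomorphism
`Ideal.Quotient.lift I (aeval y)` to `L`, which maps the subalgebra into `A`.
-/

set_option autoImplicit false

namespace Pool.Agent.Helper10.TD

open Pool.Agent.Helper10.Sub MvPolynomial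

/-- For every point `y` over `L` of the cone over `X` the coordinates are integral over every
subalgebra `A` of `L` which contains the values of the `F i`. -/
theorem int_L {K Ω L : Type} [Field K] [Field Ω] [IsAlgClosed Ω] [Algebra K Ω] [Field L]
    [Algebra K L] {N n : ℕ}
    (J₀ : Set (MvPolynomial (Fin (N + 1)) K)) (hJ₀ : ∀ f ∈ J₀, ∃ e, f.IsHomogeneous e)
    (F : Fin (n + 1) → MvPolynomial (Fin (N + 1)) K) (d : Fin (n + 1) → ℕ) (hd : ∀ i, 1 ≤ d i)
    (hF : ∀ i, (F i).IsHomogeneous (d i))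
    (hempty : ∀ A : Fin (N + 1) → Ω, OnV J₀ A → (∀ i, aeval A (F i) = 0) → A = 0)
    (y : Fin (N + 1) → L) (hy : ∀ f ∈ J₀, aeval y f = 0) (A : Subalgebra K L)
    (hA : ∀ i, aeval y (F i) ∈ A) (k : Fin (N + 1)) : IsIntegral A (y k) := by
  classical
  set I : Ideal (MvPolynomial (Fin (N + 1)) K) := Ideal.span J₀ with hIdef
  have hfin := Helper38.TP.int_span_top (Ω := Ω) I
    (fun f hf n => Helper38.TP.int_span_hom J₀ hJ₀ f hf n) F d hd hF
    (fun x hx hx' => hempty x (fun f hf => hx f (Ideal.subset_span hf)) hx')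
  have hint : IsIntegral (Algebra.adjoin K (Set.range fun i => Ideal.Quotient.mk I (F i)))
      (Ideal.Quotient.mk I (X k)) := by
    have h1 : Algebra.IsIntegral (Algebra.adjoin K (Set.range fun i => Ideal.Quotient.mk I (F i)))
      (MvPolynomial (Fin (N + 1)) K ⧸ I) := Algebra.IsIntegral.of_finite _ _
    exact h1.isIntegral _
  have hI0 : ∀ f ∈ I, (aeval y : MvPolynomial (Fin (N + 1)) K →ₐ[K] L) f = 0 := by
    intro f hf
    have h1 : I ≤ RingHom.ker (aeval y : MvPolynomial (Fin (N + 1)) K →ₐ[K] L) := by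
      rw [hIdef, Ideal.span_le]
      intro g hg
      exact hy g hg
    exact h1 hf
  set ev : MvPolynomial (Fin (N + 1)) K ⧸ I →ₐ[K] L := Ideal.Quotient.liftₐ I (aeval y) hI0 with hev
  have hev1 : ∀ f, ev (Ideal.Quotient.mk I f) = aeval y f := fun f => Ideal.Quotient.lift_mk _ _ _
  have hle : ∀ z ∈ Algebra.adjoin K (Set.range fun i => Ideal.Quotient.mk I (F i)), ev z ∈ A := by
    intro z hz
    have h1 : Algebra.adjoin K (Set.range fun i => Ideal.Quotient.mk I (F i)) ≤ A.comap ev := by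
      rw [Algebra.adjoin_le_iff]
      rintro _ ⟨i, rfl⟩
      show ev (Ideal.Quotient.mk I (F i)) ∈ A
      rw [hev1]
      exact hA i
    exact h1 hz
  let φ : Algebra.adjoin K (Set.range fun i => Ideal.Quotient.mk I (F i)) →+* A :=
    ((ev : MvPolynomial (Fin (N + 1)) K ⧸ I →+* L).comp
      (algebraMap (Algebra.adjoin K (Set.range fun i => Ideal.Quotient.mk I (F i)))
        (MvPolynomial (Fin (N + 1)) K ⧸ I))).codRestrict A fun z => hle z.1 z.2
  have h2 := hint.map_of_comp_eq φ (ev : MvPolynomial (Fin (N + 1)) K ⧸ I →+* L) (by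
    ext z
    rfl)
  have h3 : (ev : MvPolynomial (Fin (N + 1)) K ⧸ I →+* L) (Ideal.Quotient.mk I (X k)) = y k := by
    show ev (Ideal.Quotient.mk I (X k)) = y k
    rw [hev1, aeval_X]
  rwa [h3] at h2

end Pool.Agent.Helper10.TD
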