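import Pool.Agent.Helper10.TD.Defs
import Pool.Agent.Helper38.TN.Defs

/-!
# Ultrafilters of large sets and the field of germs
-/

set_option autoImplicit false

namespace Pool.Agent.Helper10.TD

open Pool.Agent.Helper10.Sub MvPolynomial Filter

theorem exists_ultra {β : Type} (𝔅 : LN β) (E : Set β) (hE : 𝔅.Big E) :
    ∃ 𝒰 : Ultrafilter β, E ∈ 𝒰 ∧ ∀ A ∈ 𝒰, 𝔅.Big A := by
  classical
  let ℱ : Filter β :=
    { sets := {A | ¬ 𝔅.Big (E \ A)}
      univ_sets := by
        show ¬ 𝔅.Big (E \ Set.univ)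
        rw [Set.diff_univ]
        intro h
        exact Set.not_nonempty_empty (𝔅.nonempty h)
      sets_of_superset := by
        intro A B hA hAB h
        exact hA (𝔅.mono (Set.diff_subset_diff_right hAB) h)
      inter_sets := by
        intro A B hA hB h
        change 𝔅.Big (E \ (A ∩ B)) at h
        rw [Set.diff_inter] at h
        rcases 𝔅.union h with h1 | h1
        · exact hA h1
        · exact hB h1 }
  have hne : ℱ.NeBot := by
    rw [Filter.neBot_iff]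
    intro h
    have h1 : (∅ : Set β) ∈ ℱ := by rw [h]; exact Filter.mem_bot
    have h2 : ¬ 𝔅.Big (E \ ∅) := h1
    rw [Set.diff_empty] at h2
    exact h2 hE
  refine ⟨Ultrafilter.of ℱ, ?_, fun A hA => ?_⟩
  · apply Ultrafilter.of_le ℱ
    show ¬ 𝔅.Big (E \ E)
    rw [Set.diff_self]
    intro h
    exact Set.not_nonempty_empty (𝔅.nonempty h)
  · by_contra hcon
    have h1 : Aᶜ ∈ Ultrafilter.of ℱ := by
      apply Ultrafilter.of_le ℱ
      show ¬ 𝔅.Big (E \ Aᶜ)
      intro h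
      exact hcon (𝔅.mono (fun x hx => not_not.1 hx.2) h)
    exact (Ultrafilter.compl_notMem_iff.2 hA) h1

/-- The largeness notion of an ultrafilter. -/
def ultLN {β : Type} (𝒰 : Ultrafilter β) (h : ∀ A ∈ 𝒰, A.Infinite) : LN β where
  Big A := A ∈ 𝒰
  mono := fun hAB hA => Filter.mem_of_superset hA hAB
  union := fun h => Ultrafilter.union_mem_iff.1 h
  inf := fun hA => h _ hA

section germ
variable {β : Type} (𝒰 : Ultrafilter β) (K : Type) [Field K]

/-- The ultrapower of `K`. -/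
abbrev GK : Type := (𝒰 : Filter β).Germ K

variable {𝒰 K}

/-- The class of a function. -/
def gm (𝒰 : Ultrafilter β) (f : β → K) : GK 𝒰 K := (f : (𝒰 : Filter β).Germ K)

lemma gm_eq {f g : β → K} : gm 𝒰 f = gm 𝒰 g ↔ {x | f x = g x} ∈ 𝒰 := Germ.coe_eq

/-- The map to the ultrapower. -/
def gmH (𝒰 : Ultrafilter β) (K : Type) [Field K] : (β → K) →+* GK 𝒰 K := Germ.coeRingHom _

lemma gmH_apply (f : β → K) : gmH 𝒰 K f = gm 𝒰 f := rfl

noncomputable instance : Algebra K (GK 𝒰 K) := ((gmH 𝒰 K).comp (Pi.constRingHom β K)).toAlgebra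

lemma gm_const (a : K) : algebraMap K (GK 𝒰 K) a = gm 𝒰 fun _ => a := rfl

lemma gm_zero : gm 𝒰 (fun _ => (0 : K)) = 0 := rfl
lemma gm_one : gm 𝒰 (fun _ => (1 : K)) = 1 := rfl
lemma gm_mul (f g : β → K) : gm 𝒰 (fun x => f x * g x) = gm 𝒰 f * gm 𝒰 g := rfl
lemma gm_add (f g : β → K) : gm 𝒰 (fun x => f x + g x) = gm 𝒰 f + gm 𝒰 g := rfl
lemma gm_pow (f : β → K) (n : ℕ) : gm 𝒰 (fun x => f x ^ n) = gm 𝒰 f ^ n := rfl
lemma gm_sum {ι : Type} (s : Finset ι) (f : ι → β → K) :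
    gm 𝒰 (fun x => ∑ i ∈ s, f i x) = ∑ i ∈ s, gm 𝒰 (f i) := by
  rw [← gmH_apply, ← Finset.sum_fn, map_sum]
  rfl
lemma gm_prod {ι : Type} (s : Finset ι) (f : ι → β → K) :
    gm 𝒰 (fun x => ∏ i ∈ s, f i x) = ∏ i ∈ s, gm 𝒰 (f i) := by
  rw [← gmH_apply, ← Finset.prod_fn, map_prod]
  rfl
lemma gm_inv (f : β → K) : gm 𝒰 (fun x => (f x)⁻¹) = (gm 𝒰 f)⁻¹ := rfl
lemma gm_div (f g : β → K) : gm 𝒰 (fun x => f x / g x) = gm 𝒰 f / gm 𝒰 g := rfl
lemma gm_zpow (f : β → K) (n : ℤ) : gm 𝒰 (fun x => f x ^ n) = gm 𝒰 f ^ n := by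
  rcases n with n | n
  · simp only [Int.ofNat_eq_natCast, zpow_natCast]
    rfl
  · simp only [zpow_negSucc]
    rfl

lemma gm_eq_zero {f : β → K} : gm 𝒰 f = 0 ↔ {x | f x = 0} ∈ 𝒰 := gm_eq (g := fun _ => 0)

/-- Polynomials are evaluated point by point. -/
lemma gm_aeval {σ : Type} (x : β → σ → K) (p : MvPolynomial σ K) :
    aeval (fun i => gm 𝒰 fun b => x b i) p = gm 𝒰 fun b => eval (x b) p := by
  induction p using MvPolynomial.induction_on with
  | C a =>
    rw [algHom_C, gm_const]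
    congr 1
    funext b
    rw [eval_C]
  | add p q hp hq =>
    rw [map_add, hp, hq, ← gm_add]
    congr 1
    funext b
    rw [map_add]
  | mul_X p i hp =>
    rw [map_mul, hp, aeval_X, ← gm_mul]
    congr 1
    funext b
    rw [map_mul, eval_X]

end germ

end Pool.Agent.Helper10.TD
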