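import Pool.Agent.Helper10.TD.DegB
import Pool.Agent.Helper10.TD.Ult
import Pool.Agent.Helper10.TD.IntL

/-!
# One unit: transcendence, evaluation and integrality in the ultrapower
-/

set_option autoImplicit false

namespace Pool.Agent.Helper10.TD

open Pool.Agent.Helper10.Sub MvPolynomial Filter

/-- Polynomials in one variable are evaluated point by point. -/
lemma gm_eval₂ {β : Type} (𝒰 : Ultrafilter β) {K : Type} [Field K] (s : β → K)
    (p : Polynomial K) : p.eval₂ (algebraMap K (GK 𝒰 K)) (gm 𝒰 s) =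
      gm 𝒰 fun x => p.eval₂ (algebraMap K K) (s x) := by
  induction p using Polynomial.induction_on' with
  | add p q hp hq =>
    rw [Polynomial.eval₂_add, hp, hq, ← gm_add]
    congr 1
    funext b
    rw [Polynomial.eval₂_add]
  | monomial n a =>
    rw [Polynomial.eval₂_monomial, gm_const, ← gm_pow, ← gm_mul]
    congr 1
    funext b
    rw [Polynomial.eval₂_monomial]
    rfl

/-- Homogeneous polynomials at multiples. -/
lemma aeval_hom_mul {K L σ : Type} [Field K] [Field L] [Algebra K L] [Fintype σ]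
    {f : MvPolynomial σ K} {e : ℕ} (hf : f.IsHomogeneous e) (ν : L) (y : σ → L) :
    aeval (fun k => ν * y k) f = ν ^ e * aeval y f := by
  rw [aeval_def, aeval_def, eval₂_eq', eval₂_eq', Finset.mul_sum]
  refine Finset.sum_congr rfl fun s hs => ?_
  have h1 : e = ∑ i, s i := by
    rw [hf.degree_eq_sum_deg_support hs, Finset.sum_subset (Finset.subset_univ _)]
    intro i _ hi
    simpa using hi
  have h2 : ∏ i, (ν * y i) ^ s i = ν ^ e * ∏ i, y i ^ s i := by
    rw [h1, ← Finset.prod_pow_eq_pow_sum, ← Finset.prod_mul_distrib]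
    exact Finset.prod_congr rfl fun i _ => by rw [mul_pow]
  rw [h2]
  ring

/-- Integrality over a subalgebra which contains the needed powers of `s`. -/
lemma int_gen {K Ω L : Type} [Field K] [Field Ω] [IsAlgClosed Ω] [Algebra K Ω] [Field L]
    [Algebra K L] {N n : ℕ} {J₀ : Set (MvPolynomial (Fin (N + 1)) K)}
    {F : Fin (n + 1) → MvPolynomial (Fin (N + 1)) K} {d : Fin (n + 1) → ℕ} {D : Fin (n + 1) → K}
    {x : Fin (N + 1) → L} {w : Fin (n + 1) → L} (h : AD K Ω L J₀ F d D x w)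
    (κ : Fin (n + 1) → K) (s : L) (hs : s ≠ 0) (c : Fin (n + 1) → ℤ)
    (hw : ∀ i, w i = algebraMap K L (κ i) * (w 0 * s ^ c i)) (e : ℤ) (A : Subalgebra K L)
    (hA : ∀ i, s ^ ((c i - e) * (d i : ℤ)) ∈ A) (k : Fin (N + 1)) :
    IsIntegral A (x k / w 0 * s ^ (-e)) := by
  have h0 := h.ne 0
  have hy : (fun k => x k / w 0 * s ^ (-e)) = fun k => ((w 0)⁻¹ * s ^ (-e)) * x k := by
    funext k
    rw [div_eq_mul_inv]
    ring
  refine int_L (Ω := Ω) J₀ h.hJ₀ F d h.hd h.hF h.hempty (fun k => x k / w 0 * s ^ (-e)) ?_ A ?_ k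
  · intro f hf
    obtain ⟨e', he'⟩ := h.hJ₀ f hf
    rw [hy, aeval_hom_mul he', h.onV f hf, mul_zero]
  · intro i
    rw [hy, aeval_hom_mul (h.hF i), h.val i]
    have h1 : ((w 0)⁻¹ * s ^ (-e)) ^ d i * (algebraMap K L (D i) * w i ^ d i) =
        algebraMap K L (D i * κ i ^ d i) * s ^ ((c i - e) * (d i : ℤ)) := by
      rw [hw i, zpow_mul, zpow_sub₀ hs, zpow_natCast, map_mul, map_pow, zpow_neg, mul_pow,
        mul_pow, mul_pow, div_pow, inv_pow, inv_pow]
      have h2 : w 0 ^ d i ≠ 0 := pow_ne_zero _ h0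
      have h3 : (s ^ e) ^ d i ≠ 0 := pow_ne_zero _ (zpow_ne_zero _ hs)
      field_simp
    rw [h1]
    exact A.mul_mem (A.algebraMap_mem _) (hA i)

/-- A non-constant function is transcendental in the ultrapower: a non-zero polynomial has finitely
many roots, so one of the sets `{x | s x = κ}` is in `𝒰` (`Ultrafilter.finite_biUnion_mem_iff`). -/
theorem tr_gm {β : Type} (𝒰 : Ultrafilter β) {K : Type} [Field K] (s : β → K)
    (hs : ∀ κ : K, {x | s x = κ} ∉ 𝒰) : Tr K (gm 𝒰 s) := by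
  classical
  intro p hp
  rw [gm_eval₂, gm_eq_zero] at hp
  by_contra hne
  have hsub : {x | p.eval₂ (algebraMap K K) (s x) = 0} ⊆
      ⋃ κ ∈ (p.roots.toFinset : Set K), {x | s x = κ} := by
    intro x hx
    rw [Set.mem_iUnion₂]
    refine ⟨s x, ?_, rfl⟩
    rw [Finset.mem_coe, Multiset.mem_toFinset, Polynomial.mem_roots hne]
    exact hx
  have h1 := Filter.mem_of_superset hp hsub
  have h2 := (Ultrafilter.finite_biUnion_mem_iff (f := 𝒰)
    (s := fun κ => {x | s x = κ}) (Finset.finite_toSet p.roots.toFinset)).1 h1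
  obtain ⟨κ, -, hκ⟩ := h2
  exact hs κ hκ

/-- Evaluation point by point. -/
theorem gm_ev2 {β : Type} (𝒰 : Ultrafilter β) {K : Type} [Field K] (s y : β → K)
    (P : Polynomial (Polynomial K)) :
    ev2 K (gm 𝒰 s) (gm 𝒰 y) P = gm 𝒰 fun x => ev2 K (s x) (y x) P := by
  have h : ev2 K (gm 𝒰 s) (gm 𝒰 y) =
      (gmH 𝒰 K).comp (RingHom.pi fun x => ev2 K (s x) (y x)) := by
    apply Polynomial.ringHom_ext
    · intro a
      rw [ev2_C, gm_eval₂, RingHom.comp_apply, gmH_apply]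
      congr 1
      funext x
      rw [RingHom.pi_apply, ev2_C]
    · rw [ev2_X, RingHom.comp_apply, gmH_apply]
      congr 1
      funext x
      rw [RingHom.pi_apply, ev2_X]
  rw [h, RingHom.comp_apply, gmH_apply]
  rfl

/-- The point `x / (w 0 s ^ e)` has `F i`-values `D i κ i ^ d i s ^ ((c i - e) d i)` in `K[s⁻¹]`;
apply `int_L` with `A = Algebra.adjoin K {s⁻¹}`. -/
theorem int_up {K Ω L : Type} [Field K] [Field Ω] [IsAlgClosed Ω] [Algebra K Ω] [Field L]
    [Algebra K L] {N n : ℕ} {J₀ : Set (MvPolynomial (Fin (N + 1)) K)}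
    {F : Fin (n + 1) → MvPolynomial (Fin (N + 1)) K} {d : Fin (n + 1) → ℕ} {D : Fin (n + 1) → K}
    {x : Fin (N + 1) → L} {w : Fin (n + 1) → L} (h : AD K Ω L J₀ F d D x w)
    (κ : Fin (n + 1) → K) (s : L) (hs : s ≠ 0) (c : Fin (n + 1) → ℤ)
    (hw : ∀ i, w i = algebraMap K L (κ i) * (w 0 * s ^ c i)) (e : ℤ) (he : ∀ i, c i ≤ e)
    (k : Fin (N + 1)) :
    IsIntegral (Algebra.adjoin K {s⁻¹}) (x k / w 0 * s ^ (-e)) := by
  refine int_gen h κ s hs c hw e _ ?_ k
  intro i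
  have h1 : (c i - e) * (d i : ℤ) ≤ 0 :=
    mul_nonpos_of_nonpos_of_nonneg (by linarith [he i]) (Int.natCast_nonneg _)
  have h2 : s ^ ((c i - e) * (d i : ℤ)) = s⁻¹ ^ (-((c i - e) * (d i : ℤ))).toNat := by
    rw [← zpow_natCast, Int.toNat_of_nonneg (by linarith), inv_zpow, zpow_neg, inv_inv]
  rw [h2]
  exact Subalgebra.pow_mem _ (Algebra.subset_adjoin (Set.mem_singleton _)) _

theorem int_dn {K Ω L : Type} [Field K] [Field Ω] [IsAlgClosed Ω] [Algebra K Ω] [Field L]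
    [Algebra K L] {N n : ℕ} {J₀ : Set (MvPolynomial (Fin (N + 1)) K)}
    {F : Fin (n + 1) → MvPolynomial (Fin (N + 1)) K} {d : Fin (n + 1) → ℕ} {D : Fin (n + 1) → K}
    {x : Fin (N + 1) → L} {w : Fin (n + 1) → L} (h : AD K Ω L J₀ F d D x w)
    (κ : Fin (n + 1) → K) (s : L) (hs : s ≠ 0) (c : Fin (n + 1) → ℤ)
    (hw : ∀ i, w i = algebraMap K L (κ i) * (w 0 * s ^ c i)) (e : ℤ) (he : ∀ i, e ≤ c i)
    (k : Fin (N + 1)) :
    IsIntegral (Algebra.adjoin K {s}) (x k / w 0 * s ^ (-e)) := by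
  refine int_gen h κ s hs c hw e _ ?_ k
  intro i
  have h1 : 0 ≤ (c i - e) * (d i : ℤ) :=
    mul_nonneg (by linarith [he i]) (Int.natCast_nonneg _)
  have h2 : s ^ ((c i - e) * (d i : ℤ)) = s ^ ((c i - e) * (d i : ℤ)).toNat := by
    rw [← zpow_natCast, Int.toNat_of_nonneg h1]
  rw [h2]
  exact Subalgebra.pow_mem _ (Algebra.subset_adjoin (Set.mem_singleton _)) _

end Pool.Agent.Helper10.TD
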