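import Pool.Agent.Helper10.TD.EngB
import Pool.Agent.Helper10.TD.TrB
import Pool.Agent.Helper10.TD.Root

/-!
# One unit: the coordinates are rational functions of a root of the unit
-/

set_option autoImplicit false
set_option linter.unusedSectionVars false

namespace Pool.Agent.Helper10.TD

open Pool.Agent.Helper10.Sub Pool.Agent.Helper38.TP Pool.Agent.Helper38.TN MvPolynomial

section deg
variable {K L : Type} [Field K] [Field L] [Algebra K L]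

lemma relP_const {s y : L} {a : K} (ha : a ≠ 0) {δ : ℕ} (h : RelP K s y δ) :
    RelP K s (algebraMap K L a * y) δ := by
  obtain ⟨P, h1, h2, h3⟩ := h
  refine ⟨P.scaleRoots (Polynomial.C a), Polynomial.scaleRoots_ne_zero h1 _, ?_, ?_⟩
  · rw [Polynomial.natDegree_scaleRoots]
    exact h2
  · have h4 : Polynomial.eval₂ (Polynomial.eval₂RingHom (algebraMap K L) s) y P = 0 := h3
    have h5 := Polynomial.scaleRoots_eval₂_eq_zero
      (Polynomial.eval₂RingHom (algebraMap K L) s) (s := Polynomial.C a) h4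
    rw [Polynomial.coe_eval₂RingHom, Polynomial.eval₂_C] at h5
    exact h5

/-- The degree. -/
noncomputable def dgP (K : Type) {L : Type} [Field K] [Field L] [Algebra K L] (s y : L) : ℕ :=
  sInf {δ | RelP K s y δ}

lemma dgP_spec {s y : L} (h : ∃ δ, RelP K s y δ) : RelP K s y (dgP K s y) := Nat.sInf_mem h

lemma dgP_le {s y : L} {δ : ℕ} (h : RelP K s y δ) : dgP K s y ≤ δ := Nat.sInf_le h

end deg

variable {K : Type} [Field K] [CharZero K] {Λ : Type} [Fintype Λ] [DecidableEq Λ] {L : Λ → Type}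
  [∀ s, NontriviallyNormedField (L s)] [∀ s, ProperSpace (L s)] [∀ s, Algebra K (L s)] {N n : ℕ}
  {Ω : Type} [Field Ω] [IsAlgClosed Ω] [Algebra K Ω]
  {Z : MP K L} {𝒰 : Ultrafilter (Fin (N + 1) → K)} {h𝒰 : ∀ A ∈ 𝒰, A.Infinite}
  {J₀ : Set (MvPolynomial (Fin (N + 1)) K)}
  {F : Fin (n + 1) → MvPolynomial (Fin (N + 1)) K} {d : Fin (n + 1) → ℕ} {Dc : Fin (n + 1) → K}
  {w : (Fin (N + 1) → K) → Fin (n + 1) → K} {C₁ ε C₂ : ℝ} {E : Set (Fin (N + 1) → K)}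

/-- The point over the ultrapower. -/
lemma PtsD.adU (h : PtsD Ω Z (ultLN 𝒰 h𝒰) J₀ F d Dc w C₁ ε C₂ E) :
    AD K Ω (GK 𝒰 K) J₀ F d Dc (fun k => gm 𝒰 fun x => x k) (fun i => gm 𝒰 fun x => w x i) where
  hJ₀ := h.hJ₀
  hd := h.hd
  hF := h.hF
  hD := h.hD
  hempty := h.hempty
  onV := fun f hf => by
    have hE : E ∈ 𝒰 := h.big
    rw [gm_aeval (𝒰 := 𝒰) (fun x k => x k) f, gm_eq_zero]
    exact Filter.mem_of_superset hE fun x hx => h.onV x hx f hf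
  val := fun i => by
    have hE : E ∈ 𝒰 := h.big
    rw [gm_aeval (𝒰 := 𝒰) (fun x k => x k) (F i), gm_const, ← gm_pow, ← gm_mul, gm_eq]
    exact Filter.mem_of_superset hE fun x hx => h.ev x hx i
  ne := fun i h0 => by
    have hE : E ∈ 𝒰 := h.big
    have h1 : {x | w x i = 0} ∈ 𝒰 := gm_eq_zero.1 h0
    obtain ⟨x, hx⟩ := 𝒰.nonempty_of_mem (Filter.inter_mem h1 hE)
    exact (h.unit x hx.2 i).ne hx.1

/-- `s` is a root of `τ`, up to a constant. -/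
def Adm (Z : MP K L) (𝒰 : Ultrafilter (Fin (N + 1) → K)) (E : Set (Fin (N + 1) → K))
    (τ s : (Fin (N + 1) → K) → K) : Prop :=
  ∃ (m : ℕ) (κ' : K) (E' : Set (Fin (N + 1) → K)), 1 ≤ m ∧ κ' ≠ 0 ∧ E' ⊆ E ∧ E' ∈ 𝒰 ∧
    ∀ x ∈ E', Z.U (s x) ∧ τ x = κ' * s x ^ m

lemma Adm.ne {τ s : (Fin (N + 1) → K) → K} (h : Adm Z 𝒰 E τ s)
    (hτ : ∀ κ', {x | τ x = κ'} ∉ 𝒰) (κ : K) : {x | s x = κ} ∉ 𝒰 := by
  obtain ⟨m, κ', E', -, -, -, hE', hs⟩ := h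
  intro h1
  apply hτ (κ' * κ ^ m)
  refine Filter.mem_of_superset (Filter.inter_mem h1 hE') fun x hx => ?_
  have h2 : s x = κ := hx.1
  change τ x = _
  rw [(hs x hx.2).2, h2]

lemma Adm.ne' {τ s : (Fin (N + 1) → K) → K} (h : Adm Z 𝒰 E τ s)
    (hτ : ∀ κ', {x | τ x = κ'} ∉ 𝒰) (κ : K) : {x | (s x)⁻¹ = κ} ∉ 𝒰 := by
  intro h1
  apply h.ne hτ κ⁻¹
  refine Filter.mem_of_superset h1 fun x hx => ?_
  have h2 : (s x)⁻¹ = κ := hx
  change s x = κ⁻¹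
  rw [← h2, inv_inv]

/-- The units in terms of the root. -/
lemma rel_root {τ s w₀ wi κ κ' : K} {p : ℤ} {m : ℕ}
    (h1 : wi = κ * (w₀ * τ ^ p)) (h2 : τ = κ' * s ^ m) :
    wi = (κ * κ' ^ p) * (w₀ * s ^ (p * m)) := by
  rw [h1, h2, mul_zpow, ← zpow_natCast, ← zpow_mul, mul_comm (m : ℤ) p]
  ring

/-- The relation in the ultrapower. -/
lemma gm_rel {s : (Fin (N + 1) → K) → K} {κ : Fin (n + 1) → K} {c : Fin (n + 1) → ℤ}
    {E' : Set (Fin (N + 1) → K)} (hE' : E' ∈ 𝒰)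
    (h : ∀ x ∈ E', ∀ i, w x i = κ i * (w x 0 * s x ^ c i)) (i : Fin (n + 1)) :
    gm 𝒰 (fun x => w x i) = algebraMap K (GK 𝒰 K) (κ i) *
      (gm 𝒰 (fun x => w x 0) * gm 𝒰 s ^ c i) := by
  rw [gm_const, ← gm_zpow, ← gm_mul, ← gm_mul, gm_eq]
  exact Filter.mem_of_superset hE' fun x hx => h x hx i

theorem caseB (h : PtsD Ω Z (ultLN 𝒰 h𝒰) J₀ F d Dc w C₁ ε C₂ E)
    (τ : (Fin (N + 1) → K) → K) (κ : Fin (n + 1) → K) (p : Fin (n + 1) → ℤ)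
    (hτU : ∀ x ∈ E, Z.U (τ x)) (hκ : ∀ i, κ i ≠ 0)
    (hrel : ∀ x ∈ E, ∀ i, w x i = κ i * (w x 0 * τ x ^ p i)) (hp0 : p 0 = 0)
    (hp : ∃ i, p i ≠ 0) (hτ : ∀ κ', {x | τ x = κ'} ∉ 𝒰) :
    ∃ (m : ℕ) (κ' : K) (s : (Fin (N + 1) → K) → K) (E' : Set (Fin (N + 1) → K)), 1 ≤ m ∧ κ' ≠ 0 ∧
      E' ⊆ E ∧ E' ∈ 𝒰 ∧ (∀ x ∈ E', Z.U (s x) ∧ τ x = κ' * s x ^ m) ∧
      ∀ k, ∃ A B : Polynomial K, A ≠ 0 ∧ ∀ x ∈ E', A.eval (s x) * x k = w x 0 * B.eval (s x) := by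
  classical
  have hE : E ∈ 𝒰 := h.big
  have had := h.adU
  set y : Fin (N + 1) → GK 𝒰 K := fun k => gm 𝒰 fun x => x k / w x 0 with hy
  have hyd : ∀ k, y k = gm 𝒰 (fun x => x k) / gm 𝒰 (fun x => w x 0) := fun k => gm_div _ _
  -- degrees are finite
  have hex : ∀ s, Adm Z 𝒰 E τ s → ∀ k, ∃ δ, RelP K (gm 𝒰 s) (y k) δ := by
    intro s hs k
    have htr : Tr K (gm 𝒰 s) := tr_gm 𝒰 s (hs.ne hτ)
    obtain ⟨m, κ', E', hm, hκ', hE'E, hE', hs'⟩ := hs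
    have hs0 : gm 𝒰 s ≠ 0 := by
      intro h0
      obtain ⟨x, hx⟩ := 𝒰.nonempty_of_mem (Filter.inter_mem (gm_eq_zero.1 h0) hE')
      exact (hs' x hx.2).1.ne hx.1
    obtain ⟨i₀, -, hi₀⟩ := Finset.exists_min_image (Finset.univ : Finset (Fin (n + 1)))
      (fun i => p i * m) ⟨0, Finset.mem_univ _⟩
    have h1 := int_dn had (fun i => κ i * κ' ^ p i) (gm 𝒰 s) hs0 (fun i => p i * m)
      (gm_rel hE' fun x hx i => rel_root (hrel x (hE'E hx) i) (hs' x hx).2) (p i₀ * m)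
      (fun i => hi₀ i (Finset.mem_univ i)) k
    obtain ⟨δ, hδ⟩ := relP_exists htr h1
    refine ⟨δ, ?_⟩
    have h2 := relP_mul hs0 (p i₀ * m) hδ
    rw [mul_assoc, ← zpow_add₀ hs0, neg_add_cancel, zpow_zero, mul_one, ← hyd] at h2
    exact h2
  -- the minimal root
  have hτA : Adm Z 𝒰 E τ τ := ⟨1, 1, E, le_rfl, one_ne_zero, subset_rfl, hE, fun x hx =>
    ⟨hτU x hx, by rw [one_mul, pow_one]⟩⟩
  set V : Set ℕ := {v | ∃ s, Adm Z 𝒰 E τ s ∧ v = ∑ k, dgP K (gm 𝒰 s) (y k)} with hV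
  have hVne : V.Nonempty := ⟨_, τ, hτA, rfl⟩
  obtain ⟨s, hs, hsV⟩ := Nat.sInf_mem hVne
  have hmin : ∀ s', Adm Z 𝒰 E τ s' →
      ∑ k, dgP K (gm 𝒰 s) (y k) ≤ ∑ k, dgP K (gm 𝒰 s') (y k) := by
    intro s' hs'
    rw [← hsV]
    exact Nat.sInf_le ⟨s', hs', rfl⟩
  have htr : Tr K (gm 𝒰 s) := tr_gm 𝒰 s (hs.ne hτ)
  have htr' : Tr K (gm 𝒰 s)⁻¹ := by
    rw [← gm_inv]
    exact tr_gm 𝒰 (fun x => (s x)⁻¹) (hs.ne' hτ)
  have hsA := hs
  obtain ⟨m, κ', E', hm, hκ', hE'E, hE', hs'⟩ := hs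
  have hs0 : gm 𝒰 s ≠ 0 := by
    intro h0
    obtain ⟨x, hx⟩ := 𝒰.nonempty_of_mem (Filter.inter_mem (gm_eq_zero.1 h0) hE')
    exact (hs' x hx.2).1.ne hx.1
  have hone : ∀ k, RelP K (gm 𝒰 s) (y k) 1 := by
    intro k
    by_contra hcon
    have hspec := dgP_spec (hex s hsA k)
    obtain ⟨D, hD⟩ : ∃ D, dgP K (gm 𝒰 s) (y k) = D + 1 := by
      refine ⟨dgP K (gm 𝒰 s) (y k) - 1, ?_⟩
      have : dgP K (gm 𝒰 s) (y k) ≠ 0 := by
        intro h0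
        rw [h0] at hspec
        exact relP_zero htr hspec
      omega
    have hD1 : 1 ≤ D := by
      by_contra h0
      have : D = 0 := by omega
      rw [hD, this] at hspec
      exact hcon hspec
    rw [hD] at hspec
    have hnot : ¬ RelP K (gm 𝒰 s) (y k) D := by
      intro h0
      have := dgP_le h0
      omega
    -- a further root
    obtain ⟨E₂, hE₂E', hE₂, κ₂, s₂, hκ₂, hs₂U, hs₂⟩ := unit_root Z (ultLN 𝒰 h𝒰) s E' hE'
      (fun x hx => (hs' x hx).1) (D + 1).factorial (Nat.factorial_pos _)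
    have hE₂𝒰 : E₂ ∈ 𝒰 := hE₂
    set f : ℕ := (D + 1).factorial with hf
    have hf1 : 1 ≤ f := Nat.factorial_pos _
    have hs₂A : Adm Z 𝒰 E τ s₂ := by
      refine ⟨f * m, κ' * κ₂ ^ m, E₂, Nat.mul_pos hf1 hm, mul_ne_zero hκ' (pow_ne_zero _ hκ₂.ne),
        hE₂E'.trans hE'E, hE₂𝒰, fun x hx => ⟨hs₂U x hx, ?_⟩⟩
      rw [(hs' x (hE₂E' hx)).2, hs₂ x hx, mul_pow, ← pow_mul]
      ring
    have hgs : gm 𝒰 s = algebraMap K (GK 𝒰 K) κ₂ * gm 𝒰 s₂ ^ f := by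
      rw [gm_const, ← gm_pow, ← gm_mul, gm_eq]
      exact Filter.mem_of_superset hE₂𝒰 fun x hx => hs₂ x hx
    have hle : ∀ j, dgP K (gm 𝒰 s₂) (y j) ≤ dgP K (gm 𝒰 s) (y j) := fun j =>
      dgP_le (relP_root hκ₂.ne hf1 hgs (dgP_spec (hex s hsA j)))
    have heq : ∀ j, dgP K (gm 𝒰 s₂) (y j) = dgP K (gm 𝒰 s) (y j) := by
      intro j
      have h1 := hmin s₂ hs₂A
      have h2 : ∑ k, dgP K (gm 𝒰 s₂) (y k) = ∑ k, dgP K (gm 𝒰 s) (y k) :=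
        le_antisymm (Finset.sum_le_sum fun k _ => hle k) h1
      exact (Finset.sum_eq_sum_iff_of_le fun i _ => hle i).1 h2 j (Finset.mem_univ j)
    have hnot₂ : ¬ RelP K (gm 𝒰 s₂) (y k) D := by
      intro h0
      have h1 := dgP_le h0
      rw [heq k, hD] at h1
      omega
    have hs₂0 : gm 𝒰 s₂ ≠ 0 := by
      intro h0
      obtain ⟨x, hx⟩ := 𝒰.nonempty_of_mem (Filter.inter_mem (gm_eq_zero.1 h0) hE₂𝒰)
      exact (hs₂U x hx.2).ne hx.1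
    -- exponents
    set c : Fin (n + 1) → ℤ := fun i => p i * m with hc
    obtain ⟨i₀, -, hi₀⟩ := Finset.exists_min_image (Finset.univ : Finset (Fin (n + 1)))
      c ⟨0, Finset.mem_univ _⟩
    obtain ⟨i₁, -, hi₁⟩ := Finset.exists_max_image (Finset.univ : Finset (Fin (n + 1)))
      c ⟨0, Finset.mem_univ _⟩
    have hrels : ∀ i, gm 𝒰 (fun x => w x i) = algebraMap K (GK 𝒰 K) (κ i * κ' ^ p i) *
        (gm 𝒰 (fun x => w x 0) * gm 𝒰 s ^ c i) :=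
      gm_rel hE' fun x hx i => rel_root (hrel x (hE'E hx) i) (hs' x hx).2
    -- the equation at zero
    have hint₀ := int_dn had (fun i => κ i * κ' ^ p i) (gm 𝒰 s) hs0 c hrels (c i₀)
      (fun i => hi₀ i (Finset.mem_univ i)) k
    have hint₁ := int_up had (fun i => κ i * κ' ^ p i) (gm 𝒰 s) hs0 c hrels (c i₁)
      (fun i => hi₁ i (Finset.mem_univ i)) k
    rw [← hyd] at hint₀ hint₁
    have hκz : ∀ z : ℤ, κ₂ ^ z ≠ 0 := fun z => zpow_ne_zero _ hκ₂.ne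
    obtain ⟨Φ₀, hΦ₀m, hΦ₀d, hΦ₀, hΦ₀p⟩ := relP_monic htr
      (y := algebraMap K (GK 𝒰 K) (κ₂ ^ c i₀) * (y k * gm 𝒰 s ^ (-(c i₀)))) (D := D)
      (IsIntegral.mul (isIntegral_algebraMap (A := GK 𝒰 K)
        (x := algebraMap K (Algebra.adjoin K {gm 𝒰 s}) (κ₂ ^ c i₀))) hint₀) hD1
      (relP_const (hκz _) (relP_mul hs0 _ hspec)) (by
        intro h0
        apply hnot
        have h1 := relP_mul hs0 (c i₀) (relP_const (inv_ne_zero (hκz (c i₀))) h0)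
        rw [← mul_assoc, ← map_mul, inv_mul_cancel₀ (hκz _), map_one, one_mul, mul_assoc,
          ← zpow_add₀ hs0, neg_add_cancel, zpow_zero, mul_one] at h1
        exact h1)
    obtain ⟨Φ₁, hΦ₁m, hΦ₁d, hΦ₁, hΦ₁p⟩ := relP_monic htr'
      (y := algebraMap K (GK 𝒰 K) (κ₂ ^ c i₁) * (y k * gm 𝒰 s ^ (-(c i₁)))) (D := D)
      (IsIntegral.mul (isIntegral_algebraMap (A := GK 𝒰 K)
        (x := algebraMap K (Algebra.adjoin K {(gm 𝒰 s)⁻¹}) (κ₂ ^ c i₁))) hint₁) hD1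
      (relP_const (hκz _) (relP_inv hs0 _ hspec)) (by
        intro h0
        apply hnot
        have h1 := relP_inv (inv_ne_zero hs0) (-(c i₁))
          (relP_const (inv_ne_zero (hκz (c i₁))) h0)
        rw [← mul_assoc, ← map_mul, inv_mul_cancel₀ (hκz _), map_one, one_mul, mul_assoc,
          inv_inv, inv_zpow', neg_neg, ← zpow_add₀ hs0, neg_add_cancel, zpow_zero, mul_one] at h1
        exact h1)
    -- the relations point by point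
    have hev₀ : {x | ev2 K (s x) (κ₂ ^ c i₀ * (x k / w x 0 * s x ^ (-(c i₀)))) Φ₀ = 0} ∈ 𝒰 := by
      rw [← gm_eq_zero, ← gm_ev2, gm_mul, gm_mul, gm_zpow, ← gm_const]
      exact hΦ₀
    have hev₁ : {x | ev2 K (s x)⁻¹ (κ₂ ^ c i₁ * (x k / w x 0 * s x ^ (-(c i₁)))) Φ₁ = 0} ∈ 𝒰 := by
      rw [← gm_eq_zero, ← gm_ev2, gm_mul, gm_mul, gm_zpow, ← gm_const, gm_inv]
      exact hΦ₁
    set E₃ : Set (Fin (N + 1) → K) := E₂ ∩
      ({x | ev2 K (s x) (κ₂ ^ c i₀ * (x k / w x 0 * s x ^ (-(c i₀)))) Φ₀ = 0} ∩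
      {x | ev2 K (s x)⁻¹ (κ₂ ^ c i₁ * (x k / w x 0 * s x ^ (-(c i₁)))) Φ₁ = 0}) with hE₃
    have hE₃𝒰 : E₃ ∈ 𝒰 := Filter.inter_mem hE₂𝒰 (Filter.inter_mem hev₀ hev₁)
    have hE₃E : E₃ ⊆ E := fun x hx => hE'E (hE₂E' hx.1)
    have hP : PtsE Z (ultLN 𝒰 h𝒰) w C₁ E₃ :=
      (h.toE le_rfl).mono hE₃E (show (ultLN 𝒰 h𝒰).Big E₃ from hE₃𝒰)
    have hf0 : (0 : ℤ) < (f : ℤ) := by exact_mod_cast hf1
    have hlh : c i₀ * f < c i₁ * f := by
      apply mul_lt_mul_of_pos_right _ hf0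
      obtain ⟨i, hi⟩ := hp
      have hm0 : (0 : ℤ) < m := by exact_mod_cast hm
      have h1 : c i ≠ 0 := mul_ne_zero hi hm0.ne'
      have h2 : c 0 = 0 := by rw [hc]; simp [hp0]
      have h3 := hi₀ i (Finset.mem_univ i)
      have h4 := hi₁ i (Finset.mem_univ i)
      have h5 := hi₀ 0 (Finset.mem_univ 0)
      have h6 := hi₁ 0 (Finset.mem_univ 0)
      rw [h2] at h5 h6
      rcases lt_or_gt_of_ne h1 with h7 | h7 <;> linarith
    have hs₂rel : ∀ x ∈ E₂, ∀ z : ℤ, s x ^ z = κ₂ ^ z * s₂ x ^ (z * f) := by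
      intro x hx z
      rw [hs₂ x hx, mul_zpow, ← zpow_natCast, ← zpow_mul, mul_comm (f : ℤ) z]
    obtain ⟨E₄, hE₄E₃, hE₄, S, A, hA, hrelA⟩ := engB hP (fun x hx v => h.low x (hE₃E hx) v) s₂
      (fun x hx => hs₂U x hx.1) (fun i => κ i * κ' ^ p i * κ₂ ^ c i)
      (fun i => mul_ne_zero (mul_ne_zero (hκ i) (zpow_ne_zero _ hκ')) (hκz _))
      (fun i => c i * f)
      (fun x hx i => by
        have h1 := rel_root (hrel x (hE₃E hx) i) (hs' x (hE₂E' hx.1)).2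
        rw [h1, hs₂rel x hx.1 (p i * m)]
        ring)
      (c i₀ * f) (c i₁ * f)
      (fun i => mul_le_mul_of_nonneg_right (hi₀ i (Finset.mem_univ i)) hf0.le)
      (fun i => mul_le_mul_of_nonneg_right (hi₁ i (Finset.mem_univ i)) hf0.le)
      ⟨i₀, rfl⟩ ⟨i₁, rfl⟩ hlh k D hD1 Φ₀ Φ₁ hΦ₀m hΦ₁m hΦ₀d hΦ₁d hΦ₀p hΦ₁p κ₂ κ₂⁻¹ hκ₂.ne
      (inv_ne_zero hκ₂.ne)
      (fun x hx => by
        have h1 : ev2 K (s x) (κ₂ ^ c i₀ * (x k / w x 0 * s x ^ (-(c i₀)))) Φ₀ = 0 := hx.2.1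
        have h2 : κ₂ ^ c i₀ * (x k / w x 0 * s x ^ (-(c i₀))) =
            x k / (w x 0 * s₂ x ^ (c i₀ * f)) := by
          rw [zpow_neg, hs₂rel x hx.1 (c i₀)]
          have h3 := hκz (c i₀)
          have h4 : s₂ x ^ (c i₀ * f) ≠ 0 := zpow_ne_zero _ (hs₂U x hx.1).ne
          have h5 := (h.unit x (hE₃E hx) 0).ne
          field_simp
        rw [h2, hs₂ x hx.1] at h1
        exact h1)
      (fun x hx => by
        have h1 : ev2 K (s x)⁻¹ (κ₂ ^ c i₁ * (x k / w x 0 * s x ^ (-(c i₁)))) Φ₁ = 0 := hx.2.2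
        have h2 : κ₂ ^ c i₁ * (x k / w x 0 * s x ^ (-(c i₁))) =
            x k / (w x 0 * s₂ x ^ (c i₁ * f)) := by
          rw [zpow_neg, hs₂rel x hx.1 (c i₁)]
          have h3 := hκz (c i₁)
          have h4 : s₂ x ^ (c i₁ * f) ≠ 0 := zpow_ne_zero _ (hs₂U x hx.1).ne
          have h5 := (h.unit x (hE₃E hx) 0).ne
          field_simp
        rw [h2, hs₂ x hx.1, mul_inv, ← inv_pow] at h1
        exact h1)
    apply hnot₂
    apply relP_laurent hs₂0 S A hA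
    have h1 : ∑ j ∈ Finset.range (D + 1), y k ^ j * ∑ α ∈ S j,
        algebraMap K (GK 𝒰 K) (A j α) * gm 𝒰 s₂ ^ α = gm 𝒰 fun x =>
        ∑ j ∈ Finset.range (D + 1), (x k / w x 0) ^ j * ∑ α ∈ S j, A j α * s₂ x ^ α := by
      rw [gm_sum]
      refine Finset.sum_congr rfl fun j _ => ?_
      rw [gm_mul, gm_pow, gm_sum]
      congr 1
    rw [h1, gm_eq_zero]
    exact Filter.mem_of_superset (show E₄ ∈ 𝒰 from hE₄) fun x hx => hrelA x hx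
  -- conclusion
  choose A B hA hAB using fun k => relP_one htr (hone k)
  have hset : ∀ k, {x | (A k).eval (s x) * (x k / w x 0) = (B k).eval (s x)} ∈ 𝒰 := by
    intro k
    have hpt : ∀ P : Polynomial K, P.eval₂ (algebraMap K (GK 𝒰 K)) (gm 𝒰 s) =
        gm 𝒰 fun x => P.eval (s x) := by
      intro P
      have h1 := gm_ev2 𝒰 s (fun _ => (0 : K)) (Polynomial.C P)
      rw [ev2_C] at h1
      simp only [ev2_C] at h1
      exact h1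
    have h1 := hAB k
    rw [hpt, hpt, hy, ← gm_mul, gm_eq] at h1
    exact h1
  refine ⟨m, κ', s, E' ∩ ⋂ k, {x | (A k).eval (s x) * (x k / w x 0) = (B k).eval (s x)}, hm, hκ',
    fun x hx => hE'E hx.1, Filter.inter_mem hE' (Filter.iInter_mem.2 hset),
    fun x hx => hs' x hx.1, fun k => ⟨A k, B k, hA k, fun x hx => ?_⟩⟩
  have h1 : (A k).eval (s x) * (x k / w x 0) = (B k).eval (s x) := Set.mem_iInter.1 hx.2 k
  have h2 := (h.unit x (hE'E hx.1) 0).ne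
  rw [← h1]
  field_simp

end Pool.Agent.Helper10.TD
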