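import Pool.Agent.Helper38.TN.Cnt

/-!
# Counting exponents, with the lower blocks

Plan (compare `Helper38/TN/Cnt.lean`). `#(AM c q) ≤ #(AM c q')` for `q ≤ q'` (translate by
`(q' - q) • c 0`). As in `cnt_pig` there are arbitrarily large `j` with
`#(AM c (4 * 2 ^ j)) ≤ 4 ^ (n + 2) * #(AM c (2 ^ j))` (otherwise, in steps of two,
`#(AM c (2 ^ (j₀ + 2 i))) ≥ 4 ^ ((n + 2) * i)`; or apply the argument of `cnt_pig` to the sequence
`#(AM c (4 ^ i))`). Take `q = 2 ^ j` large, `M = 2 * q`; then `M + (D - i) ≤ 4 * q` for `q ≥ D`, the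
left side is at most `(2 * D + D * D + 1) * 4 ^ (n + 2) * #(AM c q)`, and `cnt_sum` bounds the right
side from below by `ε * q * #(AM c q)`.
-/

set_option autoImplicit false

namespace Pool.Agent.Helper10.TD

open Pool.Agent.Helper38.TN

/-- The number of exponents is nondecreasing. -/
theorem cntD_mono {n r : ℕ} (c : Fin (n + 1) → Fin r → ℤ) {q q' : ℕ} (hq : q ≤ q') :
    (AM c q).card ≤ (AM c q').card := by
  classical
  obtain ⟨s, rfl⟩ := Nat.exists_eq_add_of_le hq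
  refine Finset.card_le_card_of_injOn (fun α => α + s • c 0) ?_ ?_
  · intro α hα
    obtain ⟨m, hm, hmα⟩ := mem_AM.1 (Finset.mem_coe.1 hα)
    refine Finset.mem_coe.2 (mem_AM.2 ⟨m + s • Pi.single 0 1, ?_, ?_⟩)
    · simp only [Pi.add_apply, Pi.smul_apply, smul_eq_mul]
      rw [Finset.sum_add_distrib, hm, ← Finset.mul_sum, Finset.sum_pi_single' 0 (1 : ℕ),
        if_pos (Finset.mem_univ _), mul_one]
    · rw [← hmα]
      unfold cc
      have h3 : ∀ i, (m + s • (Pi.single 0 1 : Fin (n + 1) → ℕ)) i • c i =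
          m i • c i + (if i = 0 then s • c 0 else 0) := by
        intro i
        rw [Pi.add_apply, add_smul, Pi.smul_apply, smul_eq_mul]
        by_cases hi : i = 0
        · subst hi
          rw [Pi.single_eq_same, mul_one, if_pos rfl]
        · rw [Pi.single_eq_of_ne hi, mul_zero, zero_smul, if_neg hi]
      rw [Finset.sum_congr rfl fun i _ => h3 i, Finset.sum_add_distrib,
        Finset.sum_ite_eq' Finset.univ 0, if_pos (Finset.mem_univ _)]
  · intro α _ β _ h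
    exact add_right_cancel h

/-- The pigeonhole step in steps of two doublings. -/
theorem cntD_pig {n r : ℕ} (c : Fin (n + 1) → Fin r → ℤ) (j₀ : ℕ) :
    ∃ j, j₀ ≤ j ∧ (AM c (4 * 2 ^ j)).card ≤ 4 ^ (n + 2) * (AM c (2 ^ j)).card := by
  by_contra hcon
  push Not at hcon
  have h1 : ∀ i, 4 ^ ((n + 2) * i) ≤ (AM c (2 ^ (j₀ + 2 * i))).card := by
    intro i
    induction i with
    | zero =>
      rw [mul_zero, pow_zero]
      exact cnt_pos c _
    | succ i ih =>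
      have h2 := hcon (j₀ + 2 * i) (Nat.le_add_right _ _)
      have h3 : 4 * 2 ^ (j₀ + 2 * i) = 2 ^ (j₀ + 2 * (i + 1)) := by ring
      rw [h3] at h2
      have h4 : 4 ^ ((n + 2) * (i + 1)) = 4 ^ (n + 2) * 4 ^ ((n + 2) * i) := by ring
      rw [h4]
      exact (Nat.mul_le_mul_left _ ih).trans h2.le
  obtain ⟨i, hi⟩ : ∃ i, i = (j₀ + 1) * (n + 1) + 1 := ⟨_, rfl⟩
  have h5 : (2 : ℕ) ^ ((n + 2) * (2 * i)) ≤ 2 ^ ((j₀ + 2 * i + 1) * (n + 1)) := by
    have h50 : (2 : ℕ) ^ ((n + 2) * (2 * i)) = 4 ^ ((n + 2) * i) := by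
      rw [show (4 : ℕ) = 2 ^ 2 by norm_num, ← pow_mul]
      congr 1
      ring
    rw [h50]
    refine (h1 i).trans ((cnt_card c _).trans ?_)
    rw [pow_mul]
    refine Nat.pow_le_pow_left ?_ _
    have h6 : 1 ≤ 2 ^ (j₀ + 2 * i) := Nat.one_le_two_pow
    have h7 : 2 ^ (j₀ + 2 * i + 1) = 2 ^ (j₀ + 2 * i) + 2 ^ (j₀ + 2 * i) := by ring
    omega
  have h8 := (Nat.pow_le_pow_iff_right (by norm_num : 1 < 2)).1 h5
  have h9 : (n + 2) * (2 * i) = (n + 1) * (2 * i) + 2 * i := by ring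
  have h10 : (j₀ + 2 * i + 1) * (n + 1) = (n + 1) * (2 * i) + (j₀ + 1) * (n + 1) := by ring
  omega

theorem countD {n r : ℕ} (c : Fin (n + 1) → Fin r → ℤ) (D : ℕ) (ε : ℝ) (hε : 0 < ε) :
    ∃ M : ℕ, 1 ≤ M ∧ ∀ a : Fin (n + 1),
      ((D * (AM c M).card + ∑ i ∈ Finset.range D, i * (AM c (M + (D - i))).card + 1 : ℕ) : ℝ) ≤
        ε * ∑ α ∈ AM c M, (mu c M a α : ℝ) := by
  obtain ⟨B, hB⟩ : ∃ B : ℕ, B = (D + D * D + 1) * 4 ^ (n + 2) := ⟨_, rfl⟩
  obtain ⟨j₁, hj₁⟩ := pow_unbounded_of_one_lt ((B : ℝ) / ε) (by norm_num : (1 : ℝ) < 2)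
  rw [div_lt_iff₀ hε] at hj₁
  obtain ⟨j, hj, hcard⟩ := cntD_pig c (max j₁ D)
  have hjD : D ≤ 2 ^ j := (Nat.lt_two_pow_self (n := D)).le.trans
    (Nat.pow_le_pow_right (by norm_num) ((le_max_right _ _).trans hj))
  have hj1 : j₁ ≤ j := (le_max_left _ _).trans hj
  have hq1 : 1 ≤ 2 ^ j := Nat.one_le_two_pow
  refine ⟨2 * 2 ^ j, by omega, fun a => ?_⟩
  have h1 : D * (AM c (2 * 2 ^ j)).card ≤ D * (AM c (4 * 2 ^ j)).card :=
    Nat.mul_le_mul_left _ (cntD_mono c (by omega))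
  have h2 : ∑ i ∈ Finset.range D, i * (AM c (2 * 2 ^ j + (D - i))).card ≤
      D * (D * (AM c (4 * 2 ^ j)).card) := by
    have h21 : ∀ i ∈ Finset.range D, i * (AM c (2 * 2 ^ j + (D - i))).card ≤
        D * (AM c (4 * 2 ^ j)).card := by
      intro i hi
      exact Nat.mul_le_mul (Finset.mem_range.1 hi).le (cntD_mono c (by omega))
    refine (Finset.sum_le_sum h21).trans ?_
    rw [Finset.sum_const, Finset.card_range, smul_eq_mul]
  have h3 : 1 ≤ (AM c (4 * 2 ^ j)).card := cnt_pos c _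
  have h4 : D * (AM c (2 * 2 ^ j)).card +
      ∑ i ∈ Finset.range D, i * (AM c (2 * 2 ^ j + (D - i))).card + 1 ≤
      B * (AM c (2 ^ j)).card := by
    calc D * (AM c (2 * 2 ^ j)).card +
          ∑ i ∈ Finset.range D, i * (AM c (2 * 2 ^ j + (D - i))).card + 1
        ≤ D * (AM c (4 * 2 ^ j)).card + D * (D * (AM c (4 * 2 ^ j)).card) +
            (AM c (4 * 2 ^ j)).card := add_le_add (add_le_add h1 h2) h3
      _ = (D + D * D + 1) * (AM c (4 * 2 ^ j)).card := by ring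
      _ ≤ (D + D * D + 1) * (4 ^ (n + 2) * (AM c (2 ^ j)).card) :=
          Nat.mul_le_mul_left _ hcard
      _ = B * (AM c (2 ^ j)).card := by rw [hB]; ring
  have h5 : (2 : ℝ) ^ j * ((AM c (2 ^ j)).card : ℝ) ≤
      ∑ α ∈ AM c (2 * 2 ^ j), (mu c (2 * 2 ^ j) a α : ℝ) := by
    exact_mod_cast cnt_sum c (2 ^ j) a
  have h6 : (B : ℝ) ≤ 2 ^ j * ε := by
    refine hj₁.le.trans ?_
    exact mul_le_mul_of_nonneg_right (pow_le_pow_right₀ (by norm_num) hj1) hε.le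
  calc ((D * (AM c (2 * 2 ^ j)).card +
        ∑ i ∈ Finset.range D, i * (AM c (2 * 2 ^ j + (D - i))).card + 1 : ℕ) : ℝ)
      ≤ ((B * (AM c (2 ^ j)).card : ℕ) : ℝ) := by exact_mod_cast h4
    _ = (B : ℝ) * ((AM c (2 ^ j)).card : ℝ) := by push_cast; ring
    _ ≤ 2 ^ j * ε * ((AM c (2 ^ j)).card : ℝ) :=
        mul_le_mul_of_nonneg_right h6 (Nat.cast_nonneg _)
    _ = ε * (2 ^ j * ((AM c (2 ^ j)).card : ℝ)) := by ring
    _ ≤ _ := mul_le_mul_of_nonneg_left h5 hε.le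

end Pool.Agent.Helper10.TD
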