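import Pool.Agent.Helper38.TN.CoreOf

/-!
# From linear relations on one large set to tori

Copy of `core_of` (`Helper38/TN/CoreOf.lean`); here `t, κ, c`, the large set `E₁` and the relations for
all coordinates are given by `hR`, so the induction over the coordinates only shrinks `E₁`
(a relation on `E₁` holds on every subset).
-/

set_option autoImplicit false
set_option linter.unusedSectionVars false

namespace Pool.Agent.Helper10.TD

open Pool.Agent.Helper10.Sub Pool.Agent.Helper38.TP Pool.Agent.Helper38.TN MvPolynomial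

variable {K : Type} [Field K] {Λ : Type} [Fintype Λ] [DecidableEq Λ] {L : Λ → Type}
  [∀ s, NontriviallyNormedField (L s)] [∀ s, Algebra K (L s)] {N n : ℕ}

theorem core_of2 (Z : MP K L) (J₀ : Set (MvPolynomial (Fin (N + 1)) K))
    (hJ₀ : ∀ f ∈ J₀, ∃ e, f.IsHomogeneous e)
    (F : Fin (n + 1) → MvPolynomial (Fin (N + 1)) K) (d : Fin (n + 1) → ℕ) (hd : ∀ i, 1 ≤ d i)
    (hF : ∀ i, (F i).IsHomogeneous (d i)) (D : Fin (n + 1) → K) (hD : ∀ i, D i ≠ 0)
    {Ω : Type} [Field Ω] [IsAlgClosed Ω] [Algebra K Ω]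
    (hΩ : ∀ A : Fin (N + 1) → Ω, OnV J₀ A → (∀ i, aeval A (F i) = 0) → A = 0)
    (E : Set (Fin (N + 1) → K))
    (w : (Fin (N + 1) → K) → Fin (n + 1) → K) (hw : ∀ x ∈ E, ∀ i, Z.U (w x i))
    (hev : ∀ x ∈ E, ∀ i, eval x (F i) = D i * w x i ^ d i)
    (hX : ∀ x ∈ E, ∀ f ∈ J₀, eval x f = 0)
    (hnc : ∀ κ : Fin (n + 1) → K, ¬ (bigN J₀ F d).Big {x | x ∈ E ∧ ∀ i, w x i = κ i * w x 0})
    (r : ℕ) (hr : r ≤ n) (t : (Fin (N + 1) → K) → Fin r → K) (κ : Fin (n + 1) → K)
    (c : Fin (n + 1) → Fin r → ℤ) (hc0 : c 0 = 0) (E₁ : Set (Fin (N + 1) → K)) (hE₁ : E₁ ⊆ E)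
    (hB₁ : (bigN J₀ F d).Big E₁) (hpar : Par Z (bigN J₀ F d) w t κ c E₁)
    (hR : ∀ k, ∃ (SA SB : Finset (Fin r → ℤ)) (A B : (Fin r → ℤ) → K),
      (∃ α ∈ SA, A α ≠ 0) ∧ ∀ x ∈ E₁, x k * ∑ α ∈ SA, A α * mono (t x) α =
        w x 0 * ∑ β ∈ SB, B β * mono (t x) β) : False := by
  classical
  set 𝔅 := bigN J₀ F d with h𝔅
  have hex : ∃ i j, c i ≠ c j := by
    by_contra hcon
    push Not at hcon
    apply hnc κ
    refine 𝔅.mono (fun x hx => ⟨hE₁ hx, fun i => ?_⟩) hB₁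
    have h1 := hpar.rel x hx i
    have h2 : c i = 0 := by
      rw [hcon i 0, hc0]
    rw [h2, mono_zero, mul_one] at h1
    exact h1
  have key : ∀ s : Finset (Fin (N + 1)), ∃ E' ⊆ E₁, 𝔅.Big E' ∧ ∃ T₀ : ℕ, ∀ T : ℕ, T₀ ≤ T →
      ∃ Q : Fin (N + 1) → MvPolynomial (Fin r) K, ∀ x ∈ E', ∀ k ∈ s,
      mono (t x) (fun _ => (T : ℤ)) * x k = w x 0 * eval (t x) (Q k) := by
    intro s
    induction s using Finset.induction_on with
    | empty => exact ⟨E₁, subset_rfl, hB₁, 0, fun T _ => ⟨0, fun x _ k hk =>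
        absurd hk (Finset.notMem_empty k)⟩⟩
    | insert k s hk ih =>
      obtain ⟨E', hE', hB', T₀, hT⟩ := ih
      obtain ⟨SA, SB, A, B, hA, hrel⟩ := hR k
      have hE'E : E' ⊆ E := hE'.trans hE₁
      have hp' := hpar.mono' hE'
      obtain ⟨E₃, hE₃, hB₃, T₁, hT₁⟩ := algN Z 𝔅 J₀ hJ₀ F d hd hF D hΩ E' hB' w
        (fun x hx => hw x (hE'E hx)) (fun x hx => hev x (hE'E hx)) (fun x hx => hX x (hE'E hx))
        t hp'.tU hp'.ind κ c hp'.rel k SA SB A B hA (fun x hx => hrel x (hE' hx))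
      refine ⟨E₃, hE₃.trans hE', hB₃, max T₀ T₁, fun T hTT => ?_⟩
      obtain ⟨Q, hQ⟩ := hT T ((le_max_left _ _).trans hTT)
      obtain ⟨q, hq⟩ := hT₁ T ((le_max_right _ _).trans hTT)
      refine ⟨Function.update Q k q, fun x hx k' hk' => ?_⟩
      by_cases hkk : k' = k
      · subst hkk
        rw [Function.update_self]
        exact hq x hx
      · rw [Function.update_of_ne hkk]
        exact hQ x (hE₃ hx) k' ((Finset.mem_insert.1 hk').resolve_left hkk)
  obtain ⟨E', hE', hB', T₀, hT⟩ := key Finset.univ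
  set T : ℕ := max T₀ (∑ i, ∑ j, (c i j).natAbs) with hTdef
  obtain ⟨Q, hQ⟩ := hT T (le_max_left _ _)
  have hp' := hpar.mono' hE'
  have hE'E := hE'.trans hE₁
  refine finN Z J₀ hJ₀ F d hd hF D hD hr E' hB' w (fun x hx => hw x (hE'E hx))
    (fun x hx => hev x (hE'E hx)) (fun x hx => hX x (hE'E hx)) t hp'.tU hp'.ind κ c hp'.rel hex T
    (fun i j => ?_) Q (fun x hx k => hQ x hx k (Finset.mem_univ k))
  have h1 : (c i j).natAbs ≤ ∑ j, (c i j).natAbs :=
    Finset.single_le_sum (f := fun j => (c i j).natAbs) (fun _ _ => Nat.zero_le _)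
      (Finset.mem_univ j)
  have h2 : ∑ j, (c i j).natAbs ≤ ∑ i, ∑ j, (c i j).natAbs :=
    Finset.single_le_sum (f := fun i => ∑ j, (c i j).natAbs) (fun _ _ => Nat.zero_le _)
      (Finset.mem_univ i)
  have h3 : (∑ i, ∑ j, (c i j).natAbs) ≤ T := le_max_right _ _
  have h4 : (c i j).natAbs ≤ T := h1.trans (h2.trans h3)
  omega

/-- Two integer vectors are independent or multiples of one vector. -/
theorem dich {r : ℕ} (c : Fin 3 → Fin r → ℤ) (hc0 : c 0 = 0) :
    (∀ m m' : Fin 3 → ℕ, ∑ i, m i = ∑ i, m' i → cc c m = cc c m' → m = m') ∨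
      ∃ (γ : Fin r → ℤ) (p : Fin 3 → ℤ), p 0 = 0 ∧ ∀ i, c i = p i • γ := by
  by_cases h : ∀ m m' : Fin 3 → ℕ, ∑ i, m i = ∑ i, m' i → cc c m = cc c m' → m = m'
  · exact Or.inl h
  · right
    push Not at h
    obtain ⟨m, m', hs, he, hne⟩ := h
    have hrel : ((m 1 : ℤ) - m' 1) • c 1 + ((m 2 : ℤ) - m' 2) • c 2 = 0 := by
      rw [cc, cc, Fin.sum_univ_three, Fin.sum_univ_three, hc0, smul_zero, smul_zero, zero_add,
        zero_add] at he
      funext j
      have hj := congrFun he j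
      simp only [Pi.add_apply, Pi.smul_apply, Pi.zero_apply] at hj ⊢
      simp only [nsmul_eq_mul, smul_eq_mul] at hj ⊢
      linear_combination hj
    have hab : 0 < Int.gcd ((m 1 : ℤ) - m' 1) ((m 2 : ℤ) - m' 2) := by
      rw [Int.gcd_pos_iff]
      by_contra hcon
      push Not at hcon
      obtain ⟨h1, h2⟩ := hcon
      apply hne
      rw [Fin.sum_univ_three, Fin.sum_univ_three] at hs
      funext i
      fin_cases i
      · show m 0 = m' 0
        omega
      · show m 1 = m' 1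
        omega
      · show m 2 = m' 2
        omega
    obtain ⟨a, b, hg, ha, hb⟩ := Int.exists_gcd_one hab
    obtain ⟨u, v, huv⟩ := Int.isCoprime_iff_gcd_eq_one.2 hg
    have hg0 : ((Int.gcd ((m 1 : ℤ) - m' 1) ((m 2 : ℤ) - m' 2) : ℕ) : ℤ) ≠ 0 := by
      exact_mod_cast hab.ne'
    have hrel' : ∀ j, a * c 1 j + b * c 2 j = 0 := by
      intro j
      have hj := congrFun hrel j
      simp only [Pi.add_apply, Pi.smul_apply, smul_eq_mul, Pi.zero_apply] at hj
      apply mul_left_cancel₀ hg0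
      rw [mul_zero]
      linear_combination hj - c 1 j * ha - c 2 j * hb
    refine ⟨v • c 1 - u • c 2, ![0, b, -a], rfl, fun i => ?_⟩
    funext j
    fin_cases i
    · show c 0 j = _
      rw [hc0]
      simp
    · show c 1 j = b * (v * c 1 j - u * c 2 j)
      linear_combination (-c 1 j) * huv + u * hrel' j
    · show c 2 j = -a * (v * c 1 j - u * c 2 j)
      linear_combination (-c 2 j) * huv + v * hrel' j

end Pool.Agent.Helper10.TD
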