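import Pool.Agent.Helper10.TD.AD

/-!
# Good linear forms span
-/

set_option autoImplicit false
set_option linter.unusedVariables false

namespace Pool.Agent.Helper10.TD

open MvPolynomial

/-- The points with coordinates in an infinite set where a non-zero polynomial over an extension
does not vanish span. -/
theorem Span_gen {K Ω : Type} [Field K] [Field Ω] [Algebra K Ω] {M : ℕ} (S : Set K)
    (hS : S.Infinite) (p : MvPolynomial (Fin M) Ω) (hp : p ≠ 0) :
    Submodule.span K {lam : Fin M → K | (∀ k, lam k ∈ S) ∧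
      eval (fun k => algebraMap K Ω (lam k)) p ≠ 0} = ⊤ := by
  by_contra hne
  obtain ⟨f, hf, hfW⟩ := Submodule.exists_le_ker_of_lt_top _ (lt_top_iff_ne_top.mpr hne)
  obtain ⟨q, hqdef⟩ : ∃ q : MvPolynomial (Fin M) Ω,
      q = ∑ k, C (algebraMap K Ω (f (Pi.single k 1))) * X k := ⟨_, rfl⟩
  have hq : ∀ lam : Fin M → K,
      eval (fun k => algebraMap K Ω (lam k)) q = algebraMap K Ω (f lam) := by
    intro lam
    have h1 : lam = ∑ k, lam k • Pi.single k (1 : K) := by
      funext j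
      simp [Finset.sum_apply, Pi.single_apply]
    have h2 : f lam = ∑ k, lam k * f (Pi.single k 1) := by
      conv_lhs => rw [h1]
      simp [map_sum]
    rw [hqdef, h2]
    simp only [map_sum, map_mul, eval_C, eval_X]
    exact Finset.sum_congr rfl fun k _ => mul_comm _ _
  have hq0 : q ≠ 0 := by
    intro h0
    refine hf (LinearMap.ext fun lam => ?_)
    have h1 := hq lam
    rw [h0, map_zero] at h1
    exact (map_eq_zero (algebraMap K Ω)).mp h1.symm
  have hpq : p * q = 0 := by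
    refine funext_set (fun _ => algebraMap K Ω '' S)
      (fun _ => hS.image (algebraMap K Ω).injective.injOn) ?_
    intro x hx
    have hx' : ∀ k, ∃ a ∈ S, algebraMap K Ω a = x k := fun k => hx k (Set.mem_univ k)
    choose lam hlam hlx using hx'
    have hxe : x = fun k => algebraMap K Ω (lam k) := funext fun k => (hlx k).symm
    rw [map_mul, map_zero, hxe]
    by_cases h : eval (fun k => algebraMap K Ω (lam k)) p = 0
    · rw [h, zero_mul]
    · have h1 : lam ∈ LinearMap.ker f := hfW (Submodule.subset_span ⟨hlam, h⟩)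
      rw [hq, LinearMap.mem_ker.mp h1, map_zero, mul_zero]
  rcases mul_eq_zero.mp hpq with h | h
  · exact hp h
  · exact hq0 h

/-- The points of `K ^ M` where a non-zero polynomial over an extension does not vanish span. -/
theorem span_ne {K Ω : Type} [Field K] [Infinite K] [Field Ω] [Algebra K Ω] {M : ℕ}
    (p : MvPolynomial (Fin M) Ω) (hp : p ≠ 0) :
    Submodule.span K {lam : Fin M → K | eval (fun k => algebraMap K Ω (lam k)) p ≠ 0} = ⊤ := by
  rw [eq_top_iff, ← Span_gen (Set.univ : Set K) Set.infinite_univ p hp]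
  exact Submodule.span_mono fun lam h => h.2

theorem Span_int {K : Type} [Field K] [CharZero K] :
    (Set.range (Int.cast : ℤ → K)).Infinite :=
  Set.infinite_range_of_injective Int.cast_injective

theorem Span_choose {K : Type} [Field K] {M : ℕ} {lam : Fin M → K}
    (h : ∀ k, lam k ∈ Set.range (Int.cast : ℤ → K)) :
    ∃ l : Fin M → ℤ, ∀ k, lam k = (l k : K) := by
  choose l hl using h
  exact ⟨l, fun k => (hl k).symm⟩

/-- The same with integer points. -/
theorem span_neZ {K Ω : Type} [Field K] [CharZero K] [Field Ω] [Algebra K Ω] {M : ℕ}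
    (p : MvPolynomial (Fin M) Ω) (hp : p ≠ 0) :
    Submodule.span K {lam : Fin M → K | (∃ l : Fin M → ℤ, ∀ k, lam k = (l k : K)) ∧
      eval (fun k => algebraMap K Ω (lam k)) p ≠ 0} = ⊤ := by
  rw [eq_top_iff, ← Span_gen _ Span_int p hp]
  exact Submodule.span_mono fun lam h => ⟨Span_choose h.1, h.2⟩

/-- Two non-proportional vectors are separated by most linear forms, in the following sense. -/
theorem sep_ne {Ω : Type} [Field Ω] {M : ℕ} (P P' : Fin M → Ω) (hP : P ≠ 0) (hP' : P' ≠ 0)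
    (hPP : ∀ c : Ω, P' ≠ c • P) (c c' : Ω) (hc : c ≠ 0) (hc' : c' ≠ 0) (e : ℕ) (he : 1 ≤ e) :
    (∑ k, C (P k) * X k) ^ e * C c' - (∑ k, C (P' k) * X k) ^ e * C c ≠
      (0 : MvPolynomial (Fin M) Ω) := by
  intro h0
  obtain ⟨j, hj⟩ : ∃ j, P j ≠ 0 := by
    by_contra h
    push Not at h
    exact hP (funext h)
  obtain ⟨k, hk⟩ : ∃ k, P j * P' k - P k * P' j ≠ 0 := by
    by_contra h
    push Not at h
    refine hPP (P' j / P j) (funext fun k => ?_)
    rw [Pi.smul_apply, smul_eq_mul]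
    have := h k
    field_simp
    linear_combination this
  have h1 := congrArg (eval (Pi.single k (P j) - Pi.single j (P k) : Fin M → Ω)) h0
  have h2 : ∀ A : Fin M → Ω, eval (Pi.single k (P j) - Pi.single j (P k) : Fin M → Ω)
      (∑ i, C (A i) * X i) = A k * P j - A j * P k := by
    intro A
    simp only [map_sum, map_mul, eval_C, eval_X, Pi.sub_apply, mul_sub, Finset.sum_sub_distrib]
    simp [Pi.single_apply]
  simp only [map_sub, map_mul, map_pow, eval_C, map_zero, h2] at h1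
  have h3 : P k * P j - P j * P k = 0 := by ring
  rw [h3, zero_pow (by omega), zero_mul, zero_sub, neg_eq_zero] at h1
  rcases mul_eq_zero.mp h1 with h | h
  · have h4 := pow_eq_zero_iff (by omega : e ≠ 0) |>.mp h
    apply hk
    linear_combination h4
  · exact hc h

/-- Finitely many pairs of points, with coefficients in an infinite set. -/
theorem Span_good {K Ω : Type} [Field K] [Field Ω] [Algebra K Ω] (S : Set K) (hS : S.Infinite)
    {N : ℕ} {ι : Type} [Fintype ι] (P P' : ι → Fin (N + 1) → Ω) (hP : ∀ i, P i ≠ 0)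
    (hP' : ∀ i, P' i ≠ 0) (hPP : ∀ i, ∀ c : Ω, P' i ≠ c • P i) (c c' : ι → Ω)
    (hc : ∀ i, c i ≠ 0) (hc' : ∀ i, c' i ≠ 0) (e : ι → ℕ) (he : ∀ i, 1 ≤ e i) :
    Submodule.span K {lam : Fin (N + 1) → K | (∀ k, lam k ∈ S) ∧ ∀ i,
      lin lam (P i) ^ e i * c' i ≠ lin lam (P' i) ^ e i * c i} = ⊤ := by
  have hp : (∏ i, ((∑ k, C (P i k) * X k) ^ e i * C (c' i) -
      (∑ k, C (P' i k) * X k) ^ e i * C (c i)) : MvPolynomial (Fin (N + 1)) Ω) ≠ 0 :=
    Finset.prod_ne_zero_iff.mpr fun i _ =>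
      sep_ne (P i) (P' i) (hP i) (hP' i) (hPP i) (c i) (c' i) (hc i) (hc' i) (e i) (he i)
  rw [eq_top_iff, ← Span_gen S hS _ hp]
  refine Submodule.span_mono fun lam h => ⟨h.1, fun i h1 => h.2 ?_⟩
  rw [map_prod]
  refine Finset.prod_eq_zero (Finset.mem_univ i) ?_
  have h2 : ∀ A : Fin (N + 1) → Ω, eval (fun k => algebraMap K Ω (lam k))
      (∑ k, C (A k) * X k) = lin lam A := by
    intro A
    simp only [map_sum, map_mul, eval_C, eval_X, lin]
    exact Finset.sum_congr rfl fun k _ => mul_comm _ _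
  rw [map_sub, map_mul, map_mul, map_pow, map_pow, h2, h2, eval_C, eval_C, h1, sub_self]

/-- Finitely many pairs of points. -/
theorem good_span {K Ω : Type} [Field K] [Infinite K] [Field Ω] [Algebra K Ω] {N : ℕ} {ι : Type}
    [Fintype ι] (P P' : ι → Fin (N + 1) → Ω) (hP : ∀ i, P i ≠ 0) (hP' : ∀ i, P' i ≠ 0)
    (hPP : ∀ i, ∀ c : Ω, P' i ≠ c • P i) (c c' : ι → Ω) (hc : ∀ i, c i ≠ 0) (hc' : ∀ i, c' i ≠ 0)
    (e : ι → ℕ) (he : ∀ i, 1 ≤ e i) :
    Submodule.span K {lam : Fin (N + 1) → K | ∀ i,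
      lin lam (P i) ^ e i * c' i ≠ lin lam (P' i) ^ e i * c i} = ⊤ := by
  rw [eq_top_iff, ← Span_good (Set.univ : Set K) Set.infinite_univ P P' hP hP' hPP c c' hc hc' e he]
  exact Submodule.span_mono fun lam h => h.2

/-- Finitely many pairs of points, integer linear forms. -/
theorem good_spanZ {K Ω : Type} [Field K] [CharZero K] [Field Ω] [Algebra K Ω] {N : ℕ} {ι : Type}
    [Fintype ι] (P P' : ι → Fin (N + 1) → Ω) (hP : ∀ i, P i ≠ 0) (hP' : ∀ i, P' i ≠ 0)
    (hPP : ∀ i, ∀ c : Ω, P' i ≠ c • P i) (c c' : ι → Ω) (hc : ∀ i, c i ≠ 0) (hc' : ∀ i, c' i ≠ 0)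
    (e : ι → ℕ) (he : ∀ i, 1 ≤ e i) :
    Submodule.span K {lam : Fin (N + 1) → K |
      (∃ l : Fin (N + 1) → ℤ, ∀ k, lam k = (l k : K)) ∧ ∀ i,
      lin lam (P i) ^ e i * c' i ≠ lin lam (P' i) ^ e i * c i} = ⊤ := by
  rw [eq_top_iff, ← Span_good _ Span_int P P' hP hP' hPP c c' hc hc' e he]
  exact Submodule.span_mono fun lam h => ⟨Span_choose h.1, h.2⟩

end Pool.Agent.Helper10.TD
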