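import Pool.Agent.Helper10.TD.RelL
import Pool.Agent.Helper10.TD.Span

/-!
# Independent units: all linear forms

`{lam | RelL 𝒰 w lam}` is a subspace: sums by cross-multiplication (`A A'` is not zero, `K[w]` is a
domain), scalars, `0`. For every `a` with `TwoP Ω J₀ F (univ.erase a)` choose two points; `F a` does not
vanish at them by `h.hempty`; the forms of `good_spanZ` (`ι = {a // TwoP ..}`, `e = d`,
`c i = F a (P)`, `c' i = F a (P')`) satisfy `hgood` of `relL_good`, and they span.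
-/

set_option autoImplicit false
set_option linter.unusedSectionVars false

namespace Pool.Agent.Helper10.TD

open Pool.Agent.Helper10.Sub Pool.Agent.Helper38.TP Pool.Agent.Helper38.TN MvPolynomial

section aux
variable {K : Type} [Field K] {n r : ℕ}

section coll
variable {c : Fin (n + 1) → Fin r → ℤ} {w : Fin (n + 1) → K} {t : Fin r → K}
  {κ : Fin (n + 1) → K}

/-- The exponents of `p` in the units `t`. -/
noncomputable def supc (c : Fin (n + 1) → Fin r → ℤ) (p : MvPolynomial (Fin (n + 1)) K) :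
    Finset (Fin r → ℤ) := p.support.image fun e => cc c fun i => e i

/-- The coefficients of `p` in the units `t`. -/
noncomputable def coll (c : Fin (n + 1) → Fin r → ℤ) (κ : Fin (n + 1) → K)
    (p : MvPolynomial (Fin (n + 1)) K) (α : Fin r → ℤ) : K :=
  ∑ e ∈ p.support.filter fun e => cc c (fun i => e i) = α, p.coeff e * ∏ i, κ i ^ e i

lemma eval_coll (ht : ∀ j, t j ≠ 0) (hrel : ∀ i, w i = κ i * (w 0 * mono t (c i)))
    {m : ℕ} {p : MvPolynomial (Fin (n + 1)) K} (hp : p.IsHomogeneous m) :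
    eval w p = w 0 ^ m * ∑ α ∈ supc c p, coll c κ p α * mono t α := by
  have h1 : ∑ α ∈ supc c p, coll c κ p α * mono t α =
      ∑ e ∈ p.support, p.coeff e * (∏ i, κ i ^ e i) * mono t (cc c fun i => e i) := by
    rw [← Finset.sum_fiberwise_of_maps_to (s := p.support) (t := supc c p)
      (g := fun e => cc c fun i => e i) (fun e he => Finset.mem_image_of_mem _ he)]
    refine Finset.sum_congr rfl fun α _ => ?_
    rw [coll, Finset.sum_mul]
    refine Finset.sum_congr rfl fun e he => ?_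
    rw [(Finset.mem_filter.mp he).2]
  rw [h1, eval_eq', Finset.mul_sum]
  refine Finset.sum_congr rfl fun e he => ?_
  have h2 : ∏ i, w i ^ e i =
      (∏ i, κ i ^ e i) * (w 0 ^ (∑ i, e i) * mono t (cc c fun i => e i)) := by
    unfold cc
    rw [mono_sum _ ht, ← Finset.prod_pow_eq_pow_sum, ← Finset.prod_mul_distrib,
      ← Finset.prod_mul_distrib]
    refine Finset.prod_congr rfl fun i _ => ?_
    rw [mono_nsmul, ← mul_pow, ← mul_pow, ← hrel i]
  have h3 : ∑ i, e i = m := by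
    have h4 := hp (mem_support_iff.mp he)
    rw [Finsupp.weight_apply, Finsupp.sum_fintype _ _ (by simp)] at h4
    simpa using h4
  rw [h2, h3]
  ring

end coll

end aux

variable {K : Type} [Field K] [CharZero K] {Λ : Type} [Fintype Λ] [DecidableEq Λ] {L : Λ → Type}
  [∀ s, NontriviallyNormedField (L s)] [∀ s, ProperSpace (L s)] [∀ s, Algebra K (L s)] {N n : ℕ}
  {Ω : Type} [Field Ω] [IsAlgClosed Ω] [Algebra K Ω]

theorem relL_all {Z : MP K L} {𝒰 : Ultrafilter (Fin (N + 1) → K)}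
    (h𝒰 : ∀ A ∈ 𝒰, A.Infinite) {J₀ : Set (MvPolynomial (Fin (N + 1)) K)}
    {F : Fin (n + 1) → MvPolynomial (Fin (N + 1)) K} {d : Fin (n + 1) → ℕ} {Dc : Fin (n + 1) → K}
    {w : (Fin (N + 1) → K) → Fin (n + 1) → K} {C₁ ε C₂ : ℝ} {E : Set (Fin (N + 1) → K)}
    (h : PtsD Ω Z (ultLN 𝒰 h𝒰) J₀ F d Dc w C₁ ε C₂ E)
    (hind : ∀ (m : ℕ) (p : MvPolynomial (Fin (n + 1)) K), p.IsHomogeneous m →
      {x | eval (w x) p = 0} ∈ 𝒰 → p = 0) (lam : Fin (N + 1) → K) :
    RelL 𝒰 w lam := by
  classical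
  let S : Submodule K (Fin (N + 1) → K) :=
    { carrier := {lam | RelL 𝒰 w lam}
      zero_mem' := by
        refine ⟨0, 1, 0, isHomogeneous_one _ _, isHomogeneous_zero _ _ _, one_ne_zero, ?_⟩
        have h1 : {x : Fin (N + 1) → K | lin (0 : Fin (N + 1) → K) x *
            eval (w x) (1 : MvPolynomial (Fin (n + 1)) K) =
            eval (w x) (0 : MvPolynomial (Fin (n + 1)) K)} = Set.univ := by
          ext x
          simp [lin]
        rw [h1]
        exact Filter.univ_mem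
      add_mem' := by
        rintro a b ⟨m, A, B, hA, hB, hA0, h1⟩ ⟨m', A', B', hA', hB', hA0', h2⟩
        refine ⟨m + m', A * A', B * A' + B' * A, hA.mul hA', ?_, mul_ne_zero hA0 hA0', ?_⟩
        · refine IsHomogeneous.add ?_ ?_
          · have h3 := hB.mul hA'
            rwa [show m + 1 + m' = m + m' + 1 by ring] at h3
          · have h3 := hB'.mul hA
            rwa [show m' + 1 + m = m + m' + 1 by ring] at h3
        · filter_upwards [h1, h2] with x hx hx'
          have h3 : lin (a + b) x = lin a x + lin b x := by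
            simp [lin, add_mul, Finset.sum_add_distrib]
          have hx1 : lin a x * eval (w x) A = eval (w x) B := hx
          have hx1' : lin b x * eval (w x) A' = eval (w x) B' := hx'
          change lin (a + b) x * eval (w x) (A * A') = eval (w x) (B * A' + B' * A)
          rw [h3, map_mul, map_add, map_mul, map_mul]
          linear_combination eval (w x) A' * hx1 + eval (w x) A * hx1'
      smul_mem' := by
        rintro a b ⟨m, A, B, hA, hB, hA0, h1⟩
        refine ⟨m, A, C a * B, hA, ?_, hA0, ?_⟩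
        · have h3 := (isHomogeneous_C (Fin (n + 1)) a).mul hB
          rwa [zero_add] at h3
        · filter_upwards [h1] with x hx
          have h3 : lin (a • b) x = a * lin b x := by
            simp [lin, Finset.mul_sum, mul_assoc]
          have hx1 : lin b x * eval (w x) A = eval (w x) B := hx
          change lin (a • b) x * eval (w x) A = eval (w x) (C a * B)
          rw [h3, map_mul, eval_C]
          linear_combination a * hx1 }
  have hT : ∀ a : {a // TwoP Ω J₀ F (Finset.univ.erase a)}, ∃ P P' : Fin (N + 1) → Ω,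
      P ≠ 0 ∧ P' ≠ 0 ∧ OnV J₀ P ∧ OnV J₀ P' ∧
      (∀ i ∈ Finset.univ.erase a.1, aeval P (F i) = 0) ∧
      (∀ i ∈ Finset.univ.erase a.1, aeval P' (F i) = 0) ∧ ∀ c : Ω, P' ≠ c • P :=
    fun a => a.2.2
  choose P P' hP hP' hV hV' hz hz' hPP using hT
  have hne : ∀ a : {a // TwoP Ω J₀ F (Finset.univ.erase a)}, ∀ Q : Fin (N + 1) → Ω, Q ≠ 0 →
      OnV J₀ Q → (∀ i ∈ Finset.univ.erase a.1, aeval Q (F i) = 0) → aeval Q (F a.1) ≠ 0 := by
    intro a Q hQ hQV hQz h0
    refine hQ (h.hempty Q hQV fun i => ?_)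
    by_cases hi : i = a.1
    · rw [hi]; exact h0
    · exact hQz i (Finset.mem_erase.mpr ⟨hi, Finset.mem_univ i⟩)
  have hspan := good_spanZ (K := K) (Ω := Ω) P P' hP hP' hPP
    (fun a => aeval (P a) (F a.1)) (fun a => aeval (P' a) (F a.1))
    (fun a => hne a (P a) (hP a) (hV a) (hz a))
    (fun a => hne a (P' a) (hP' a) (hV' a) (hz' a)) (fun a => d a.1) (fun a => h.hd a.1)
  have hle : (⊤ : Submodule K (Fin (N + 1) → K)) ≤ S := by
    rw [← hspan, Submodule.span_le]
    rintro lam' ⟨hZ', hg⟩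
    refine relL_good h𝒰 h hind lam' hZ' fun a ha => ?_
    exact ⟨P ⟨a, ha⟩, P' ⟨a, ha⟩, hP _, hP' _, hV _, hV' _,
      fun i hi => hz ⟨a, ha⟩ i (Finset.mem_erase.mpr ⟨hi, Finset.mem_univ i⟩),
      fun i hi => hz' ⟨a, ha⟩ i (Finset.mem_erase.mpr ⟨hi, Finset.mem_univ i⟩), hg ⟨a, ha⟩⟩
  exact hle (Submodule.mem_top (x := lam))

/-- The relations for the coordinates, in terms of independent units `t`. Substitute
`w i = κ i * (w 0 * t ^ c i)` in the forms `A`, `B` of `RelL` for `lam = Pi.single k 1` (collect the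
monomials with the same `cc c m`, compare `mon_cc` in `Helper38/TN/RelN.lean`) and divide by
`w 0 ^ m`; the new coefficients of `A` are not all zero, because `A(w) = 0` on a set of `𝒰` is
excluded by `hind`. -/
theorem relL_hasRel {𝒰 : Ultrafilter (Fin (N + 1) → K)}
    {w : (Fin (N + 1) → K) → Fin (n + 1) → K} {E : Set (Fin (N + 1) → K)} (hE : E ∈ 𝒰)
    (hw : ∀ x ∈ E, ∀ i, w x i ≠ 0)
    (hind : ∀ (m : ℕ) (p : MvPolynomial (Fin (n + 1)) K), p.IsHomogeneous m →
      {x | eval (w x) p = 0} ∈ 𝒰 → p = 0) {r : ℕ} (t : (Fin (N + 1) → K) → Fin r → K)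
    (ht : ∀ x ∈ E, ∀ j, t x j ≠ 0) (κ : Fin (n + 1) → K) (c : Fin (n + 1) → Fin r → ℤ)
    (hrel : ∀ x ∈ E, ∀ i, w x i = κ i * (w x 0 * mono (t x) (c i))) (k : Fin (N + 1))
    (h : RelL 𝒰 w (Pi.single k 1)) :
    ∃ (SA SB : Finset (Fin r → ℤ)) (A B : (Fin r → ℤ) → K), (∃ α ∈ SA, A α ≠ 0) ∧
      {x | x k * ∑ α ∈ SA, A α * mono (t x) α = w x 0 * ∑ β ∈ SB, B β * mono (t x) β} ∈ 𝒰 := by
  obtain ⟨m, A, B, hA, hB, hA0, h1⟩ := h
  refine ⟨supc c A, supc c B, coll c κ A, coll c κ B, ?_, ?_⟩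
  · by_contra hcon
    push Not at hcon
    refine hA0 (hind m A hA ?_)
    filter_upwards [hE] with x hx
    rw [eval_coll (ht x hx) (hrel x hx) hA, Finset.sum_eq_zero fun α hα => by
      rw [hcon α hα, zero_mul], mul_zero]
  · filter_upwards [hE, h1] with x hx hx'
    have hx1 : lin (Pi.single k (1 : K)) x * eval (w x) A = eval (w x) B := hx'
    change x k * ∑ α ∈ supc c A, coll c κ A α * mono (t x) α =
      w x 0 * ∑ β ∈ supc c B, coll c κ B β * mono (t x) β
    have h2 : lin (Pi.single k (1 : K)) x = x k := by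
      simp [lin, Pi.single_apply]
    rw [h2, eval_coll (ht x hx) (hrel x hx) hA, eval_coll (ht x hx) (hrel x hx) hB] at hx1
    refine mul_left_cancel₀ (pow_ne_zero m (hw x hx 0)) ?_
    linear_combination hx1

/-- Independence of the units from the independence of `t` (`mono_lin` for the largeness notion
`ultLN 𝒰 h𝒰`) and the injectivity of `m ↦ cc c m` on the monomials of the same degree
(first alternative of `dich`). -/
theorem hind_of_inj {Z : MP K L} {𝒰 : Ultrafilter (Fin (N + 1) → K)}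
    (h𝒰 : ∀ A ∈ 𝒰, A.Infinite) {w : (Fin (N + 1) → K) → Fin (n + 1) → K}
    {E : Set (Fin (N + 1) → K)} (hE : E ∈ 𝒰) (hw : ∀ x ∈ E, ∀ i, w x i ≠ 0) {r : ℕ}
    (t : (Fin (N + 1) → K) → Fin r → K) (ht : ∀ x ∈ E, ∀ j, Z.U (t x j))
    (hti : ∀ e : Fin r → ℤ, e ≠ 0 → ∀ κ' : K, {x | x ∈ E ∧ mono (t x) e = κ'} ∉ 𝒰)
    (κ : Fin (n + 1) → K) (c : Fin (n + 1) → Fin r → ℤ)
    (hrel : ∀ x ∈ E, ∀ i, w x i = κ i * (w x 0 * mono (t x) (c i)))
    (hinj : ∀ m m' : Fin (n + 1) → ℕ, ∑ i, m i = ∑ i, m' i → cc c m = cc c m' → m = m')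
    (m : ℕ) (p : MvPolynomial (Fin (n + 1)) K) (hp : p.IsHomogeneous m)
    (h : {x | eval (w x) p = 0} ∈ 𝒰) : p = 0 := by
  have hE' : E ∩ {x | eval (w x) p = 0} ∈ 𝒰 := Filter.inter_mem hE h
  obtain ⟨x₀, hx₀⟩ := 𝒰.nonempty_of_mem hE
  have hκ : ∀ i, κ i ≠ 0 := fun i h0 => hw x₀ hx₀ i (by rw [hrel x₀ hx₀ i, h0, zero_mul])
  have h1 : ∀ γ ∈ supc c p, coll c κ p γ = 0 := by
    refine mono_lin Z (ultLN 𝒰 h𝒰) t (E ∩ {x | eval (w x) p = 0}) hE'
      (fun x hx j => ht x hx.1 j) (fun e he κ' hbig => ?_) (supc c p) (coll c κ p) ?_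
    · refine hti e he κ' (Filter.mem_of_superset (show _ ∈ 𝒰 from hbig) ?_)
      rintro x ⟨hx, hx'⟩
      exact ⟨hx.1, hx'⟩
    · rintro x ⟨hx, hx'⟩
      have h2 : eval (w x) p = 0 := hx'
      rw [eval_coll (fun j => (ht x hx j).ne) (hrel x hx) hp] at h2
      exact (mul_eq_zero.mp h2).resolve_left (pow_ne_zero m (hw x hx 0))
  by_contra hp0
  obtain ⟨e, he⟩ := Finset.nonempty_iff_ne_empty.mpr fun h => hp0 (support_eq_empty.mp h)
  have hdeg : ∀ e ∈ p.support, ∑ i, e i = m := by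
    intro e he
    have h4 := hp (mem_support_iff.mp he)
    rw [Finsupp.weight_apply, Finsupp.sum_fintype _ _ (by simp)] at h4
    simpa using h4
  have h2 := h1 (cc c fun i => e i) (Finset.mem_image_of_mem _ he)
  rw [coll, Finset.sum_eq_single e] at h2
  · rcases mul_eq_zero.mp h2 with h3 | h3
    · exact mem_support_iff.mp he h3
    · exact Finset.prod_ne_zero_iff.mpr (fun i _ => pow_ne_zero _ (hκ i)) h3
  · intro e' he' hne
    obtain ⟨he1, he2⟩ := Finset.mem_filter.mp he'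
    exact absurd (Finsupp.ext fun i => congrFun
      (hinj (fun i => e' i) (fun i => e i) ((hdeg e' he1).trans (hdeg e he).symm) he2) i) hne
  · intro h3
    exact (h3 (Finset.mem_filter.mpr ⟨he, rfl⟩)).elim

end Pool.Agent.Helper10.TD
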