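import Pool.Agent.Helper10.TD.CaseB
import Pool.Agent.Helper10.TD.RelLAll
import Pool.Agent.Helper10.TD.CoreOf2

/-!
# No large sets of points near corners on surfaces, with two-point corners
-/

set_option autoImplicit false
set_option linter.unusedSectionVars false

namespace Pool.Agent.Helper10.TD

open Pool.Agent.Helper10.Sub Pool.Agent.Helper38.TP Pool.Agent.Helper38.TN MvPolynomial

lemma mono_zsmul' {K : Type} [Field K] {r : ℕ} (t : Fin r → K) (z : ℤ) (γ : Fin r → ℤ) :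
    mono t (z • γ) = mono t γ ^ z := by
  rw [mono, mono, ← Finset.prod_zpow]
  refine Finset.prod_congr rfl fun j _ => ?_
  rw [Pi.smul_apply, smul_eq_mul, mul_comm, zpow_mul]

lemma mono_one' {K : Type} [Field K] (s : K) (e : Fin 1 → ℤ) :
    mono (fun _ : Fin 1 => s) e = s ^ e 0 := by
  rw [mono, Fin.prod_univ_one]

lemma poly_mono {K : Type} [Field K] (A : Polynomial K) (s : K) :
    ∑ α ∈ (Finset.range (A.natDegree + 1)).image (fun (i : ℕ) (_ : Fin 1) => (i : ℤ)),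
      A.coeff (α 0).toNat * mono (fun _ : Fin 1 => s) α = A.eval s := by
  classical
  rw [Finset.sum_image, Polynomial.eval_eq_sum_range]
  · refine Finset.sum_congr rfl fun i _ => ?_
    rw [mono_one', Int.toNat_natCast, zpow_natCast]
  · intro i _ j _ hij
    have h1 : (i : ℤ) = (j : ℤ) := congrFun hij 0
    exact_mod_cast h1

variable {K : Type} [Field K] [CharZero K] {Λ : Type} [Fintype Λ] [DecidableEq Λ] {L : Λ → Type}
  [∀ s, NontriviallyNormedField (L s)] [∀ s, ProperSpace (L s)] [∀ s, Algebra K (L s)] {N : ℕ}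
  {Ω : Type} [Field Ω] [IsAlgClosed Ω] [Algebra K Ω]

theorem coreD {Z : MP K L} {J₀ : Set (MvPolynomial (Fin (N + 1)) K)}
    {F : Fin (2 + 1) → MvPolynomial (Fin (N + 1)) K} {d : Fin (2 + 1) → ℕ} {Dc : Fin (2 + 1) → K}
    {w : (Fin (N + 1) → K) → Fin (2 + 1) → K} {C₁ ε C₂ : ℝ} {E : Set (Fin (N + 1) → K)}
    (h : PtsD Ω Z (bigN J₀ F d) J₀ F d Dc w C₁ ε C₂ E) : False := by
  classical
  set 𝔅 := bigN J₀ F d with h𝔅
  have hnc : ∀ κ : Fin (2 + 1) → K, ¬ 𝔅.Big {x | x ∈ E ∧ ∀ i, w x i = κ i * w x 0} := by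
    intro κ hκ
    have h' := (h.toE le_rfl).mono (fun x hx => hx.1) hκ
    obtain ⟨B, hB⟩ := ht_prop (Z := Z) {x | x ∈ E ∧ ∀ i, w x i = κ i * w x 0} h'.unit
      (fun x hx => h.low x hx.1) h.hC₁ κ (fun x hx i => hx.2 i)
    obtain ⟨x, hx, hxB⟩ := 𝔅.nonempty (h'.large (B + 1))
    linarith [hB x hx]
  obtain ⟨E₁, hE₁, hB₁, r, t, κ₁, c₁, hr, htU, hκ₁, hind⟩ := exists_indep Z 𝔅
    (fun x (i : Fin 2) => w x i.succ / w x 0) E h.big
    (fun x hx i => (h.unit x hx i.succ).div (h.unit x hx 0))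
  set κ : Fin (2 + 1) → K := Fin.cons 1 κ₁ with hκ
  set c : Fin (2 + 1) → Fin r → ℤ := Fin.cons 0 c₁ with hc
  have hc0 : c 0 = 0 := by rw [hc, Fin.cons_zero]
  have hpar : Par Z 𝔅 w t κ c E₁ := by
    refine ⟨htU, hind, fun x hx i => ?_⟩
    refine Fin.cases ?_ (fun i => ?_) i
    · rw [hκ, hc, Fin.cons_zero, Fin.cons_zero, mono_zero, one_mul, mul_one]
    · rw [hκ, hc, Fin.cons_succ, Fin.cons_succ]
      have h1 := hκ₁ x hx i
      rw [div_eq_iff (h.unit x (hE₁ hx) 0).ne] at h1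
      rw [h1]
      ring
  obtain ⟨𝒰, hE₁𝒰, h𝒰B⟩ := exists_ultra 𝔅 E₁ hB₁
  have h𝒰 : ∀ A ∈ 𝒰, A.Infinite := fun A hA => 𝔅.inf (h𝒰B A hA)
  have hU : PtsD Ω Z (ultLN 𝒰 h𝒰) J₀ F d Dc w C₁ ε C₂ E₁ := h.chg hE₁ hE₁𝒰
  have hti : ∀ e : Fin r → ℤ, e ≠ 0 → ∀ κ' : K, {x | x ∈ E₁ ∧ mono (t x) e = κ'} ∉ 𝒰 :=
    fun e he κ' hh => hind e he κ' (h𝒰B _ hh)
  rcases dich c hc0 with hinj | ⟨γ, p, hp0, hcp⟩
  · -- independent units
    have hin : ∀ (m : ℕ) (q : MvPolynomial (Fin (2 + 1)) K), q.IsHomogeneous m →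
        {x | eval (w x) q = 0} ∈ 𝒰 → q = 0 := fun m q hq h0 =>
      hind_of_inj (Z := Z) h𝒰 hE₁𝒰 (fun x hx i => (h.unit x (hE₁ hx) i).ne) t htU hti κ c hpar.rel
        hinj m q hq h0
    have hrel : ∀ k, ∃ (SA SB : Finset (Fin r → ℤ)) (A B : (Fin r → ℤ) → K),
        (∃ α ∈ SA, A α ≠ 0) ∧ {x | x k * ∑ α ∈ SA, A α * mono (t x) α =
          w x 0 * ∑ β ∈ SB, B β * mono (t x) β} ∈ 𝒰 := fun k =>
      relL_hasRel hE₁𝒰 (fun x hx i => (h.unit x (hE₁ hx) i).ne) hin t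
        (fun x hx j => (htU x hx j).ne) κ c hpar.rel k (relL_all h𝒰 hU hin _)
    choose SA SB A B hA hset using hrel
    set E₂ : Set (Fin (N + 1) → K) := E₁ ∩ ⋂ k, {x | x k * ∑ α ∈ SA k, A k α * mono (t x) α =
          w x 0 * ∑ β ∈ SB k, B k β * mono (t x) β} with hE₂
    have hE₂𝒰 : E₂ ∈ 𝒰 := Filter.inter_mem hE₁𝒰 (Filter.iInter_mem.2 hset)
    exact core_of2 Z J₀ h.hJ₀ F d h.hd h.hF Dc h.hD h.hempty E w h.unit h.ev h.onV hnc r hr t κ c
      hc0 E₂ (fun x hx => hE₁ hx.1) (h𝒰B _ hE₂𝒰) (hpar.mono' fun x hx => hx.1)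
      (fun k => ⟨SA k, SB k, A k, B k, hA k, fun x hx => Set.mem_iInter.1 hx.2 k⟩)
  · -- one unit
    have hex : ∃ i, c i ≠ 0 := by
      by_contra hcon
      push Not at hcon
      apply hnc κ
      refine 𝔅.mono (fun x hx => ⟨hE₁ hx, fun i => ?_⟩) hB₁
      have h1 := hpar.rel x hx i
      rw [hcon i, mono_zero, mul_one] at h1
      exact h1
    obtain ⟨i₁, hi₁⟩ := hex
    have hγ : γ ≠ 0 := by
      intro h0
      apply hi₁
      rw [hcp, h0, smul_zero]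
    have hpi : p i₁ ≠ 0 := by
      intro h0
      apply hi₁
      rw [hcp, h0, zero_smul]
    obtain ⟨x₀, hx₀⟩ := 𝔅.nonempty hB₁
    have hκne : ∀ i, κ i ≠ 0 := by
      intro i h0
      have h1 := hpar.rel x₀ hx₀ i
      rw [h0, zero_mul] at h1
      exact (h.unit x₀ (hE₁ hx₀) i).ne h1
    have hτrel : ∀ x ∈ E₁, ∀ i, w x i = κ i * (w x 0 * mono (t x) γ ^ p i) := by
      intro x hx i
      rw [← mono_zsmul', ← hcp]
      exact hpar.rel x hx i
    obtain ⟨m, κ', s, E', hm, hκ', hE', hE'𝒰, hs, hR⟩ := caseB hU (fun x => mono (t x) γ) κ p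
      (fun x hx => U_mono (htU x hx) γ) hκne hτrel hp0 ⟨i₁, hpi⟩ (by
        intro κ' h0
        apply hti γ hγ κ'
        exact Filter.inter_mem hE₁𝒰 h0)
    have hm0 : (m : ℤ) ≠ 0 := by
      have : m ≠ 0 := by omega
      exact_mod_cast this
    refine core_of2 Z J₀ h.hJ₀ F d h.hd h.hF Dc h.hD h.hempty E w h.unit h.ev h.onV hnc 1
      (by norm_num) (fun x _ => s x) (fun i => κ i * κ' ^ p i) (fun i _ => p i * m) ?_ E'
      (fun x hx => hE₁ (hE' hx)) (h𝒰B _ hE'𝒰) ⟨fun x hx _ => (hs x hx).1, ?_, ?_⟩ ?_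
    · funext j
      rw [hp0, zero_mul]
      rfl
    · intro e he κ₀ hB
      have he0 : e 0 ≠ 0 := by
        intro h0
        apply he
        funext j
        have : j = 0 := Subsingleton.elim _ _
        rw [this, h0]
        rfl
      have heγ : e 0 • γ ≠ 0 := smul_ne_zero he0 hγ
      apply hind (e 0 • γ) heγ (κ' ^ e 0 * κ₀ ^ (m : ℤ))
      refine 𝔅.mono ?_ hB
      rintro x ⟨hx, hx2⟩
      refine ⟨hE' hx, ?_⟩
      rw [mono_one'] at hx2
      rw [mono_zsmul', (hs x hx).2, mul_zpow, ← hx2, ← zpow_natCast, ← zpow_mul, ← zpow_mul,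
        mul_comm (m : ℤ)]
    · intro x hx i
      rw [mono_one']
      exact rel_root (hτrel x (hE' hx) i) (hs x hx).2
    · intro k
      obtain ⟨A, B, hA, hAB⟩ := hR k
      refine ⟨(Finset.range (A.natDegree + 1)).image (fun (i : ℕ) (_ : Fin 1) => (i : ℤ)),
        (Finset.range (B.natDegree + 1)).image (fun (i : ℕ) (_ : Fin 1) => (i : ℤ)),
        fun α => A.coeff (α 0).toNat, fun α => B.coeff (α 0).toNat, ?_, fun x hx => ?_⟩
      · refine ⟨fun _ => (A.natDegree : ℤ), Finset.mem_image.2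
          ⟨A.natDegree, Finset.mem_range.2 (Nat.lt_succ_self _), rfl⟩, ?_⟩
        change A.coeff (A.natDegree : ℤ).toNat ≠ 0
        rw [Int.toNat_natCast]
        exact Polynomial.leadingCoeff_ne_zero.2 hA
      · rw [poly_mono, poly_mono, mul_comm]
        exact hAB x hx

end Pool.Agent.Helper10.TD
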