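import Mathlib

/-!
# Project TD: polynomials in one variable over a polynomial ring, evaluated at a point
-/

set_option autoImplicit false

namespace Pool.Agent.Helper10.TD

open MvPolynomial

section ev
variable {κ L : Type} [Field κ] [Field L] [Algebra κ L] {σ : Type}

/-- The evaluation at `(z, ζ)`. -/
noncomputable def ev (z : σ → L) (ζ : L) : Polynomial (MvPolynomial σ κ) →+* L :=
  Polynomial.eval₂RingHom ((aeval z : MvPolynomial σ κ →ₐ[κ] L) : MvPolynomial σ κ →+* L) ζ

lemma ev_C (z : σ → L) (ζ : L) (g : MvPolynomial σ κ) :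
    ev z ζ (Polynomial.C g) = aeval z g := by
  simp [ev]

lemma ev_X (z : σ → L) (ζ : L) :
    ev z ζ (Polynomial.X : Polynomial (MvPolynomial σ κ)) = ζ := by
  simp [ev]

lemma ev_eq_sum (z : σ → L) (ζ : L) (G : Polynomial (MvPolynomial σ κ)) {m : ℕ}
    (hm : G.natDegree < m) :
    ev z ζ G = ∑ i ∈ Finset.range m, aeval z (G.coeff i) * ζ ^ i := by
  change Polynomial.eval₂ _ ζ G = _
  rw [Polynomial.eval₂_eq_sum_range' _ hm]
  rfl

lemma ev_monic (z : σ → L) (ζ : L) (G : Polynomial (MvPolynomial σ κ)) (hG : G.Monic) {D : ℕ}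
    (hD : G.natDegree = D) :
    ev z ζ G = ζ ^ D + ∑ i ∈ Finset.range D, aeval z (G.coeff i) * ζ ^ i := by
  rw [ev_eq_sum z ζ G (m := D + 1) (by omega), Finset.sum_range_succ, add_comm]
  have h : G.coeff D = 1 := by rw [← hD]; exact hG
  rw [h, map_one, one_mul]

end ev

/-- The value at `z = 0` of the coefficients. -/
noncomputable def res {κ : Type} [Field κ] {σ : Type} (G : Polynomial (MvPolynomial σ κ)) :
    Polynomial κ := G.map (constantCoeff : MvPolynomial σ κ →+* κ)

end Pool.Agent.Helper10.TD
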