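import Pool.Agent.Helper10.TD.MinH

/-!
# Relations over a rational function field inside a field

`RelP K s y δ`: `y` satisfies a non-zero polynomial relation of degree at most `δ` with coefficients
polynomials in `s`. `Tr K s`: `s` is transcendental, in elementary form.
-/

set_option autoImplicit false

namespace Pool.Agent.Helper10.TD

open Polynomial

section
variable (K : Type) {L : Type} [Field K] [Field L] [Algebra K L]

/-- Evaluation of a polynomial over `K[S]` at `S = s`, `X = y`. -/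
noncomputable def ev2 (s y : L) : Polynomial (Polynomial K) →+* L :=
  eval₂RingHom (eval₂RingHom (algebraMap K L) s) y

/-- `s` is transcendental over `K`. -/
def Tr (s : L) : Prop := ∀ p : Polynomial K, p.eval₂ (algebraMap K L) s = 0 → p = 0

/-- A non-zero relation of degree at most `δ`. -/
def RelP (s y : L) (δ : ℕ) : Prop :=
  ∃ P : Polynomial (Polynomial K), P ≠ 0 ∧ P.natDegree ≤ δ ∧ ev2 K s y P = 0

variable {K}

lemma ev2_eq_sum (s y : L) (P : Polynomial (Polynomial K)) {m : ℕ} (hm : P.natDegree < m) :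
    ev2 K s y P = ∑ i ∈ Finset.range m, (P.coeff i).eval₂ (algebraMap K L) s * y ^ i := by
  change Polynomial.eval₂ _ y P = _
  rw [Polynomial.eval₂_eq_sum_range' _ hm]
  rfl

lemma ev2_C (s y : L) (p : Polynomial K) :
    ev2 K s y (C p) = p.eval₂ (algebraMap K L) s := by
  simp [ev2]

lemma ev2_X (s y : L) : ev2 K s y X = y := by
  simp [ev2]

lemma relP_mono {s y : L} {δ δ' : ℕ} (hd : δ ≤ δ') (h : RelP K s y δ) : RelP K s y δ' := by
  obtain ⟨P, h1, h2, h3⟩ := h
  exact ⟨P, h1, h2.trans hd, h3⟩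

lemma integral_adjoin {s y : L} (hint : IsIntegral (Algebra.adjoin K {s}) y) :
    (eval₂RingHom (algebraMap K L) s).IsIntegralElem y := by
  obtain ⟨p, hp, hpy⟩ := hint
  -- the surjection onto the subalgebra
  have hmem : ∀ q : Polynomial K, aeval s q ∈ Algebra.adjoin K {s} := by
    intro q
    rw [Algebra.adjoin_singleton_eq_range_aeval]
    exact ⟨q, rfl⟩
  set g : Polynomial K →ₐ[K] Algebra.adjoin K {s} :=
    (aeval s : Polynomial K →ₐ[K] L).codRestrict _ hmem with hg
  have hgs : Function.Surjective (g : Polynomial K →+* Algebra.adjoin K {s}) := by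
    rintro ⟨x, hx⟩
    have hx' := hx
    rw [Algebra.adjoin_singleton_eq_range_aeval] at hx'
    obtain ⟨q, hq⟩ := hx'
    refine ⟨q, ?_⟩
    apply Subtype.ext
    exact hq
  have hl : p ∈ Polynomial.lifts (g : Polynomial K →+* Algebra.adjoin K {s}) := by
    rw [Polynomial.lifts_iff_coeff_lifts]
    intro n
    exact hgs _
  obtain ⟨q, hq1, -, hq2⟩ := Polynomial.lifts_and_natDegree_eq_and_monic hl hp
  refine ⟨q, hq2, ?_⟩
  rw [← hq1, eval₂_map] at hpy
  have hcomp : (algebraMap (Algebra.adjoin K {s}) L).comp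
      (g : Polynomial K →+* Algebra.adjoin K {s}) = eval₂RingHom (algebraMap K L) s := by
    ext x
    · simp [hg]
    · simp [hg]
  rw [hcomp] at hpy
  exact hpy

lemma tr_injective {s : L} (hs : Tr K s) :
    Function.Injective (eval₂RingHom (algebraMap K L) s) := by
  rw [injective_iff_map_eq_zero]
  intro p hp
  exact hs p hp

/-- Substitute `S ↦ κ S ^ m` in the coefficients (an injective homomorphism of `K[S]`). -/
theorem relP_root {s s' y : L} {κ : K} (hκ : κ ≠ 0) {m : ℕ} (hm : 1 ≤ m)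
    (hs : s = algebraMap K L κ * s' ^ m) {δ : ℕ} (h : RelP K s y δ) : RelP K s' y δ := by
  obtain ⟨P, h1, h2, h3⟩ := h
  set σ : Polynomial K →+* Polynomial K :=
    ((aeval (C κ * X ^ m) : Polynomial K →ₐ[K] Polynomial K) : Polynomial K →+* Polynomial K)
    with hσ
  have hnd : (C κ * X ^ m : Polynomial K).natDegree = m := natDegree_C_mul_X_pow m κ hκ
  have hinj : Function.Injective σ := by
    rw [injective_iff_map_eq_zero]
    intro p hp
    have hp' : p.comp (C κ * X ^ m) = 0 := hp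
    rcases (comp_eq_zero_iff.1 hp') with h | ⟨h, h'⟩
    · exact h
    · exfalso
      have := congr_arg natDegree h'
      rw [hnd, natDegree_C] at this
      omega
  refine ⟨P.map σ, ?_, (natDegree_map_le).trans h2, ?_⟩
  · intro h
    exact h1 ((Polynomial.map_eq_zero_iff hinj).1 h)
  · change Polynomial.eval₂ _ y (P.map σ) = 0
    rw [eval₂_map]
    have hcomp : (eval₂RingHom (algebraMap K L) s').comp σ = eval₂RingHom (algebraMap K L) s := by
      ext x
      · simp [hσ]
      · simp [hσ, hs]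
    rw [hcomp]
    exact h3

/-- A relation with Laurent polynomials as coefficients. -/
theorem relP_laurent_aux {s y : L} (hs : s ≠ 0) {δ : ℕ} (S : ℕ → Finset ℤ) (A : ℕ → ℤ → K)
    (hne : ∃ j ≤ δ, ∃ α ∈ S j, A j α ≠ 0)
    (h : ∑ j ∈ Finset.range (δ + 1), y ^ j * ∑ α ∈ S j, algebraMap K L (A j α) * s ^ α = 0) :
    RelP K s y δ := by
  obtain ⟨j0, hj0, α0, hα0, hA0⟩ := hne
  -- a large exponent
  obtain ⟨T, hT⟩ : ∃ T : ℕ, ∀ j ∈ Finset.range (δ + 1), ∀ α ∈ S j, 0 ≤ (T : ℤ) + α := by
    refine ⟨∑ j ∈ Finset.range (δ + 1), ∑ α ∈ S j, α.natAbs, ?_⟩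
    intro j hj α hα
    have h1 : α.natAbs ≤ ∑ α ∈ S j, α.natAbs :=
      Finset.single_le_sum (f := fun α : ℤ => α.natAbs) (fun _ _ => Nat.zero_le _) hα
    have h2 : ∑ α ∈ S j, α.natAbs ≤ ∑ j ∈ Finset.range (δ + 1), ∑ α ∈ S j, α.natAbs :=
      Finset.single_le_sum (f := fun j => ∑ α ∈ S j, α.natAbs) (fun _ _ => Nat.zero_le _) hj
    have h3 : (α.natAbs : ℤ) ≤ ((∑ j ∈ Finset.range (δ + 1), ∑ α ∈ S j, α.natAbs : ℕ) : ℤ) := by
      exact_mod_cast h1.trans h2
    have h4 : -(α.natAbs : ℤ) ≤ α := by omega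
    linarith
  set B : ℕ → Polynomial K := fun j => ∑ α ∈ S j, monomial ((T : ℤ) + α).toNat (A j α) with hB
  set P : Polynomial (Polynomial K) := ∑ j ∈ Finset.range (δ + 1), monomial j (B j) with hP
  have hPc : ∀ j, P.coeff j = if j < δ + 1 then B j else 0 := by
    intro j
    rw [hP, finsetSum_coeff]
    simp only [coeff_monomial]
    rw [Finset.sum_ite_eq']
    simp [Finset.mem_range]
  have hBev : ∀ j ∈ Finset.range (δ + 1), (B j).eval₂ (algebraMap K L) s =
      s ^ T * ∑ α ∈ S j, algebraMap K L (A j α) * s ^ α := by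
    intro j hj
    rw [hB]
    simp only
    rw [eval₂_finsetSum, Finset.mul_sum]
    refine Finset.sum_congr rfl fun α hα => ?_
    rw [eval₂_monomial]
    have h1 : s ^ ((T : ℤ) + α).toNat = s ^ T * s ^ α := by
      rw [← zpow_natCast s ((T : ℤ) + α).toNat, Int.toNat_of_nonneg (hT j hj α hα),
        zpow_add₀ hs, zpow_natCast]
    rw [h1]
    ring
  refine ⟨P, ?_, ?_, ?_⟩
  · intro h0
    have h1 := hPc j0
    rw [h0, coeff_zero, if_pos (by omega)] at h1
    have h2 : (B j0).coeff ((T : ℤ) + α0).toNat = A j0 α0 := by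
      rw [hB]
      simp only
      rw [finsetSum_coeff, Finset.sum_eq_single α0]
      · rw [coeff_monomial, if_pos rfl]
      · intro α hα hne
        rw [coeff_monomial, if_neg]
        intro h3
        apply hne
        have h4 := hT j0 (Finset.mem_range.2 (by omega)) α hα
        have h5 := hT j0 (Finset.mem_range.2 (by omega)) α0 hα0
        omega
      · intro h3; exact absurd hα0 h3
    rw [← h1, coeff_zero] at h2
    exact hA0 h2.symm
  · rw [natDegree_le_iff_coeff_eq_zero]
    intro N hN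
    rw [hPc, if_neg (by omega)]
  · have hd : P.natDegree < δ + 1 := by
      refine Nat.lt_succ_of_le ?_
      rw [natDegree_le_iff_coeff_eq_zero]
      intro N hN
      rw [hPc, if_neg (by omega)]
    rw [ev2_eq_sum s y P hd]
    have h1 : ∀ j ∈ Finset.range (δ + 1), (P.coeff j).eval₂ (algebraMap K L) s * y ^ j =
        s ^ T * (y ^ j * ∑ α ∈ S j, algebraMap K L (A j α) * s ^ α) := by
      intro j hj
      rw [hPc, if_pos (Finset.mem_range.1 hj), hBev j hj]
      ring
    rw [Finset.sum_congr rfl h1, ← Finset.mul_sum, h, mul_zero]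

/-- Change of the variable `s = s₂ ^ (± 1)` and of `y` by a power of `s₂`. -/
theorem relP_gen {s s₂ y : L} (hs₂ : s₂ ≠ 0) (ε : ℤ) (hε : ε * ε = 1) (hss : s = s₂ ^ ε) (c : ℤ)
    {δ : ℕ} (h : RelP K s y δ) : RelP K s₂ (y * s₂ ^ c) δ := by
  classical
  obtain ⟨P, h1, h2, h3⟩ := h
  refine relP_laurent_aux hs₂
    (fun j => (P.coeff j).support.image (fun k : ℕ => ε * (k : ℤ) - c * (j : ℤ)))
    (fun j α => (P.coeff j).coeff ((α + c * (j : ℤ)) * ε).toNat) ?_ ?_
  · have hlc : P.coeff P.natDegree ≠ 0 := by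
      have : P.leadingCoeff ≠ 0 := leadingCoeff_ne_zero.2 h1
      exact this
    have hlc2 : (P.coeff P.natDegree).coeff (P.coeff P.natDegree).natDegree ≠ 0 := by
      have : (P.coeff P.natDegree).leadingCoeff ≠ 0 := leadingCoeff_ne_zero.2 hlc
      exact this
    refine ⟨P.natDegree, h2, ε * ((P.coeff P.natDegree).natDegree : ℤ) - c * (P.natDegree : ℤ),
      ?_, ?_⟩
    · exact Finset.mem_image.2 ⟨_, mem_support_iff.2 hlc2, rfl⟩
    · have h4 : ((ε * ((P.coeff P.natDegree).natDegree : ℤ) - c * (P.natDegree : ℤ)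
          + c * (P.natDegree : ℤ)) * ε).toNat = (P.coeff P.natDegree).natDegree := by
        have h5 : (ε * ((P.coeff P.natDegree).natDegree : ℤ) - c * (P.natDegree : ℤ)
          + c * (P.natDegree : ℤ)) * ε = ((P.coeff P.natDegree).natDegree : ℤ) := by
          linear_combination ((P.coeff P.natDegree).natDegree : ℤ) * hε
        rw [h5, Int.toNat_natCast]
      simp only [h4]
      exact hlc2
  · rw [ev2_eq_sum s y P (m := δ + 1) (by omega)] at h3
    rw [← h3]
    refine Finset.sum_congr rfl fun j hj => ?_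
    have hεne : ε ≠ 0 := by
      intro h0
      rw [h0] at hε
      norm_num at hε
    rw [Finset.sum_image]
    swap
    · intro a _ b _ hab
      have hab' : ε * (a : ℤ) = ε * (b : ℤ) := by
        have := hab
        simp only at this
        linarith
      have := mul_left_cancel₀ hεne hab'
      exact_mod_cast this
    rw [eval₂_eq_sum, Polynomial.sum_def, Finset.sum_mul, Finset.mul_sum]
    refine Finset.sum_congr rfl fun k hk => ?_
    have h5 : ((ε * (k : ℤ) - c * (j : ℤ) + c * (j : ℤ)) * ε).toNat = k := by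
      have h6 : (ε * (k : ℤ) - c * (j : ℤ) + c * (j : ℤ)) * ε = (k : ℤ) := by
        linear_combination (k : ℤ) * hε
      rw [h6, Int.toNat_natCast]
    rw [h5, hss, mul_pow, zpow_sub₀ hs₂, zpow_mul, zpow_mul, zpow_natCast, zpow_natCast]
    have h7 : (s₂ ^ c) ^ j ≠ 0 := pow_ne_zero _ (zpow_ne_zero _ hs₂)
    field_simp

/-- Reverse the coefficients (`S ^ T A(1 / S)` for large `T`) and multiply by powers of `S`: a relation
`∑ A_j(s) y ^ j = 0` becomes `∑ A_j(s) s ^ (- c j) (y s ^ c) ^ j = 0`, then multiply by a power of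
`s⁻¹`. -/
theorem relP_inv {s y : L} (hs : s ≠ 0) (c : ℤ) {δ : ℕ} (h : RelP K s y δ) :
    RelP K s⁻¹ (y * s ^ c) δ := by
  have h1 := relP_gen (s₂ := s⁻¹) (inv_ne_zero hs) (-1) (by norm_num) (by simp) (-c) h
  have h2 : s⁻¹ ^ (-c) = s ^ c := by
    rw [inv_zpow, zpow_neg, inv_inv]
  rw [h2] at h1
  exact h1

/-- The same without inversion. -/
theorem relP_mul {s y : L} (hs : s ≠ 0) (c : ℤ) {δ : ℕ} (h : RelP K s y δ) :
    RelP K s (y * s ^ c) δ := by
  exact relP_gen hs 1 (by norm_num) (by simp) c h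

/-- A relation with Laurent polynomials as coefficients. -/
theorem relP_laurent {s y : L} (hs : s ≠ 0) {δ : ℕ} (S : ℕ → Finset ℤ) (A : ℕ → ℤ → K)
    (hne : ∃ j ≤ δ, ∃ α ∈ S j, A j α ≠ 0)
    (h : ∑ j ∈ Finset.range (δ + 1), y ^ j * ∑ α ∈ S j, algebraMap K L (A j α) * s ^ α = 0) :
    RelP K s y δ :=
  relP_laurent_aux hs S A hne h

/-- Degree one: `A(s) y = B(s)` with `A ≠ 0`. -/
theorem relP_one {s y : L} (hs : Tr K s) (h : RelP K s y 1) :
    ∃ A B : Polynomial K, A ≠ 0 ∧
      A.eval₂ (algebraMap K L) s * y = B.eval₂ (algebraMap K L) s := by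
  obtain ⟨P, h1, h2, h3⟩ := h
  rw [ev2_eq_sum s y P (m := 2) (by omega), Finset.sum_range_succ, Finset.sum_range_succ,
    Finset.sum_range_zero, zero_add, pow_zero, mul_one, pow_one] at h3
  refine ⟨P.coeff 1, -P.coeff 0, ?_, ?_⟩
  · intro h0
    rw [h0, eval₂_zero, zero_mul, add_zero] at h3
    have h4 := hs _ h3
    apply h1
    ext1 n
    rcases n with _ | n
    · rw [h4]; simp
    · rcases n with _ | n
      · rw [h0]; simp
      · rw [coeff_eq_zero_of_natDegree_lt (by omega)]; simp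
  · rw [eval₂_neg]
    linear_combination h3

theorem relP_zero {s y : L} (hs : Tr K s) : ¬ RelP K s y 0 := by
  rintro ⟨P, h1, h2, h3⟩
  rw [ev2_eq_sum s y P (m := 1) (by omega), Finset.sum_range_succ,
    Finset.sum_range_zero, zero_add, pow_zero, mul_one] at h3
  have h4 := hs _ h3
  apply h1
  ext1 n
  rcases n with _ | n
  · rw [h4]; simp
  · rw [coeff_eq_zero_of_natDegree_lt (by omega)]; simp

/-- The minimal equation over `K[S]`, from `min_hom` for `K[S] → L`, `S ↦ s` (injective by `hs`). It is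
not a power: `Φ = (X - b) ^ (D + 1)` would give `y = b(s)`, so `RelP K s y 1`, so `RelP K s y D`. -/
theorem relP_monic {s y : L} (hs : Tr K s) (hint : IsIntegral (Algebra.adjoin K {s}) y) {D : ℕ}
    (hD : 1 ≤ D) (h1 : RelP K s y (D + 1)) (h2 : ¬ RelP K s y D) :
    ∃ Φ : Polynomial (Polynomial K), Φ.Monic ∧ Φ.natDegree = D + 1 ∧ ev2 K s y Φ = 0 ∧
      ∀ b : Polynomial K, Φ ≠ (X - C b) ^ (D + 1) := by
  obtain ⟨Φ, hm, h0, h1', hmin⟩ := min_hom (eval₂RingHom (algebraMap K L) s) (tr_injective hs) y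
    (integral_adjoin hint)
  have hle : Φ.natDegree ≤ D + 1 := by
    obtain ⟨P, a, b, c⟩ := h1
    exact (hmin P a c).trans b
  have hge : ¬ Φ.natDegree ≤ D := fun h => h2 ⟨Φ, hm.ne_zero, h, h0⟩
  refine ⟨Φ, hm, by omega, h0, ?_⟩
  intro b hb
  apply h2
  apply relP_mono hD
  refine ⟨X - C b, X_sub_C_ne_zero b, natDegree_X_sub_C_le b, ?_⟩
  have h3 : ev2 K s y ((X - C b) ^ (D + 1)) = 0 := by
    rw [← hb]; exact h0
  rw [map_pow] at h3
  exact eq_zero_of_pow_eq_zero h3

/-- Integral elements satisfy some relation. -/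
theorem relP_exists {s y : L} (hs : Tr K s) (hint : IsIntegral (Algebra.adjoin K {s}) y) :
    ∃ δ, RelP K s y δ := by
  obtain ⟨p, hp, hpy⟩ := integral_adjoin hint
  exact ⟨p.natDegree, p, hp.ne_zero, le_rfl, hpy⟩

end

end Pool.Agent.Helper10.TD
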