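import Mathlib

/-!
# One Newton step

`Φ` monic of degree `n ≥ 2` over `K[S]`, not the `n`-th power of a linear polynomial. Substitute
`S ↦ κ S ^ (n !)`, remove the second coefficient (`X ↦ X + b`, `b = -(coefficient)/n`), and rescale
by the smallest slope `p = min (order of the coefficient of X ^ i) / (n - i)` over `i ≤ n - 2` with
non-zero coefficient (an integer, because all orders are multiples of `n !`; such `i` exists,
otherwise `Φ` is an `n`-th power: `b` is in the image of `K[S]` because all coefficients are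
polynomials in `S ^ (n !)`): `Ψ(X) = S ^ (-p n) Φ(S ^ p X + b)` has polynomial coefficients, its
second coefficient is `0` and `Ψ(·, S = 0) ≠ X ^ n`. So `Ψ(·, S = 0)` is not `(X - ρ) ^ n`
(characteristic `0`).
-/

set_option autoImplicit false

namespace Pool.Agent.Helper10.TD

open Polynomial

/-- The second coefficient of `Φ(X + r)`. -/
theorem coeff_taylor_pred {R : Type*} [CommRing R] (Φ : R[X]) (hΦ : Φ.Monic) (n : ℕ)
    (hn : 1 ≤ n) (hdeg : Φ.natDegree = n) (r : R) :
    (Φ.comp (X + C r)).coeff (n - 1) = Φ.coeff (n - 1) + n * r := by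
  have h1 : Φ.comp (X + C r) = taylor r Φ := (taylor_apply r Φ).symm
  rw [h1, taylor_coeff]
  have hd : (hasseDeriv (n - 1) Φ).natDegree < 2 := by
    refine lt_of_le_of_lt (natDegree_hasseDeriv_le Φ (n - 1)) ?_
    omega
  rw [eval_eq_sum_range' hd, Finset.sum_range_succ, Finset.sum_range_succ, Finset.sum_range_zero,
    hasseDeriv_coeff, hasseDeriv_coeff]
  have hc : Φ.coeff n = 1 := by rw [← hdeg]; exact hΦ
  have h2 : 1 + (n - 1) = n := by omega
  rw [h2, hc, zero_add (n - 1), Nat.choose_self]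
  have h3 : n.choose (n - 1) = n := by
    have := Nat.choose_symm (n := n) (k := 1) hn
    rw [this, Nat.choose_one_right]
  rw [h3]
  simp

/-- A non-zero polynomial is `X ^ e` times a polynomial with non-zero constant term. -/
theorem exists_order {K : Type*} [Field K] (d : K[X]) (hd : d ≠ 0) :
    ∃ (e : ℕ) (u : K[X]), d = X ^ e * u ∧ u.eval 0 ≠ 0 := by
  obtain ⟨u, hu, hnd⟩ := exists_eq_pow_rootMultiplicity_mul_and_not_dvd d hd 0
  rw [C_0, sub_zero] at hu hnd
  refine ⟨rootMultiplicity 0 d, u, hu, fun h => hnd ?_⟩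
  have := dvd_iff_isRoot (p := u) (a := (0 : K))
  rw [C_0, sub_zero] at this
  exact this.2 h

theorem newton_step {K : Type} [Field K] [CharZero K] (Φ : K[X][X]) (hΦ : Φ.Monic) (n : ℕ)
    (hn : 2 ≤ n) (hdeg : Φ.natDegree = n) (hnp : ∀ b : K[X], Φ ≠ (X - C b) ^ n) (κ : K)
    (hκ : κ ≠ 0) :
    ∃ (p : ℕ) (b : K[X]) (Ψ : K[X][X]), Ψ.Monic ∧ Ψ.natDegree = n ∧
      (Φ.map ((aeval (C κ * X ^ n.factorial) : K[X] →ₐ[K] K[X]) : K[X] →+* K[X])).comp
        (C (X ^ p) * X + C b) = C (X ^ (p * n)) * Ψ ∧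
      ∀ ρ : K, Ψ.map (evalRingHom 0) ≠ (X - C ρ) ^ n := by
  classical
  set m := n.factorial with hm
  set σ : K[X] →+* K[X] := ((aeval (C κ * X ^ m) : K[X] →ₐ[K] K[X]) : K[X] →+* K[X]) with hσ
  have hmpos : 0 < m := Nat.factorial_pos n
  have hn0 : (n : K) ≠ 0 := by
    have : n ≠ 0 := by omega
    exact_mod_cast this
  have hσX : σ X = C κ * X ^ m := by
    rw [hσ]; simp
  have hσe : ∀ u : K[X], (σ u).eval 0 = u.eval 0 := by
    intro u
    have h1 : σ u = u.comp (C κ * X ^ m) := by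
      rw [hσ]; rfl
    rw [h1, eval_comp]
    simp [hmpos.ne']
  set b0 : K[X] := C (-(1 / (n : K))) * Φ.coeff (n - 1) with hb0
  set Φ2 := Φ.comp (X + C b0) with hΦ2
  have h2m : Φ2.Monic := hΦ.comp_X_add_C b0
  have h2d : Φ2.natDegree = n := by
    rw [hΦ2, natDegree_comp, natDegree_X_add_C, mul_one, hdeg]
  have h2c : Φ2.coeff (n - 1) = 0 := by
    rw [hΦ2, coeff_taylor_pred Φ hΦ n (by omega) hdeg, hb0]
    have h1 : ((n : ℕ) : K[X]) = C (n : K) := (C_eq_natCast n).symm
    rw [h1, ← mul_assoc, ← C_mul]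
    have h2 : (n : K) * -(1 / (n : K)) = -1 := by
      field_simp
    rw [h2]
    simp
  have hback : Φ = Φ2.comp (X - C b0) := by
    rw [hΦ2, comp_assoc]
    simp
  have hex : ∃ i ∈ Finset.range n, Φ2.coeff i ≠ 0 := by
    by_contra hcon
    push Not at hcon
    apply hnp b0
    have h1 : Φ2 = X ^ n := by
      rw [h2m.as_sum, h2d]
      rw [Finset.sum_eq_zero, add_zero]
      intro i hi
      rw [hcon i hi]
      simp
    rw [hback, h1]
    simp
  -- orders
  have hord : ∀ i : ℕ, ∃ (e : ℕ) (u : K[X]), Φ2.coeff i ≠ 0 →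
      (Φ2.coeff i = X ^ e * u ∧ u.eval 0 ≠ 0) := by
    intro i
    by_cases h : Φ2.coeff i = 0
    · exact ⟨0, 0, fun h' => absurd h h'⟩
    · obtain ⟨e, u, h1, h2⟩ := exists_order _ h
      exact ⟨e, u, fun _ => ⟨h1, h2⟩⟩
  choose e u heu using hord
  set S : Finset ℕ := (Finset.range n).filter (fun i => Φ2.coeff i ≠ 0) with hS
  have hSne : S.Nonempty := by
    obtain ⟨i, hi, hi'⟩ := hex
    exact ⟨i, by rw [hS, Finset.mem_filter]; exact ⟨hi, hi'⟩⟩
  obtain ⟨i0, hi0, hmin⟩ := Finset.exists_min_image S (fun i => m * e i / (n - i)) hSne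
  have hi0' : i0 < n ∧ Φ2.coeff i0 ≠ 0 := by
    rw [hS, Finset.mem_filter, Finset.mem_range] at hi0
    exact hi0
  have hdvd : ∀ i, i < n → (n - i) ∣ m * e i := by
    intro i hi
    exact Dvd.dvd.mul_right (Nat.dvd_factorial (by omega) (by omega)) _
  set p : ℕ := m * e i0 / (n - i0) with hp
  have hg : ∀ i : ℕ, ∃ g : K[X], i < n → (σ (Φ2.coeff i) = X ^ (p * (n - i)) * g ∧
      (Φ2.coeff i = 0 → g = 0) ∧ (i = i0 → g.eval 0 ≠ 0)) := by
    intro i
    by_cases hi : i < n
    swap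
    · exact ⟨0, fun h => absurd h hi⟩
    by_cases h : Φ2.coeff i = 0
    · refine ⟨0, fun _ => ⟨?_, fun _ => rfl, ?_⟩⟩
      · rw [h]; simp
      · intro hii
        rw [hii] at h
        exact absurd h hi0'.2
    obtain ⟨h1, h2⟩ := heu i h
    have hle : p * (n - i) ≤ m * e i := by
      have h3 : p ≤ m * e i / (n - i) := by
        apply hmin i
        rw [hS, Finset.mem_filter, Finset.mem_range]
        exact ⟨hi, h⟩
      calc p * (n - i) ≤ m * e i / (n - i) * (n - i) := Nat.mul_le_mul_right _ h3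
        _ ≤ m * e i := Nat.div_mul_le_self _ _
    refine ⟨X ^ (m * e i - p * (n - i)) * (C (κ ^ e i) * σ (u i)), fun _ => ⟨?_, ?_, ?_⟩⟩
    · rw [h1, map_mul, map_pow, hσX, mul_pow, ← pow_mul, ← C_pow]
      have h4 : (X : K[X]) ^ (m * e i) = X ^ (p * (n - i)) * X ^ (m * e i - p * (n - i)) := by
        rw [← pow_add]
        congr 1
        omega
      rw [h4]
      ring
    · intro h'; exact absurd h' h
    · intro hii
      have h5 : m * e i - p * (n - i) = 0 := by
        rw [hii, hp, Nat.div_mul_cancel (hdvd i0 hi0'.1)]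
        omega
      rw [h5, pow_zero, one_mul, eval_mul, eval_C, hσe]
      exact mul_ne_zero (pow_ne_zero _ hκ) h2
  choose g hg' using hg
  set Ψ : K[X][X] := X ^ n + ∑ i ∈ Finset.range n, C (g i) * X ^ i with hΨ
  have hlt : (∑ i ∈ Finset.range n, C (g i) * X ^ i : K[X][X]).degree < n := by
    refine lt_of_le_of_lt (degree_sum_le _ _) ?_
    rw [Finset.sup_lt_iff (by exact WithBot.bot_lt_coe n)]
    intro i hi
    refine lt_of_le_of_lt (degree_C_mul_X_pow_le i _) ?_
    exact_mod_cast Finset.mem_range.1 hi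
  have hΨm : Ψ.Monic := monic_X_pow_add hlt
  have hΨd : Ψ.natDegree = n := by
    have : Ψ.degree = n := by
      rw [hΨ, degree_add_eq_left_of_degree_lt, degree_X_pow]
      rw [degree_X_pow]
      exact hlt
    exact natDegree_eq_of_degree_eq_some this
  have hΨc : ∀ i, i < n → Ψ.coeff i = g i := by
    intro i hi
    rw [hΨ, coeff_add, coeff_X_pow, if_neg (by omega), zero_add, finsetSum_coeff]
    simp only [coeff_C_mul, coeff_X_pow, mul_ite, mul_one, mul_zero]
    rw [Finset.sum_ite_eq]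
    simp [hi]
  refine ⟨p, σ b0, Ψ, hΨm, hΨd, ?_, ?_⟩
  · have h1 : Φ.map σ = (Φ2.map σ).comp (X - C (σ b0)) := by
      conv_lhs => rw [hback]
      rw [map_comp]
      simp
    have h2 : Φ2.map σ = X ^ n + ∑ i ∈ Finset.range n, C (σ (Φ2.coeff i)) * X ^ i := by
      conv_lhs => rw [h2m.as_sum, h2d]
      simp [Polynomial.map_sum]
    rw [h1, comp_assoc]
    have h3 : (X - C (σ b0) : K[X][X]).comp (C (X ^ p) * X + C (σ b0)) = C (X ^ p) * X := by
      simp
    have h5 : ((X : K[X][X]) ^ n).comp (C (X ^ p) * X) = C (X ^ (p * n)) * X ^ n := by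
      rw [pow_comp, X_comp, mul_pow, ← C_pow, ← pow_mul]
    have h6 : ∀ i ∈ Finset.range n, (C (σ (Φ2.coeff i)) * (X : K[X][X]) ^ i).comp
        (C (X ^ p) * X) = C (X ^ (p * n)) * (C (g i) * X ^ i) := by
      intro i hi
      have hi' := Finset.mem_range.1 hi
      rw [mul_comp, C_comp, pow_comp, X_comp, (hg' i hi').1, mul_pow, ← C_pow, ← pow_mul]
      have h4 : (X : K[X]) ^ (p * n) = X ^ (p * (n - i)) * X ^ (p * i) := by
        rw [← pow_add, ← mul_add]
        congr 2
        omega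
      rw [h4, C_mul, C_mul]
      ring
    rw [h3, h2, hΨ, mul_add, Finset.mul_sum, add_comp, h5, Polynomial.sum_comp,
      Finset.sum_congr rfl h6]
  · intro ρ hρ
    have h1 : (Ψ.map (evalRingHom 0)).coeff (n - 1) = 0 := by
      rw [coeff_map, hΨc _ (by omega), (hg' (n - 1) (by omega)).2.1 h2c]
      simp
    have h2 : (Ψ.map (evalRingHom 0)).coeff i0 ≠ 0 := by
      rw [coeff_map, hΨc _ hi0'.1]
      exact (hg' i0 hi0'.1).2.2 rfl
    rw [hρ] at h1 h2
    have h3 : ((X - C ρ : K[X]) ^ n).coeff (n - 1) = -(n : K) * ρ := by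
      have h4 := coeff_taylor_pred (X ^ n : K[X]) (monic_X_pow n) n (by omega)
        (natDegree_X_pow n) (-ρ)
      rw [coeff_X_pow, if_neg (by omega)] at h4
      simp only [pow_comp, X_comp] at h4
      rw [show (X + C (-ρ) : K[X]) = X - C ρ by rw [C_neg, sub_eq_add_neg]] at h4
      rw [h4]
      ring
    rw [h3] at h1
    have h5 : ρ = 0 := by
      rcases mul_eq_zero.1 h1 with h | h
      · exact absurd h (neg_ne_zero.2 hn0)
      · exact h
    rw [h5] at h2
    apply h2
    rw [C_0, sub_zero, coeff_X_pow, if_neg (by omega)]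

end Pool.Agent.Helper10.TD
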