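import Pool.Agent.Helper10.TD.LP
import Pool.Agent.Helper10.TD.NS

/-!
# Local polynomials at the end of a one-parameter family

`Φ` over `K[S]`, monic of degree `n ≥ 2`, not an `n`-th power. `newton_step` gives `p, b, Ψ`. For
`s ≠ 0` in `L` and `ζ` with `Φ(ζ; κ s ^ n!) = 0` put `ζ'' = (ζ - b(s)) / s ^ p`; evaluating the
identity of `newton_step` at `S = s`, `X = ζ''` gives `Ψ(ζ''; s) = 0`; `Ψ` is monic with coefficients
bounded for `‖s‖ ≤ R`, so `‖ζ''‖ ≤ R'`. Apply `local_poly` to the image of `Ψ` under `S ↦ X i₀` with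
`D = n - 1`, `z = Pi.single i₀ s`, and replace `G` by `∑ j, G_j X_{i₀} ^ (p (n - 1 - j)) (X - b) ^ j`,
which is monic of degree `n - 1` and has the value `s ^ (p (n - 1)) G(ζ'')`.
-/

set_option autoImplicit false

namespace Pool.Agent.Helper10.TD

open MvPolynomial

section bounds
variable {K L : Type} [Field K] [NontriviallyNormedField L] [Algebra K L]

/-- the evaluation of the coefficients at `s` -/
noncomputable def endE (K : Type) {L : Type} [Field K] [NontriviallyNormedField L] [Algebra K L]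
    (s : L) : Polynomial K →+* L := ((Polynomial.aeval s : Polynomial K →ₐ[K] L) : _ →+* L)

lemma endE_apply (s : L) (q : Polynomial K) : endE K s q = Polynomial.aeval s q := rfl

lemma end_coeff (q : Polynomial K) (R : ℝ) (hR : 1 ≤ R) :
    ∃ M : ℝ, 0 ≤ M ∧ ∀ s : L, ‖s‖ ≤ R → ‖endE K s q‖ ≤ M := by
  refine ⟨∑ i ∈ Finset.range (q.natDegree + 1), ‖algebraMap K L (q.coeff i)‖ * R ^ i,
    Finset.sum_nonneg fun i _ => by positivity, fun s hs => ?_⟩
  rw [endE_apply, Polynomial.aeval_eq_sum_range]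
  refine (norm_sum_le _ _).trans (Finset.sum_le_sum fun i _ => ?_)
  rw [Algebra.smul_def, norm_mul, norm_pow]
  gcongr

/-- the roots of a monic polynomial with bounded coefficients are bounded -/
lemma end_root (Ψ : Polynomial (Polynomial K)) (hΨ : Ψ.Monic) (R : ℝ) (hR : 1 ≤ R) :
    ∃ R' : ℝ, 1 ≤ R' ∧ ∀ s ζ : L, ‖s‖ ≤ R → Ψ.eval₂ (endE K s) ζ = 0 → ‖ζ‖ ≤ R' := by
  choose M hM0 hM using fun i : ℕ => end_coeff (L := L) (Ψ.coeff i) R hR
  have hs0 : 0 ≤ ∑ i ∈ Finset.range Ψ.natDegree, M i := Finset.sum_nonneg fun i _ => hM0 i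
  refine ⟨1 + ∑ i ∈ Finset.range Ψ.natDegree, M i, by linarith, fun s ζ hs h => ?_⟩
  by_contra hcon
  push Not at hcon
  have hζ : 1 < ‖ζ‖ := by linarith
  rw [Polynomial.eval₂_eq_sum_range, Finset.sum_range_succ] at h
  have hlead : Ψ.coeff Ψ.natDegree = 1 := hΨ
  rw [hlead, map_one, one_mul] at h
  have h1 : ζ ^ Ψ.natDegree = -∑ i ∈ Finset.range Ψ.natDegree, endE K s (Ψ.coeff i) * ζ ^ i := by
    linear_combination h
  have h2 : ‖ζ‖ ^ Ψ.natDegree ≤ ∑ i ∈ Finset.range Ψ.natDegree, M i * ‖ζ‖ ^ i := by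
    rw [← norm_pow, h1, norm_neg]
    refine (norm_sum_le _ _).trans (Finset.sum_le_sum fun i _ => ?_)
    rw [norm_mul, norm_pow]
    exact mul_le_mul_of_nonneg_right (hM i s hs) (by positivity)
  rcases Nat.eq_zero_or_pos Ψ.natDegree with h0 | h0
  · rw [h0, Finset.range_zero, Finset.sum_empty, pow_zero] at h2
    linarith
  · obtain ⟨m, hm⟩ : ∃ m, Ψ.natDegree = m + 1 := ⟨Ψ.natDegree - 1, by omega⟩
    have h3 : ∑ i ∈ Finset.range Ψ.natDegree, M i * ‖ζ‖ ^ i ≤
        (∑ i ∈ Finset.range Ψ.natDegree, M i) * ‖ζ‖ ^ m := by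
      rw [Finset.sum_mul]
      refine Finset.sum_le_sum fun i hi => ?_
      have h4 : i ≤ m := by
        have := Finset.mem_range.1 hi
        omega
      exact mul_le_mul_of_nonneg_left (pow_le_pow_right₀ hζ.le h4) (hM0 i)
    have h5 : ‖ζ‖ ^ Ψ.natDegree = ‖ζ‖ * ‖ζ‖ ^ m := by rw [hm, pow_succ, mul_comm]
    have h6 : 0 < ‖ζ‖ ^ m := pow_pos (by linarith) m
    have h7 : ‖ζ‖ * ‖ζ‖ ^ m ≤ (∑ i ∈ Finset.range Ψ.natDegree, M i) * ‖ζ‖ ^ m := by
      rw [← h5]
      exact h2.trans h3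
    have h8 := le_of_mul_le_mul_right h7 h6
    linarith

end bounds

section endG
variable {κ : Type} [Field κ] {σ : Type}

/-- the polynomial rescaled back -/
noncomputable def endG (i₀ : σ) (p D : ℕ) (b : MvPolynomial σ κ)
    (G : Polynomial (MvPolynomial σ κ)) : Polynomial (MvPolynomial σ κ) :=
  ∑ j ∈ Finset.range (D + 1), Polynomial.C (G.coeff j * X i₀ ^ (p * (D - j))) *
    (Polynomial.X - Polynomial.C b) ^ j

lemma endG_monic (i₀ : σ) (p D : ℕ) (b : MvPolynomial σ κ)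
    (G : Polynomial (MvPolynomial σ κ)) (hG : G.Monic) (hD : G.natDegree = D) :
    (endG i₀ p D b G).Monic ∧ (endG i₀ p D b G).natDegree = D := by
  have hlead : G.coeff D = 1 := by rw [← hD]; exact hG
  have hmon : ((Polynomial.X - Polynomial.C b) ^ D).Monic := (Polynomial.monic_X_sub_C b).pow D
  have hnat : ∀ j : ℕ, ((Polynomial.X - Polynomial.C b) ^ j).natDegree = j := fun j => by
    rw [(Polynomial.monic_X_sub_C b).natDegree_pow, Polynomial.natDegree_X_sub_C, mul_one]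
  have hdeg : ∀ j : ℕ, ((Polynomial.X - Polynomial.C b) ^ j).degree = (j : WithBot ℕ) := fun j => by
    rw [Polynomial.degree_eq_natDegree ((Polynomial.monic_X_sub_C b).pow j).ne_zero, hnat]
  have hlow : (∑ j ∈ Finset.range D, Polynomial.C (G.coeff j * X i₀ ^ (p * (D - j))) *
      (Polynomial.X - Polynomial.C b) ^ j).degree < (D : WithBot ℕ) := by
    rw [← Polynomial.mem_degreeLT]
    refine Submodule.sum_mem _ fun j hj => ?_
    rw [Polynomial.mem_degreeLT, ← Polynomial.smul_eq_C_mul]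
    refine (Polynomial.degree_smul_le _ _).trans_lt ?_
    rw [hdeg]
    exact_mod_cast Finset.mem_range.1 hj
  have heq : endG i₀ p D b G = (∑ j ∈ Finset.range D,
      Polynomial.C (G.coeff j * X i₀ ^ (p * (D - j))) * (Polynomial.X - Polynomial.C b) ^ j) +
      (Polynomial.X - Polynomial.C b) ^ D := by
    rw [endG, Finset.sum_range_succ, hlead, Nat.sub_self, mul_zero, pow_zero, mul_one, map_one,
      one_mul]
  rw [heq]
  constructor
  · exact hmon.add_of_right (by rw [hdeg]; exact hlow)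
  · rw [Polynomial.natDegree_add_eq_right_of_degree_lt (by rw [hdeg]; exact hlow), hnat]

variable {L : Type} [Field L] [Algebra κ L]

lemma endG_ev (i₀ : σ) (p D : ℕ) (b : MvPolynomial σ κ)
    (G : Polynomial (MvPolynomial σ κ)) (hD : G.natDegree = D) (z : σ → L) (ζ ζ' s β : L)
    (hs : z i₀ = s) (hβ : aeval z b = β) (hζ : ζ = s ^ p * ζ' + β) :
    ev z ζ (endG i₀ p D b G) = s ^ (p * D) * ev z ζ' G := by
  rw [endG, map_sum, ev_eq_sum z ζ' G (m := D + 1) (by omega), Finset.mul_sum]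
  refine Finset.sum_congr rfl fun j hj => ?_
  have hj' : j ≤ D := by
    have := Finset.mem_range.1 hj
    omega
  rw [map_mul, map_pow, map_sub, ev_C, ev_C, ev_X, hβ, map_mul, map_pow, aeval_X, hs, hζ,
    add_sub_cancel_right, mul_pow, ← pow_mul]
  have h1 : s ^ (p * D) = s ^ (p * (D - j)) * s ^ (p * j) := by
    rw [← pow_add, ← mul_add, Nat.sub_add_cancel hj']
  rw [h1]
  ring

end endG

theorem end_local {K L : Type} [Field K] [CharZero K] [NontriviallyNormedField L] [ProperSpace L]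
    [Algebra K L] {σ : Type} [Fintype σ] [DecidableEq σ] (i₀ : σ)
    (Φ : Polynomial (Polynomial K)) (hΦ : Φ.Monic) (D : ℕ) (hD : 1 ≤ D)
    (hdeg : Φ.natDegree = D + 1)
    (hnp : ∀ b : Polynomial K, Φ ≠ (Polynomial.X - Polynomial.C b) ^ (D + 1))
    (κ : K) (hκ : κ ≠ 0) (R : ℝ) (hR : 1 ≤ R) (J : ℕ) :
    ∃ (𝒢 : Finset (Polynomial (MvPolynomial σ (algebraicClosure K L)))) (C : ℝ), 0 < C ∧
      (∀ G ∈ 𝒢, G.Monic ∧ G.natDegree = D) ∧
      ∀ s ζ : L, s ≠ 0 → ‖s‖ ≤ R →
        Φ.eval₂ (Polynomial.eval₂RingHom (algebraMap K L)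
          (algebraMap K L κ * s ^ (D + 1).factorial)) ζ = 0 →
        ∃ G ∈ 𝒢, ‖ev (Pi.single i₀ s) ζ G‖ ≤ C * ‖s‖ ^ J := by
  classical
  obtain ⟨p, b, Ψ, hΨ, hΨn, hid, hsp⟩ := newton_step Φ hΦ (D + 1) (by omega) hdeg hnp κ hκ
  obtain ⟨R', hR', hroot⟩ := end_root (L := L) Ψ hΨ R hR
  have : Nonempty σ := ⟨i₀⟩
  -- the polynomial over `K[z]`
  obtain ⟨g, hg⟩ : ∃ g : Polynomial K →+* MvPolynomial σ K,
      g = ((Polynomial.aeval (X i₀ : MvPolynomial σ K) : Polynomial K →ₐ[K] MvPolynomial σ K) :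
        _ →+* MvPolynomial σ K) := ⟨_, rfl⟩
  have hgC : ∀ a : K, g (Polynomial.C a) = C a := fun a => by
    rw [hg]
    change Polynomial.aeval (X i₀ : MvPolynomial σ K) (Polynomial.C a) = C a
    rw [Polynomial.aeval_C]
    rfl
  have hgX : g Polynomial.X = X i₀ := by
    rw [hg]
    change Polynomial.aeval (X i₀ : MvPolynomial σ K) Polynomial.X = X i₀
    rw [Polynomial.aeval_X]
  have hres : res (Ψ.map g) = Ψ.map (Polynomial.evalRingHom 0) := by
    rw [res, Polynomial.map_map]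
    congr 1
    apply Polynomial.ringHom_ext
    · intro a
      rw [RingHom.comp_apply, hgC, Polynomial.coe_evalRingHom, Polynomial.eval_C,
        constantCoeff_C]
    · rw [RingHom.comp_apply, hgX, Polynomial.coe_evalRingHom, Polynomial.eval_X,
        constantCoeff_X]
  obtain ⟨𝒢, C₀, hC₀, h𝒢, hloc⟩ := local_poly (L := L) (σ := σ) (Ψ.map g) (hΨ.map g) D hD
    (by rw [hΨ.natDegree_map, hΨn]) (fun ρ => by rw [hres]; exact hsp ρ) (max R R')
    (le_trans hR (le_max_left _ _)) J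
  have hR0 : 0 < R := by linarith
  refine ⟨𝒢.image (endG i₀ p D (Polynomial.aeval (X i₀) b)), R ^ (p * D) * C₀, by positivity,
    ?_, ?_⟩
  · intro G hG
    obtain ⟨G', hG', rfl⟩ := Finset.mem_image.1 hG
    exact endG_monic i₀ p D _ G' (h𝒢 G' hG').1 (h𝒢 G' hG').2
  intro s ζ hs hsR hζ
  have hsp0 : s ^ p ≠ 0 := pow_ne_zero p hs
  obtain ⟨β, hβ⟩ : ∃ β : L, β = Polynomial.aeval s b := ⟨_, rfl⟩
  obtain ⟨ζ', hζ'⟩ : ∃ ζ' : L, ζ' = (ζ - β) / s ^ p := ⟨_, rfl⟩
  have hζeq : ζ = s ^ p * ζ' + β := by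
    rw [hζ']
    field_simp
    ring
  have hΨ0 : Ψ.eval₂ (endE K s) ζ' = 0 := by
    have h1 := congrArg (Polynomial.eval₂ (endE K s) ζ') hid
    rw [Polynomial.eval₂_comp, Polynomial.eval₂_mul, Polynomial.eval₂_C, Polynomial.eval₂_add,
      Polynomial.eval₂_mul, Polynomial.eval₂_C, Polynomial.eval₂_C, Polynomial.eval₂_X,
      Polynomial.eval₂_map] at h1
    have h2 : (endE K s) (Polynomial.X ^ p) * ζ' + endE K s b = ζ := by
      rw [map_pow, endE_apply, Polynomial.aeval_X, endE_apply, ← hβ, ← hζeq]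
    have h3 : (endE K s).comp ((Polynomial.aeval (Polynomial.C κ *
        Polynomial.X ^ (D + 1).factorial) : Polynomial K →ₐ[K] Polynomial K) :
        Polynomial K →+* Polynomial K) = Polynomial.eval₂RingHom (algebraMap K L)
          (algebraMap K L κ * s ^ (D + 1).factorial) := by
      apply Polynomial.ringHom_ext
      · intro a
        rw [RingHom.comp_apply]
        change endE K s (Polynomial.aeval _ (Polynomial.C a)) = _
        rw [Polynomial.aeval_C, Polynomial.algebraMap_apply, Algebra.algebraMap_self,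
          RingHom.id_apply, endE_apply, Polynomial.aeval_C, Polynomial.coe_eval₂RingHom,
          Polynomial.eval₂_C]
      · rw [RingHom.comp_apply]
        change endE K s (Polynomial.aeval _ Polynomial.X) = _
        rw [Polynomial.aeval_X, map_mul, map_pow, endE_apply, endE_apply, Polynomial.aeval_C,
          Polynomial.aeval_X, Polynomial.coe_eval₂RingHom, Polynomial.eval₂_X]
    rw [h2, h3, hζ] at h1
    have h4 : endE K s (Polynomial.X ^ (p * (D + 1))) ≠ 0 := by
      rw [map_pow, endE_apply, Polynomial.aeval_X]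
      exact pow_ne_zero _ hs
    exact (mul_eq_zero.1 h1.symm).resolve_left h4
  have hnorm : ‖(Pi.single i₀ s : σ → L)‖ = ‖s‖ := Pi.norm_single _
  have hev : ev (Pi.single i₀ s) ζ' (Ψ.map g) = 0 := by
    rw [ev, Polynomial.coe_eval₂RingHom, Polynomial.eval₂_map]
    have h1 : (((aeval (Pi.single i₀ s : σ → L) : MvPolynomial σ K →ₐ[K] L) :
        MvPolynomial σ K →+* L).comp g) = endE K s := by
      apply Polynomial.ringHom_ext
      · intro a
        rw [RingHom.comp_apply, hgC, endE_apply, Polynomial.aeval_C]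
        change aeval (Pi.single i₀ s : σ → L) (C a) = _
        rw [aeval_C]
      · rw [RingHom.comp_apply, hgX, endE_apply, Polynomial.aeval_X]
        change aeval (Pi.single i₀ s : σ → L) (X i₀) = _
        rw [aeval_X, Pi.single_eq_same]
    rw [h1]
    exact hΨ0
  obtain ⟨G, hG, hGle⟩ := hloc (Pi.single i₀ s) ζ' (by rw [hnorm]; exact hsR.trans (le_max_left _ _))
    ((hroot s ζ' hsR hΨ0).trans (le_max_right _ _)) hev
  refine ⟨_, Finset.mem_image_of_mem _ hG, ?_⟩
  have hb : aeval (Pi.single i₀ s : σ → L)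
      (Polynomial.aeval (X i₀ : MvPolynomial σ (algebraicClosure K L)) b) = β := by
    have h1 := Polynomial.aeval_algHom_apply ((aeval (Pi.single i₀ s : σ → L) :
      MvPolynomial σ (algebraicClosure K L) →ₐ[algebraicClosure K L] L).restrictScalars K)
      (X i₀ : MvPolynomial σ (algebraicClosure K L)) b
    rw [AlgHom.restrictScalars_apply, AlgHom.restrictScalars_apply, aeval_X,
      Pi.single_eq_same] at h1
    rw [← h1, hβ]
  rw [endG_ev i₀ p D _ G (h𝒢 G hG).2 (Pi.single i₀ s) ζ ζ' s β (Pi.single_eq_same _ _) hb hζeq,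
    norm_mul, norm_pow]
  rw [hnorm] at hGle
  calc ‖s‖ ^ (p * D) * ‖ev (Pi.single i₀ s) ζ' G‖ ≤ R ^ (p * D) * (C₀ * ‖s‖ ^ J) := by gcongr
    _ = R ^ (p * D) * C₀ * ‖s‖ ^ J := by ring

end Pool.Agent.Helper10.TD
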