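import Pool.Agent.Helper10.TD.EngD
import Pool.Agent.Helper10.TD.End
import Pool.Agent.Helper10.TD.AD
import Pool.Agent.Helper38.TP.PlaceExpB

/-!
# Local data at one place

`loc_red`: from `placeExpB` (exponent `J`) we get finitely many `P` with
`‖x k / w a - P k(z)‖ ≤ C ‖z‖ ^ (J + 1)`; put `p = ∑ k, C (lam k) * rename Subtype.val (P k)` (a
polynomial over `algebraicClosure K L`) and `G = X ^ (D - 1) * (X - C p)`; then
`ev (zI ..) ζ G = ζ ^ (D - 1) * (ζ - p(z))`, `ζ = ξ / w a`, `‖ζ‖ ≤ (∑ ‖lam k‖) R`.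
`loc_two`: from `local_poly`; map the relation by `algebraMap K L`; `zI L w a (univ.erase a)` is the
image of `zz w a`, and `facW L w a (some (univ.erase a))` bounds its norm (`zI_le`).
`loc_end`: from `end_local`; `zI L w a {i₀} = Pi.single i₀ (w i₀ / w a)`.
`loc_none`: `G = X ^ D`, `facW = 1`.
-/

set_option autoImplicit false

namespace Pool.Agent.Helper10.TD

open Pool.Agent.Helper10.Sub Pool.Agent.Helper38.TP MvPolynomial

section aux
variable {K L : Type} [Field K] [Field L] [Algebra K L] {σ : Type}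

/-- the evaluation and field extensions -/
lemma locD_ev (z : σ → K) (ζ : K) (Φ : Polynomial (MvPolynomial σ K)) :
    algebraMap K L (ev z ζ Φ) = ev (fun i => algebraMap K L (z i)) (algebraMap K L ζ) Φ := by
  rw [ev, ev, Polynomial.coe_eval₂RingHom, Polynomial.coe_eval₂RingHom, Polynomial.hom_eval₂]
  congr 1
  apply MvPolynomial.ringHom_ext
  · intro a
    rw [RingHom.comp_apply]
    change algebraMap K L (aeval z (C a)) = aeval (fun i => algebraMap K L (z i)) (C a)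
    rw [aeval_C, aeval_C]
    rfl
  · intro i
    rw [RingHom.comp_apply]
    change algebraMap K L (aeval z (X i)) = aeval (fun i => algebraMap K L (z i)) (X i)
    rw [aeval_X, aeval_X]

lemma locD_mon {κ : Type} [Field κ] (D : ℕ) (hD : 1 ≤ D) (p : MvPolynomial σ κ) :
    (Polynomial.X ^ (D - 1) * (Polynomial.X - Polynomial.C p)).Monic ∧
      (Polynomial.X ^ (D - 1) * (Polynomial.X - Polynomial.C p)).natDegree = D := by
  have h1 : (Polynomial.X ^ (D - 1) : Polynomial (MvPolynomial σ κ)).Monic := Polynomial.monic_X_pow _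
  have h2 := Polynomial.monic_X_sub_C p
  refine ⟨h1.mul h2, ?_⟩
  rw [h1.natDegree_mul h2, Polynomial.natDegree_X_pow, Polynomial.natDegree_X_sub_C]
  omega

end aux

section
variable {K : Type} [Field K] [CharZero K] {L : Type} [NontriviallyNormedField L] [ProperSpace L]
  [Algebra K L] {N r : ℕ}

theorem loc_none (a : Fin r) (D : ℕ) (C₁ : ℝ) (hC₁ : 1 ≤ C₁) :
    ∃ (τ : LocT K L r D) (C : ℝ), 0 < C ∧ τ.a = a ∧ τ.o = none ∧
      ∀ (w : Fin r → K) (ζ : K), ‖algebraMap K L (ζ / w a)‖ ≤ C₁ → ∀ J : ℕ,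
        ‖ev (zI L w a (toI none)) (algebraMap K L (ζ / w a)) τ.G‖ ≤ C * facW L w a none ^ J := by
  refine ⟨⟨a, none, Polynomial.X ^ D, Polynomial.monic_X_pow D, Polynomial.natDegree_X_pow D,
    fun I h => by cases h⟩, C₁ ^ D, by positivity, rfl, rfl, ?_⟩
  intro w ζ h J
  have h1 : facW L w a none = 1 := rfl
  rw [h1, one_pow, mul_one]
  change ‖ev (zI L w a (toI none)) (algebraMap K L (ζ / w a)) (Polynomial.X ^ D)‖ ≤ _
  rw [map_pow, ev_X, norm_pow]
  exact pow_le_pow_left₀ (norm_nonneg _) h D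

theorem loc_red (J₀ : Set (MvPolynomial (Fin (N + 1)) K))
    (hJ₀ : ∀ f ∈ J₀, ∃ e, f.IsHomogeneous e)
    (F : Fin r → MvPolynomial (Fin (N + 1)) K) (d : Fin r → ℕ) (hd : ∀ i, 1 ≤ d i)
    (hF : ∀ i, (F i).IsHomogeneous (d i)) (Dc : Fin r → K) (hDc : ∀ i, Dc i ≠ 0)
    (a : Fin r) (I : Finset (Fin r)) (ha : a ∉ I) (hne : I.Nonempty)
    (hred : ∀ A : Fin (N + 1) → L, A ≠ 0 → OnV (J₀ ∪ F '' (I : Set (Fin r))) A →
      Jac (J₀ ∪ F '' (I : Set (Fin r))) A)
    (D : ℕ) (hD : 1 ≤ D) (lam : Fin (N + 1) → K) (C₁ : ℝ) (hC₁ : 1 ≤ C₁) (J : ℕ) :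
    ∃ (Ty : Finset (LocT K L r D)) (C : ℝ), 0 < C ∧ (∀ τ ∈ Ty, τ.a = a ∧ τ.o = some I) ∧
      ∀ x : Fin (N + 1) → K, (∀ f ∈ J₀, eval x f = 0) → ∀ w : Fin r → K, w a ≠ 0 →
        (∀ i, eval x (F i) = Dc i * w i ^ d i) → nrm L x ≤ C₁ * ‖algebraMap K L (w a)‖ →
        facW L w a (some I) ≤ C₁ →
        ∃ τ ∈ Ty, ‖ev (zI L w a I) (algebraMap K L (lin lam x / w a)) τ.G‖ ≤
          C * facW L w a (some I) ^ J := by
  classical
  obtain ⟨C₀, Ty, hC₀, hexp⟩ := placeExpB (L := L) J₀ hJ₀ F d hd hF Dc hDc a I hred C₁ J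
  obtain ⟨pp, hpp⟩ : ∃ pp : (Fin (N + 1) → MvPolynomial I (algebraicClosure K L)) →
      MvPolynomial (Fin r) (algebraicClosure K L), pp = fun P =>
        ∑ k, C (algebraMap K (algebraicClosure K L) (lam k)) * rename Subtype.val (P k) := ⟨_, rfl⟩
  obtain ⟨lo, hlo⟩ : ∃ lo : (Fin (N + 1) → MvPolynomial I (algebraicClosure K L)) → LocT K L r D,
      lo = fun P => ⟨a, some I, Polynomial.X ^ (D - 1) * (Polynomial.X - Polynomial.C (pp P)),
        (locD_mon D hD (pp P)).1, (locD_mon D hD (pp P)).2, fun I' h => by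
          cases h
          exact ⟨ha, hne⟩⟩ := ⟨_, rfl⟩
  obtain ⟨Λ, hΛ⟩ : ∃ Λ : ℝ, Λ = 1 + ∑ k, ‖algebraMap K L (lam k)‖ := ⟨_, rfl⟩
  have hΛ0 : 0 ≤ ∑ k, ‖algebraMap K L (lam k)‖ := Finset.sum_nonneg fun k _ => norm_nonneg _
  have hΛ1 : 1 ≤ Λ := by linarith
  refine ⟨Ty.image lo, (Λ * C₁) ^ (D - 1) * (Λ * C₀ * C₁), by positivity, ?_, ?_⟩
  · intro τ hτ
    obtain ⟨P, -, rfl⟩ := Finset.mem_image.1 hτ
    rw [hlo]
    exact ⟨rfl, rfl⟩
  intro x hx w hwa hw hnrm hfac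
  obtain ⟨P, hP, hPn⟩ := hexp x hx w hwa hw hnrm
  refine ⟨lo P, Finset.mem_image_of_mem _ hP, ?_⟩
  have hwn : 0 < ‖algebraMap K L (w a)‖ := norm_pos_iff.mpr
    (by rw [Ne, map_eq_zero_iff _ (algebraMap K L).injective]; exact hwa)
  have hf0 : 0 ≤ facW L w a (some I) := facW_nonneg _ _ _ _
  have hlin : algebraMap K L (lin lam x / w a) =
      ∑ k, algebraMap K L (lam k) * algebraMap K L (x k / w a) := by
    rw [lin, Finset.sum_div, map_sum]
    refine Finset.sum_congr rfl fun k _ => ?_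
    rw [Algebra.algebraMap_self, RingHom.id_apply, mul_div_assoc, map_mul]
  have hz : ∀ k, aeval (zI L w a I) (rename (Subtype.val : I → Fin r) (P k)) =
      aeval (fun i : I => algebraMap K L (w i / w a)) (P k) := by
    intro k
    rw [aeval_rename]
    congr 1
    congr 1
    funext i
    exact if_pos i.2
  have hp : aeval (zI L w a I) (pp P) =
      ∑ k, algebraMap K L (lam k) * aeval (fun i : I => algebraMap K L (w i / w a)) (P k) := by
    rw [hpp, map_sum]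
    refine Finset.sum_congr rfl fun k _ => ?_
    rw [map_mul, hz, aeval_C]
    rfl
  have h1 : ‖algebraMap K L (lin lam x / w a)‖ ≤ Λ * C₁ := by
    rw [hlin]
    refine (norm_sum_le _ _).trans ?_
    have h2 : ∑ k, ‖algebraMap K L (lam k) * algebraMap K L (x k / w a)‖ ≤
        ∑ k, ‖algebraMap K L (lam k)‖ * C₁ := by
      refine Finset.sum_le_sum fun k _ => ?_
      rw [norm_mul]
      refine mul_le_mul_of_nonneg_left ?_ (norm_nonneg _)
      rw [map_div₀, norm_div, div_le_iff₀ hwn]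
      exact (le_nrm x k).trans hnrm
    rw [← Finset.sum_mul] at h2
    refine h2.trans (mul_le_mul_of_nonneg_right ?_ (by linarith))
    linarith
  have h2 : ‖algebraMap K L (lin lam x / w a) - aeval (zI L w a I) (pp P)‖ ≤
      Λ * C₀ * C₁ * facW L w a (some I) ^ J := by
    rw [hlin, hp, ← Finset.sum_sub_distrib]
    refine (norm_sum_le _ _).trans ?_
    have h3 : ∑ k, ‖algebraMap K L (lam k) * algebraMap K L (x k / w a) -
        algebraMap K L (lam k) * aeval (fun i : I => algebraMap K L (w i / w a)) (P k)‖ ≤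
        ∑ k, ‖algebraMap K L (lam k)‖ * (C₀ * facW L w a (some I) ^ (J + 1)) := by
      refine Finset.sum_le_sum fun k _ => ?_
      rw [← mul_sub, norm_mul]
      exact mul_le_mul_of_nonneg_left (hPn k) (norm_nonneg _)
    rw [← Finset.sum_mul] at h3
    refine h3.trans ?_
    have h4 : facW L w a (some I) ^ (J + 1) ≤ C₁ * facW L w a (some I) ^ J := by
      rw [pow_succ, mul_comm]
      exact mul_le_mul_of_nonneg_right hfac (pow_nonneg hf0 _)
    calc (∑ k, ‖algebraMap K L (lam k)‖) * (C₀ * facW L w a (some I) ^ (J + 1))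
        ≤ Λ * (C₀ * (C₁ * facW L w a (some I) ^ J)) := by
          apply mul_le_mul (by linarith) _ (by positivity) (by linarith)
          exact mul_le_mul_of_nonneg_left h4 hC₀.le
      _ = _ := by ring
  have h3 : ev (zI L w a I) (algebraMap K L (lin lam x / w a)) (lo P).G =
      algebraMap K L (lin lam x / w a) ^ (D - 1) *
        (algebraMap K L (lin lam x / w a) - aeval (zI L w a I) (pp P)) := by
    rw [hlo]
    change ev (zI L w a I) (algebraMap K L (lin lam x / w a))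
      (Polynomial.X ^ (D - 1) * (Polynomial.X - Polynomial.C (pp P))) = _
    rw [map_mul, map_pow, map_sub, ev_X, ev_C]
  rw [h3, norm_mul, norm_pow]
  calc ‖algebraMap K L (lin lam x / w a)‖ ^ (D - 1) *
        ‖algebraMap K L (lin lam x / w a) - aeval (zI L w a I) (pp P)‖
      ≤ (Λ * C₁) ^ (D - 1) * (Λ * C₀ * C₁ * facW L w a (some I) ^ J) := by gcongr
    _ = _ := by ring

theorem loc_two (a : Fin r) (hne : (Finset.univ.erase a).Nonempty) (D : ℕ) (hD : 1 ≤ D)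
    (Φ : Polynomial (MvPolynomial (Fin r) K)) (hΦ : Φ.Monic) (hdeg : Φ.natDegree = D + 1)
    (hsp : ∀ ρ : K, res Φ ≠ (Polynomial.X - Polynomial.C ρ) ^ (D + 1))
    (C₁ : ℝ) (hC₁ : 1 ≤ C₁) (J : ℕ) :
    ∃ (Ty : Finset (LocT K L r D)) (C : ℝ), 0 < C ∧
      (∀ τ ∈ Ty, τ.a = a ∧ τ.o = some (Finset.univ.erase a)) ∧
      ∀ (w : Fin r → K) (ζ : K), w a ≠ 0 → ‖algebraMap K L (ζ / w a)‖ ≤ C₁ →
        facW L w a (some (Finset.univ.erase a)) ≤ C₁ →
        ev (fun i => if i = a then 0 else w i / w a) (ζ / w a) Φ = 0 →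
        ∃ τ ∈ Ty, ‖ev (zI L w a (Finset.univ.erase a)) (algebraMap K L (ζ / w a)) τ.G‖ ≤
          C * facW L w a (some (Finset.univ.erase a)) ^ J := by
  classical
  have : Nonempty (Fin r) := ⟨a⟩
  obtain ⟨𝒢, C, hC, h𝒢, hloc⟩ := local_poly (L := L) Φ hΦ D hD hdeg hsp C₁ hC₁ J
  obtain ⟨lo, hlo⟩ : ∃ lo : {G // G ∈ 𝒢} → LocT K L r D,
      lo = fun G => ⟨a, some (Finset.univ.erase a), G.1, (h𝒢 G.1 G.2).1, (h𝒢 G.1 G.2).2,
        fun I' h => by
          cases h
          exact ⟨Finset.notMem_erase a _, hne⟩⟩ := ⟨_, rfl⟩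
  refine ⟨𝒢.attach.image lo, C, hC, ?_, ?_⟩
  · intro τ hτ
    obtain ⟨G, -, rfl⟩ := Finset.mem_image.1 hτ
    rw [hlo]
    exact ⟨rfl, rfl⟩
  intro w ζ hwa hζ hfac hrel
  have hle : ‖zI L w a (Finset.univ.erase a)‖ ≤ facW L w a (some (Finset.univ.erase a)) :=
    zI_le w a (some (Finset.univ.erase a))
  have hz : (fun i => algebraMap K L (if i = a then 0 else w i / w a)) =
      zI L w a (Finset.univ.erase a) := by
    funext i
    change _ = if i ∈ Finset.univ.erase a then algebraMap K L (w i / w a) else 0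
    by_cases hi : i = a
    · rw [if_pos hi, if_neg (by rw [hi]; exact Finset.notMem_erase a _), map_zero]
    · rw [if_neg hi, if_pos (Finset.mem_erase.2 ⟨hi, Finset.mem_univ i⟩)]
  have hev : ev (zI L w a (Finset.univ.erase a)) (algebraMap K L (ζ / w a)) Φ = 0 := by
    have h1 := locD_ev (L := L) (fun i => if i = a then 0 else w i / w a) (ζ / w a) Φ
    rw [hrel, map_zero, hz] at h1
    exact h1.symm
  obtain ⟨G, hG, hGle⟩ := hloc _ _ (hle.trans hfac) hζ hev
  refine ⟨lo ⟨G, hG⟩, Finset.mem_image_of_mem _ (Finset.mem_attach _ _), ?_⟩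
  rw [hlo]
  refine hGle.trans (mul_le_mul_of_nonneg_left ?_ hC.le)
  exact pow_le_pow_left₀ (norm_nonneg _) hle J

theorem loc_end (a i₀ : Fin r) (hai : a ≠ i₀) (D : ℕ) (hD : 1 ≤ D)
    (Φ : Polynomial (Polynomial K)) (hΦ : Φ.Monic) (hdeg : Φ.natDegree = D + 1)
    (hnp : ∀ b : Polynomial K, Φ ≠ (Polynomial.X - Polynomial.C b) ^ (D + 1))
    (κ : K) (hκ : κ ≠ 0) (C₁ : ℝ) (hC₁ : 1 ≤ C₁) (J : ℕ) :
    ∃ (Ty : Finset (LocT K L r D)) (C : ℝ), 0 < C ∧ (∀ τ ∈ Ty, τ.a = a ∧ τ.o = some {i₀}) ∧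
      ∀ (w : Fin r → K) (ζ : K), w a ≠ 0 → w i₀ ≠ 0 → ‖algebraMap K L (w i₀ / w a)‖ ≤ C₁ →
        Φ.eval₂ (Polynomial.eval₂RingHom (RingHom.id K) (κ * (w i₀ / w a) ^ (D + 1).factorial))
          (ζ / w a) = 0 →
        ∃ τ ∈ Ty, ‖ev (zI L w a {i₀}) (algebraMap K L (ζ / w a)) τ.G‖ ≤
          C * facW L w a (some {i₀}) ^ J := by
  classical
  obtain ⟨𝒢, C, hC, h𝒢, hloc⟩ := end_local (L := L) i₀ Φ hΦ D hD hdeg hnp κ hκ C₁ hC₁ J
  obtain ⟨lo, hlo⟩ : ∃ lo : {G // G ∈ 𝒢} → LocT K L r D,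
      lo = fun G => ⟨a, some {i₀}, G.1, (h𝒢 G.1 G.2).1, (h𝒢 G.1 G.2).2,
        fun I' h => by
          cases h
          exact ⟨fun h => hai (Finset.mem_singleton.1 h), Finset.singleton_nonempty i₀⟩⟩ :=
    ⟨_, rfl⟩
  refine ⟨𝒢.attach.image lo, C, hC, ?_, ?_⟩
  · intro τ hτ
    obtain ⟨G, -, rfl⟩ := Finset.mem_image.1 hτ
    rw [hlo]
    exact ⟨rfl, rfl⟩
  intro w ζ hwa hwi hs hrel
  obtain ⟨s, hsdef⟩ : ∃ s : L, s = algebraMap K L (w i₀ / w a) := ⟨_, rfl⟩
  have hs0 : s ≠ 0 := by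
    rw [hsdef, Ne, map_eq_zero_iff _ (algebraMap K L).injective]
    exact div_ne_zero hwi hwa
  have hz : zI L w a {i₀} = Pi.single i₀ s := by
    funext j
    change (if j ∈ ({i₀} : Finset (Fin r)) then algebraMap K L (w j / w a) else 0) = _
    by_cases hj : j = i₀
    · rw [hj, if_pos (Finset.mem_singleton_self _), Pi.single_eq_same, hsdef]
    · rw [if_neg (fun h => hj (Finset.mem_singleton.1 h)), Pi.single_eq_of_ne hj]
  have hev : Φ.eval₂ (Polynomial.eval₂RingHom (algebraMap K L)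
      (algebraMap K L κ * s ^ (D + 1).factorial)) (algebraMap K L (ζ / w a)) = 0 := by
    have h1 := congrArg (algebraMap K L) hrel
    rw [map_zero, Polynomial.hom_eval₂] at h1
    have h2 : (algebraMap K L).comp (Polynomial.eval₂RingHom (RingHom.id K)
        (κ * (w i₀ / w a) ^ (D + 1).factorial)) = Polynomial.eval₂RingHom (algebraMap K L)
          (algebraMap K L κ * s ^ (D + 1).factorial) := by
      apply Polynomial.ringHom_ext
      · intro b
        rw [RingHom.comp_apply, Polynomial.coe_eval₂RingHom, Polynomial.coe_eval₂RingHom,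
          Polynomial.eval₂_C, Polynomial.eval₂_C, RingHom.id_apply]
      · rw [RingHom.comp_apply, Polynomial.coe_eval₂RingHom, Polynomial.coe_eval₂RingHom,
          Polynomial.eval₂_X, Polynomial.eval₂_X, map_mul, map_pow, hsdef]
    rw [h2] at h1
    exact h1
  obtain ⟨G, hG, hGle⟩ := hloc s (algebraMap K L (ζ / w a)) hs0 (by rw [hsdef]; exact hs) hev
  refine ⟨lo ⟨G, hG⟩, Finset.mem_image_of_mem _ (Finset.mem_attach _ _), ?_⟩
  rw [hlo, hz]
  refine hGle.trans (mul_le_mul_of_nonneg_left ?_ hC.le)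
  refine pow_le_pow_left₀ (norm_nonneg _) ?_ J
  rw [hsdef]
  exact norm_le_pi_norm (fun i : {i // i ∈ ({i₀} : Finset (Fin r))} =>
    algebraMap K L (w i.1 / w a)) ⟨i₀, Finset.mem_singleton_self i₀⟩

end

end Pool.Agent.Helper10.TD
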