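import Pool.Agent.Helper38.TN.Defs

/-!
# The product over the places in the case of one unit

`c₀ = ∑ i, |c i|` (at least `1`), `m_v = min ‖s‖_v ‖s‖_v⁻¹ ≤ 1`. For every `i`
`‖w i‖_v = ‖κ i‖_v ‖w 0‖_v ‖s‖_v ^ (c i) ≤ A ‖w 0‖_v m_v ^ (- c₀)`, so
`nrm x ≤ C₁ A ‖w 0‖_v m_v ^ (- c₀)`, and the product over `v` (product formula for `w 0`,
`MP.U.pf`) gives `Ht x ≤ (C₁ A) ^ #Λ (∏ m_v) ^ (- c₀)`. Take `ε = 1 / c₀`.
-/

set_option autoImplicit false

namespace Pool.Agent.Helper10.TD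

open Pool.Agent.Helper10.Sub Pool.Agent.Helper38.TP Pool.Agent.Helper38.TN

private lemma min_inv_pos {a : ℝ} (ha : 0 < a) : 0 < min a a⁻¹ := lt_min ha (inv_pos.mpr ha)

private lemma one_le_min_inv {a : ℝ} (ha : 0 < a) : 1 ≤ (min a a⁻¹)⁻¹ := by
  rw [one_le_inv₀ (min_inv_pos ha)]
  rcases le_total a 1 with h | h
  · exact (min_le_left _ _).trans h
  · exact (min_le_right _ _).trans (inv_le_one_of_one_le₀ h)

private lemma zpow_le_min_inv {a : ℝ} (ha : 0 < a) (c : ℤ) (k : ℕ) (hk : c.natAbs ≤ k) :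
    a ^ c ≤ ((min a a⁻¹)⁻¹) ^ k := by
  have hb := one_le_min_inv ha
  have h1 : a ≤ (min a a⁻¹)⁻¹ := by
    rw [le_inv_comm₀ ha (min_inv_pos ha)]
    exact min_le_right _ _
  have h2 : a⁻¹ ≤ (min a a⁻¹)⁻¹ := by
    rw [inv_le_inv₀ ha (min_inv_pos ha)]
    exact min_le_left _ _
  refine le_trans ?_ (pow_le_pow_right₀ hb hk)
  rcases Int.natAbs_eq c with h | h
  · rw [h, zpow_natCast, Int.natAbs_natCast]
    exact pow_le_pow_left₀ ha.le h1 _
  · rw [h, zpow_neg, zpow_natCast, Int.natAbs_neg, Int.natAbs_natCast, ← inv_pow]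
    exact pow_le_pow_left₀ (inv_pos.mpr ha).le h2 _

theorem prodB {K : Type} [Field K] {Λ : Type} [Fintype Λ] {L : Λ → Type}
    [∀ s, NontriviallyNormedField (L s)] [∀ s, Algebra K (L s)] (Z : MP K L) {N n : ℕ}
    (κ : Fin (n + 1) → K) (c : Fin (n + 1) → ℤ) (C₁ : ℝ) (hC₁ : 1 ≤ C₁) :
    ∃ ε : ℝ, 0 < ε ∧ ∃ C₂ : ℝ, 0 < C₂ ∧
      ∀ (x : Fin (N + 1) → K) (w : Fin (n + 1) → K) (s : K), x ≠ 0 → 1 ≤ Ht L x → Z.U (w 0) →
        Z.U s → (∀ i, w i = κ i * (w 0 * s ^ c i)) →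
        (∀ v, ∃ i, nrm (L v) x ≤ C₁ * ‖algebraMap K (L v) (w i)‖) →
        ∏ v, min ‖algebraMap K (L v) s‖ ‖algebraMap K (L v) s‖⁻¹ ≤ C₂ * Ht L x ^ (-ε) := by
  classical
  set A : ℝ := (∑ v, ∑ i, ‖algebraMap K (L v) (κ i)‖) + 1 with hA
  have hA0 : 0 < A := by
    have : 0 ≤ ∑ v, ∑ i, ‖algebraMap K (L v) (κ i)‖ :=
      Finset.sum_nonneg fun v _ => Finset.sum_nonneg fun i _ => norm_nonneg _
    linarith
  have hκA : ∀ v i, ‖algebraMap K (L v) (κ i)‖ ≤ A := by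
    intro v i
    have h1 : ‖algebraMap K (L v) (κ i)‖ ≤ ∑ i, ‖algebraMap K (L v) (κ i)‖ :=
      Finset.single_le_sum (f := fun i => ‖algebraMap K (L v) (κ i)‖)
        (fun i _ => norm_nonneg _) (Finset.mem_univ i)
    have h2 : ∑ i, ‖algebraMap K (L v) (κ i)‖ ≤ ∑ v, ∑ i, ‖algebraMap K (L v) (κ i)‖ :=
      Finset.single_le_sum (f := fun v => ∑ i, ‖algebraMap K (L v) (κ i)‖)
        (fun v _ => Finset.sum_nonneg fun i _ => norm_nonneg _) (Finset.mem_univ v)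
    linarith
  have hC0 : 0 < C₁ := by linarith
  set k : ℕ := (∑ i, (c i).natAbs) + 1 with hk
  have hk0 : (0 : ℝ) < k := by exact_mod_cast Nat.succ_pos _
  have hck : ∀ i, (c i).natAbs ≤ k := fun i =>
    (Finset.single_le_sum (f := fun i => (c i).natAbs) (fun _ _ => Nat.zero_le _)
      (Finset.mem_univ i)).trans (Nat.le_succ _)
  set D : ℝ := (C₁ * A) ^ Fintype.card Λ with hD
  have hD0 : 0 < D := by positivity
  refine ⟨1 / k, by positivity, D ^ ((1 : ℝ) / k), by positivity, ?_⟩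
  intro x w s hx hH hw hs hwi hv
  have ha : ∀ v, 0 < ‖algebraMap K (L v) s‖ := fun v => hs.pos v
  have hmpos : ∀ v, 0 < min ‖algebraMap K (L v) s‖ ‖algebraMap K (L v) s‖⁻¹ :=
    fun v => min_inv_pos (ha v)
  set P : ℝ := ∏ v, min ‖algebraMap K (L v) s‖ ‖algebraMap K (L v) s‖⁻¹ with hP
  have hP0 : 0 < P := Finset.prod_pos fun v _ => hmpos v
  have hH0 : 0 < Ht L x := by linarith
  -- the local estimates
  have hloc : ∀ v, nrm (L v) x ≤ (C₁ * A) * ‖algebraMap K (L v) (w 0)‖ *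
      ((min ‖algebraMap K (L v) s‖ ‖algebraMap K (L v) s‖⁻¹)⁻¹) ^ k := by
    intro v
    obtain ⟨i, hi⟩ := hv v
    refine hi.trans ?_
    rw [hwi i, map_mul, map_mul, map_zpow₀, norm_mul, norm_mul, norm_zpow]
    have h1 := zpow_le_min_inv (ha v) (c i) k (hck i)
    have h2 := hκA v i
    calc C₁ * (‖algebraMap K (L v) (κ i)‖ * (‖algebraMap K (L v) (w 0)‖ *
          ‖algebraMap K (L v) s‖ ^ c i))
        ≤ C₁ * (A * (‖algebraMap K (L v) (w 0)‖ *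
          ((min ‖algebraMap K (L v) s‖ ‖algebraMap K (L v) s‖⁻¹)⁻¹) ^ k)) := by
          apply mul_le_mul_of_nonneg_left _ hC0.le
          apply mul_le_mul h2 (mul_le_mul_of_nonneg_left h1 (norm_nonneg _))
            (mul_nonneg (norm_nonneg _) (zpow_nonneg (norm_nonneg _) _)) hA0.le
      _ = _ := by ring
  have hglob : Ht L x ≤ D * (P⁻¹) ^ k := by
    have h1 : Ht L x ≤ ∏ v, ((C₁ * A) * ‖algebraMap K (L v) (w 0)‖ *
        ((min ‖algebraMap K (L v) s‖ ‖algebraMap K (L v) s‖⁻¹)⁻¹) ^ k) :=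
      Finset.prod_le_prod (fun v _ => nrm_nonneg x) fun v _ => hloc v
    rw [Finset.prod_mul_distrib, Finset.prod_mul_distrib, hw.pf, mul_one, Finset.prod_const,
      Finset.card_univ, Finset.prod_pow, Finset.prod_inv_distrib] at h1
    exact h1
  have hPk : P ^ k ≤ D * (Ht L x)⁻¹ := by
    rw [inv_pow, ← div_eq_mul_inv, le_div_iff₀ (by positivity)] at hglob
    rw [← div_eq_mul_inv, le_div_iff₀ hH0]
    linarith
  have h3 : P = (P ^ k) ^ ((1 : ℝ) / k) := by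
    rw [← Real.rpow_natCast, ← Real.rpow_mul hP0.le, mul_one_div_cancel hk0.ne', Real.rpow_one]
  calc P = (P ^ k) ^ ((1 : ℝ) / k) := h3
    _ ≤ (D * (Ht L x)⁻¹) ^ ((1 : ℝ) / k) :=
        Real.rpow_le_rpow (by positivity) hPk (by positivity)
    _ = D ^ ((1 : ℝ) / k) * Ht L x ^ (-((1 : ℝ) / k)) := by
        rw [Real.mul_rpow hD0.le (inv_pos.mpr hH0).le, Real.inv_rpow hH0.le, Real.rpow_neg hH0.le]

end Pool.Agent.Helper10.TD
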