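import Pool.Agent.Helper10.TD.RelGD
import Pool.Agent.Helper10.TD.LocD
import Pool.Agent.Helper10.TD.ProdB

/-!
# One unit: the relation from the Subspace theorem

Put `n' = (hi - lo).toNat` (at least 1), `w' x j = w x 0 * s x ^ (lo + j)`, `j : Fin (n' + 1)`.
1. `PtsE Z 𝔅 w' C E` for a constant `C ≥ C₁`: `‖w' x j‖ ≤ max ‖w' x 0‖ ‖w' x (last)‖`, and
`w' x 0 = w x i / κ i`, `w' x (last) = w x i' / κ i'` for indices with `c i = lo`, `c i' = hi`.
2. `nrm x ≤ C ‖w' x (last)‖` if `1 ≤ ‖s x‖`, `nrm x ≤ C ‖w' x 0‖` if `‖s x‖ ≤ 1` (from `hlow`).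
3. `HasLoc L w' (fun x => x k) C ε E D`: at a place with `1 ≤ ‖s x‖` take `loc_end` with
`a = Fin.last n'`, `i₀` its predecessor, `Φ₁, κ₁` (`w' i₀ / w' a = (s x)⁻¹`), otherwise `a = 0`,
`i₀ = 1`, `Φ₀, κ₀` (`w' i₀ / w' a = s x`); the constants `C₁` of `loc_end` are `C`; in both cases
`facW = min ‖s‖ ‖s‖⁻¹`, and the product is bounded by `prodB`.
4. `relGD` for `w'` with `u = w x 0`, `t x = fun _ : Fin 1 => s x`, `κ = 1`, `c j = fun _ => lo + j`,
`ξ x = x k`; divide by `w x 0 ^ (M + D)`.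
-/

set_option autoImplicit false
set_option linter.unusedSectionVars false

namespace Pool.Agent.Helper10.TD

open Pool.Agent.Helper10.Sub Pool.Agent.Helper38.TP Pool.Agent.Helper38.TN MvPolynomial

variable {K : Type} [Field K] [CharZero K] {Λ : Type} [Fintype Λ] [DecidableEq Λ] {L : Λ → Type}
  [∀ s, NontriviallyNormedField (L s)] [∀ s, ProperSpace (L s)] [∀ s, Algebra K (L s)] {N n : ℕ}

lemma EngB_facW {L : Type} [NontriviallyNormedField L] {K : Type} [Field K] [Algebra K L] {r : ℕ}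
    (w : Fin r → K) (a i₀ : Fin r) :
    facW L w a (some {i₀}) = ‖algebraMap K L (w i₀ / w a)‖ := by
  apply le_antisymm
  · change ‖fun i : {i // i ∈ ({i₀} : Finset (Fin r))} => algebraMap K L (w i.1 / w a)‖ ≤ _
    rw [pi_norm_le_iff_of_nonneg (norm_nonneg _)]
    rintro ⟨i, hi⟩
    obtain rfl := Finset.mem_singleton.1 hi
    exact le_rfl
  · exact norm_le_pi_norm (fun i : {i // i ∈ ({i₀} : Finset (Fin r))} =>
      algebraMap K L (w i.1 / w a)) ⟨i₀, Finset.mem_singleton_self _⟩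

lemma EngB_zpow {S : ℝ} (hS : 0 < S) {lo e hi : ℤ} (h1 : lo ≤ e) (h2 : e ≤ hi) :
    S ^ e ≤ max (S ^ lo) (S ^ hi) := by
  rcases le_total 1 S with h | h
  · exact (zpow_le_zpow_right₀ h h2).trans (le_max_right _ _)
  · exact (zpow_le_zpow_right_of_le_one₀ hS h h1).trans (le_max_left _ _)

lemma EngB_mono {K : Type} [Field K] (s : K) (e : Fin 1 → ℤ) :
    mono (fun _ : Fin 1 => s) e = s ^ e 0 := by
  rw [mono, Fin.prod_univ_one]

/-- rewriting of the relation for one unit -/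
lemma EngB_rel {K : Type} [Field K] (D M : ℕ) (T : ℕ → Finset (Fin 1 → ℤ))
    (A : ℕ → (Fin 1 → ℤ) → K) (u ξ s : K) (hu : u ≠ 0)
    (h : ∑ j ∈ Finset.range (D + 1), ξ ^ j * (u ^ (M + (D - j)) *
        ∑ α ∈ T j, A j α * mono (fun _ : Fin 1 => s) α) = 0) :
    ∑ j ∈ Finset.range (D + 1), (ξ / u) ^ j *
      ∑ α ∈ (T j).image (fun α => α 0), A j (fun _ => α) * s ^ α = 0 := by
  have hinj : ∀ j, Set.InjOn (fun α : Fin 1 → ℤ => α 0) (T j : Set (Fin 1 → ℤ)) := by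
    intro j α _ β _ h
    funext i
    rw [Subsingleton.elim i 0]
    exact h
  have h1 : ∀ j, ∑ α ∈ (T j).image (fun α => α 0), A j (fun _ => α) * s ^ α =
      ∑ α ∈ T j, A j α * mono (fun _ : Fin 1 => s) α := by
    intro j
    rw [Finset.sum_image (hinj j)]
    refine Finset.sum_congr rfl fun α _ => ?_
    rw [EngB_mono]
    have e : (fun _ : Fin 1 => α 0) = α := by
      funext i
      rw [Subsingleton.elim i 0]
    rw [e]
  have h2 : u ^ (M + D) * ∑ j ∈ Finset.range (D + 1), (ξ / u) ^ j *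
      ∑ α ∈ (T j).image (fun α => α 0), A j (fun _ => α) * s ^ α = 0 := by
    rw [← h, Finset.mul_sum]
    refine Finset.sum_congr rfl fun j hj => ?_
    have hj' : j ≤ D := Nat.lt_succ_iff.1 (Finset.mem_range.1 hj)
    rw [h1 j]
    have e : M + D = (M + (D - j)) + j := by omega
    rw [e, pow_add u (M + (D - j)) j, div_pow]
    have hu' : u ^ j ≠ 0 := pow_ne_zero _ hu
    field_simp
  exact (mul_eq_zero.1 h2).resolve_left (pow_ne_zero _ hu)

theorem engB {Z : MP K L} {𝔅 : LN (Fin (N + 1) → K)}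
    {w : (Fin (N + 1) → K) → Fin (n + 1) → K} {C₁ : ℝ} {E : Set (Fin (N + 1) → K)}
    (h : PtsE Z 𝔅 w C₁ E)
    (hlow : ∀ x ∈ E, ∀ v, ∃ i, nrm (L v) x ≤ C₁ * ‖algebraMap K (L v) (w x i)‖)
    (s : (Fin (N + 1) → K) → K) (hs : ∀ x ∈ E, Z.U (s x)) (κ : Fin (n + 1) → K)
    (hκ : ∀ i, κ i ≠ 0) (c : Fin (n + 1) → ℤ)
    (hrel : ∀ x ∈ E, ∀ i, w x i = κ i * (w x 0 * s x ^ c i)) (lo hi : ℤ)
    (hlo : ∀ i, lo ≤ c i) (hhi : ∀ i, c i ≤ hi) (hlo' : ∃ i, c i = lo) (hhi' : ∃ i, c i = hi)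
    (hlh : lo < hi) (k : Fin (N + 1)) (D : ℕ) (hD : 1 ≤ D)
    (Φ₀ Φ₁ : Polynomial (Polynomial K)) (hΦ₀ : Φ₀.Monic) (hΦ₁ : Φ₁.Monic)
    (hd₀ : Φ₀.natDegree = D + 1) (hd₁ : Φ₁.natDegree = D + 1)
    (hp₀ : ∀ b : Polynomial K, Φ₀ ≠ (Polynomial.X - Polynomial.C b) ^ (D + 1))
    (hp₁ : ∀ b : Polynomial K, Φ₁ ≠ (Polynomial.X - Polynomial.C b) ^ (D + 1))
    (κ₀ κ₁ : K) (hκ₀ : κ₀ ≠ 0) (hκ₁ : κ₁ ≠ 0)
    (h₀ : ∀ x ∈ E, Φ₀.eval₂ (Polynomial.eval₂RingHom (RingHom.id K)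
      (κ₀ * s x ^ (D + 1).factorial)) (x k / (w x 0 * s x ^ lo)) = 0)
    (h₁ : ∀ x ∈ E, Φ₁.eval₂ (Polynomial.eval₂RingHom (RingHom.id K)
      (κ₁ * (s x)⁻¹ ^ (D + 1).factorial)) (x k / (w x 0 * s x ^ hi)) = 0) :
    ∃ E' ⊆ E, 𝔅.Big E' ∧ ∃ (S : ℕ → Finset ℤ) (A : ℕ → ℤ → K),
      (∃ j ≤ D, ∃ α ∈ S j, A j α ≠ 0) ∧ ∀ x ∈ E',
        ∑ j ∈ Finset.range (D + 1), (x k / w x 0) ^ j * ∑ α ∈ S j, A j α * s x ^ α = 0 := by
  classical
  obtain ⟨n', hn'⟩ : ∃ n' : ℕ, (n' : ℤ) = hi - lo :=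
    ⟨(hi - lo).toNat, Int.toNat_of_nonneg (by omega)⟩
  have hn1 : 1 ≤ n' := by omega
  obtain ⟨w', hw'⟩ : ∃ w' : (Fin (N + 1) → K) → Fin (n' + 1) → K,
      w' = fun (x : Fin (N + 1) → K) (j : Fin (n' + 1)) =>
        w x 0 * s x ^ (lo + ((j : ℕ) : ℤ)) := ⟨_, rfl⟩
  have hw0 : ∀ x, w' x 0 = w x 0 * s x ^ lo := by
    intro x
    rw [hw']
    simp
  have hwl : ∀ x, w' x (Fin.last n') = w x 0 * s x ^ hi := by
    intro x
    rw [hw']
    simp only [Fin.val_last]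
    rw [hn']
    congr 2
    ring
  have hC₁ := h.hC₁
  -- the constants
  obtain ⟨Cκ, hCκ⟩ : ∃ Cκ : ℝ, Cκ = 1 + ∑ v, ∑ i, (‖algebraMap K (L v) (κ i)‖ +
      ‖algebraMap K (L v) (κ i)⁻¹‖) := ⟨_, rfl⟩
  have hκle : ∀ v i, ‖algebraMap K (L v) (κ i)‖ + ‖algebraMap K (L v) (κ i)⁻¹‖ ≤ Cκ - 1 := by
    intro v i
    have h1 : ‖algebraMap K (L v) (κ i)‖ + ‖algebraMap K (L v) (κ i)⁻¹‖ ≤
        ∑ i, (‖algebraMap K (L v) (κ i)‖ + ‖algebraMap K (L v) (κ i)⁻¹‖) :=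
      Finset.single_le_sum (f := fun i => ‖algebraMap K (L v) (κ i)‖ +
        ‖algebraMap K (L v) (κ i)⁻¹‖) (fun i _ => by positivity) (Finset.mem_univ i)
    have h2 : ∑ i, (‖algebraMap K (L v) (κ i)‖ + ‖algebraMap K (L v) (κ i)⁻¹‖) ≤
        ∑ v, ∑ i, (‖algebraMap K (L v) (κ i)‖ + ‖algebraMap K (L v) (κ i)⁻¹‖) :=
      Finset.single_le_sum (f := fun v => ∑ i, (‖algebraMap K (L v) (κ i)‖ +
        ‖algebraMap K (L v) (κ i)⁻¹‖))
        (fun v _ => Finset.sum_nonneg fun i _ => by positivity) (Finset.mem_univ v)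
    linarith
  have hCκ1 : 1 ≤ Cκ := by
    rw [hCκ]
    have : 0 ≤ ∑ v, ∑ i, (‖algebraMap K (L v) (κ i)‖ + ‖algebraMap K (L v) (κ i)⁻¹‖) :=
      Finset.sum_nonneg fun v _ => Finset.sum_nonneg fun i _ => by positivity
    linarith
  have hκ1 : ∀ v i, ‖algebraMap K (L v) (κ i)‖ ≤ Cκ := by
    intro v i
    have := hκle v i
    have := norm_nonneg (algebraMap K (L v) (κ i)⁻¹)
    linarith
  have hκ2 : ∀ v i, ‖algebraMap K (L v) (κ i)⁻¹‖ ≤ Cκ := by
    intro v i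
    have := hκle v i
    have := norm_nonneg (algebraMap K (L v) (κ i))
    linarith
  obtain ⟨C, hCd⟩ : ∃ C : ℝ, C = C₁ * Cκ := ⟨_, rfl⟩
  have hCC : C₁ ≤ C := by
    rw [hCd]
    exact le_mul_of_one_le_right (by linarith) hCκ1
  have hC1 : 1 ≤ C := hC₁.trans hCC
  have hC0 : 0 ≤ C := by linarith
  have hlh' : lo + (n' : ℤ) = hi := by omega
  have hnorm : ∀ x v (e : ℤ), ‖algebraMap K (L v) (w x 0 * s x ^ e)‖ =
      ‖algebraMap K (L v) (w x 0)‖ * ‖algebraMap K (L v) (s x)‖ ^ e := by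
    intro x v e
    rw [map_mul, norm_mul, map_zpow₀, norm_zpow]
  -- upper bound at the two ends
  have hend : ∀ (e : ℤ), (∃ i, c i = e) → ∀ x ∈ E, ∀ v,
      ‖algebraMap K (L v) (w x 0 * s x ^ e)‖ ≤ C * nrm (L v) x := by
    rintro e ⟨i, hi'⟩ x hx v
    have h1 : w x 0 * s x ^ e = (κ i)⁻¹ * w x i := by
      rw [hrel x hx i, hi', inv_mul_cancel_left₀ (hκ i)]
    rw [h1, map_mul, norm_mul, hCd, mul_comm C₁ Cκ, mul_assoc]
    exact mul_le_mul (hκ2 v i) (h.up x hx v i) (norm_nonneg _) (by linarith)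
  have hup : ∀ x ∈ E, ∀ v j, ‖algebraMap K (L v) (w' x j)‖ ≤ C * nrm (L v) x := by
    intro x hx v j
    have hS := (hs x hx).pos v
    have hj : (lo + ((j : ℕ) : ℤ)) ≤ hi := by
      have := j.2
      omega
    have hj0 : lo ≤ lo + ((j : ℕ) : ℤ) := by omega
    have h1 := EngB_zpow hS hj0 hj
    have h2 := hend lo hlo' x hx v
    have h3 := hend hi hhi' x hx v
    rw [hnorm] at h2 h3
    rw [hw']
    simp only
    rw [hnorm]
    calc ‖algebraMap K (L v) (w x 0)‖ * ‖algebraMap K (L v) (s x)‖ ^ (lo + ((j : ℕ) : ℤ)) ≤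
          ‖algebraMap K (L v) (w x 0)‖ * max (‖algebraMap K (L v) (s x)‖ ^ lo)
            (‖algebraMap K (L v) (s x)‖ ^ hi) := mul_le_mul_of_nonneg_left h1 (norm_nonneg _)
      _ = max (‖algebraMap K (L v) (w x 0)‖ * ‖algebraMap K (L v) (s x)‖ ^ lo)
            (‖algebraMap K (L v) (w x 0)‖ * ‖algebraMap K (L v) (s x)‖ ^ hi) :=
          mul_max_of_nonneg _ _ (norm_nonneg _)
      _ ≤ C * nrm (L v) x := max_le h2 h3
  have h' : PtsE Z 𝔅 w' C E := {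
    big := h.big
    unit := fun x hx j => by
      rw [hw']
      exact (h.unit x hx 0).mul (U_zpow (hs x hx) _)
    O := h.O
    ne := h.ne
    hC₁ := hC1
    bal := fun x hx v => (h.bal x hx v).trans
      (mul_le_mul_of_nonneg_right hCC (zero_le_one.trans (h.one_le hx)))
    up := hup }
  -- lower bounds
  have hlowB : ∀ x ∈ E, ∀ v, (1 ≤ ‖algebraMap K (L v) (s x)‖ →
      nrm (L v) x ≤ C * ‖algebraMap K (L v) (w' x (Fin.last n'))‖) ∧
      (‖algebraMap K (L v) (s x)‖ ≤ 1 → nrm (L v) x ≤ C * ‖algebraMap K (L v) (w' x 0)‖) := by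
    intro x hx v
    obtain ⟨i, hi'⟩ := hlow x hx v
    have hS := (hs x hx).pos v
    rw [hrel x hx i, map_mul, norm_mul, hnorm] at hi'
    have h1 : ∀ q : ℝ, ‖algebraMap K (L v) (s x)‖ ^ c i ≤ q →
        nrm (L v) x ≤ C * (‖algebraMap K (L v) (w x 0)‖ * q) := by
      intro q hq
      refine hi'.trans ?_
      rw [hCd, mul_assoc]
      refine mul_le_mul_of_nonneg_left ?_ (by linarith)
      exact mul_le_mul (hκ1 v i) (mul_le_mul_of_nonneg_left hq (norm_nonneg _))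
        (mul_nonneg (norm_nonneg _) (zpow_nonneg hS.le _)) (by linarith)
    constructor
    · intro hS1
      rw [hwl, hnorm]
      exact h1 _ (zpow_le_zpow_right₀ hS1 (hhi i))
    · intro hS1
      rw [hw0, hnorm]
      exact h1 _ (zpow_le_zpow_right_of_le_one₀ hS hS1 (hlo i))
  -- the product
  obtain ⟨ε, hε, CB, hCB, hprod⟩ := prodB (L := L) (N := N) Z κ c C₁ hC₁
  -- the two corners
  have hi₁ : n' - 1 < n' + 1 := by omega
  have hi₀ : 1 < n' + 1 := by omega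
  obtain ⟨i₁, hi₁d⟩ : ∃ i₁ : Fin (n' + 1), i₁ = ⟨n' - 1, hi₁⟩ := ⟨_, rfl⟩
  obtain ⟨i₀, hi₀d⟩ : ∃ i₀ : Fin (n' + 1), i₀ = ⟨1, hi₀⟩ := ⟨_, rfl⟩
  have hne1 : Fin.last n' ≠ i₁ := by
    rw [hi₁d]
    intro h
    have := congrArg Fin.val h
    simp only [Fin.val_last] at this
    omega
  have hne0 : (0 : Fin (n' + 1)) ≠ i₀ := by
    rw [hi₀d]
    intro h
    have := congrArg Fin.val h
    simp at this
  have hq1 : ∀ x ∈ E, w' x i₁ / w' x (Fin.last n') = (s x)⁻¹ := by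
    intro x hx
    have hw := (h.unit x hx 0).ne
    have hsx := (hs x hx).ne
    have e1 : w' x i₁ = w x 0 * s x ^ (hi - 1) := by
      rw [hw', hi₁d]
      simp only
      have : (((n' - 1 : ℕ) : ℤ)) = (n' : ℤ) - 1 := by
        rw [Nat.cast_sub hn1]
        simp
      rw [this, ← hlh']
      congr 2
      ring
    rw [e1, hwl, mul_div_mul_left _ _ hw, ← zpow_sub₀ hsx]
    have : hi - 1 - hi = -1 := by ring
    rw [this, zpow_neg_one]
  have hq0 : ∀ x ∈ E, w' x i₀ / w' x 0 = s x := by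
    intro x hx
    have hw := (h.unit x hx 0).ne
    have hsx := (hs x hx).ne
    have e1 : w' x i₀ = w x 0 * s x ^ (lo + 1) := by
      rw [hw', hi₀d]
      simp
    rw [e1, hw0, mul_div_mul_left _ _ hw, ← zpow_sub₀ hsx]
    have : lo + 1 - lo = 1 := by ring
    rw [this, zpow_one]
  have hloc : HasLoc L w' (fun x => x k) C ε E D := by
    intro J
    choose Ty1 Cs1 hCs1 hTy1 hloc1 using fun v : Λ => loc_end (L := L v) (Fin.last n') i₁ hne1 D hD
      Φ₁ hΦ₁ hd₁ hp₁ κ₁ hκ₁ C hC1 J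
    choose Ty0 Cs0 hCs0 hTy0 hloc0 using fun v : Λ => loc_end (L := L v) (0 : Fin (n' + 1)) i₀ hne0
      D hD Φ₀ hΦ₀ hd₀ hp₀ κ₀ hκ₀ C hC1 J
    obtain ⟨C₂, hC₂⟩ : ∃ C₂ : ℝ, C₂ = CB + ∑ v, (Cs1 v + Cs0 v) := ⟨_, rfl⟩
    have hsum0 : 0 ≤ ∑ v, (Cs1 v + Cs0 v) :=
      Finset.sum_nonneg fun v _ => add_nonneg (hCs1 v).le (hCs0 v).le
    have hsum : ∀ v, Cs1 v + Cs0 v ≤ C₂ := by
      intro v
      have := Finset.single_le_sum (f := fun v => Cs1 v + Cs0 v)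
        (fun v _ => add_nonneg (hCs1 v).le (hCs0 v).le) (Finset.mem_univ v)
      rw [hC₂]
      linarith
    refine ⟨fun v => Ty1 v ∪ Ty0 v, C₂, fun x hx => ?_⟩
    have hτ : ∀ v, ∃ τ ∈ Ty1 v ∪ Ty0 v, τ.Ok x (w' x) (x k) C C₂ J ∧
        facW (L v) (w' x) τ.a τ.o =
          min ‖algebraMap K (L v) (s x)‖ ‖algebraMap K (L v) (s x)‖⁻¹ := by
      intro v
      have hS := (hs x hx).pos v
      rcases le_total 1 ‖algebraMap K (L v) (s x)‖ with hS1 | hS1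
      · obtain ⟨τ, hτ, hle⟩ := hloc1 v (w' x) (x k) (h'.unit x hx _).ne (h'.unit x hx _).ne (by
            rw [hq1 x hx, map_inv₀, norm_inv]
            exact (inv_le_one_of_one_le₀ hS1).trans hC1) (by
            rw [hq1 x hx, hwl]
            exact h₁ x hx)
        obtain ⟨ha, ho⟩ := hTy1 v τ hτ
        have hf : facW (L v) (w' x) (Fin.last n') (some {i₁}) =
            min ‖algebraMap K (L v) (s x)‖ ‖algebraMap K (L v) (s x)‖⁻¹ := by
          rw [EngB_facW, hq1 x hx, map_inv₀, norm_inv, min_eq_right]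
          exact (inv_le_one_of_one_le₀ hS1).trans hS1
        refine ⟨τ, Finset.mem_union_left _ hτ, ⟨?_, ?_⟩, ?_⟩
        · rw [ha]
          exact (hlowB x hx v).1 hS1
        · rw [ha, ho]
          refine hle.trans (mul_le_mul_of_nonneg_right ?_ (pow_nonneg (facW_nonneg _ _ _ _) _))
          have := hsum v
          have := (hCs0 v).le
          linarith
        · rw [ha, ho]
          exact hf
      · obtain ⟨τ, hτ, hle⟩ := hloc0 v (w' x) (x k) (h'.unit x hx _).ne (h'.unit x hx _).ne (by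
            rw [hq0 x hx]
            exact hS1.trans hC1) (by
            rw [hq0 x hx, hw0]
            exact h₀ x hx)
        obtain ⟨ha, ho⟩ := hTy0 v τ hτ
        have hf : facW (L v) (w' x) 0 (some {i₀}) =
            min ‖algebraMap K (L v) (s x)‖ ‖algebraMap K (L v) (s x)‖⁻¹ := by
          rw [EngB_facW, hq0 x hx, min_eq_left]
          exact hS1.trans ((one_le_inv₀ hS).2 hS1)
        refine ⟨τ, Finset.mem_union_right _ hτ, ⟨?_, ?_⟩, ?_⟩
        · rw [ha]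
          exact (hlowB x hx v).2 hS1
        · rw [ha, ho]
          refine hle.trans (mul_le_mul_of_nonneg_right ?_ (pow_nonneg (facW_nonneg _ _ _ _) _))
          have := hsum v
          have := (hCs1 v).le
          linarith
        · rw [ha, ho]
          exact hf
    choose τ hτ1 hτ2 hτ3 using hτ
    refine ⟨τ, hτ1, hτ2, ?_⟩
    rw [Finset.prod_congr rfl fun v _ => hτ3 v]
    refine (hprod x (w x) (s x) (h.ne x hx) (h.one_le hx) (h.unit x hx 0) (hs x hx) (hrel x hx)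
      (hlow x hx)).trans ?_
    refine mul_le_mul_of_nonneg_right ?_ (Real.rpow_nonneg (zero_le_one.trans (h.one_le hx)) _)
    rw [hC₂]
    linarith
  obtain ⟨E', hE', hB, M, A, ⟨j, hj, α, hα, hA⟩, hsumm⟩ := relGD h' (fun x => w x 0)
    (fun x _ => s x) (fun _ => 1) (fun (j : Fin (n' + 1)) (_ : Fin 1) => lo + ((j : ℕ) : ℤ))
    (fun x hx j => by
      rw [EngB_mono, hw', one_mul])
    (fun x hx => h.unit x hx 0) (fun x hx _ => hs x hx) D hD ε hε (fun x => x k)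
    (fun x hx => h.O x hx k) (fun x hx v => (le_nrm x k).trans
      (le_mul_of_one_le_left (nrm_nonneg _) hC1)) hloc
  refine ⟨E', hE', hB, fun j => (AM (fun (j : Fin (n' + 1)) (_ : Fin 1) =>
    lo + ((j : ℕ) : ℤ)) (M + (D - j))).image (fun α => α 0), fun j a => A j (fun _ => a),
    ⟨j, hj, α 0, Finset.mem_image_of_mem _ hα, ?_⟩, fun x hx => ?_⟩
  · have e : (fun _ : Fin 1 => α 0) = α := by
      funext i
      rw [Subsingleton.elim i 0]
    change A j (fun _ : Fin 1 => α 0) ≠ 0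
    rw [e]
    exact hA
  · exact EngB_rel D M (fun j => AM (fun (j : Fin (n' + 1)) (_ : Fin 1) =>
      lo + ((j : ℕ) : ℤ)) (M + (D - j))) A (w x 0) (x k) (s x) (h.unit x (hE' hx) 0).ne (hsumm x hx)

end Pool.Agent.Helper10.TD
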