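import Pool.Agent.Helper10.TD.EstD
import Pool.Agent.Helper38.TP.RelH2

/-!
# The application of the Subspace theorem with local polynomials of degree `D`
-/

set_option autoImplicit false
set_option linter.unusedSectionVars false

namespace Pool.Agent.Helper10.TD

open Pool.Agent.Helper10.Sub Pool.Agent.Helper94.Sub Pool.Agent.Helper38.TP MvPolynomial

/-- The product of the sizes of the forms. -/
lemma relD_prod {Λ A B : Type} [Fintype Λ] [Fintype A] [Fintype B] (C R : ℝ) (hC : 0 ≤ C)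
    (hR : 1 ≤ R) (W Dl : Λ → ℝ) (X : Λ → A → ℝ) (X' : Λ → B → ℝ) (e : Λ → A → ℕ) (g : B → ℕ)
    (M D S₀ : ℕ)
    (hW : ∀ s, 0 ≤ W s) (hDl : ∀ s, 0 ≤ Dl s) (hDlR : ∀ s, Dl s ≤ R) (hX0 : ∀ s α, 0 ≤ X s α)
    (hX0' : ∀ s β, 0 ≤ X' s β)
    (hX : ∀ α, ∏ s, X s α = 1) (hX' : ∀ β, ∏ s, X' s β = 1) (he : ∀ s α, e s α ≤ M)
    (hS : ∀ s, S₀ ≤ ∑ α, e s α) :
    ∏ s, ((∏ α, C * X s α * W s ^ D * Dl s ^ (e s α + 2)) * ∏ β, ((R * W s) ^ g β * X' s β)) ≤
      (C ^ Fintype.card A * R ^ (Fintype.card A * (M + 2)) * R ^ (∑ β, g β)) ^ Fintype.card Λ *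
        (∏ s, W s) ^ (D * Fintype.card A + ∑ β, g β) * (∏ s, Dl s) ^ S₀ := by
  classical
  have h1 : ∀ s, (∏ α, C * X s α * W s ^ D * Dl s ^ (e s α + 2)) ≤
      (C ^ Fintype.card A * R ^ (Fintype.card A * (M + 2))) * ((∏ α, X s α) *
        (W s ^ (D * Fintype.card A) * Dl s ^ S₀)) := by
    intro s
    rw [Finset.prod_mul_distrib, Finset.prod_mul_distrib, Finset.prod_mul_distrib,
      Finset.prod_const, Finset.prod_const, Finset.card_univ, Finset.prod_pow_eq_pow_sum]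
    have h2 : S₀ ≤ ∑ α, (e s α + 2) :=
      (hS s).trans (Finset.sum_le_sum fun α _ => Nat.le_add_right _ _)
    have h3 := pow_cmp (hDl s) (hDlR s) hR h2
    have h4 : R ^ (∑ α, (e s α + 2)) ≤ R ^ (Fintype.card A * (M + 2)) := by
      apply pow_le_pow_right₀ hR
      calc ∑ α, (e s α + 2) ≤ ∑ _α : A, (M + 2) :=
            Finset.sum_le_sum fun α _ => by have := he s α; omega
        _ = _ := by rw [Finset.sum_const, Finset.card_univ, smul_eq_mul]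
    have h5 : Dl s ^ (∑ α, (e s α + 2)) ≤ R ^ (Fintype.card A * (M + 2)) * Dl s ^ S₀ :=
      h3.trans (mul_le_mul_of_nonneg_right h4 (pow_nonneg (hDl s) _))
    have h6 : 0 ≤ C ^ Fintype.card A * (∏ α, X s α) * (W s ^ D) ^ Fintype.card A :=
      mul_nonneg (mul_nonneg (pow_nonneg hC _) (Finset.prod_nonneg fun α _ => hX0 s α))
        (pow_nonneg (pow_nonneg (hW s) _) _)
    calc C ^ Fintype.card A * (∏ α, X s α) * (W s ^ D) ^ Fintype.card A *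
          Dl s ^ (∑ α, (e s α + 2)) ≤ C ^ Fintype.card A * (∏ α, X s α) *
            (W s ^ D) ^ Fintype.card A *
          (R ^ (Fintype.card A * (M + 2)) * Dl s ^ S₀) := mul_le_mul_of_nonneg_left h5 h6
      _ = _ := by rw [pow_mul (W s) D]; ring
  have h7 : ∀ s, ∏ β, ((R * W s) ^ g β * X' s β) =
      R ^ (∑ β, g β) * W s ^ (∑ β, g β) * ∏ β, X' s β := by
    intro s
    rw [Finset.prod_mul_distrib, Finset.prod_pow_eq_pow_sum, mul_pow]
  have h8 : ∀ s, 0 ≤ R ^ (∑ β, g β) * W s ^ (∑ β, g β) * ∏ β, X' s β := fun s =>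
    mul_nonneg (mul_nonneg (pow_nonneg (by linarith) _) (pow_nonneg (hW s) _))
      (Finset.prod_nonneg fun β _ => hX0' s β)
  simp only [h7]
  calc ∏ s, ((∏ α, C * X s α * W s ^ D * Dl s ^ (e s α + 2)) *
        (R ^ (∑ β, g β) * W s ^ (∑ β, g β) * ∏ β, X' s β))
      ≤ ∏ s, ((C ^ Fintype.card A * R ^ (Fintype.card A * (M + 2))) * ((∏ α, X s α) *
        (W s ^ (D * Fintype.card A) * Dl s ^ S₀)) *
        (R ^ (∑ β, g β) * W s ^ (∑ β, g β) * ∏ β, X' s β)) := by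
        refine Finset.prod_le_prod (fun s _ => ?_) fun s _ => ?_
        · exact mul_nonneg (Finset.prod_nonneg fun α _ => mul_nonneg (mul_nonneg
            (mul_nonneg hC (hX0 s α)) (pow_nonneg (hW s) _)) (pow_nonneg (hDl s) _)) (h8 s)
        · exact mul_le_mul_of_nonneg_right (h1 s) (h8 s)
    _ = ∏ s, ((C ^ Fintype.card A * R ^ (Fintype.card A * (M + 2)) * R ^ (∑ β, g β)) *
          (W s ^ (D * Fintype.card A + ∑ β, g β) * Dl s ^ S₀) *
          ((∏ α, X s α) * ∏ β, X' s β)) := by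
        refine Finset.prod_congr rfl fun s _ => ?_
        rw [pow_add (W s)]
        ring
    _ = _ := by
        rw [Finset.prod_mul_distrib, Finset.prod_mul_distrib, Finset.prod_const, Finset.card_univ,
          Finset.prod_mul_distrib, Finset.prod_mul_distrib, Finset.prod_comm,
          Finset.prod_eq_one fun α _ => hX α, one_mul, Finset.prod_comm (f := fun s β => X' s β),
          Finset.prod_eq_one fun β _ => hX' β, mul_one, Finset.prod_pow, Finset.prod_pow]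
        ring

section pts
variable {K : Type} [Field K] [CharZero K] {Λ : Type} [Fintype Λ] [DecidableEq Λ] {L : Λ → Type}
  [∀ s, NontriviallyNormedField (L s)] [∀ s, ProperSpace (L s)] [∀ s, Algebra K (L s)] {N r : ℕ}

/-- The hypotheses on the points. -/
structure PtsE (Z : MP K L) (𝔅 : LN (Fin (N + 1) → K))
    (w : (Fin (N + 1) → K) → Fin r → K) (C₁ : ℝ) (E : Set (Fin (N + 1) → K)) : Prop where
  big : 𝔅.Big E
  unit : ∀ x ∈ E, ∀ i, Z.U (w x i)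
  O : ∀ x ∈ E, ∀ k, x k ∈ Z.O
  ne : ∀ x ∈ E, x ≠ 0
  hC₁ : 1 ≤ C₁
  bal : ∀ x ∈ E, ∀ s, nrm (L s) x ≤ C₁ * Ht L x
  up : ∀ x ∈ E, ∀ s i, ‖algebraMap K (L s) (w x i)‖ ≤ C₁ * nrm (L s) x

namespace PtsE
variable {Z : MP K L} {𝔅 : LN (Fin (N + 1) → K)}
    {w : (Fin (N + 1) → K) → Fin r → K} {C₁ : ℝ} {E : Set (Fin (N + 1) → K)}

lemma mono (h : PtsE Z 𝔅 w C₁ E) {E' : Set (Fin (N + 1) → K)} (hE : E' ⊆ E)
    (hB : 𝔅.Big E') : PtsE Z 𝔅 w C₁ E' where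
  big := hB
  unit := fun x hx => h.unit x (hE hx)
  O := fun x hx => h.O x (hE hx)
  ne := fun x hx => h.ne x (hE hx)
  hC₁ := h.hC₁
  bal := fun x hx => h.bal x (hE hx)
  up := fun x hx => h.up x (hE hx)

lemma large (h : PtsE Z 𝔅 w C₁ E) (B : ℝ) : 𝔅.Big {x | x ∈ E ∧ B ≤ Ht L x} := by
  have hfin : {x : Fin (N + 1) → K | ∀ k, x k ∈ Z.O ∧
      ∀ s, ‖algebraMap K (L s) (x k)‖ ≤ C₁ * B}.Finite :=
    (Set.Finite.pi' (fun _ : Fin (N + 1) => Z.fin (C₁ * B))).subset fun x hx k => hx k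
  have h1 := 𝔅.sdiff h.big hfin
  refine 𝔅.mono ?_ h1
  rintro x ⟨hx, hx'⟩
  refine ⟨hx, ?_⟩
  by_contra hcon
  push Not at hcon
  apply hx'
  intro k
  have := h.hC₁
  refine ⟨h.O x hx k, fun s => (le_nrm x k).trans ((h.bal x hx s).trans ?_)⟩
  exact mul_le_mul_of_nonneg_left hcon.le (by linarith)

lemma one_le (h : PtsE Z 𝔅 w C₁ E) {x : Fin (N + 1) → K} (hx : x ∈ E) :
    1 ≤ Ht L x := one_le_Ht Z (h.O x hx) (h.ne x hx)

/-- The sizes of the units. -/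
lemma up3 (h : PtsE Z 𝔅 w C₁ E) {x : Fin (N + 1) → K} (hx : x ∈ E)
    (hC : C₁ ≤ Ht L x) (s : Λ) (i : Fin r) :
    ‖algebraMap K (L s) (w x i)‖ ≤ Ht L x ^ (3 : ℝ) := by
  have hQ0 : 0 < Ht L x := by linarith [h.one_le hx]
  have h3 : Ht L x ^ (3 : ℕ) = Ht L x ^ (3 : ℝ) := by
    rw [← Real.rpow_natCast]
    norm_num
  refine (h.up x hx s i).trans ?_
  rw [← h3]
  calc C₁ * nrm (L s) x ≤ Ht L x * (Ht L x * Ht L x) := by
        refine mul_le_mul hC ((h.bal x hx s).trans ?_) (nrm_nonneg _) hQ0.le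
        exact mul_le_mul_of_nonneg_right hC hQ0.le
    _ = Ht L x ^ 3 := by ring

lemma pb (h : PtsE Z 𝔅 w C₁ E) {x : Fin (N + 1) → K} (hx : x ∈ E)
    (hC : C₁ ≤ Ht L x) (s : Λ) (i : Fin r) :
    PB (Ht L x) (3 * Fintype.card Λ + 3) ‖algebraMap K (L s) (w x i)‖ :=
  unit_pb Z (h.unit x hx i) (h.one_le hx) (by norm_num) (fun s => h.up3 hx hC s i) s

/-- Upper bound for the characters. -/
lemma chi_up (h : PtsE Z 𝔅 w C₁ E) {x : Fin (N + 1) → K} (hx : x ∈ E)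
    (hC : C₁ ≤ Ht L x) (s : Λ) (j : Fin r →₀ ℕ) {u κ : K} (hu : mon (w x) j = κ * u) (hκ : κ ≠ 0)
    (hκH : ‖algebraMap K (L s) κ⁻¹‖ ≤ Ht L x) {n : ℕ} (hn : ∑ i, j i ≤ n) :
    ‖algebraMap K (L s) u‖ ≤ Ht L x ^ ((3 * n + 1 : ℕ) : ℝ) := by
  have hQ := h.one_le hx
  have hQ0 : 0 < Ht L x := by linarith
  have h1 : u = κ⁻¹ * mon (w x) j := by rw [hu, inv_mul_cancel_left₀ hκ]
  rw [h1, map_mul, norm_mul, Real.rpow_natCast]
  have h2 : ‖algebraMap K (L s) (mon (w x) j)‖ ≤ Ht L x ^ (3 * n) := by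
    unfold mon
    rw [map_prod, norm_prod]
    calc ∏ i, ‖algebraMap K (L s) (w x i ^ j i)‖ ≤ ∏ i, (Ht L x ^ 3) ^ j i := by
          refine Finset.prod_le_prod (fun i _ => norm_nonneg _) fun i _ => ?_
          rw [map_pow, norm_pow]
          refine pow_le_pow_left₀ (norm_nonneg _) ?_ _
          refine (h.up3 hx hC s i).trans_eq ?_
          rw [← Real.rpow_natCast]
          norm_num
      _ = Ht L x ^ (3 * ∑ i, j i) := by
          rw [Finset.prod_pow_eq_pow_sum, ← pow_mul]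
      _ ≤ _ := pow_le_pow_right₀ hQ (by omega)
  calc ‖algebraMap K (L s) κ⁻¹‖ * ‖algebraMap K (L s) (mon (w x) j)‖
      ≤ Ht L x * Ht L x ^ (3 * n) := mul_le_mul hκH h2 (norm_nonneg _) hQ0.le
    _ = _ := by ring

lemma facW_le (h : PtsE Z 𝔅 w C₁ E) {x : Fin (N + 1) → K} (hx : x ∈ E) {s : Λ}
    {a : Fin r} (ha : nrm (L s) x ≤ C₁ * ‖algebraMap K (L s) (w x a)‖)
    (o : Option (Finset (Fin r))) : facW (L s) (w x) a o ≤ C₁ ^ 2 := by
  have hC := h.hC₁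
  have hw := (h.unit x hx a).pos s
  rcases o with _ | I
  · exact one_le_pow₀ hC
  · change ‖fun i : {i // i ∈ I} => algebraMap K (L s) (w x i.1 / w x a)‖ ≤ _
    rw [pi_norm_le_iff_of_nonneg (by positivity)]
    intro i
    rw [map_div₀, norm_div, div_le_iff₀ hw]
    refine (h.up x hx s i).trans ?_
    rw [pow_two, mul_assoc]
    exact mul_le_mul_of_nonneg_left ha (by linarith)

lemma facW_pb (h : PtsE Z 𝔅 w C₁ E) {x : Fin (N + 1) → K}
    (hx : x ∈ E) (hC : C₁ ≤ Ht L x) (s : Λ) (a : Fin r) (o : Option (Finset (Fin r)))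
    (ho : ∀ I, o = some I → I.Nonempty) :
    PB (Ht L x) (2 * (3 * Fintype.card Λ + 3)) (facW (L s) (w x) a o) := by
  have hQ := h.one_le hx
  have hQ0 : 0 < Ht L x := by linarith
  rcases o with _ | I
  · exact PB.one hQ (by positivity)
  have h1 : ∀ i : {i // i ∈ I}, PB (Ht L x) (2 * (3 * Fintype.card Λ + 3))
      ‖algebraMap K (L s) (w x i.1 / w x a)‖ := by
    intro i
    rw [map_div₀, norm_div, two_mul]
    exact (h.pb hx hC s i).div hQ (h.pb hx hC s a)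
  obtain ⟨b, hb⟩ := ho I rfl
  refine ⟨(h1 ⟨b, hb⟩).1.trans (norm_le_pi_norm
    (fun i : {i // i ∈ I} => algebraMap K (L s) (w x i.1 / w x a)) ⟨b, hb⟩), ?_⟩
  change ‖fun i : {i // i ∈ I} => algebraMap K (L s) (w x i.1 / w x a)‖ ≤ _
  rw [pi_norm_le_iff_of_nonneg (Real.rpow_nonneg hQ0.le _)]
  exact fun i => (h1 i).2

end PtsE

end pts

/-- Local data: the largest unit, a corner and a local polynomial of degree `D`. -/
structure LocT (K L : Type) [Field K] [Field L] [Algebra K L] (r D : ℕ) where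
  a : Fin r
  o : Option (Finset (Fin r))
  G : Polynomial (MvPolynomial (Fin r) (algebraicClosure K L))
  hG : G.Monic
  hD : G.natDegree = D
  ha : ∀ I, o = some I → a ∉ I ∧ I.Nonempty

lemma LocT.notMem {K L : Type} [Field K] [Field L] [Algebra K L] {r D : ℕ} (τ : LocT K L r D) :
    τ.a ∉ toI τ.o := by
  rcases h : τ.o with _ | I
  · exact Finset.notMem_empty _
  · exact (τ.ha I h).1

/-- The local data fits the point. -/
def LocT.Ok {K L : Type} [Field K] [NontriviallyNormedField L] [Algebra K L] {r D N : ℕ}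
    (τ : LocT K L r D) (x : Fin (N + 1) → K) (w : Fin r → K) (ζ : K) (C₁ C₂ : ℝ) (J : ℕ) : Prop :=
  nrm L x ≤ C₁ * ‖algebraMap K L (w τ.a)‖ ∧
    ‖ev (zI L w τ.a (toI τ.o)) (algebraMap K L (ζ / w τ.a)) τ.G‖ ≤ C₂ * facW L w τ.a τ.o ^ J

lemma zI_le {K L : Type} [Field K] [NontriviallyNormedField L] [Algebra K L] {r : ℕ}
    (w : Fin r → K) (a : Fin r) (o : Option (Finset (Fin r))) :
    ‖zI L w a (toI o)‖ ≤ facW L w a o := by
  rw [pi_norm_le_iff_of_nonneg (facW_nonneg _ _ _ _)]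
  intro j
  rcases o with _ | I
  · have : zI L w a (toI (none : Option (Finset (Fin r)))) j = 0 := if_neg (Finset.notMem_empty j)
    rw [this, norm_zero]
    exact facW_nonneg _ _ _ _
  · change ‖if j ∈ I then algebraMap K L (w j / w a) else 0‖ ≤
      ‖fun i : {i // i ∈ I} => algebraMap K L (w i.1 / w a)‖
    split_ifs with hj
    · exact norm_le_pi_norm (fun i : {i // i ∈ I} => algebraMap K L (w i.1 / w a)) ⟨j, hj⟩
    · rw [norm_zero]
      exact norm_nonneg _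

section rel
variable {K : Type} [Field K] [CharZero K] {Λ : Type} [Fintype Λ] [DecidableEq Λ] {L : Λ → Type}
  [∀ s, NontriviallyNormedField (L s)] [∀ s, ProperSpace (L s)] [∀ s, Algebra K (L s)] {N r : ℕ}
  {Z : MP K L} {𝔅 : LN (Fin (N + 1) → K)}
    {w : (Fin (N + 1) → K) → Fin r → K} {C₁ : ℝ} {E : Set (Fin (N + 1) → K)}

/-- The contradiction with the Subspace theorem. -/
lemma relD_top (h : PtsE Z 𝔅 w C₁ E)
    {M D S₀ : ℕ} (hD : 1 ≤ D) {A B : Type} [Fintype A] [DecidableEq A] [Nonempty A] [Fintype B]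
    [DecidableEq B] [Nonempty B]
    (c : ClsD K r M D A B) (χ : (Fin (N + 1) → K) → A → K) (χ' : (Fin (N + 1) → K) → B → K)
    (hχ : ∀ x ∈ E, c.Val (w x) (χ x) (χ' x)) (hU : ∀ x ∈ E, ∀ α, Z.U (χ x α))
    (hU' : ∀ x ∈ E, ∀ β, Z.U (χ' x β))
    (hcl : ∀ β, c.dg β < D ∧ ∃ m : Fin r →₀ ℕ, ∑ i, m i = M + (D - c.dg β) ∧
      c.cl (c.dg β) m = β)
    (ε : ℝ) (hS : ∀ a, S₀ ≤ ∑ α, c.rep a α a)
    (hS₀ : ((D * Fintype.card A + ∑ β, c.dg β + 1 : ℕ) : ℝ) ≤ ε * S₀)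
    (ξ : (Fin (N + 1) → K) → K) (hξO : ∀ x ∈ E, ξ x ∈ Z.O)
    (hξ : ∀ x ∈ E, ∀ s, ‖algebraMap K (L s) (ξ x)‖ ≤ C₁ * nrm (L s) x)
    (Ty : ∀ s, Finset (LocT K (L s) r D)) (C₂ : ℝ)
    (hloc : ∀ x ∈ E, ∃ τ : ∀ s, LocT K (L s) r D, (∀ s, τ s ∈ Ty s) ∧
      (∀ s, (τ s).Ok x (w x) (ξ x) C₁ C₂ (M + 2)) ∧
      ∏ s, facW (L s) (w x) (τ s).a (τ s).o ≤ C₂ * Ht L x ^ (-ε))
    (hmin : ∀ E' ⊆ E, 𝔅.Big E' → Submodule.span K
      ((fun x => yD c (ξ x) (χ x) (χ' x)) '' E') = ⊤) : False := by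
  classical
  have hC₁ := h.hC₁
  have hC₁n : 0 ≤ C₁ := by linarith
  have hC₁2 : 1 ≤ C₁ ^ 2 := one_le_pow₀ hC₁
  set y : (Fin (N + 1) → K) → A ⊕ B → K := fun x => yD c (ξ x) (χ x) (χ' x) with hy
  obtain ⟨τ, -, hG⟩ := 𝔅.partition (Fintype.piFinset Ty) h.big
    (fun (τ : ∀ s, LocT K (L s) r D) x =>
      (∀ s, (τ s).Ok x (w x) (ξ x) C₁ C₂ (M + 2)) ∧
      ∏ s, facW (L s) (w x) (τ s).a (τ s).o ≤ C₂ * Ht L x ^ (-ε)) (by
      intro x hx
      obtain ⟨τ, h1, h2, h3⟩ := hloc x hx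
      exact ⟨τ, Fintype.mem_piFinset.mpr h1, h2, h3⟩)
  set G : Set (Fin (N + 1) → K) := _ with hGdef
  change 𝔅.Big G at hG
  have hGE : G ⊆ E := fun x hx => hx.1
  have hGok : ∀ x ∈ G, ∀ s, (τ s).Ok x (w x) (ξ x) C₁ C₂ (M + 2) := fun x hx => hx.2.1
  have hGa : ∀ x ∈ G, ∀ s, nrm (L s) x ≤ C₁ * ‖algebraMap K (L s) (w x (τ s).a)‖ :=
    fun x hx s => (hGok x hx s).1
  have hGp : ∀ x ∈ G, ∏ s, facW (L s) (w x) (τ s).a (τ s).o ≤ C₂ * Ht L x ^ (-ε) :=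
    fun x hx => hx.2.2
  set R : ℝ := max (C₁ ^ 2) C₂ with hR
  have hR1 : 1 ≤ R := hC₁2.trans (le_max_left _ _)
  choose Cs hCs hest using fun s : Λ => estD (τ s).a (toI (τ s).o) (τ s).notMem (τ s).G
    (τ s).hG (τ s).hD R hR1 M
  have hξw : ∀ x ∈ G, ∀ s, ‖algebraMap K (L s) (ξ x)‖ ≤
      C₁ ^ 2 * ‖algebraMap K (L s) (w x (τ s).a)‖ := by
    intro x hx s
    refine (hξ x (hGE hx) s).trans ?_
    rw [pow_two, mul_assoc]
    exact mul_le_mul_of_nonneg_left (hGa x hx s) hC₁n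
  have hGe : ∀ x ∈ G, ∀ s α, ‖lf (vD c (τ s).a (toI (τ s).o) (τ s).G (Sum.inl α)) (y x)‖ ≤
      Cs s * ‖algebraMap K (L s) (χ x α)‖ * ‖algebraMap K (L s) (w x (τ s).a)‖ ^ D *
        facW (L s) (w x) (τ s).a (τ s).o ^ (c.rep (τ s).a α (τ s).a + 2) := by
    intro x hx s α
    have hpos := (h.unit x (hGE hx) (τ s).a).pos s
    refine hest s (w x) (h.unit x (hGE hx) _).ne (ξ x) ?_ _ (zI_le _ _ _)
      ((h.facW_le (hGE hx) (hGa x hx s) _).trans (le_max_left _ _)) ?_ A B c (χ x) (χ' x)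
      (hχ x (hGE hx)) α
    · rw [map_div₀, norm_div, div_le_iff₀ hpos]
      refine (hξw x hx s).trans ?_
      exact mul_le_mul_of_nonneg_right (le_max_left _ _) hpos.le
    · refine (hGok x hx s).2.trans ?_
      exact mul_le_mul_of_nonneg_right (le_max_right _ _) (pow_nonneg (facW_nonneg _ _ _ _) _)
  have hP := h.mono hGE hG
  -- constants
  set C : ℝ := 1 + ∑ s, Cs s with hC
  have hCsum : 0 ≤ ∑ s, Cs s := Finset.sum_nonneg fun s _ => (hCs s).le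
  have hC1 : 1 ≤ C := by linarith
  have hCsC : ∀ s, Cs s ≤ C := by
    intro s
    have : Cs s ≤ ∑ s, Cs s :=
      Finset.single_le_sum (f := fun s => Cs s) (fun s _ => (hCs s).le) (Finset.mem_univ s)
    linarith
  choose hdg mβ hmβ hmβ' using hcl
  set K₁ : ℝ := ∑ s, ∑ α, ‖algebraMap K (L s) (c.κ (τ s).a α)⁻¹‖ with hK₁
  set K₂ : ℝ := ∑ s, ∑ β, ‖algebraMap K (L s) (c.κ' (mβ β))⁻¹‖ with hK₂
  have hK₁s : ∀ s α, ‖algebraMap K (L s) (c.κ (τ s).a α)⁻¹‖ ≤ K₁ := by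
    intro s α
    have h1 : ‖algebraMap K (L s) (c.κ (τ s).a α)⁻¹‖ ≤
        ∑ α, ‖algebraMap K (L s) (c.κ (τ s).a α)⁻¹‖ :=
      Finset.single_le_sum (f := fun α => ‖algebraMap K (L s) (c.κ (τ s).a α)⁻¹‖)
        (fun _ _ => norm_nonneg _) (Finset.mem_univ α)
    exact h1.trans (Finset.single_le_sum
      (f := fun s => ∑ α, ‖algebraMap K (L s) (c.κ (τ s).a α)⁻¹‖)
        (fun _ _ => Finset.sum_nonneg fun _ _ => norm_nonneg _) (Finset.mem_univ s))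
  have hK₂s : ∀ s β, ‖algebraMap K (L s) (c.κ' (mβ β))⁻¹‖ ≤ K₂ := by
    intro s β
    have h1 : ‖algebraMap K (L s) (c.κ' (mβ β))⁻¹‖ ≤
        ∑ β, ‖algebraMap K (L s) (c.κ' (mβ β))⁻¹‖ :=
      Finset.single_le_sum (f := fun β => ‖algebraMap K (L s) (c.κ' (mβ β))⁻¹‖)
        (fun _ _ => norm_nonneg _) (Finset.mem_univ β)
    exact h1.trans (Finset.single_le_sum
      (f := fun s => ∑ β, ‖algebraMap K (L s) (c.κ' (mβ β))⁻¹‖)
        (fun _ _ => Finset.sum_nonneg fun _ _ => norm_nonneg _) (Finset.mem_univ s))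
  set Q₀ : ℝ := max (max (C₁ ^ 2) C) (max K₁ K₂) with hQ₀
  set G' : Set (Fin (N + 1) → K) := {x | x ∈ G ∧ Q₀ ≤ Ht L x} with hG'
  have hG'B : 𝔅.Big G' := hP.large Q₀
  have hP' := hP.mono (fun x (hx : x ∈ G') => hx.1) hG'B
  have hQC₂ : ∀ x ∈ G', C₁ ^ 2 ≤ Ht L x := fun x hx =>
    (le_max_left _ _).trans ((le_max_left _ _).trans hx.2)
  have hQC₁ : ∀ x ∈ G', C₁ ≤ Ht L x := fun x hx =>
    (le_self_pow₀ hC₁ (by norm_num)).trans (hQC₂ x hx)
  have hQC : ∀ x ∈ G', C ≤ Ht L x := fun x hx =>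
    (le_max_right _ _).trans ((le_max_left _ _).trans hx.2)
  have hQK₁ : ∀ x ∈ G', K₁ ≤ Ht L x := fun x hx =>
    (le_max_left _ _).trans ((le_max_right _ _).trans hx.2)
  have hQK₂ : ∀ x ∈ G', K₂ ≤ Ht L x := fun x hx =>
    (le_max_right _ _).trans ((le_max_right _ _).trans hx.2)
  have hG'E : G' ⊆ E := fun x hx => hGE hx.1
  -- bounds for the characters
  set e₁ : ℕ := 3 * (M + D) + 1 with he₁
  set E₁ : ℝ := (e₁ : ℝ) * Fintype.card Λ + e₁ with hE₁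
  set E₀ : ℝ := 3 * Fintype.card Λ + 3 with hE₀
  have hE₀0 : 0 ≤ E₀ := by positivity
  have hE₁0 : 0 ≤ E₁ := by positivity
  have hpbχ : ∀ x ∈ G', ∀ s α, PB (Ht L x) E₁ ‖algebraMap K (L s) (χ x α)‖ := by
    intro x hx s α
    have hQ := hP'.one_le hx
    refine unit_pb Z (hU x (hG'E hx) α) hQ (Nat.cast_nonneg _) (fun s => ?_) s
    exact hP'.chi_up hx (hQC₁ x hx) s (c.rep (τ s).a α) ((hχ x (hG'E hx)).val (τ s).a α)
      ((hχ x (hG'E hx)).ne (τ s).a α) ((hK₁s s α).trans (hQK₁ x hx))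
      (by rw [c.rep_sum]; omega)
  have hpbχ' : ∀ x ∈ G', ∀ s β, PB (Ht L x) E₁ ‖algebraMap K (L s) (χ' x β)‖ := by
    intro x hx s β
    have hQ := hP'.one_le hx
    refine unit_pb Z (hU' x (hG'E hx) β) hQ (Nat.cast_nonneg _) (fun s => ?_) s
    have h1 := (hχ x (hG'E hx)).val' (c.dg β) (hdg β) (mβ β) (hmβ β)
    rw [hmβ'] at h1
    refine hP'.chi_up hx (hQC₁ x hx) s (mβ β) h1 ?_ ((hK₂s s β).trans (hQK₂ x hx))
      (by rw [hmβ]; omega)
    intro h0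
    rw [h0, zero_mul] at h1
    have h2 : mon (w x) (mβ β) ≠ 0 := by
      unfold mon
      exact Finset.prod_ne_zero_iff.2 fun i _ => pow_ne_zero _ (hP'.unit x hx i).ne
    exact h2 h1
  -- apply the Subspace theorem
  set b : (Fin (N + 1) → K) → Λ → A ⊕ B → ℝ := fun x s => Sum.elim
    (fun α => C * ‖algebraMap K (L s) (χ x α)‖ * ‖algebraMap K (L s) (w x (τ s).a)‖ ^ D *
        facW (L s) (w x) (τ s).a (τ s).o ^ (c.rep (τ s).a α (τ s).a + 2))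
    (fun β => (C₁ ^ 2 * ‖algebraMap K (L s) (w x (τ s).a)‖) ^ c.dg β *
      ‖algebraMap K (L s) (χ' x β)‖) with hb
  have hle : ∀ a α, c.rep a α a ≤ M := by
    intro a α
    have h1 := c.rep_sum a α
    have h2 := Finset.single_le_sum (f := fun i => c.rep a α i) (fun i _ => Nat.zero_le _)
      (Finset.mem_univ a)
    omega
  obtain ⟨x₀, hx₀⟩ := 𝔅.nonempty hG'B
  have hdl0 : ∀ x s, 0 ≤ facW (L s) (w x) (τ s).a (τ s).o := fun x s => facW_nonneg _ _ _ _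
  have hC₂ : 0 ≤ C₂ := by
    have h1 := hGp x₀ hx₀.1
    have h2 : 0 < Ht L x₀ := by linarith [hP'.one_le hx₀]
    have h3 := Finset.prod_nonneg (s := Finset.univ) (f := fun s =>
      facW (L s) (w x₀) (τ s).a (τ s).o) fun s _ => hdl0 x₀ s
    exact nonneg_of_mul_nonneg_left (h3.trans h1) (Real.rpow_pos_of_pos h2 _)
  refine Z.apply 𝔅 y G' hG'B ⊤ (fun E' hE' hE'B => hmin E' (hE'.trans hG'E) hE'B) ?_ ?_
    (fun x => Ht L x) (fun B => hP'.large B) (fun s => vD c (τ s).a (toI (τ s).o) (τ s).G)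
    (fun _ => Finset.univ) (fun _ => Finset.univ)
    (fun s => vD_forms c (τ s).a (toI (τ s).o) (τ s).G) b
    (1 + E₁ + D * (1 + E₀) + (M + 2 : ℕ) * (2 * E₀)) ?_ ?_
    ((C ^ Fintype.card A * (C₁ ^ 2) ^ (Fintype.card A * (M + 2)) *
      (C₁ ^ 2) ^ (∑ β, c.dg β)) ^ Fintype.card Λ *
      (C₁ ^ Fintype.card Λ) ^ (D * Fintype.card A + ∑ β, c.dg β) * C₂ ^ S₀) 1 one_pos ?_
  · rw [finrank_top, Module.finrank_fintype_fun_eq_card, Fintype.card_sum]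
    have h1 : 0 < Fintype.card A := Fintype.card_pos
    have h2 : 0 < Fintype.card B := Fintype.card_pos
    omega
  · rintro x hx (α | β)
    · exact Z.O.mul_mem (Z.O.pow_mem (hξO x (hG'E hx)) _) (hU x (hG'E hx) α).mem
    · exact Z.O.mul_mem (Z.O.pow_mem (hξO x (hG'E hx)) _) (hU' x (hG'E hx) β).mem
  · rintro x hx s (α | β)
    · refine (hGe x hx.1 s α).trans ?_
      simp only [hb, Sum.elim_inl]
      refine mul_le_mul_of_nonneg_right ?_ (pow_nonneg (hdl0 x s) _)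
      refine mul_le_mul_of_nonneg_right ?_ (pow_nonneg (norm_nonneg _) _)
      exact mul_le_mul_of_nonneg_right (hCsC s) (norm_nonneg _)
    · rw [lf_vD_inr]
      simp only [hb, Sum.elim_inr, hy, yD, map_mul, norm_mul, map_pow, norm_pow]
      refine mul_le_mul_of_nonneg_right ?_ (norm_nonneg _)
      exact pow_le_pow_left₀ (norm_nonneg _) (hξw x hx.1 s) _
  · intro x hx s i
    have hQ := hP'.one_le hx
    have hdlpb := hP'.facW_pb hx (hQC₁ x hx) s (τ s).a (τ s).o (fun I hI => ((τ s).ha I hI).2)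
    have hwpb := hP'.pb hx (hQC₁ x hx) s (τ s).a
    have h0 : 0 ≤ (D : ℝ) * (1 + E₀) := by positivity
    have h0' : 0 ≤ ((M + 2 : ℕ) : ℝ) * (2 * E₀) := by positivity
    rcases i with α | β
    · have h1 : PB (Ht L x) 1 C := Rg.of_one hC1 (hQC x hx)
      have h2 := ((h1.mul hQ (hpbχ x hx s α)).mul hQ (pbPow hQ hwpb D)).mul hQ
        (pbPow hQ hdlpb (c.rep (τ s).a α (τ s).a + 2))
      refine h2.mono hQ ?_
      have h3 : ((c.rep (τ s).a α (τ s).a + 2 : ℕ) : ℝ) ≤ (M + 2 : ℕ) := by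
        exact_mod_cast Nat.add_le_add_right (hle (τ s).a α) 2
      have h4 : ((c.rep (τ s).a α (τ s).a + 2 : ℕ) : ℝ) * (2 * E₀) ≤ (M + 2 : ℕ) * (2 * E₀) :=
        mul_le_mul_of_nonneg_right h3 (by positivity)
      have h5 : (D : ℝ) * (3 * Fintype.card Λ + 3) ≤ D * (1 + E₀) :=
        mul_le_mul_of_nonneg_left (by rw [hE₀]; linarith) (Nat.cast_nonneg _)
      linarith
    · have h1 : PB (Ht L x) 1 (C₁ ^ 2) := Rg.of_one hC₁2 (hQC₂ x hx)
      have h2 := (pbPow hQ (h1.mul hQ hwpb) (c.dg β)).mul hQ (hpbχ' x hx s β)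
      refine h2.mono hQ ?_
      have h3 : ((c.dg β : ℕ) : ℝ) ≤ D := by exact_mod_cast (hdg β).le
      have h4 : ((c.dg β : ℕ) : ℝ) * (1 + E₀) ≤ D * (1 + E₀) :=
        mul_le_mul_of_nonneg_right h3 (by positivity)
      have h5 : ((c.dg β : ℕ) : ℝ) * (1 + (3 * Fintype.card Λ + 3)) =
        ((c.dg β : ℕ) : ℝ) * (1 + E₀) := rfl
      linarith
  · intro x hx ρ hρ
    have hQ := hP'.one_le hx
    have hQ0 : 0 < Ht L x := by linarith
    have hρu : ∀ s, ρ s = Finset.univ := fun s => Finset.univ_subset_iff.1 (hρ s).1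
    have h1 : ∏ s, ∏ i ∈ ρ s, b x s i = ∏ s, ((∏ α, C * ‖algebraMap K (L s) (χ x α)‖ *
        ‖algebraMap K (L s) (w x (τ s).a)‖ ^ D *
        facW (L s) (w x) (τ s).a (τ s).o ^ (c.rep (τ s).a α (τ s).a + 2)) *
        ∏ β, ((C₁ ^ 2 * ‖algebraMap K (L s) (w x (τ s).a)‖) ^ c.dg β *
          ‖algebraMap K (L s) (χ' x β)‖)) := by
      refine Finset.prod_congr rfl fun s _ => ?_
      rw [hρu, Fintype.prod_sum_type]
      rfl
    rw [h1]
    refine (relD_prod C (C₁ ^ 2) (by linarith) hC₁2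
      (fun s => ‖algebraMap K (L s) (w x (τ s).a)‖)
      (fun s => facW (L s) (w x) (τ s).a (τ s).o)
      (fun s α => ‖algebraMap K (L s) (χ x α)‖) (fun s β => ‖algebraMap K (L s) (χ' x β)‖)
      (fun s α => c.rep (τ s).a α (τ s).a) c.dg M D S₀ (fun s => norm_nonneg _) (hdl0 x)
      (fun s => hP'.facW_le hx (hGa x hx.1 s) _) (fun s α => norm_nonneg _)
      (fun s β => norm_nonneg _)
      (fun α => (hU x (hG'E hx) α).pf) (fun β => (hU' x (hG'E hx) β).pf)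
      (fun s α => hle (τ s).a α) (fun s => hS (τ s).a)).trans ?_
    have h2 : ∏ s, ‖algebraMap K (L s) (w x (τ s).a)‖ ≤ C₁ ^ Fintype.card Λ * Ht L x := by
      calc ∏ s, ‖algebraMap K (L s) (w x (τ s).a)‖ ≤ ∏ s, (C₁ * nrm (L s) x) :=
            Finset.prod_le_prod (fun s _ => norm_nonneg _) fun s _ => hP'.up x hx s (τ s).a
        _ = _ := by
            rw [Finset.prod_mul_distrib, Finset.prod_const, Finset.card_univ]
            rfl
    have h3 := hGp x hx.1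
    have h4 : 0 ≤ ∏ s, ‖algebraMap K (L s) (w x (τ s).a)‖ :=
      Finset.prod_nonneg fun s _ => norm_nonneg _
    have h5 : 0 ≤ ∏ s, facW (L s) (w x) (τ s).a (τ s).o := Finset.prod_nonneg fun s _ => hdl0 x s
    have h6 : Ht L x ^ (D * Fintype.card A + ∑ β, c.dg β) * (Ht L x ^ (-ε)) ^ S₀ ≤
        Ht L x ^ (-(1 : ℝ)) := by
      rw [← Real.rpow_natCast, ← Real.rpow_natCast, ← Real.rpow_mul hQ0.le, ← Real.rpow_add hQ0]
      apply Real.rpow_le_rpow_of_exponent_le hQ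
      push_cast at hS₀ ⊢
      linarith
    calc (C ^ Fintype.card A * (C₁ ^ 2) ^ (Fintype.card A * (M + 2)) *
        (C₁ ^ 2) ^ (∑ β, c.dg β)) ^ Fintype.card Λ *
        (∏ s, ‖algebraMap K (L s) (w x (τ s).a)‖) ^ (D * Fintype.card A + ∑ β, c.dg β) *
        (∏ s, facW (L s) (w x) (τ s).a (τ s).o) ^ S₀
        ≤ (C ^ Fintype.card A * (C₁ ^ 2) ^ (Fintype.card A * (M + 2)) *
        (C₁ ^ 2) ^ (∑ β, c.dg β)) ^ Fintype.card Λ *
        (C₁ ^ Fintype.card Λ * Ht L x) ^ (D * Fintype.card A + ∑ β, c.dg β) *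
        (C₂ * Ht L x ^ (-ε)) ^ S₀ := by
          have hCn : 0 ≤ C := by linarith
          apply mul_le_mul _ (pow_le_pow_left₀ h5 h3 _) (pow_nonneg h5 _) (by positivity)
          apply mul_le_mul_of_nonneg_left (pow_le_pow_left₀ h4 h2 _) (by positivity)
      _ = (C ^ Fintype.card A * (C₁ ^ 2) ^ (Fintype.card A * (M + 2)) *
          (C₁ ^ 2) ^ (∑ β, c.dg β)) ^ Fintype.card Λ *
          (C₁ ^ Fintype.card Λ) ^ (D * Fintype.card A + ∑ β, c.dg β) * C₂ ^ S₀ *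
          (Ht L x ^ (D * Fintype.card A + ∑ β, c.dg β) * (Ht L x ^ (-ε)) ^ S₀) := by
          rw [mul_pow (C₁ ^ Fintype.card Λ) (Ht L x), mul_pow C₂]
          ring
      _ ≤ _ := by
          have hCn : 0 ≤ C := by linarith
          apply mul_le_mul_of_nonneg_left h6 (by positivity)

/-- **A relation.** -/
theorem relD (h : PtsE Z 𝔅 w C₁ E)
    {M D S₀ : ℕ} (hD : 1 ≤ D) {A B : Type} [Fintype A] [DecidableEq A] [Nonempty A] [Fintype B]
    [DecidableEq B] [Nonempty B]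
    (c : ClsD K r M D A B) (χ : (Fin (N + 1) → K) → A → K) (χ' : (Fin (N + 1) → K) → B → K)
    (hχ : ∀ x ∈ E, c.Val (w x) (χ x) (χ' x)) (hU : ∀ x ∈ E, ∀ α, Z.U (χ x α))
    (hU' : ∀ x ∈ E, ∀ β, Z.U (χ' x β))
    (hcl : ∀ β, c.dg β < D ∧ ∃ m : Fin r →₀ ℕ, ∑ i, m i = M + (D - c.dg β) ∧
      c.cl (c.dg β) m = β)
    (ε : ℝ) (hS : ∀ a, S₀ ≤ ∑ α, c.rep a α a)
    (hS₀ : ((D * Fintype.card A + ∑ β, c.dg β + 1 : ℕ) : ℝ) ≤ ε * S₀)
    (ξ : (Fin (N + 1) → K) → K) (hξO : ∀ x ∈ E, ξ x ∈ Z.O)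
    (hξ : ∀ x ∈ E, ∀ s, ‖algebraMap K (L s) (ξ x)‖ ≤ C₁ * nrm (L s) x)
    (Ty : ∀ s, Finset (LocT K (L s) r D)) (C₂ : ℝ)
    (hloc : ∀ x ∈ E, ∃ τ : ∀ s, LocT K (L s) r D, (∀ s, τ s ∈ Ty s) ∧
      (∀ s, (τ s).Ok x (w x) (ξ x) C₁ C₂ (M + 2)) ∧
      ∏ s, facW (L s) (w x) (τ s).a (τ s).o ≤ C₂ * Ht L x ^ (-ε)) :
    ∃ E' ⊆ E, 𝔅.Big E' ∧ ∃ g : A ⊕ B → K, g ≠ 0 ∧ ∀ x ∈ E',
      ξ x ^ D * ∑ α, g (Sum.inl α) * χ x α +
        ∑ β, g (Sum.inr β) * (ξ x ^ c.dg β * χ' x β) = 0 := by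
  classical
  set y : (Fin (N + 1) → K) → A ⊕ B → K := fun x => yD c (ξ x) (χ x) (χ' x) with hy
  obtain ⟨E', hE'E, hE'B, hmin⟩ := 𝔅.exists_minimal (K := K) h.big y
  by_cases hV : Submodule.span K (y '' E') = ⊤
  · exact (relD_top (h.mono hE'E hE'B) hD c χ χ' (fun x hx => hχ x (hE'E hx))
      (fun x hx => hU x (hE'E hx)) (fun x hx => hU' x (hE'E hx)) hcl ε hS hS₀ ξ
      (fun x hx => hξO x (hE'E hx)) (fun x hx => hξ x (hE'E hx)) Ty C₂
      (fun x hx => hloc x (hE'E hx)) (fun E'' h1 h2 => (hmin E'' h1 h2).trans hV)).elim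
  · obtain ⟨f, hf0, hf⟩ := Submodule.exists_le_ker_of_lt_top _ (lt_top_iff_ne_top.2 hV)
    have hrep : ∀ z : A ⊕ B → K, f z = ∑ m, f (Pi.single m 1) * z m := by
      intro z
      conv_lhs => rw [← Finset.univ_sum_single z]
      rw [map_sum]
      refine Finset.sum_congr rfl fun m _ => ?_
      have : (Pi.single m (z m) : A ⊕ B → K) = z m • Pi.single m 1 := by
        rw [← Pi.single_smul, smul_eq_mul, mul_one]
      rw [this, map_smul, smul_eq_mul, mul_comm]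
    refine ⟨E', hE'E, hE'B, fun m => f (Pi.single m 1), ?_, fun x hx => ?_⟩
    · intro h0
      apply hf0
      refine LinearMap.ext fun z => ?_
      rw [hrep z]
      simp only [congrFun h0, Pi.zero_apply, zero_mul, Finset.sum_const_zero,
        LinearMap.zero_apply]
    · have h1 : f (y x) = 0 := hf (Submodule.subset_span ⟨x, hx, rfl⟩)
      rw [hrep, Fintype.sum_sum_type] at h1
      rw [← h1, Finset.mul_sum]
      congr 1
      refine Finset.sum_congr rfl fun α _ => ?_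
      simp only [hy, yD, Sum.elim_inl]
      ring

end rel

end Pool.Agent.Helper10.TD
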