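import Pool.Agent.Helper10.TD.MonD
import Pool.Agent.Helper38.TP.EstH

/-!
# The estimate at one place for a local polynomial
-/

set_option autoImplicit false

namespace Pool.Agent.Helper10.TD

open Pool.Agent.Helper10.Sub Pool.Agent.Helper38.TP MvPolynomial

section est
variable {K L : Type} [Field K] [NontriviallyNormedField L] [Algebra K L] {r : ℕ}

lemma truncD (I : Finset (Fin r)) (p : MvPolynomial (Fin r) (algebraicClosure K L)) (R : ℝ)
    (hR : 1 ≤ R) :
    ∃ C : ℝ, 0 ≤ C ∧ ∀ z : Fin r → L, (∀ j, j ∉ I → z j = 0) → ‖z‖ ≤ R → ∀ t : ℕ,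
      ‖aeval z p - ∑ γ ∈ fil I t p,
        algebraMap (algebraicClosure K L) L (coeff γ p) * ∏ j, z j ^ γ j‖ ≤
        C * ‖z‖ ^ (t + 1) := by
  classical
  refine ⟨∑ γ ∈ p.support, ‖algebraMap (algebraicClosure K L) L (coeff γ p)‖ * R ^ γ.degree,
    Finset.sum_nonneg fun γ _ => by positivity, fun z hz0 hz t => ?_⟩
  have h1 : aeval z p - ∑ γ ∈ fil I t p,
        algebraMap (algebraicClosure K L) L (coeff γ p) * ∏ j, z j ^ γ j =
      ∑ γ ∈ p.support.filter (fun γ => ¬ (γ.degree ≤ t ∧ γ.support ⊆ I)),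
        algebraMap (algebraicClosure K L) L (coeff γ p) * ∏ j, z j ^ γ j := by
    rw [aeval_def, eval₂_eq', ← Finset.sum_filter_add_sum_filter_not p.support
      (fun γ => γ.degree ≤ t ∧ γ.support ⊆ I), fil, add_sub_cancel_left]
  rw [h1, Finset.sum_mul]
  refine (norm_sum_le _ _).trans ?_
  refine (Finset.sum_le_sum (g := fun γ =>
    ‖algebraMap (algebraicClosure K L) L (coeff γ p)‖ * R ^ γ.degree * ‖z‖ ^ (t + 1)) ?_).trans ?_
  · intro γ hγ
    have hγ' := (Finset.mem_filter.1 hγ).2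
    rw [norm_mul, mul_assoc]
    apply mul_le_mul_of_nonneg_left _ (norm_nonneg _)
    by_cases hs : γ.support ⊆ I
    · have hd : t + 1 ≤ γ.degree := by
        by_contra hcon
        exact hγ' ⟨by omega, hs⟩
      rw [norm_prod]
      calc ∏ j, ‖z j ^ γ j‖ ≤ ∏ j, ‖z‖ ^ γ j := by
            refine Finset.prod_le_prod (fun i _ => norm_nonneg _) fun i _ => ?_
            rw [norm_pow]
            exact pow_le_pow_left₀ (norm_nonneg _) (norm_le_pi_norm z i) _
        _ = ‖z‖ ^ γ.degree := by rw [Finset.prod_pow_eq_pow_sum, Finsupp.degree_eq_sum]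
        _ ≤ R ^ γ.degree * ‖z‖ ^ (t + 1) := pow_cmp (norm_nonneg _) hz hR hd
    · obtain ⟨j, hj, hjI⟩ := Finset.not_subset.1 hs
      rw [Finset.prod_eq_zero (Finset.mem_univ j) (by
        rw [hz0 j hjI, zero_pow (Finsupp.mem_support_iff.1 hj)]), norm_zero]
      positivity
  · apply Finset.sum_le_sum_of_subset_of_nonneg (Finset.filter_subset _ _)
    intro j _ _
    positivity

/-- The coordinates `w j / w a`, `j ∈ I`. -/
noncomputable def zI (L : Type) [Field L] [Algebra K L] (w : Fin r → K) (a : Fin r)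
    (I : Finset (Fin r)) : Fin r → L :=
  fun j => if j ∈ I then algebraMap K L (w j / w a) else 0

/-- The estimate for the forms at one place. -/
theorem estD {D : ℕ} (a : Fin r) (I : Finset (Fin r)) (ha : a ∉ I)
    (G : Polynomial (MvPolynomial (Fin r) (algebraicClosure K L))) (hG : G.Monic)
    (hGD : G.natDegree = D) (R : ℝ) (hR : 1 ≤ R) (M : ℕ) :
    ∃ C : ℝ, 0 < C ∧ ∀ (w : Fin r → K), w a ≠ 0 → ∀ ζ : K, ‖algebraMap K L (ζ / w a)‖ ≤ R →
      ∀ δ : ℝ, ‖zI L w a I‖ ≤ δ → δ ≤ R →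
      ‖ev (zI L w a I) (algebraMap K L (ζ / w a)) G‖ ≤ R * δ ^ (M + 2) →
      ∀ (A B : Type) [Fintype A] [DecidableEq A] [Fintype B] [DecidableEq B]
        (c : ClsD K r M D A B) (χ : A → K) (χ' : B → K), c.Val w χ χ' → ∀ α : A,
        ‖lf (vD c a I G (Sum.inl α)) (yD c ζ χ χ')‖ ≤
          C * ‖algebraMap K L (χ α)‖ * ‖algebraMap K L (w a)‖ ^ D * δ ^ (c.rep a α a + 2) := by
  classical
  choose C₁ hC₁ hT using fun i : ℕ => truncD I (G.coeff i) R hR
  set C₂ : ℝ := ∑ i ∈ Finset.range D, C₁ i * R ^ i with hC₂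
  have hC₂0 : 0 ≤ C₂ := Finset.sum_nonneg fun i _ => mul_nonneg (hC₁ i) (by positivity)
  refine ⟨R * R ^ (M + 2) + C₂, by positivity, ?_⟩
  intro w hwa ζ hζ δ hzδ hδR hev A B _ _ _ _ c χ χ' hc α
  have hδ0 : 0 ≤ δ := (norm_nonneg _).trans hzδ
  set z := zI L w a I with hz
  have hz0 : ∀ j, j ∉ I → z j = 0 := fun j hj => if_neg hj
  have hle : c.rep a α a ≤ M := by
    have h1 := c.rep_sum a α
    have h2 := Finset.single_le_sum (f := fun i => c.rep a α i) (fun i _ => Nat.zero_le _)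
      (Finset.mem_univ a)
    omega
  rw [lf_vD_y c a I G ha hc α ζ]
  set t : ℕ := c.rep a α a + 1 with ht
  set u : L := algebraMap K L (ζ / w a) with hu
  have h1 : algebraMap K L (ζ ^ D * mon w (c.rep a α)) +
      ∑ i ∈ Finset.range D, ∑ γ ∈ fil I t (G.coeff i),
        algebraMap (algebraicClosure K L) L (coeff γ (G.coeff i)) *
          algebraMap K L (ζ ^ i * mon w (shD a (c.rep a α) (D - i) γ)) =
      algebraMap K L (mon w (c.rep a α) * w a ^ D) * (u ^ D +
        ∑ i ∈ Finset.range D, (∑ γ ∈ fil I t (G.coeff i),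
          algebraMap (algebraicClosure K L) L (coeff γ (G.coeff i)) * ∏ j, z j ^ γ j) * u ^ i) := by
    rw [mul_add, Finset.mul_sum]
    congr 1
    · rw [hu, ← map_pow, ← map_mul]
      congr 1
      rw [div_pow]
      have := pow_ne_zero D hwa
      field_simp
    · refine Finset.sum_congr rfl fun i hi => ?_
      rw [Finset.mem_range] at hi
      rw [Finset.sum_mul, Finset.mul_sum]
      refine Finset.sum_congr rfl fun γ hγ => ?_
      have h2 : ∏ j, z j ^ γ j = algebraMap K L (∏ j, (w j / w a) ^ γ j) := by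
        rw [map_prod]
        refine Finset.prod_congr rfl fun j _ => ?_
        by_cases hj : j ∈ I
        · rw [hz, zI, if_pos hj, map_pow]
        · have : γ j = 0 := by
            by_contra h0
            exact hj ((Finset.mem_filter.1 hγ).2.2 (Finsupp.mem_support_iff.2 h0))
          rw [this, pow_zero, pow_zero, map_one]
      have h3 := fil_deg hγ
      rw [h2, shD_mon w a hwa _ _ γ (fil_a ha hγ) (by omega), hu]
      have h4 : ζ ^ i * (mon w (c.rep a α) * w a ^ (D - i) * ∏ j, (w j / w a) ^ γ j) =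
          mon w (c.rep a α) * w a ^ D * (∏ j, (w j / w a) ^ γ j) * (ζ / w a) ^ i := by
        have h5 : w a ^ D = w a ^ (D - i) * w a ^ i := by
          rw [← pow_add]
          congr 1
          omega
        have h6 : w a ^ i ≠ 0 := pow_ne_zero _ hwa
        rw [h5, div_pow]
        field_simp
      rw [h4]
      simp only [map_mul, map_pow]
      ring
  rw [h1, ← mul_assoc, ← map_mul, ← mul_assoc, hc.val, inv_mul_cancel_left₀ (hc.ne a α),
    map_mul, norm_mul, norm_mul, map_pow, norm_pow]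
  have hevs := ev_monic z u G hG hGD
  have h2 : ‖u ^ D + ∑ i ∈ Finset.range D, (∑ γ ∈ fil I t (G.coeff i),
          algebraMap (algebraicClosure K L) L (coeff γ (G.coeff i)) * ∏ j, z j ^ γ j) * u ^ i‖ ≤
      (R * R ^ (M + 2) + C₂) * δ ^ (c.rep a α a + 2) := by
    have h3 : u ^ D + ∑ i ∈ Finset.range D, (∑ γ ∈ fil I t (G.coeff i),
          algebraMap (algebraicClosure K L) L (coeff γ (G.coeff i)) * ∏ j, z j ^ γ j) * u ^ i =
        ev z u G - ∑ i ∈ Finset.range D, (aeval z (G.coeff i) - ∑ γ ∈ fil I t (G.coeff i),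
          algebraMap (algebraicClosure K L) L (coeff γ (G.coeff i)) * ∏ j, z j ^ γ j) * u ^ i := by
      rw [hevs]
      simp only [sub_mul]
      rw [Finset.sum_sub_distrib]
      ring
    rw [h3]
    refine (norm_sub_le _ _).trans ?_
    rw [add_mul]
    refine add_le_add ?_ ?_
    · refine hev.trans ?_
      rw [mul_assoc]
      exact mul_le_mul_of_nonneg_left (pow_cmp hδ0 hδR hR (by omega)) (by linarith)
    · refine (norm_sum_le _ _).trans ?_
      rw [hC₂, Finset.sum_mul]
      refine Finset.sum_le_sum fun i _ => ?_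
      rw [norm_mul, norm_pow]
      have h4 := hT i z hz0 (hzδ.trans hδR) t
      have h5 : ‖z‖ ^ (t + 1) ≤ δ ^ (c.rep a α a + 2) := pow_le_pow_left₀ (norm_nonneg _) hzδ _
      calc _ ≤ (C₁ i * ‖z‖ ^ (t + 1)) * R ^ i :=
            mul_le_mul h4 (pow_le_pow_left₀ (norm_nonneg _) hζ _) (by positivity)
              (mul_nonneg (hC₁ i) (by positivity))
        _ ≤ (C₁ i * δ ^ (c.rep a α a + 2)) * R ^ i := by
            apply mul_le_mul_of_nonneg_right _ (by positivity)
            exact mul_le_mul_of_nonneg_left h5 (hC₁ i)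
        _ = _ := by ring
  calc ‖algebraMap K L (χ α)‖ * ‖algebraMap K L (w a)‖ ^ D * _ ≤
      ‖algebraMap K L (χ α)‖ * ‖algebraMap K L (w a)‖ ^ D *
        ((R * R ^ (M + 2) + C₂) * δ ^ (c.rep a α a + 2)) :=
        mul_le_mul_of_nonneg_left h2 (by positivity)
    _ = _ := by ring

end est

end Pool.Agent.Helper10.TD
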