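import Pool.Agent.Helper10.TD.PtsD
import Pool.Agent.Helper38.TN.GapH

/-!
# The choice of the corners, with two-point corners

Copy of `gap_locH` and `gap_leH` (`Helper38/TN/GapH.lean`) with `IsCornerD` and `GoodD`. In the last
step of `gap_locH` the index `i ∉ I` is chosen; if `I` is a two-point corner then `n = 2` and
`I.card = 2`, so `I = univ.erase i`, and `GoodD` holds by its second alternative.
-/

set_option autoImplicit false
set_option linter.unusedSectionVars false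

namespace Pool.Agent.Helper10.TD

open Pool.Agent.Helper38.TP Pool.Agent.Helper38.TN Pool.Agent.Helper85.Sub Pool.Agent.Helper85.RC
open Pool.Agent.Helper10.Sub NumberField MvPolynomial

/-- Corners, two-point corners allowed on surfaces. -/
def IsCornerD {K : Type} [Field K] {N n : ℕ} (Ω : Type) [Field Ω] [Algebra K Ω]
    (J₀ : Set (MvPolynomial (Fin (N + 1)) K))
    (F : Fin (n + 1) → MvPolynomial (Fin (N + 1)) K) (I : Finset (Fin (n + 1))) : Prop :=
  IsCorner Ω J₀ F I ∨ (n = 2 ∧ I.card = 2 ∧ TwoP Ω J₀ F I)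

section loc
variable {K : Type} [Field K] {N n : ℕ} (L : Type) [NontriviallyNormedField L]
  [Algebra K L]

/-- The choice of the corner at one place. -/
lemma gap_locD [ProperSpace L] {Ω : Type} [Field Ω] [IsAlgClosed Ω] [Algebra K Ω]
    (J₀ : Set (MvPolynomial (Fin (N + 1)) K)) (hJ₀ : ∀ f ∈ J₀, ∃ e, f.IsHomogeneous e)
    (F : Fin (n + 1) → MvPolynomial (Fin (N + 1)) K) (d : Fin (n + 1) → ℕ) (hd : ∀ i, 1 ≤ d i)
    (hF : ∀ i, (F i).IsHomogeneous (d i))
    (hempty : ∀ A : Fin (N + 1) → Ω, OnV J₀ A → (∀ i, aeval A (F i) = 0) → A = 0)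
    (D : Fin (n + 1) → K) (hD : ∀ i, D i ≠ 0)
    (𝒞 : Set (Finset (Fin (n + 1)))) (h𝒞 : ∀ I ∈ 𝒞, IsCornerD Ω J₀ F I) :
    ∃ C₁' Cs : ℝ, 0 ≤ C₁' ∧ 0 ≤ Cs ∧ ∀ (x : Fin (N + 1) → K) (w : Fin (n + 1) → K), x ≠ 0 →
      (∀ f ∈ J₀, eval x f = 0) → (∀ i, eval x (F i) = D i * w i ^ d i) →
      ∃ o : Option (Finset (Fin (n + 1)) × Fin (n + 1)),
        (∀ I a, o = some (I, a) → GoodD Ω J₀ F L I a ∧ nrm L x ≤ C₁' * ‖algebraMap K L (w a)‖) ∧
        facN L w (nrm L x) o ≤ Cs * cdC 𝒞 (gapNu L) F d x := by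
  classical
  have hal := alH_pos L D hD d
  -- the lower bound
  have hE : ∀ A : Fin (N + 1) → L, OnV J₀ A →
      (∀ i ∈ (Finset.univ : Finset (Fin (n + 1))), aeval A (F i) = 0) → A = 0 := by
    intro A hA hAF
    refine transfer0 (Ω := Ω) (J₀ ∪ Set.range F) ?_ A ?_
    · intro B hB
      exact hempty B (fun f hf => hB f (Or.inl hf)) fun i => hB _ (Or.inr ⟨i, rfl⟩)
    · rintro f (hf | ⟨i, rfl⟩)
      · exact hA f hf
      · exact hAF i (Finset.mem_univ i)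
  obtain ⟨c, hc1, hlow⟩ := lowerI (L := L) J₀ hJ₀ F d hd hF D Finset.univ hE
  have hc0 : 0 ≤ c := by linarith
  set α : ℝ := ∑ j, (alH L D d j)⁻¹ with hα
  have hα0 : 0 ≤ α := Finset.sum_nonneg fun j _ => (inv_pos.2 (hal j)).le
  have hαj : ∀ j, (alH L D d j)⁻¹ ≤ α := fun j =>
    Finset.single_le_sum (f := fun j => (alH L D d j)⁻¹) (fun i _ => (inv_pos.2 (hal i)).le)
      (Finset.mem_univ j)
  refine ⟨c, 1 + c * α + α, hc0, by positivity, fun x w hx hxJ hev => ?_⟩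
  have hX : 0 < nrm L x := nrm_pos hx
  have hδ0 : 0 ≤ cdC 𝒞 (gapNu L) F d x := cdC_nonneg 𝒞 _ F d x fun y => norm_nonneg _
  have hcα : 0 ≤ c * α := mul_nonneg hc0 hα0
  rcases cdC_eq 𝒞 (gapNu L) F d x with h1 | ⟨I, hI, h1⟩
  · refine ⟨none, fun I a h => by simp at h, ?_⟩
    rw [h1]
    change (1 : ℝ) ≤ _
    linarith
  · obtain ⟨i, -, hi2⟩ := hlow x w hx hxJ hev
    by_cases hiI : i ∈ I
    · -- not near the corner
      refine ⟨none, fun I a h => by simp at h, ?_⟩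
      change (1 : ℝ) ≤ _
      have h2 : prox (gapNu L) (F i) (d i) x ≤ cdC 𝒞 (gapNu L) F d x := by
        rw [h1]
        exact prox_le_sup (gapNu L) F d x I hiI
      rw [proxH L F d hd D x w hev] at h2
      have h3 : 1 ≤ c * (gapNu L (w i) / nrm L x) := by
        rw [← mul_div_assoc, le_div_iff₀ hX, one_mul]
        exact hi2
      have h4 : gapNu L (w i) / nrm L x ≤ α * cdC 𝒞 (gapNu L) F d x := by
        have h5 : gapNu L (w i) / nrm L x =
            (alH L D d i)⁻¹ * (alH L D d i * (gapNu L (w i) / nrm L x)) := by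
          rw [inv_mul_cancel_left₀ (hal i).ne']
        rw [h5]
        exact mul_le_mul (hαj i) h2 (mul_nonneg (hal i).le
          (div_nonneg (norm_nonneg _) hX.le)) hα0
      calc (1 : ℝ) ≤ c * (gapNu L (w i) / nrm L x) := h3
        _ ≤ c * (α * cdC 𝒞 (gapNu L) F d x) := mul_le_mul_of_nonneg_left h4 hc0
        _ ≤ _ := by nlinarith
    · refine ⟨some (I, i), ?_, ?_⟩
      · intro I' a' h
        obtain ⟨rfl, rfl⟩ : I = I' ∧ i = a' := by
          have := Option.some.inj h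
          exact ⟨congrArg Prod.fst this, congrArg Prod.snd this⟩
        refine ⟨?_, hi2⟩
        rcases h𝒞 I hI with h | ⟨hn, hcard, hT⟩
        · exact ⟨hiI, h.1, Or.inl fun A hA hOn => transfer (Ω := Ω) _ h.2 A hA hOn⟩
        · refine ⟨hiI, Finset.card_pos.1 (by omega), Or.inr ⟨?_, hT⟩⟩
          apply Finset.eq_of_subset_of_card_le
          · intro j hj
            refine Finset.mem_erase.2 ⟨?_, Finset.mem_univ j⟩
            rintro rfl
            exact hiI hj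
          · rw [Finset.card_erase_of_mem (Finset.mem_univ i), Finset.card_univ, Fintype.card_fin]
            omega
      · change ‖fun i : {i // i ∈ I} => algebraMap K L (w i.1)‖ / nrm L x ≤ _
        rw [div_le_iff₀ hX]
        have h5 : 0 ≤ (1 + c * α + α) * cdC 𝒞 (gapNu L) F d x * nrm L x := by positivity
        refine (pi_norm_le_iff_of_nonneg h5).2 fun j => ?_
        have h2 : prox (gapNu L) (F j.1) (d j.1) x ≤ cdC 𝒞 (gapNu L) F d x := by
          rw [h1]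
          exact prox_le_sup (gapNu L) F d x I j.2
        rw [proxH L F d hd D x w hev] at h2
        have h4 : gapNu L (w j.1) / nrm L x ≤ α * cdC 𝒞 (gapNu L) F d x := by
          have h5 : gapNu L (w j.1) / nrm L x =
              (alH L D d j.1)⁻¹ * (alH L D d j.1 * (gapNu L (w j.1) / nrm L x)) := by
            rw [inv_mul_cancel_left₀ (hal j.1).ne']
          rw [h5]
          exact mul_le_mul (hαj j.1) h2 (mul_nonneg (hal j.1).le
            (div_nonneg (norm_nonneg _) hX.le)) hα0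
        rw [div_le_iff₀ hX] at h4
        have h6 : α * cdC 𝒞 (gapNu L) F d x * nrm L x ≤
            (1 + c * α + α) * cdC 𝒞 (gapNu L) F d x * nrm L x := by
          gcongr
          linarith
        exact le_trans (show ‖algebraMap K L (w j.1)‖ ≤ _ from h4) h6

end loc

theorem gap_leD {K : Type} [Field K] [NumberField K] (T : Finset Nat.Primes)
    (S : Finset (FinitePlace K))
    (hS : ∀ v ∈ S, ∃ t ∈ T, ((t : ℕ) : 𝓞 K) ∈ v.maximalIdeal.asIdeal) {N n : ℕ}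
    {Ω : Type} [Field Ω] [IsAlgClosed Ω] [Algebra K Ω]
    (J₀ : Set (MvPolynomial (Fin (N + 1)) K)) (hJ₀ : ∀ f ∈ J₀, ∃ e, f.IsHomogeneous e)
    (F : Fin (n + 1) → MvPolynomial (Fin (N + 1)) K) (d : Fin (n + 1) → ℕ) (hd : ∀ i, 1 ≤ d i)
    (hF : ∀ i, (F i).IsHomogeneous (d i))
    (hempty : ∀ A : Fin (N + 1) → Ω, OnV J₀ A → (∀ i, aeval A (F i) = 0) → A = 0)
    (D : Fin (n + 1) → K) (hD : ∀ i, D i ≠ 0)
    (𝒞 : Set (Finset (Fin (n + 1)))) (h𝒞 : ∀ I ∈ 𝒞, IsCornerD Ω J₀ F I) :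
    ∃ C₁' C₂ : ℝ, 0 ≤ C₂ ∧ ∀ (x : Fin (N + 1) → K) (w : Fin (n + 1) → K), x ≠ 0 →
      (∀ f ∈ J₀, eval x f = 0) → (∀ i, eval x (F i) = D i * w i ^ d i) →
      ∃ o : Lam K T → Option (Finset (Fin (n + 1)) × Fin (n + 1)),
        (∀ s I a, o s = some (I, a) →
          GoodD Ω J₀ F (LF K T s) I a ∧ nrm (LF K T s) x ≤ C₁' * ‖algebraMap K (LF K T s) (w a)‖) ∧
        ∏ s, facN (LF K T s) w (nrm (LF K T s) x) (o s) ≤
          C₂ * ((∏ v : InfinitePlace K, cdC 𝒞 v F d x ^ v.mult) * ∏ v ∈ S, cdC 𝒞 v F d x) := by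
  classical
  obtain ⟨ST, hST1, -, hST3, hST4⟩ := prod_lam K T
  have hSST : S ⊆ ST := fun v hv => hST1 v (hS v hv)
  choose C₁ Cs hC₁ hCs hloc using fun s : Lam K T =>
    gap_locD (L := LF K T s) (Ω := Ω) J₀ hJ₀ F d hd hF hempty D hD 𝒞 h𝒞
  refine ⟨∑ s, C₁ s, ∏ s, Cs s, Finset.prod_nonneg fun s _ => hCs s, fun x w hx hxJ hev => ?_⟩
  choose o ho1 ho2 using fun s => hloc s x w hx hxJ hev
  refine ⟨o, fun s I a h => ⟨(ho1 s I a h).1, (ho1 s I a h).2.trans
    (mul_le_mul_of_nonneg_right ?_ (norm_nonneg _))⟩, ?_⟩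
  · exact Finset.single_le_sum (f := C₁) (fun s _ => hC₁ s) (Finset.mem_univ s)
  have hcdF : ∀ v : FinitePlace K, 0 ≤ cdC 𝒞 v F d x := fun v =>
    cdC_nonneg 𝒞 _ F d x fun y => apply_nonneg v y
  have hcdI : ∀ v : InfinitePlace K, 0 ≤ cdC 𝒞 v F d x := fun v =>
    cdC_nonneg 𝒞 _ F d x fun y => apply_nonneg v y
  have hprod : ∏ s, cdC 𝒞 (gapNu (LF K T s)) F d x =
      (∏ w : InfinitePlace K, cdC 𝒞 w F d x ^ w.mult) * ∏ v ∈ ST, cdC 𝒞 v F d x := by
    refine hST4 (fun s => cdC 𝒞 (gapNu (LF K T s)) F d x)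
      (fun w => cdC 𝒞 w F d x) (fun v => cdC 𝒞 v F d x)
      (fun s => cdC_nonneg 𝒞 _ F d x fun y => norm_nonneg _) ?_ ?_
    · intro σ
      have h3 : (gapNu (LF K T (Sum.inl σ)) : K → ℝ) = (InfinitePlace.mk σ : K → ℝ) := by
        funext y
        exact (InfinitePlace.apply σ y).symm
      show cdC 𝒞 (gapNu (LF K T (Sum.inl σ))) F d x = cdC 𝒞 (InfinitePlace.mk σ) F d x
      rw [h3]
    · intro s v m hm hv
      exact cdC_pow 𝒞 v (gapNu (LF K T (Sum.inr s))) F d x m hm (fun y => hv y)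
        (fun y => norm_nonneg _)
  have hfac : ∀ s, 0 ≤ facN (LF K T s) w (nrm (LF K T s) x) (o s) := by
    intro s
    rcases o s with _ | ⟨I, a⟩
    · exact zero_le_one
    · exact div_nonneg (norm_nonneg _) (nrm_nonneg _)
  calc ∏ s, facN (LF K T s) w (nrm (LF K T s) x) (o s)
      ≤ ∏ s, (Cs s * cdC 𝒞 (gapNu (LF K T s)) F d x) :=
        Finset.prod_le_prod (fun s _ => hfac s) fun s _ => ho2 s
    _ = (∏ s, Cs s) * ((∏ w : InfinitePlace K, cdC 𝒞 w F d x ^ w.mult) *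
          ((∏ v ∈ ST \ S, cdC 𝒞 v F d x) * ∏ v ∈ S, cdC 𝒞 v F d x)) := by
        rw [Finset.prod_mul_distrib, hprod, Finset.prod_sdiff hSST]
    _ ≤ (∏ s, Cs s) * ((∏ w : InfinitePlace K, cdC 𝒞 w F d x ^ w.mult) *
          (1 * ∏ v ∈ S, cdC 𝒞 v F d x)) := by
        have h4 : ∏ v ∈ ST \ S, cdC 𝒞 v F d x ≤ 1 :=
          Finset.prod_le_one (fun v _ => hcdF v) fun v _ => cdC_le_one 𝒞 _ F d x
        have h5 : 0 ≤ ∏ w : InfinitePlace K, cdC 𝒞 w F d x ^ w.mult :=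
          Finset.prod_nonneg fun w _ => pow_nonneg (hcdI w) _
        have h6 : 0 ≤ ∏ v ∈ S, cdC 𝒞 v F d x := Finset.prod_nonneg fun v _ => hcdF v
        have h7 : 0 ≤ ∏ s, Cs s := Finset.prod_nonneg fun s _ => hCs s
        gcongr
    _ = _ := by rw [one_mul]

end Pool.Agent.Helper10.TD
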