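import Pool.Agent.Helper10.TD.Defs

/-!
# Hensel's lemma modulo a power of the ideal of the origin

`Φ` monic over `κ[z]` whose value at `z = 0` is a product of two coprime monic polynomials. Then
`Φ = f g` up to terms of degree `≥ J` in `z`. Induction on `J` (start `J = 0`, or `J = 1` with
`f = f₀`, `g = g₀`): if `E = Φ - f g` has only monomials of degree `≥ J` and `a f₀ + b g₀ = 1`,
replace `f` by `f + (b E %ₘ f₀)`, `g` by `g + (a E %ₘ g₀)` or similar (divisions with remainder by
`f₀.map C`, `g₀.map C`, which preserve the condition that all monomials have degree `≥ J`); compare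
`Pool/Agent/Helper11/TS/Hensel.lean`, where the same is done for a group algebra.
-/

set_option autoImplicit false

namespace Pool.Agent.Helper10.TD

open MvPolynomial

section aux
variable {κ : Type} [Field κ] {σ : Type}

private noncomputable abbrev P1 (κ σ : Type) [Field κ] : Ideal (Polynomial (MvPolynomial σ κ)) :=
  Ideal.map (Polynomial.C : MvPolynomial σ κ →+* Polynomial (MvPolynomial σ κ)) (idealOfVars σ κ)

private lemma mem_P1_pow {J : ℕ} {p : Polynomial (MvPolynomial σ κ)} :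
    p ∈ P1 κ σ ^ J ↔ ∀ i, p.coeff i ∈ idealOfVars σ κ ^ J := by
  rw [P1, ← Ideal.map_pow]
  exact Ideal.mem_map_C_iff

private lemma mem_I {c : MvPolynomial σ κ} :
    c ∈ idealOfVars σ κ ^ 1 ↔ constantCoeff c = 0 := by
  rw [mem_pow_idealOfVars_iff' (σ := σ) (R := κ) 1 c]
  constructor
  · intro h1
    have := h1 0 (by simp)
    simpa [constantCoeff_eq] using this
  · intro h1 x hx
    have hx0 : x = 0 := (Finsupp.degree_eq_zero_iff x).1 (by omega)
    rw [hx0]
    simpa [constantCoeff_eq] using h1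

private lemma mem_P1_iff {p : Polynomial (MvPolynomial σ κ)} : p ∈ P1 κ σ ^ 1 ↔ res p = 0 := by
  rw [mem_P1_pow]
  constructor
  · intro h1
    ext i
    simp only [res, Polynomial.coeff_map, Polynomial.coeff_zero]
    exact mem_I.1 (h1 i)
  · intro h1 i
    rw [mem_I]
    have := congrArg (fun q => Polynomial.coeff q i) h1
    simpa [res, Polynomial.coeff_map] using this

private lemma P1_mono {J K : ℕ} (hJ : K ≤ J) {p : Polynomial (MvPolynomial σ κ)}
    (hp : p ∈ P1 κ σ ^ J) : p ∈ P1 κ σ ^ K := by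
  rw [mem_P1_pow] at hp ⊢
  exact fun i => Ideal.pow_le_pow_right hJ (hp i)

private lemma mod_mem {J : ℕ} {p q : Polynomial (MvPolynomial σ κ)} (hq : q.Monic)
    (hp : p ∈ P1 κ σ ^ J) : p %ₘ q ∈ P1 κ σ ^ J := by
  rw [mem_P1_pow] at hp ⊢
  have h0 : p.map (Ideal.Quotient.mk (idealOfVars σ κ ^ J)) = 0 := by
    ext1 i
    rw [Polynomial.coeff_map, Polynomial.coeff_zero, Ideal.Quotient.eq_zero_iff_mem]
    exact hp i
  have h1 : (p %ₘ q).map (Ideal.Quotient.mk (idealOfVars σ κ ^ J)) = 0 := by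
    rw [Polynomial.map_modByMonic _ hq, h0, Polynomial.zero_modByMonic]
  intro i
  have h2 := congrArg (fun r => Polynomial.coeff r i) h1
  simp only [Polynomial.coeff_map, Polynomial.coeff_zero] at h2
  exact Ideal.Quotient.eq_zero_iff_mem.1 h2

private lemma mul_mem_P1 {s t u : ℕ} {p q : Polynomial (MvPolynomial σ κ)}
    (hp : p ∈ P1 κ σ ^ s) (hq : q ∈ P1 κ σ ^ t) (hu : u ≤ s + t) : p * q ∈ P1 κ σ ^ u := by
  refine P1_mono hu ?_
  rw [mem_P1_pow] at hp hq ⊢
  intro i
  rw [Polynomial.coeff_mul]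
  refine Ideal.sum_mem _ fun x _ => ?_
  rw [pow_add]
  exact Ideal.mul_mem_mul (hp _) (hq _)

private lemma res_map_C (f₀ : Polynomial κ) :
    res (f₀.map (C : κ →+* MvPolynomial σ κ)) = f₀ := by
  rw [res, Polynomial.map_map]
  have : (constantCoeff : MvPolynomial σ κ →+* κ).comp C = RingHom.id κ := by
    ext x
    simp
  rw [this, Polynomial.map_id]

private lemma res_sub (p q : Polynomial (MvPolynomial σ κ)) : res (p - q) = res p - res q := by
  simp [res]

private lemma res_add (p q : Polynomial (MvPolynomial σ κ)) : res (p + q) = res p + res q := by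
  simp [res]

private lemma res_mul (p q : Polynomial (MvPolynomial σ κ)) : res (p * q) = res p * res q := by
  simp [res]

private lemma deg_res {f : Polynomial (MvPolynomial σ κ)} {f₀ : Polynomial κ} (hf : f.Monic)
    (h : res f = f₀) : f.natDegree = f₀.natDegree := by
  rw [← h, res, hf.natDegree_map]

private lemma bezout_step' {f g a b E : Polynomial (MvPolynomial σ κ)} (hf : f.Monic)
    (hg : g.Monic) (hab : a * f + b * g = 1) (hE : E.degree < (f * g).degree) :
    (E * b) %ₘ f * g + (E * a) %ₘ g * f = E := by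
  have h1 := Polynomial.modByMonic_add_div (E * b) f
  have h2 := Polynomial.modByMonic_add_div (E * a) g
  have h3 : E - ((E * b) %ₘ f * g + (E * a) %ₘ g * f) =
      f * g * ((E * b) /ₘ f + (E * a) /ₘ g) := by
    linear_combination (-g) * h1 + (-f) * h2 + (-E) * hab
  have hdx : ((E * b) %ₘ f * g).degree < (f * g).degree := by
    rw [hg.degree_mul, hg.degree_mul]
    exact WithBot.add_lt_add_right (by rw [Ne, Polynomial.degree_eq_bot]; exact hg.ne_zero)
      (Polynomial.degree_modByMonic_lt _ hf)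
  have hdy : ((E * a) %ₘ g * f).degree < (f * g).degree := by
    rw [mul_comm f g, hf.degree_mul, hf.degree_mul]
    exact WithBot.add_lt_add_right (by rw [Ne, Polynomial.degree_eq_bot]; exact hf.ne_zero)
      (Polynomial.degree_modByMonic_lt _ hg)
  have h4 : (E - ((E * b) %ₘ f * g + (E * a) %ₘ g * f)).degree < (f * g).degree :=
    (Polynomial.degree_sub_le _ _).trans_lt
      (max_lt hE ((Polynomial.degree_add_le _ _).trans_lt (max_lt hdx hdy)))
  by_contra hne
  have h5 : E - ((E * b) %ₘ f * g + (E * a) %ₘ g * f) ≠ 0 := by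
    intro h6
    exact hne (sub_eq_zero.1 h6).symm
  exact (hf.mul hg).not_dvd_of_degree_lt h5 h4 ⟨_, h3⟩

private lemma hen_step (Φ : Polynomial (MvPolynomial σ κ)) (hΦ : Φ.Monic) (f₀ g₀ : Polynomial κ)
    (hf : f₀.Monic) (hg : g₀.Monic) (hco : IsCoprime f₀ g₀) (h0 : res Φ = f₀ * g₀) (J : ℕ) :
    ∃ f g : Polynomial (MvPolynomial σ κ), f.Monic ∧ g.Monic ∧ res f = f₀ ∧ res g = g₀ ∧
      Φ - f * g ∈ P1 κ σ ^ (J + 1) := by
  obtain ⟨a, b, hab⟩ := hco
  set F : Polynomial (MvPolynomial σ κ) := f₀.map (C : κ →+* MvPolynomial σ κ) with hF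
  set Γ : Polynomial (MvPolynomial σ κ) := g₀.map (C : κ →+* MvPolynomial σ κ) with hΓ
  have hFm : F.Monic := hf.map _
  have hΓm : Γ.Monic := hg.map _
  have hresF : res F = f₀ := res_map_C f₀
  have hresΓ : res Γ = g₀ := res_map_C g₀
  have hab' : a.map (C : κ →+* MvPolynomial σ κ) * F + b.map (C : κ →+* MvPolynomial σ κ) * Γ
      = 1 := by
    rw [hF, hΓ, ← Polynomial.map_mul, ← Polynomial.map_mul, ← Polynomial.map_add, hab,
      Polynomial.map_one]
  induction J with
  | zero =>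
    refine ⟨F, Γ, hFm, hΓm, hresF, hresΓ, ?_⟩
    rw [zero_add, mem_P1_iff, res_sub, res_mul, hresF, hresΓ, h0, sub_self]
  | succ J ih =>
    obtain ⟨f, g, hfm, hgm, hfr, hgr, hE⟩ := ih
    have hdeg : ∀ {u v : Polynomial (MvPolynomial σ κ)}, u.Monic → v.Monic → res u = res v →
        u.degree = v.degree := by
      intro u v hu hv huv
      rw [Polynomial.degree_eq_natDegree hu.ne_zero, Polynomial.degree_eq_natDegree hv.ne_zero,
        deg_res hu huv, deg_res hv rfl]
    have hEd : (Φ - f * g).degree < (F * Γ).degree := by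
      have e3 : Φ.degree = (f * g).degree :=
        hdeg hΦ (hfm.mul hgm) (by rw [res_mul, hfr, hgr, h0])
      have e4 : (F * Γ).degree = Φ.degree :=
        hdeg (hFm.mul hΓm) hΦ (by rw [res_mul, hresF, hresΓ, h0])
      rw [e4]
      apply Polynomial.degree_sub_lt_left e3 hΦ.ne_zero
      rw [hΦ.leadingCoeff, (hfm.mul hgm).leadingCoeff]
    have hbz := bezout_step' hFm hΓm hab' hEd
    set E := Φ - f * g with hEdef
    set x := (E * b.map (C : κ →+* MvPolynomial σ κ)) %ₘ F with hx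
    set y := (E * a.map (C : κ →+* MvPolynomial σ κ)) %ₘ Γ with hy
    have hxb : x ∈ P1 κ σ ^ (J + 1) := mod_mem hFm (Ideal.mul_mem_right _ _ hE)
    have hyb : y ∈ P1 κ σ ^ (J + 1) := mod_mem hΓm (Ideal.mul_mem_right _ _ hE)
    have hx1 : x ∈ P1 κ σ ^ 1 := P1_mono (Nat.le_add_left 1 J) hxb
    have hy1 : y ∈ P1 κ σ ^ 1 := P1_mono (Nat.le_add_left 1 J) hyb
    have hxd : x.degree < f.degree := by
      rw [hdeg hfm hFm (by rw [hfr, hresF])]
      exact Polynomial.degree_modByMonic_lt _ hFm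
    have hyd : y.degree < g.degree := by
      rw [hdeg hgm hΓm (by rw [hgr, hresΓ])]
      exact Polynomial.degree_modByMonic_lt _ hΓm
    have hfF : f - F ∈ P1 κ σ ^ 1 := by
      rw [mem_P1_iff, res_sub, hfr, hresF, sub_self]
    have hgΓ : g - Γ ∈ P1 κ σ ^ 1 := by
      rw [mem_P1_iff, res_sub, hgr, hresΓ, sub_self]
    refine ⟨f + x, g + y, hfm.add_of_left hxd, hgm.add_of_left hyd, ?_, ?_, ?_⟩
    · rw [res_add, hfr, mem_P1_iff.1 hx1, add_zero]
    · rw [res_add, hgr, mem_P1_iff.1 hy1, add_zero]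
    · have h6 : Φ - (f + x) * (g + y) = -(x * (g - Γ)) - y * (f - F) - x * y := by
        have h7 : Φ - f * g = x * Γ + y * F := hbz.symm
        linear_combination h7
      rw [h6]
      refine Submodule.sub_mem _ (Submodule.sub_mem _ (Submodule.neg_mem _ ?_) ?_) ?_
      · exact mul_mem_P1 hxb hgΓ (by omega)
      · exact mul_mem_P1 hyb hfF (by omega)
      · exact mul_mem_P1 hxb hyb (by omega)

end aux

theorem hensel_mod {κ : Type} [Field κ] {σ : Type} [Fintype σ]
    (Φ : Polynomial (MvPolynomial σ κ)) (hΦ : Φ.Monic) (f₀ g₀ : Polynomial κ)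
    (hf : f₀.Monic) (hg : g₀.Monic) (hco : IsCoprime f₀ g₀) (h0 : res Φ = f₀ * g₀) (J : ℕ) :
    ∃ f g : Polynomial (MvPolynomial σ κ), f.Monic ∧ g.Monic ∧ res f = f₀ ∧ res g = g₀ ∧
      ∀ i, ∀ γ ∈ ((Φ - f * g).coeff i).support, J ≤ γ.degree := by
  obtain ⟨f, g, h1, h2, h3, h4, h5⟩ := hen_step Φ hΦ f₀ g₀ hf hg hco h0 J
  refine ⟨f, g, h1, h2, h3, h4, fun i γ hγ => ?_⟩
  have h6 := (mem_pow_idealOfVars_iff _ _).1 (mem_P1_pow.1 h5 i) γ hγ
  omega

end Pool.Agent.Helper10.TD
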