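import Pool.Agent.Helper10.TD.Hen
import Pool.Agent.Helper38.TP.EstH

/-!
# Local polynomials

`Φ` monic of degree `D + 1` over `K[z]`, not a pure `(D + 1)`-th power at `z = 0`. Then at points
`(z, ζ)` over the local field `L` with `Φ = 0` one of finitely many monic polynomials `G` of degree
`D` (coefficients algebraic over `K`) is `O(‖z‖ ^ J)`.

Proof. `κ = algebraicClosure K L`. For every root `ρ : κ` of `Φ₀ = (res Φ).map (algebraMap K κ)`
write `Φ₀ = (X - ρ) ^ e * h₀` with `h₀(ρ) ≠ 0`, `1 ≤ e ≤ D`: `e = D + 1` would give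
`Φ₀ = (X - ρ) ^ (D + 1)`, and comparing the coefficients of `X ^ D` (char 0) `ρ` comes from `K`,
against `hsp`. `hensel_mod` (for `Φ.map (map (algebraMap K κ))`) gives `f g`, `res f = (X - ρ) ^ e`,
`res g = h₀`; put `G = X ^ (D - e) * f`. Together with `G = X ^ D` these are finitely many
polynomials. There are `r > 0`, `c > 0` such that `‖z‖ ≤ r`, `‖ζ‖ ≤ R`, `ev z ζ Φ = 0` imply
`c ≤ ‖ev z ζ g‖` for one of the roots `ρ : κ` (if not: sequences `z_n → 0`, `ζ_n` bounded; `L` is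
proper, so a subsequence of `ζ_n` converges to some `ζ*`, which is a root of `res Φ` in `L`, hence in
`κ`, and `ev z_n ζ_n g → h₀(ρ) ≠ 0`). For `‖z‖ ≥ r` take `G = X ^ D` and `C ≥ R ^ D / r ^ J`.
The value of a polynomial all of whose monomials in `z` have degree `≥ J` is `O(‖z‖ ^ J)` for
`‖z‖ ≤ R`, `‖ζ‖ ≤ R` (compare `truncH`, `pow_cmp` in `Helper38/TP/EstH.lean`, `EstG.lean`).
-/

set_option autoImplicit false

namespace Pool.Agent.Helper10.TD

open MvPolynomial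

section lp
variable {κ L : Type} [Field κ] [NontriviallyNormedField L] [Algebra κ L] {σ : Type} [Fintype σ]

/-- A polynomial all of whose monomials have degree at least `J` is `O(‖z‖ ^ J)`. -/
lemma lp_aeval_le (p : MvPolynomial σ κ) (R : ℝ) (hR : 1 ≤ R) (J : ℕ)
    (hp : ∀ γ ∈ p.support, J ≤ γ.degree) :
    ∃ C : ℝ, 0 ≤ C ∧ ∀ z : σ → L, ‖z‖ ≤ R → ‖aeval z p‖ ≤ C * ‖z‖ ^ J := by
  classical
  refine ⟨∑ j ∈ p.support, ‖algebraMap κ L (coeff j p)‖ * R ^ j.degree,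
    Finset.sum_nonneg fun j _ => by positivity, fun z hz => ?_⟩
  rw [aeval_def, eval₂_eq', Finset.sum_mul]
  refine (norm_sum_le _ _).trans (Finset.sum_le_sum fun j hj => ?_)
  rw [norm_mul, mul_assoc]
  apply mul_le_mul_of_nonneg_left _ (norm_nonneg _)
  rw [norm_prod]
  calc ∏ i, ‖z i ^ j i‖ ≤ ∏ i, ‖z‖ ^ j i := by
        refine Finset.prod_le_prod (fun i _ => norm_nonneg _) fun i _ => ?_
        rw [norm_pow]
        exact pow_le_pow_left₀ (norm_nonneg _) (norm_le_pi_norm z i) _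
    _ = ‖z‖ ^ j.degree := by rw [Finset.prod_pow_eq_pow_sum, Finsupp.degree_eq_sum]
    _ ≤ R ^ j.degree * ‖z‖ ^ J :=
        Pool.Agent.Helper38.TP.pow_cmp (norm_nonneg _) hz hR (hp j hj)

lemma lp_ev_le (E : Polynomial (MvPolynomial σ κ)) (R : ℝ) (hR : 1 ≤ R) (J : ℕ)
    (hE : ∀ i, ∀ γ ∈ (E.coeff i).support, J ≤ γ.degree) :
    ∃ C : ℝ, 0 ≤ C ∧ ∀ (z : σ → L) (ζ : L), ‖z‖ ≤ R → ‖ζ‖ ≤ R → ‖ev z ζ E‖ ≤ C * ‖z‖ ^ J := by
  choose C hC h using fun i => lp_aeval_le (L := L) (E.coeff i) R hR J (hE i)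
  refine ⟨∑ i ∈ Finset.range (E.natDegree + 1), C i * R ^ i,
    Finset.sum_nonneg fun i _ => mul_nonneg (hC i) (by positivity), fun z ζ hz hζ => ?_⟩
  rw [ev_eq_sum z ζ E (Nat.lt_succ_self _), Finset.sum_mul]
  refine (norm_sum_le _ _).trans (Finset.sum_le_sum fun i _ => ?_)
  rw [norm_mul, norm_pow]
  calc ‖aeval z (E.coeff i)‖ * ‖ζ‖ ^ i ≤ (C i * ‖z‖ ^ J) * R ^ i :=
        mul_le_mul (h i z hz) (pow_le_pow_left₀ (norm_nonneg _) hζ _) (by positivity)
          (mul_nonneg (hC i) (by positivity))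
    _ = C i * R ^ i * ‖z‖ ^ J := by ring

omit [Fintype σ] in
lemma lp_continuous (E : Polynomial (MvPolynomial σ κ)) :
    Continuous fun q : (σ → L) × L => ev q.1 q.2 E := by
  have h : (fun q : (σ → L) × L => ev q.1 q.2 E) = fun q =>
      ∑ i ∈ Finset.range (E.natDegree + 1),
        eval q.1 (map (algebraMap κ L) (E.coeff i)) * q.2 ^ i := by
    funext q
    rw [ev_eq_sum q.1 q.2 E (Nat.lt_succ_self _)]
    refine Finset.sum_congr rfl fun i _ => ?_
    rw [aeval_def, eval₂_eq_eval_map]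
  rw [h]
  refine continuous_finsetSum _ fun i _ => ?_
  exact ((MvPolynomial.continuous_eval _).comp continuous_fst).mul (continuous_snd.pow i)

omit [Fintype σ] in
lemma lp_ev_zero (E : Polynomial (MvPolynomial σ κ)) (ζ : L) :
    ev (0 : σ → L) ζ E = Polynomial.aeval ζ (res E) := by
  change Polynomial.eval₂ _ ζ E = _
  rw [res, Polynomial.aeval_def, Polynomial.eval₂_map]
  congr 1
  ext p
  · simp
  · simp

/-- The polynomial belonging to a root. -/
lemma lp_root (Φ : Polynomial (MvPolynomial σ κ)) (hΦ : Φ.Monic) (D : ℕ)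
    (hdeg : Φ.natDegree = D + 1) (ρ : κ) (hρ : (res Φ).IsRoot ρ)
    (hsp : res Φ ≠ (Polynomial.X - Polynomial.C ρ) ^ (D + 1))
    (R : ℝ) (hR : 1 ≤ R) (J : ℕ) :
    ∃ (G g : Polynomial (MvPolynomial σ κ)) (C : ℝ), 0 ≤ C ∧ G.Monic ∧ G.natDegree = D ∧
      (res g).eval ρ ≠ 0 ∧
      ∀ (z : σ → L) (ζ : L), ‖z‖ ≤ R → ‖ζ‖ ≤ R → ev z ζ Φ = 0 →
        ‖ev z ζ G‖ * ‖ev z ζ g‖ ≤ C * ‖z‖ ^ J := by
  have hm0 : (res Φ).Monic := hΦ.map _
  have hd0 : (res Φ).natDegree = D + 1 := by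
    rw [← hdeg]; exact hΦ.natDegree_map _
  have hne : res Φ ≠ 0 := hm0.ne_zero
  set e := (res Φ).rootMultiplicity ρ with he
  obtain ⟨h₀, hh, hnd⟩ := Polynomial.exists_eq_pow_rootMultiplicity_mul_and_not_dvd (res Φ) hne ρ
  rw [← he] at hh
  have hXm : ((Polynomial.X - Polynomial.C ρ : Polynomial κ) ^ e).Monic :=
    (Polynomial.monic_X_sub_C ρ).pow e
  have hh0m : h₀.Monic := by
    rw [hh] at hm0
    exact hXm.of_mul_monic_left hm0
  have hXd : ((Polynomial.X - Polynomial.C ρ : Polynomial κ) ^ e).natDegree = e := by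
    rw [(Polynomial.monic_X_sub_C ρ).natDegree_pow, Polynomial.natDegree_X_sub_C, mul_one]
  have hdegs : D + 1 = e + h₀.natDegree := by
    rw [← hd0, hh, hXm.natDegree_mul hh0m, hXd]
  have heval : h₀.eval ρ ≠ 0 := by
    intro h
    exact hnd (Polynomial.dvd_iff_isRoot.2 h)
  have heD : e ≤ D := by
    by_contra hcon
    have h1 : h₀.natDegree = 0 := by omega
    have h2 : h₀ = 1 := Polynomial.eq_one_of_monic_natDegree_zero hh0m h1
    apply hsp
    have h3 : e = D + 1 := by omega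
    rw [hh, h2, h3, mul_one]
  have hco : IsCoprime ((Polynomial.X - Polynomial.C ρ : Polynomial κ) ^ e) h₀ := by
    apply IsCoprime.pow_left
    exact (Polynomial.irreducible_X_sub_C ρ).coprime_iff_not_dvd.2 hnd
  obtain ⟨f, g, hf, hg, hfr, hgr, hE⟩ := hensel_mod Φ hΦ _ h₀ hXm hh0m hco hh J
  obtain ⟨C, hC, hCE⟩ := lp_ev_le (L := L) (Φ - f * g) R hR J hE
  have hfd : f.natDegree = e := by
    have h1 : (res f).natDegree = f.natDegree := hf.natDegree_map _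
    rw [← h1, hfr, hXd]
  refine ⟨Polynomial.X ^ (D - e) * f, g, R ^ (D - e) * C, by positivity,
    (Polynomial.monic_X_pow _).mul hf, ?_, ?_, ?_⟩
  · rw [(Polynomial.monic_X_pow _).natDegree_mul hf, Polynomial.natDegree_X_pow, hfd]
    omega
  · rw [hgr]
    exact heval
  · intro z ζ hz hζ h0
    have h1 := hCE z ζ hz hζ
    rw [map_sub, map_mul, h0, zero_sub, norm_neg, norm_mul] at h1
    rw [map_mul, map_pow, ev_X, norm_mul, norm_pow, mul_assoc, mul_assoc]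
    exact mul_le_mul (pow_le_pow_left₀ (norm_nonneg _) hζ _) h1 (by positivity) (by positivity)

end lp

lemma lp_main {K κ L : Type} [Field K] [CharZero K] [NontriviallyNormedField L] [ProperSpace L]
    [Field κ] [Algebra K κ] [Algebra K L] [Algebra κ L] [IsScalarTower K κ L]
    (halg : ∀ ζ : L, IsAlgebraic κ ζ → ∃ ρ : κ, algebraMap κ L ρ = ζ)
    {σ : Type} [Fintype σ]
    (Φ : Polynomial (MvPolynomial σ K)) (hΦ : Φ.Monic) (D : ℕ)
    (hdeg : Φ.natDegree = D + 1)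
    (hsp : ∀ ρ : K, res Φ ≠ (Polynomial.X - Polynomial.C ρ) ^ (D + 1))
    (R : ℝ) (hR : 1 ≤ R) (J : ℕ) :
    ∃ (𝒢 : Finset (Polynomial (MvPolynomial σ κ))) (C : ℝ), 0 < C ∧
      (∀ G ∈ 𝒢, G.Monic ∧ G.natDegree = D) ∧
      ∀ (z : σ → L) (ζ : L), ‖z‖ ≤ R → ‖ζ‖ ≤ R → ev z ζ Φ = 0 →
        ∃ G ∈ 𝒢, ‖ev z ζ G‖ ≤ C * ‖z‖ ^ J := by
  classical
  have hchar : CharZero κ := charZero_of_injective_algebraMap (algebraMap K κ).injective
  set Φ' : Polynomial (MvPolynomial σ κ) := Φ.map (map (algebraMap K κ)) with hΦ'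
  have hm' : Φ'.Monic := hΦ.map _
  have hd' : Φ'.natDegree = D + 1 := by rw [← hdeg]; exact hΦ.natDegree_map _
  have hev : ∀ (z : σ → L) (ζ : L), ev z ζ Φ' = ev z ζ Φ := by
    intro z ζ
    change Polynomial.eval₂ _ ζ Φ' = Polynomial.eval₂ _ ζ Φ
    rw [hΦ', Polynomial.eval₂_map]
    congr 1
    refine MvPolynomial.ringHom_ext (fun a => ?_) fun i => ?_
    · rw [RingHom.comp_apply, map_C]
      change aeval z (C (algebraMap K κ a)) = aeval z (C a)
      rw [algHom_C, algHom_C, ← IsScalarTower.algebraMap_apply K κ L]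
    · rw [RingHom.comp_apply, map_X]
      change aeval z (X i) = aeval z (X i)
      rw [aeval_X, aeval_X]
  have hres : res Φ' = (res Φ).map (algebraMap K κ) := by
    rw [res, res, hΦ', Polynomial.map_map, Polynomial.map_map]
    congr 1
  have hsp' : ∀ ρ : κ, res Φ' ≠ (Polynomial.X - Polynomial.C ρ) ^ (D + 1) := by
    intro ρ h
    have h1 : (res Φ').coeff D = ((Polynomial.X - Polynomial.C ρ) ^ (D + 1)).coeff D := by rw [h]
    rw [hres, Polynomial.coeff_map] at h1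
    have h2 : ((Polynomial.X - Polynomial.C ρ : Polynomial κ) ^ (D + 1)).coeff D =
        -((D + 1 : ℕ) : κ) * ρ := by
      rw [sub_eq_add_neg, ← Polynomial.C_neg, Polynomial.coeff_X_add_C_pow]
      simp [Nat.choose_succ_self_right]
      ring
    rw [h2] at h1
    have hn : ((D + 1 : ℕ) : K) ≠ 0 := Nat.cast_ne_zero.2 (Nat.succ_ne_zero D)
    set ρ₀ : K := -((res Φ).coeff D) / ((D + 1 : ℕ) : K) with hρ₀
    have h3 : algebraMap K κ ρ₀ = ρ := by
      have hn' : ((D + 1 : ℕ) : κ) ≠ 0 := Nat.cast_ne_zero.2 (Nat.succ_ne_zero D)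
      rw [hρ₀, map_div₀, map_neg, h1, map_natCast]
      field_simp
    apply hsp ρ₀
    apply Polynomial.map_injective _ (algebraMap K κ).injective
    rw [← hres, h, Polynomial.map_pow, Polynomial.map_sub, Polynomial.map_X, Polynomial.map_C, h3]
  have hroot := fun (ρ : κ) (hρ : (res Φ').IsRoot ρ) =>
    lp_root (L := L) Φ' hm' D hd' ρ hρ (hsp' ρ) R hR J
  choose! G g C hC hGm hGd hg hle using hroot
  have hne : res Φ' ≠ 0 := (hm'.map _).ne_zero
  set S := (res Φ').roots.toFinset with hS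
  have hSmem : ∀ ρ, ρ ∈ S ↔ (res Φ').IsRoot ρ := by
    intro ρ
    rw [hS, Multiset.mem_toFinset, Polynomial.mem_roots hne]
  -- the continuous function
  set F : (σ → L) × L → ℝ := fun q => ‖ev q.1 q.2 Φ'‖ + ∑ ρ ∈ S, ‖ev q.1 q.2 (g ρ)‖ with hF
  have hFc : Continuous F := by
    refine (lp_continuous Φ').norm.add (continuous_finsetSum _ fun ρ _ => ?_)
    exact (lp_continuous (g ρ)).norm
  have hF0 : ∀ ζ ∈ Metric.closedBall (0 : L) R, 0 < F (0, ζ) := by
    intro ζ _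
    by_cases h0 : ev (0 : σ → L) ζ Φ' = 0
    · rw [lp_ev_zero] at h0
      obtain ⟨ρ, h4⟩ := halg ζ ⟨res Φ', hne, h0⟩
      have h5 : (res Φ').IsRoot ρ := by
        rw [← h4, Polynomial.aeval_algebraMap_apply, Polynomial.coe_aeval_eq_eval] at h0
        exact (algebraMap κ L).injective (by rw [map_zero]; exact h0)
      have h6 : 0 < ‖ev (0 : σ → L) ζ (g ρ)‖ := by
        rw [norm_pos_iff, lp_ev_zero, ← h4, Polynomial.aeval_algebraMap_apply]
        intro h7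
        exact hg ρ h5 ((algebraMap κ L).injective (by rw [map_zero]; exact h7))
      have h7 : ‖ev (0 : σ → L) ζ (g ρ)‖ ≤ ∑ ρ ∈ S, ‖ev (0 : σ → L) ζ (g ρ)‖ :=
        Finset.single_le_sum (f := fun ρ => ‖ev (0 : σ → L) ζ (g ρ)‖)
          (fun _ _ => norm_nonneg _) ((hSmem ρ).2 h5)
      have h8 : 0 ≤ ‖ev (0 : σ → L) ζ Φ'‖ := norm_nonneg _
      simp only [hF]
      linarith
    · have h1 : 0 < ‖ev (0 : σ → L) ζ Φ'‖ := norm_pos_iff.2 h0
      have h2 : 0 ≤ ∑ ρ ∈ S, ‖ev (0 : σ → L) ζ (g ρ)‖ :=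
        Finset.sum_nonneg fun _ _ => norm_nonneg _
      simp only [hF]
      linarith
  have hcomp : IsCompact (Metric.closedBall (0 : L) R) := isCompact_closedBall _ _
  obtain ⟨c, hc, hmin⟩ := hcomp.exists_forall_le' (f := fun ζ => F (0, ζ))
    (hFc.comp (Continuous.prodMk_right 0)).continuousOn hF0
  obtain ⟨u, v, hu, hv, h0u, hRv, huv⟩ := generalized_tube_lemma (isCompact_singleton (x := (0 : σ → L)))
    hcomp (n := {q | c / 2 < F q}) (isOpen_lt continuous_const hFc) (by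
      rintro ⟨z, ζ⟩ ⟨hz, hζ⟩
      have hz' : z = 0 := hz
      subst hz'
      have := hmin ζ hζ
      show c / 2 < F (0, ζ)
      linarith)
  obtain ⟨ε, hε, hεu⟩ := Metric.isOpen_iff.1 hu 0 (h0u rfl)
  set C₁ : ℝ := ∑ ρ ∈ S, |C ρ| with hC₁
  have hC₁0 : 0 ≤ C₁ := Finset.sum_nonneg fun _ _ => abs_nonneg _
  set s : ℝ := (S.card : ℝ) + 1 with hs
  have hs0 : 0 < s := add_pos_of_nonneg_of_pos (Nat.cast_nonneg _) one_pos
  have hsc : 0 < 2 * s / c := div_pos (mul_pos two_pos hs0) hc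
  have hcs : 0 < c / (2 * s) := div_pos hc (mul_pos two_pos hs0)
  have hεJ : 0 < ε ^ J := pow_pos hε J
  have hR0 : 0 < R := by linarith
  have hRD : 0 < R ^ D := pow_pos hR0 D
  have hq : 0 < R ^ D / ε ^ J := div_pos hRD hεJ
  have hqc : 0 ≤ C₁ * (2 * s / c) := mul_nonneg hC₁0 hsc.le
  clear_value s C₁
  refine ⟨insert (Polynomial.X ^ D) (S.image G), R ^ D / ε ^ J + C₁ * (2 * s / c), ?_, ?_, ?_⟩
  · linarith
  · intro H hH
    rw [Finset.mem_insert, Finset.mem_image] at hH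
    rcases hH with rfl | ⟨ρ, hρ, rfl⟩
    · exact ⟨Polynomial.monic_X_pow _, Polynomial.natDegree_X_pow _⟩
    · have h := (hSmem ρ).1 hρ
      exact ⟨hGm ρ h, hGd ρ h⟩
  · intro z ζ hz hζ h0
    by_cases hzε : ‖z‖ < ε
    · have h1 : c / 2 < F (z, ζ) := huv ⟨hεu (mem_ball_zero_iff.2 hzε), hRv (mem_closedBall_zero_iff.2 hζ)⟩
      have h2 : ev z ζ Φ' = 0 := by rw [hev, h0]
      have h3 : ∃ ρ ∈ S, c / (2 * s) < ‖ev z ζ (g ρ)‖ := by
        by_contra hcon
        push Not at hcon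
        have h4 : ∑ ρ ∈ S, ‖ev z ζ (g ρ)‖ ≤ S.card • (c / (2 * s)) :=
          Finset.sum_le_card_nsmul _ _ _ hcon
        have h5 : F (z, ζ) = ∑ ρ ∈ S, ‖ev z ζ (g ρ)‖ := by
          simp only [hF]
          rw [h2, norm_zero, zero_add]
        rw [nsmul_eq_mul] at h4
        have h6 : (S.card : ℝ) * (c / (2 * s)) ≤ c / 2 := by
          have h7 : (S.card : ℝ) ≤ s := by linarith
          calc (S.card : ℝ) * (c / (2 * s)) ≤ s * (c / (2 * s)) :=
                mul_le_mul_of_nonneg_right h7 hcs.le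
            _ = c / 2 := by rw [mul_div_assoc', mul_comm s c, mul_div_mul_right _ _ hs0.ne']
        linarith
      obtain ⟨ρ, hρ, h4⟩ := h3
      refine ⟨G ρ, Finset.mem_insert_of_mem (Finset.mem_image_of_mem _ hρ), ?_⟩
      have hzJ : 0 ≤ ‖z‖ ^ J := pow_nonneg (norm_nonneg _) J
      have h5 := hle ρ ((hSmem ρ).1 hρ) z ζ hz hζ h2
      have h6 : C ρ ≤ C₁ := by
        rw [hC₁]
        exact (le_abs_self _).trans
          (Finset.single_le_sum (f := fun ρ => |C ρ|) (fun _ _ => abs_nonneg _) hρ)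
      have h7 : ‖ev z ζ (G ρ)‖ * (c / (2 * s)) ≤ C₁ * ‖z‖ ^ J :=
        (mul_le_mul_of_nonneg_left h4.le (norm_nonneg _)).trans
          (h5.trans (mul_le_mul_of_nonneg_right h6 hzJ))
      have h8 : ‖ev z ζ (G ρ)‖ ≤ C₁ * (2 * s / c) * ‖z‖ ^ J := by
        have h9 := mul_le_mul_of_nonneg_right h7 hsc.le
        have h10 : c / (2 * s) * (2 * s / c) = 1 := by
          rw [div_mul_div_comm, mul_comm c, div_self (mul_pos (mul_pos two_pos hs0) hc).ne']
        calc ‖ev z ζ (G ρ)‖ = ‖ev z ζ (G ρ)‖ * (c / (2 * s)) * (2 * s / c) := by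
              rw [mul_assoc, h10, mul_one]
          _ ≤ C₁ * ‖z‖ ^ J * (2 * s / c) := h9
          _ = _ := by ring
      refine h8.trans (mul_le_mul_of_nonneg_right ?_ hzJ)
      linarith
    · push Not at hzε
      refine ⟨Polynomial.X ^ D, Finset.mem_insert_self _ _, ?_⟩
      rw [map_pow, ev_X, norm_pow]
      have h1 : ‖ζ‖ ^ D ≤ R ^ D := pow_le_pow_left₀ (norm_nonneg _) hζ _
      have h2 : ε ^ J ≤ ‖z‖ ^ J := pow_le_pow_left₀ hε.le hzε _
      have h3 : R ^ D ≤ R ^ D / ε ^ J * ‖z‖ ^ J := by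
        rw [div_mul_eq_mul_div, le_div_iff₀ hεJ]
        exact mul_le_mul_of_nonneg_left h2 hRD.le
      have h4 : R ^ D / ε ^ J * ‖z‖ ^ J ≤ (R ^ D / ε ^ J + C₁ * (2 * s / c)) * ‖z‖ ^ J := by
        apply mul_le_mul_of_nonneg_right _ (pow_nonneg (norm_nonneg _) J)
        linarith
      linarith

theorem local_poly {K L : Type} [Field K] [CharZero K] [NontriviallyNormedField L] [ProperSpace L]
    [Algebra K L] {σ : Type} [Fintype σ] [Nonempty σ]
    (Φ : Polynomial (MvPolynomial σ K)) (hΦ : Φ.Monic) (D : ℕ) (hD : 1 ≤ D)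
    (hdeg : Φ.natDegree = D + 1)
    (hsp : ∀ ρ : K, res Φ ≠ (Polynomial.X - Polynomial.C ρ) ^ (D + 1))
    (R : ℝ) (hR : 1 ≤ R) (J : ℕ) :
    ∃ (𝒢 : Finset (Polynomial (MvPolynomial σ (algebraicClosure K L)))) (C : ℝ), 0 < C ∧
      (∀ G ∈ 𝒢, G.Monic ∧ G.natDegree = D) ∧
      ∀ (z : σ → L) (ζ : L), ‖z‖ ≤ R → ‖ζ‖ ≤ R → ev z ζ Φ = 0 →
        ∃ G ∈ 𝒢, ‖ev z ζ G‖ ≤ C * ‖z‖ ^ J := by
  refine lp_main (fun ζ h => ?_) Φ hΦ D hdeg hsp R hR J
  have h2 : IsAlgebraic K ζ := h.restrictScalars K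
  exact ⟨⟨ζ, mem_algebraicClosure_iff.2 h2⟩, rfl⟩

end Pool.Agent.Helper10.TD
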