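import Pool.Agent.Helper10.TD.PtsD
import Pool.Agent.Helper10.TD.LocD

/-!
# Local data, independent units

For every place `s` and every type (`none` with an index `a` such that `nrm x ≤ C₁ ‖w a‖`, or
`some (I, a)` from `h.gap`) `loc_none`, `loc_red` (reduced corner) or `loc_two` (`I = univ.erase a`
and `TwoP`, with `Φ a`) give finitely many local data and a constant; take the union over the
finitely many types and the maximum of the constants. `facW ≤ C₁ facN` as in `PtsH.facW_le'`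
(`Helper38/TP/RelH.lean`), `facW ≤ C₁ ^ 2` from `PtsE.facW_le`, `‖ξ / w a‖ ≤ (∑ ‖lam k‖) C₁`.
The constants `C₁'` in `loc_*` may be taken as `max` of all these.
-/

set_option autoImplicit false
set_option linter.unusedSectionVars false

namespace Pool.Agent.Helper10.TD

open Pool.Agent.Helper10.Sub Pool.Agent.Helper38.TP Pool.Agent.Helper38.TN MvPolynomial

/-- The size of a linear form divided by a large unit. -/
lemma locA_lin {K L : Type} [Field K] [NontriviallyNormedField L] [Algebra K L] {N : ℕ}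
    (lam x : Fin (N + 1) → K) (v : K) (hv : v ≠ 0) (C₁ : ℝ)
    (h : nrm L x ≤ C₁ * ‖algebraMap K L v‖) :
    ‖algebraMap K L (lin lam x / v)‖ ≤ (∑ k, ‖algebraMap K L (lam k)‖) * C₁ := by
  have hwn : 0 < ‖algebraMap K L v‖ := norm_pos_iff.mpr
    (by rw [Ne, map_eq_zero_iff _ (algebraMap K L).injective]; exact hv)
  have hlin : algebraMap K L (lin lam x / v) =
      ∑ k, algebraMap K L (lam k) * algebraMap K L (x k / v) := by
    rw [lin, Finset.sum_div, map_sum]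
    refine Finset.sum_congr rfl fun k _ => ?_
    rw [Algebra.algebraMap_self, RingHom.id_apply, mul_div_assoc, map_mul]
  rw [hlin, Finset.sum_mul]
  refine (norm_sum_le _ _).trans (Finset.sum_le_sum fun k _ => ?_)
  rw [norm_mul]
  refine mul_le_mul_of_nonneg_left ?_ (norm_nonneg _)
  rw [map_div₀, norm_div, div_le_iff₀ hwn]
  exact (le_nrm x k).trans h

/-- The distance to a corner. -/
lemma locA_fac {K L : Type} [Field K] [NontriviallyNormedField L] [Algebra K L] {n : ℕ}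
    (w : Fin (n + 1) → K) (nx C₁ : ℝ) (hC : 1 ≤ C₁) (hn : 0 < nx) (a : Fin (n + 1))
    (hw : w a ≠ 0) (ha : nx ≤ C₁ * ‖algebraMap K L (w a)‖) (o : Option (Finset (Fin (n + 1)))) :
    facW L w a o ≤ C₁ * facN L w nx (o.map fun I => (I, a)) := by
  have hwn : 0 < ‖algebraMap K L (w a)‖ := norm_pos_iff.mpr
    (by rw [Ne, map_eq_zero_iff _ (algebraMap K L).injective]; exact hw)
  rcases o with _ | I
  · change 1 ≤ C₁ * 1
    linarith
  · change ‖fun i : {i // i ∈ I} => algebraMap K L (w i.1 / w a)‖ ≤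
      C₁ * (‖fun i : {i // i ∈ I} => algebraMap K L (w i.1)‖ / nx)
    rw [pi_norm_le_iff_of_nonneg (by positivity)]
    intro i
    rw [map_div₀, norm_div, div_le_iff₀ hwn, mul_assoc, div_mul_eq_mul_div, ← mul_div_assoc,
      le_div_iff₀ hn]
    have h1 : ‖algebraMap K L (w i.1)‖ ≤
        ‖fun i : {i // i ∈ I} => algebraMap K L (w i.1)‖ :=
      norm_le_pi_norm (fun i : {i // i ∈ I} => algebraMap K L (w i.1)) i
    calc ‖algebraMap K L (w i.1)‖ * nx
        ≤ ‖fun i : {i // i ∈ I} => algebraMap K L (w i.1)‖ *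
          (C₁ * ‖algebraMap K L (w a)‖) :=
          mul_le_mul h1 ha hn.le (norm_nonneg _)
      _ = _ := by ring

variable {K : Type} [Field K] [CharZero K] {Λ : Type} [Fintype Λ] [DecidableEq Λ] {L : Λ → Type}
  [∀ s, NontriviallyNormedField (L s)] [∀ s, ProperSpace (L s)] [∀ s, Algebra K (L s)] {N n : ℕ}
  {Ω : Type} [Field Ω] [Algebra K Ω]

/-- The local data of one type at one place. -/
lemma locA_one {Z : MP K L} {𝔅 : LN (Fin (N + 1) → K)} {J₀ : Set (MvPolynomial (Fin (N + 1)) K)}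
    {F : Fin (n + 1) → MvPolynomial (Fin (N + 1)) K} {d : Fin (n + 1) → ℕ} {Dc : Fin (n + 1) → K}
    {w : (Fin (N + 1) → K) → Fin (n + 1) → K} {C₁ ε C₂ : ℝ} {E : Set (Fin (N + 1) → K)}
    (h : PtsD Ω Z 𝔅 J₀ F d Dc w C₁ ε C₂ E) (lam : Fin (N + 1) → K) (D : ℕ) (hD : 1 ≤ D)
    (Φ : Fin (n + 1) → Polynomial (MvPolynomial (Fin (n + 1)) K)) (hΦ : ∀ a, (Φ a).Monic)
    (hdeg : ∀ a, (Φ a).natDegree = D + 1)
    (hsp : ∀ a, TwoP Ω J₀ F (Finset.univ.erase a) → ∀ ρ : K,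
      res (Φ a) ≠ (Polynomial.X - Polynomial.C ρ) ^ (D + 1))
    (hev : ∀ x ∈ E, ∀ a, ev (zz (w x) a) (lin lam x / w x a) (Φ a) = 0) (J : ℕ)
    (s : Λ) (t : Fin (n + 1) × Option (Finset (Fin (n + 1)))) :
    ∃ (Ty : Finset (LocT K (L s) (n + 1) D)) (C : ℝ), 0 < C ∧
      (∀ τ ∈ Ty, τ.a = t.1 ∧ τ.o = t.2) ∧
      ∀ x ∈ E, nrm (L s) x ≤ C₁ * ‖algebraMap K (L s) (w x t.1)‖ →
        (∀ I, t.2 = some I → GoodD Ω J₀ F (L s) I t.1) →
        ∃ τ ∈ Ty, ‖ev (zI (L s) (w x) t.1 (toI t.2))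
          (algebraMap K (L s) (lin lam x / w x t.1)) τ.G‖ ≤
            C * facW (L s) (w x) t.1 t.2 ^ J := by
  classical
  obtain ⟨a, o⟩ := t
  have hC₁ := h.hC₁
  obtain ⟨B, hB⟩ : ∃ B : ℝ, B = C₁ ^ 2 + (∑ k, ‖algebraMap K (L s) (lam k)‖) * C₁ := ⟨_, rfl⟩
  have h0 : 0 ≤ (∑ k, ‖algebraMap K (L s) (lam k)‖) * C₁ :=
    mul_nonneg (Finset.sum_nonneg fun k _ => norm_nonneg _) (by linarith)
  have hC2 : C₁ ≤ C₁ ^ 2 := by
    rw [pow_two]
    exact le_mul_of_one_le_left (by linarith) hC₁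
  have hB1 : 1 ≤ B := by linarith
  have hBC : C₁ ≤ B := by linarith
  have hne : ∀ x ∈ E, ∀ i, w x i ≠ 0 := fun x hx i => (h.unit x hx i).ne
  have hlin : ∀ x ∈ E, nrm (L s) x ≤ C₁ * ‖algebraMap K (L s) (w x a)‖ →
      ‖algebraMap K (L s) (lin lam x / w x a)‖ ≤ B := fun x hx hn =>
    (locA_lin lam x _ (hne x hx a) C₁ hn).trans (by
      have : 0 ≤ C₁ ^ 2 := sq_nonneg _
      linarith)
  have hfac : ∀ x ∈ E, nrm (L s) x ≤ C₁ * ‖algebraMap K (L s) (w x a)‖ →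
      ∀ o, facW (L s) (w x) a o ≤ B := fun x hx hn o =>
    ((h.toE le_rfl).facW_le hx hn o).trans (by linarith)
  rcases o with _ | I
  · obtain ⟨τ, C, hC, h1, h2, h3⟩ := loc_none (K := K) (L := L s) a D B hB1
    refine ⟨{τ}, C, hC, ?_, ?_⟩
    · intro τ' hτ'
      rw [Finset.mem_singleton.1 hτ']
      exact ⟨h1, h2⟩
    · intro x hx hn _
      exact ⟨τ, Finset.mem_singleton_self _, h3 (w x) (lin lam x) (hlin x hx hn) J⟩
  by_cases hg : GoodD Ω J₀ F (L s) I a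
  · rcases hg.red with hred | ⟨hI, h2P⟩
    · obtain ⟨Ty, C, hC, h1, h2⟩ := loc_red (L := L s) J₀ h.hJ₀ F d h.hd h.hF Dc h.hD a I hg.mem
        hg.ne hred D hD lam B hB1 J
      refine ⟨Ty, C, hC, h1, ?_⟩
      intro x hx hn _
      refine h2 x (h.onV x hx) (w x) (hne x hx a) (h.ev x hx) ?_ (hfac x hx hn _)
      exact hn.trans (mul_le_mul_of_nonneg_right hBC (norm_nonneg _))
    · have hne' : (Finset.univ.erase a).Nonempty := by
        rw [← hI]
        exact hg.ne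
      rw [hI] at h2P
      obtain ⟨Ty, C, hC, h1, h2⟩ := loc_two (L := L s) a hne' D hD (Φ a) (hΦ a) (hdeg a)
        (hsp a h2P) B hB1 J
      rw [hI]
      refine ⟨Ty, C, hC, h1, ?_⟩
      intro x hx hn _
      exact h2 (w x) (lin lam x) (hne x hx a) (hlin x hx hn) (hfac x hx hn _) (hev x hx a)
  · refine ⟨∅, 1, one_pos, ?_, ?_⟩
    · intro τ hτ
      exact absurd hτ (Finset.notMem_empty _)
    · intro x _ _ hcon
      exact absurd (hcon I rfl) hg

theorem hasLocA {Z : MP K L} {𝔅 : LN (Fin (N + 1) → K)} {J₀ : Set (MvPolynomial (Fin (N + 1)) K)}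
    {F : Fin (n + 1) → MvPolynomial (Fin (N + 1)) K} {d : Fin (n + 1) → ℕ} {Dc : Fin (n + 1) → K}
    {w : (Fin (N + 1) → K) → Fin (n + 1) → K} {C₁ ε C₂ : ℝ} {E : Set (Fin (N + 1) → K)}
    (h : PtsD Ω Z 𝔅 J₀ F d Dc w C₁ ε C₂ E) (lam : Fin (N + 1) → K) (D : ℕ) (hD : 1 ≤ D)
    (Φ : Fin (n + 1) → Polynomial (MvPolynomial (Fin (n + 1)) K)) (hΦ : ∀ a, (Φ a).Monic)
    (hdeg : ∀ a, (Φ a).natDegree = D + 1)
    (hsp : ∀ a, TwoP Ω J₀ F (Finset.univ.erase a) → ∀ ρ : K,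
      res (Φ a) ≠ (Polynomial.X - Polynomial.C ρ) ^ (D + 1))
    (hev : ∀ x ∈ E, ∀ a, ev (zz (w x) a) (lin lam x / w x a) (Φ a) = 0)
    (C₁' : ℝ) (hC : C₁ ≤ C₁') :
    HasLoc L w (fun x => lin lam x) C₁' ε E D := by
  classical
  intro J
  have hC₁ := h.hC₁
  have hC0 : 0 ≤ C₁ := by linarith
  choose Ty C hCp hTy hloc using
    fun s t => locA_one h lam D hD Φ hΦ hdeg hsp hev J s t
  obtain ⟨S, hS⟩ : ∃ S : ℝ, S = ∑ s, ∑ t, C s t := ⟨_, rfl⟩
  have hS0 : 0 ≤ S := by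
    rw [hS]
    exact Finset.sum_nonneg fun s _ => Finset.sum_nonneg fun t _ => (hCp s t).le
  have hCS : ∀ s t, C s t ≤ S := by
    intro s t
    rw [hS]
    have h1 : C s t ≤ ∑ t, C s t :=
      Finset.single_le_sum (f := fun t => C s t) (fun t _ => (hCp s t).le) (Finset.mem_univ t)
    have h2 : ∑ t, C s t ≤ ∑ s, ∑ t, C s t :=
      Finset.single_le_sum (f := fun s => ∑ t, C s t)
        (fun s _ => Finset.sum_nonneg fun t _ => (hCp s t).le) (Finset.mem_univ s)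
    exact h1.trans h2
  refine ⟨fun s => Finset.univ.biUnion fun t => Ty s t,
    S + |C₁ ^ Fintype.card Λ * C₂|, ?_⟩
  intro x hx
  obtain ⟨o, ho, hprod⟩ := h.gap x hx
  have hex : ∀ s, ∃ t : Fin (n + 1) × Option (Finset (Fin (n + 1))),
      nrm (L s) x ≤ C₁ * ‖algebraMap K (L s) (w x t.1)‖ ∧
      (∀ I, t.2 = some I → GoodD Ω J₀ F (L s) I t.1) ∧
      facN (L s) (w x) (nrm (L s) x) (t.2.map fun I => (I, t.1)) =
        facN (L s) (w x) (nrm (L s) x) (o s) := by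
    intro s
    rcases hos : o s with _ | ⟨I, a⟩
    · obtain ⟨a, ha⟩ := h.low x hx s
      exact ⟨(a, none), ha, fun I hI => (by cases hI), rfl⟩
    · obtain ⟨h1, h2⟩ := ho s I a hos
      refine ⟨(a, some I), h2, ?_, rfl⟩
      intro I' hI'
      cases hI'
      exact h1
  choose t ht1 ht2 ht3 using hex
  choose τ hτ1 hτ2 using fun s => hloc s (t s) x hx (ht1 s) (ht2 s)
  have ha : ∀ s, (τ s).a = (t s).1 := fun s => (hTy s (t s) (τ s) (hτ1 s)).1
  have hoo : ∀ s, (τ s).o = (t s).2 := fun s => (hTy s (t s) (τ s) (hτ1 s)).2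
  have habs : 0 ≤ |C₁ ^ Fintype.card Λ * C₂| := abs_nonneg _
  refine ⟨τ, fun s => Finset.mem_biUnion.2 ⟨t s, Finset.mem_univ _, hτ1 s⟩, ?_, ?_⟩
  · intro s
    refine ⟨?_, ?_⟩
    · rw [ha s]
      exact (ht1 s).trans (mul_le_mul_of_nonneg_right hC (norm_nonneg _))
    · rw [ha s, hoo s]
      refine (hτ2 s).trans (mul_le_mul_of_nonneg_right ?_ (pow_nonneg (facW_nonneg _ _ _ _) J))
      have := hCS s (t s)
      linarith
  · have h1 : ∏ s, facW (L s) (w x) (τ s).a (τ s).o ≤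
        ∏ s, (C₁ * facN (L s) (w x) (nrm (L s) x) (o s)) := by
      refine Finset.prod_le_prod (fun s _ => facW_nonneg _ _ _ _) fun s _ => ?_
      rw [ha s, hoo s, ← ht3 s]
      exact locA_fac (w x) _ C₁ hC₁ (nrm_pos (h.ne x hx)) (t s).1 (h.unit x hx _).ne (ht1 s) _
    rw [Finset.prod_mul_distrib, Finset.prod_const, Finset.card_univ] at h1
    have hH : 0 ≤ Ht L x ^ (-ε) := Real.rpow_nonneg (by
      have := one_le_Ht Z (h.O x hx) (h.ne x hx)
      linarith) _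
    calc ∏ s, facW (L s) (w x) (τ s).a (τ s).o
        ≤ C₁ ^ Fintype.card Λ * ∏ s, facN (L s) (w x) (nrm (L s) x) (o s) := h1
      _ ≤ C₁ ^ Fintype.card Λ * (C₂ * Ht L x ^ (-ε)) :=
          mul_le_mul_of_nonneg_left hprod (pow_nonneg hC0 _)
      _ = C₁ ^ Fintype.card Λ * C₂ * Ht L x ^ (-ε) := by ring
      _ ≤ _ := by
          refine mul_le_mul_of_nonneg_right ?_ hH
          have := le_abs_self (C₁ ^ Fintype.card Λ * C₂)
          linarith

end Pool.Agent.Helper10.TD
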