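import Pool.Agent.Helper10.TD.CoreD
import Pool.Agent.Helper10.TD.GapD
import Pool.Agent.Helper38.TN.MainR

/-!
# Integral points near corners, with two-point corners on surfaces: final assembly

`smallD`, `mainOfD`: copies of `smallH`, `mainOf` (`Helper38/TN/MainH.lean`) for `n = 2` with `GoodD`,
`PtsD`, `coreD` (`PtsD` has the additional field `hempty`). `mainPD`: copy of `mainP`
(`Helper38/TN/MainR.lean`) with `IsCornerD`: for `n ≠ 2` the sets of corners are the same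
(`IsCornerD` is `IsCorner`), use `mainP`; for `n = 2` use `mainOfD` and `gap_leD`.
-/

set_option autoImplicit false
set_option linter.unusedSectionVars false

namespace Pool.Agent.Helper10.TD

open Pool.Agent.Helper38.TP Pool.Agent.Helper38.TN Pool.Agent.Helper85.Sub Pool.Agent.Helper85.RC
open Pool.Agent.Helper10.Sub Pool.Agent.Helper10 NumberField MvPolynomial
open scoped LinearAlgebra.Projectivization

section abstract_form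

variable {K : Type} [Field K] [CharZero K] {Λ : Type} [Fintype Λ] [DecidableEq Λ] {L : Λ → Type}
  [∀ s, NontriviallyNormedField (L s)] [∀ s, ProperSpace (L s)] [∀ s, Algebra K (L s)] {N : ℕ}

/-- **Points near corners**, abstract form, two-point corners on surfaces. -/
theorem smallD (Z : MP K L) {Ω : Type} [Field Ω] [IsAlgClosed Ω] [Algebra K Ω]
    (J₀ : Set (MvPolynomial (Fin (N + 1)) K)) (hJ₀ : ∀ f ∈ J₀, ∃ e, f.IsHomogeneous e)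
    (F : Fin (2 + 1) → MvPolynomial (Fin (N + 1)) K) (d : Fin (2 + 1) → ℕ) (hd : ∀ i, 1 ≤ d i)
    (hF : ∀ i, (F i).IsHomogeneous (d i))
    (hempty : ∀ A : Fin (N + 1) → Ω, OnV J₀ A → (∀ i, aeval A (F i) = 0) → A = 0)
    (E : Set (Fin (N + 1) → K)) (hO : ∀ x ∈ E, ∀ k, x k ∈ Z.O) (hx0 : ∀ x ∈ E, x ≠ 0)
    (hX : ∀ x ∈ E, ∀ f ∈ J₀, eval x f = 0)
    (𝒟 : Finset K) (h𝒟 : ∀ D ∈ 𝒟, D ≠ 0)
    (hint : ∀ x ∈ E, ∀ i, ∃ D ∈ 𝒟, ∃ w : K, Z.U w ∧ eval x (F i) = D * w ^ d i)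
    (C₀ : ℝ) (hbal : ∀ x ∈ E, ∀ s, nrm (L s) x ≤ C₀ * Ht L x)
    (ε : ℝ) (hε : 0 < ε)
    (hgap : ∀ (D : Fin (2 + 1) → K) (C₁ : ℝ), (∀ i, D i ≠ 0) → 1 ≤ C₁ → ∃ C₁' C₂ : ℝ, ∀ x ∈ E,
      ∀ w : Fin (2 + 1) → K, (∀ i, Z.U (w i)) → (∀ i, eval x (F i) = D i * w i ^ d i) →
      (∀ s i, ‖algebraMap K (L s) (w i)‖ ≤ C₁ * nrm (L s) x) →
      (∀ s, ∃ i, nrm (L s) x ≤ C₁ * ‖algebraMap K (L s) (w i)‖) →
      ∃ o : Λ → Option (Finset (Fin (2 + 1)) × Fin (2 + 1)),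
        (∀ s I a, o s = some (I, a) →
          GoodD Ω J₀ F (L s) I a ∧ nrm (L s) x ≤ C₁' * ‖algebraMap K (L s) (w a)‖) ∧
        ∏ s, facN (L s) w (nrm (L s) x) (o s) ≤ C₂ * Ht L x ^ (-ε)) :
    SmallN J₀ F d E := by
  classical
  by_contra hE
  change (bigN J₀ F d).Big E at hE
  have hE0 : ∀ A : Fin (N + 1) → Ω, OnV (J₀ ∪ Set.range F) A → A = 0 :=
    fun A hA => hempty A (fun f hf => hA f (Or.inl hf)) (fun i => hA _ (Or.inr ⟨i, rfl⟩))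
  have hempty' : ∀ s, ∀ A : Fin (N + 1) → L s, OnV J₀ A → (∀ i, aeval A (F i) = 0) →
      A = 0 := by
    intro s A hA hAF
    apply transfer0 _ hE0 A
    rintro f (hf | ⟨i, rfl⟩)
    · exact hA f hf
    · exact hAF i
  -- fix the constants
  obtain ⟨D, hD𝒟, hE₁⟩ := (bigN J₀ F d).partition (Fintype.piFinset (fun _ : Fin (2 + 1) => 𝒟)) hE
    (fun D x => ∀ i, ∃ w : K, Z.U w ∧ eval x (F i) = D i * w ^ d i) (by
      intro x hx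
      choose D hD w hw h using hint x hx
      exact ⟨D, Fintype.mem_piFinset.mpr hD, fun i => ⟨w i, hw i, h i⟩⟩)
  rw [Fintype.mem_piFinset] at hD𝒟
  have hD : ∀ i, D i ≠ 0 := fun i => h𝒟 _ (hD𝒟 i)
  set E₁ : Set (Fin (N + 1) → K) := _ with hE₁def
  change (bigN J₀ F d).Big E₁ at hE₁
  have hE₁E : ∀ x ∈ E₁, x ∈ E := fun x hx => hx.1
  have hw' : ∀ x ∈ E₁, ∀ i, ∃ w : K, Z.U w ∧ eval x (F i) = D i * w ^ d i := fun x hx => hx.2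
  choose! w hw hev using hw'
  obtain ⟨C₁, hC₁, hcon⟩ := constsN (L := L) J₀ hJ₀ F d hd hF D hD hempty'
  have hOn : ∀ x ∈ E, OnV J₀ x := by
    intro x hx f hf
    rw [aeval_self']
    exact hX x hx f hf
  have hup : ∀ x ∈ E₁, ∀ s i, ‖algebraMap K (L s) (w x i)‖ ≤ C₁ * nrm (L s) x := fun x hx =>
    (hcon x (hx0 x (hE₁E x hx)) (hOn x (hE₁E x hx)) (w x) (hev x hx)).1
  have hlow : ∀ x ∈ E₁, ∀ s, ∃ i, nrm (L s) x ≤ C₁ * ‖algebraMap K (L s) (w x i)‖ := fun x hx =>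
    (hcon x (hx0 x (hE₁E x hx)) (hOn x (hE₁E x hx)) (w x) (hev x hx)).2
  obtain ⟨C₁', C₂, hC₂⟩ := hgap D C₁ hD hC₁
  have hle0 : C₀ ≤ max C₀ (max C₁ C₁') := le_max_left _ _
  have hle1 : C₁ ≤ max C₀ (max C₁ C₁') := (le_max_left _ _).trans (le_max_right _ _)
  have hle2 : C₁' ≤ max C₀ (max C₁ C₁') := (le_max_right _ _).trans (le_max_right _ _)
  have h : PtsD Ω Z (bigN J₀ F d) J₀ F d D w (max C₀ (max C₁ C₁')) ε C₂ E₁ := by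
    refine ⟨hJ₀, hd, hF, hD, hempty, hE₁, hw, hev, fun x hx => hO x (hE₁E x hx),
      fun x hx => hx0 x (hE₁E x hx), fun x hx => hX x (hE₁E x hx), hC₁.trans hle1, ?_, ?_, ?_, hε,
      ?_⟩
    · intro x hx s
      refine (hbal x (hE₁E x hx) s).trans (mul_le_mul_of_nonneg_right hle0 ?_)
      exact zero_le_one.trans (one_le_Ht Z (hO x (hE₁E x hx)) (hx0 x (hE₁E x hx)))
    · intro x hx s i
      exact (hup x hx s i).trans (mul_le_mul_of_nonneg_right hle1 (nrm_nonneg _))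
    · intro x hx s
      obtain ⟨i, hi⟩ := hlow x hx s
      exact ⟨i, hi.trans (mul_le_mul_of_nonneg_right hle1 (norm_nonneg _))⟩
    · intro x hx
      obtain ⟨o, ho, hprod⟩ := hC₂ x (hE₁E x hx) (w x) (hw x hx) (hev x hx) (hup x hx) (hlow x hx)
      refine ⟨o, fun s I a hs => ?_, hprod⟩
      obtain ⟨h1, h2⟩ := ho s I a hs
      exact ⟨h1, h2.trans (mul_le_mul_of_nonneg_right hle2 (norm_nonneg _))⟩
  exact coreD h

end abstract_form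

variable {K : Type} [Field K] [NumberField K] {N n : ℕ}

/-- **Integral points** on surfaces: from an estimate at the places to the covering by tori. -/
theorem mainOfD (S : Finset (FinitePlace K))
    (J₀ : Set (MvPolynomial (Fin (N + 1)) K)) (hJ₀ : ∀ f ∈ J₀, ∃ e, f.IsHomogeneous e)
    (F : Fin (2 + 1) → MvPolynomial (Fin (N + 1)) K) (d : Fin (2 + 1) → ℕ) (hd : ∀ i, 1 ≤ d i)
    (hF : ∀ i, (F i).IsHomogeneous (d i))
    {Ω : Type} [Field Ω] [IsAlgClosed Ω] [Algebra K Ω]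
    (hempty : ∀ A : Fin (N + 1) → Ω, OnV J₀ A → (∀ i, aeval A (F i) = 0) → A = 0)
    (T : Set (ℙ K (Fin (N + 1) → K))) (hTX : ∀ Q ∈ T, ∀ f ∈ J₀, eval Q.rep f = 0)
    (hT : LV.IntegralSet S F d T) (ε C : ℝ) (hε : 0 < ε)
    (Pr : (Fin (N + 1) → K) → ℝ) (hPr : ∀ x (μ : K), μ ≠ 0 → Pr (μ • x) = Pr x)
    (hgap : ∀ P : Finset Nat.Primes, (∀ v ∈ S, ∃ t ∈ P, ((t : ℕ) : 𝓞 K) ∈ v.maximalIdeal.asIdeal) →
      ∀ (D : Fin (2 + 1) → K) (C₁ : ℝ), (∀ i, D i ≠ 0) → 1 ≤ C₁ → ∃ C₁' C₂ : ℝ, 0 ≤ C₂ ∧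
      ∀ (x : Fin (N + 1) → K) (w : Fin (2 + 1) → K), x ≠ 0 → (∀ f ∈ J₀, eval x f = 0) →
      (∀ i, w i ≠ 0) → (∀ i, eval x (F i) = D i * w i ^ d i) →
      (∀ s i, ‖algebraMap K (LF K P s) (w i)‖ ≤ C₁ * nrm (LF K P s) x) →
      (∀ s, ∃ i, nrm (LF K P s) x ≤ C₁ * ‖algebraMap K (LF K P s) (w i)‖) →
      ∃ o : Lam K P → Option (Finset (Fin (2 + 1)) × Fin (2 + 1)),
        (∀ s I a, o s = some (I, a) →
          GoodD Ω J₀ F (LF K P s) I a ∧ nrm (LF K P s) x ≤ C₁' * ‖algebraMap K (LF K P s) (w a)‖) ∧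
        ∏ s, facN (LF K P s) w (nrm (LF K P s) x) (o s) ≤ C₂ * Pr x) :
    SmallPN J₀ F d {Q | Q ∈ T ∧ Pr Q.rep ≤ C * Height.mulHeight Q.rep ^ (-ε)} := by
  classical
  obtain ⟨c, hc, hcf, hT⟩ := hT
  obtain ⟨P, Z, C₀, 𝒟, hZ, hSP, hC₀, h𝒟, hscal⟩ := scalN K S F d hd hF c hc hcf
  have hμ : ∀ Q : ℙ K (Fin (N + 1) → K), Q ∈ T → ∃ μ : K, μ ≠ 0 ∧
      (∀ k, (μ • Q.rep) k ∈ Z.O) ∧
      Height.mulHeight Q.rep = Ht (LF K P) (μ • Q.rep) ∧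
      (∀ s, nrm (LF K P s) (μ • Q.rep) ≤ C₀ * Ht (LF K P) (μ • Q.rep)) ∧
      ∀ i, ∃ D ∈ 𝒟, ∃ w : K, Z.U w ∧ eval (μ • Q.rep) (F i) = D * w ^ d i :=
    fun Q hQ => hscal Q.rep Q.rep_nonzero (hT Q hQ)
  choose! μ hμ0 hμO hμH hμb hμD using hμ
  set ν : ℙ K (Fin (N + 1) → K) → K := fun Q => if Q ∈ T then μ Q else 1 with hν
  have hν0 : ∀ Q, ν Q ≠ 0 := by
    intro Q
    simp only [hν]
    split_ifs with h
    · exact hμ0 Q h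
    · exact one_ne_zero
  have hνT : ∀ Q ∈ T, ν Q = μ Q := fun Q hQ => by simp only [hν]; rw [if_pos hQ]
  have hev0 : ∀ Q ∈ T, ∀ f ∈ J₀, eval (μ Q • Q.rep) f = 0 := by
    intro Q hQ f hf
    obtain ⟨e, he⟩ := hJ₀ f hf
    rw [CD_eval Q.rep f e he, hTX Q hQ f hf, mul_zero]
  set A : Set (ℙ K (Fin (N + 1) → K)) :=
    {Q | Q ∈ T ∧ Pr Q.rep ≤ C * Height.mulHeight Q.rep ^ (-ε)} with hAdef
  have hA : ∀ Q ∈ A, Q ∈ T := fun Q hQ => hQ.1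
  apply smallPN_of_small ν hν0
  refine smallD Z (Ω := Ω) J₀ hJ₀ F d hd hF hempty _
    ?_ ?_ ?_ 𝒟 (fun D hD => (h𝒟 D hD).ne) ?_ C₀ ?_ ε hε ?_
  · rintro _ ⟨Q, hQ, rfl⟩
    beta_reduce
    rw [hνT Q (hA Q hQ)]
    exact hμO Q (hA Q hQ)
  · rintro _ ⟨Q, hQ, rfl⟩
    exact smul_ne_zero (hν0 Q) Q.rep_nonzero
  · rintro _ ⟨Q, hQ, rfl⟩
    beta_reduce
    rw [hνT Q (hA Q hQ)]
    exact hev0 Q (hA Q hQ)
  · rintro _ ⟨Q, hQ, rfl⟩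
    beta_reduce
    rw [hνT Q (hA Q hQ)]
    exact hμD Q (hA Q hQ)
  · rintro _ ⟨Q, hQ, rfl⟩
    beta_reduce
    rw [hνT Q (hA Q hQ)]
    exact hμb Q (hA Q hQ)
  · intro D C₁ hD hC₁
    obtain ⟨C₁', C₂, hC₂, hle⟩ := hgap P hSP D C₁ hD hC₁
    refine ⟨C₁', C₂ * C, ?_⟩
    rintro _ ⟨Q, hQ, rfl⟩ w hw hev hup hlow
    beta_reduce at hev hup hlow ⊢
    rw [hνT Q (hA Q hQ)] at hev hup hlow ⊢
    obtain ⟨o, ho, hprod⟩ := hle _ w (smul_ne_zero (hμ0 Q (hA Q hQ)) Q.rep_nonzero)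
      (hev0 Q (hA Q hQ)) (fun i => (hw i).ne) hev hup hlow
    refine ⟨o, ho, hprod.trans ?_⟩
    have h1 := hPr Q.rep (μ Q) (hμ0 Q (hA Q hQ))
    have h2 := hQ.2
    rw [← h1, hμH Q (hA Q hQ)] at h2
    calc C₂ * Pr (μ Q • Q.rep) ≤ C₂ * (C * Ht (LF K P) (μ Q • Q.rep) ^ (-ε)) :=
          mul_le_mul_of_nonneg_left h2 hC₂
      _ = _ := by ring

/-- **Main theorem.** -/
theorem mainPD (S : Finset (FinitePlace K))
    (J₀ : Set (MvPolynomial (Fin (N + 1)) K)) (hJ₀ : ∀ f ∈ J₀, ∃ e, f.IsHomogeneous e)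
    (F : Fin (n + 1) → MvPolynomial (Fin (N + 1)) K) (d : Fin (n + 1) → ℕ) (hd : ∀ i, 1 ≤ d i)
    (hF : ∀ i, (F i).IsHomogeneous (d i)) {Ω : Type} [Field Ω] [IsAlgClosed Ω] [Algebra K Ω]
    (hempty : ∀ A : Fin (N + 1) → Ω, OnV J₀ A → (∀ i, aeval A (F i) = 0) → A = 0)
    (T : Set (ℙ K (Fin (N + 1) → K))) (hTX : ∀ Q ∈ T, ∀ f ∈ J₀, eval Q.rep f = 0)
    (hT : LV.IntegralSet S F d T) :
    (∀ ε C : ℝ, 0 < ε → SmallPN J₀ F d {Q | Q ∈ T ∧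
      cpC {I | IsCornerD Ω J₀ F I} S F d Q.rep ≤ C * Height.mulHeight Q.rep ^ (-ε)}) ∧
    ∀ (G : Finset (Fin (n + 1))) (k : ℕ) (c₀ : ℝ), 0 < c₀ →
      (∀ I : Finset (Fin (n + 1)), I ⊆ G → I.card = k + 1 → IsCornerD Ω J₀ F I) →
      SmallPN J₀ F d {Q | Q ∈ T ∧ ncnt S F d G k c₀ Q.rep < G.card} := by
  have key : ∀ ε C : ℝ, 0 < ε → SmallPN J₀ F d {Q | Q ∈ T ∧
      cpC {I | IsCornerD Ω J₀ F I} S F d Q.rep ≤ C * Height.mulHeight Q.rep ^ (-ε)} := by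
    intro ε C hε
    by_cases hn : n = 2
    · subst hn
      refine mainOfD S J₀ hJ₀ F d hd hF (Ω := Ω) hempty T hTX hT ε C hε
        (cpC {I | IsCornerD Ω J₀ F I} S F d) (fun x μ hμ => cpC_smul _ S F d hF x μ hμ) ?_
      intro P hP D C₁ hD hC₁
      obtain ⟨C₁', C₂, hC₂, h⟩ := gap_leD P S hP (Ω := Ω) J₀ hJ₀ F d hd hF hempty D hD
        {I | IsCornerD Ω J₀ F I} (fun I hI => hI)
      exact ⟨C₁', C₂, hC₂, fun x w hx hxJ _ hev _ _ => h x w hx hxJ hev⟩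
    · have h1 : {I : Finset (Fin (n + 1)) | IsCornerD Ω J₀ F I} = {I | IsCorner Ω J₀ F I} := by
        ext I
        simp only [Set.mem_ofPred_eq, IsCornerD]
        exact or_iff_left fun h => hn h.1
      rw [h1]
      exact (mainP S J₀ hJ₀ F d hd hF hempty T hTX hT).1 ε C hε
  refine ⟨key, fun G k c₀ hc₀ hG => ?_⟩
  obtain ⟨C', h⟩ := runge_main S J₀ hJ₀ F d hd hF G k {I | IsCornerD Ω J₀ F I} hG T hT c₀ hc₀
  obtain ⟨A, 𝒯, h1, h2, h3, h4⟩ := key 1 C' one_pos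
  exact ⟨A, 𝒯, h1, h2, h3, fun Q hQ => h4 Q ⟨hQ.1, h Q hQ.1 hQ.2⟩⟩

end Pool.Agent.Helper10.TD
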