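import Pool.Agent.Helper38.TP.MonH
import Pool.Agent.Helper10.TD.Defs

/-!
# The linear forms attached to a local polynomial of degree `D`
-/

set_option autoImplicit false

namespace Pool.Agent.Helper10.TD

open Pool.Agent.Helper10.Sub Pool.Agent.Helper38.TP MvPolynomial

section shift
variable {r : ℕ}

/-- The exponents after a substitution. -/
noncomputable def shD (a : Fin r) (α : Fin r →₀ ℕ) (e : ℕ) (γ : Fin r →₀ ℕ) : Fin r →₀ ℕ :=
  Finsupp.equivFunOnFinite.symm fun j => if j = a then α a + e - γ.degree else α j + γ j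

lemma shD_a (a : Fin r) (α : Fin r →₀ ℕ) (e : ℕ) (γ : Fin r →₀ ℕ) :
    shD a α e γ a = α a + e - γ.degree := by
  simp [shD]

lemma shD_o {a : Fin r} (α : Fin r →₀ ℕ) (e : ℕ) (γ : Fin r →₀ ℕ) {j : Fin r} (hj : j ≠ a) :
    shD a α e γ j = α j + γ j := by
  simp [shD, hj]

lemma deg_er (a : Fin r) (γ : Fin r →₀ ℕ) (h : γ a = 0) :
    γ.degree = ∑ i ∈ Finset.univ.erase a, γ i := by
  rw [Finsupp.degree_eq_sum, ← Finset.add_sum_erase _ _ (Finset.mem_univ a), h, zero_add]

lemma shD_sum (a : Fin r) (α : Fin r →₀ ℕ) (e : ℕ) (γ : Fin r →₀ ℕ) (hγ : γ a = 0)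
    (h : γ.degree ≤ α a + e) : ∑ j, shD a α e γ j = ∑ j, α j + e := by
  rw [← Finset.add_sum_erase _ _ (Finset.mem_univ a), shD_a,
    ← Finset.add_sum_erase _ (fun j => α j) (Finset.mem_univ a)]
  have h1 : ∑ j ∈ Finset.univ.erase a, shD a α e γ j = ∑ j ∈ Finset.univ.erase a, (α j + γ j) :=
    Finset.sum_congr rfl fun j hj => shD_o α e γ (Finset.ne_of_mem_erase hj)
  rw [h1, Finset.sum_add_distrib, ← deg_er a γ hγ]
  omega

lemma shD_mon {K : Type} [Field K] (w : Fin r → K) (a : Fin r) (hw : w a ≠ 0) (α : Fin r →₀ ℕ)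
    (e : ℕ) (γ : Fin r →₀ ℕ) (hγ : γ a = 0) (h : γ.degree ≤ α a + e) :
    mon w (shD a α e γ) = mon w α * w a ^ e * ∏ j, (w j / w a) ^ γ j := by
  unfold mon
  rw [← Finset.mul_prod_erase _ _ (Finset.mem_univ a), shD_a,
    ← Finset.mul_prod_erase _ (fun j => w j ^ α j) (Finset.mem_univ a),
    ← Finset.mul_prod_erase _ (fun j => (w j / w a) ^ γ j) (Finset.mem_univ a), hγ, pow_zero,
    one_mul]
  have h1 : ∏ j ∈ Finset.univ.erase a, w j ^ shD a α e γ j =
      ∏ j ∈ Finset.univ.erase a, (w j ^ α j * w j ^ γ j) :=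
    Finset.prod_congr rfl fun j hj => by rw [shD_o α e γ (Finset.ne_of_mem_erase hj), pow_add]
  rw [h1, Finset.prod_mul_distrib]
  simp only [div_pow]
  rw [Finset.prod_div_distrib, Finset.prod_pow_eq_pow_sum, ← deg_er a γ hγ]
  have h2 : w a ^ (α a + e) = w a ^ (α a + e - γ.degree) * w a ^ γ.degree := by
    rw [← pow_add]
    congr 1
    omega
  have h3 : w a ^ γ.degree ≠ 0 := pow_ne_zero _ hw
  rw [mul_div_assoc', eq_div_iff h3]
  rw [pow_add] at h2
  linear_combination (-(∏ j ∈ Finset.univ.erase a, w j ^ α j) *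
    ∏ j ∈ Finset.univ.erase a, w j ^ γ j) * h2

end shift

/-- Classes of monomials of degree `M` (top block) and `M + D - i` (block `i < D`). -/
structure ClsD (K : Type) (r M D : ℕ) (A B : Type) where
  rep : Fin r → A → (Fin r →₀ ℕ)
  rep_sum : ∀ a α, ∑ i, rep a α i = M
  κ : Fin r → A → K
  dg : B → ℕ
  cl : ℕ → (Fin r →₀ ℕ) → B
  dg_cl : ∀ i < D, ∀ m, dg (cl i m) = i
  κ' : (Fin r →₀ ℕ) → K

/-- The values of the characters. -/
structure ClsD.Val {K : Type} [Field K] {r M D : ℕ} {A B : Type} (c : ClsD K r M D A B)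
    (w : Fin r → K) (χ : A → K) (χ' : B → K) : Prop where
  ne : ∀ a α, c.κ a α ≠ 0
  val : ∀ a α, mon w (c.rep a α) = c.κ a α * χ α
  val' : ∀ i < D, ∀ m : Fin r →₀ ℕ, ∑ j, m j = M + (D - i) → mon w m = c.κ' m * χ' (c.cl i m)

section forms
variable {K L : Type} [Field K] [Field L] [Algebra K L] {r M D : ℕ} {A B : Type}
  [DecidableEq A] [DecidableEq B]

/-- The exponents used. -/
noncomputable def fil (I : Finset (Fin r)) (t : ℕ) (p : MvPolynomial (Fin r) (algebraicClosure K L)) :
    Finset (Fin r →₀ ℕ) :=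
  p.support.filter fun γ => γ.degree ≤ t ∧ γ.support ⊆ I

lemma fil_a {a : Fin r} {I : Finset (Fin r)} (ha : a ∉ I) {t : ℕ}
    {p : MvPolynomial (Fin r) (algebraicClosure K L)} {γ : Fin r →₀ ℕ} (h : γ ∈ fil I t p) :
    γ a = 0 := by
  by_contra h0
  exact ha ((Finset.mem_filter.1 h).2.2 (Finsupp.mem_support_iff.2 h0))

lemma fil_deg {I : Finset (Fin r)} {t : ℕ}
    {p : MvPolynomial (Fin r) (algebraicClosure K L)} {γ : Fin r →₀ ℕ} (h : γ ∈ fil I t p) :
    γ.degree ≤ t := (Finset.mem_filter.1 h).2.1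

/-- The forms. -/
noncomputable def vD (c : ClsD K r M D A B) (a : Fin r) (I : Finset (Fin r))
    (G : Polynomial (MvPolynomial (Fin r) (algebraicClosure K L))) : A ⊕ B → A ⊕ B → L
  | Sum.inl α, Sum.inl α' => if α' = α then 1 else 0
  | Sum.inl α, Sum.inr β => ∑ i ∈ Finset.range D, ∑ γ ∈ fil I (c.rep a α a + 1) (G.coeff i),
      if β = c.cl i (shD a (c.rep a α) (D - i) γ) then
        algebraMap (algebraicClosure K L) L (coeff γ (G.coeff i)) *
        algebraMap K L ((c.κ a α)⁻¹ * c.κ' (shD a (c.rep a α) (D - i) γ)) else 0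
  | Sum.inr _, Sum.inl _ => 0
  | Sum.inr β, Sum.inr β' => if β' = β then 1 else 0

variable (c : ClsD K r M D A B) (a : Fin r) (I : Finset (Fin r))
  (G : Polynomial (MvPolynomial (Fin r) (algebraicClosure K L)))

lemma vD_alg (i m : A ⊕ B) : IsAlgebraic K (vD c a I G i m) := by
  rcases i with α | β
  · rcases m with α' | β'
    · change IsAlgebraic K (if α' = α then (1 : L) else 0)
      split_ifs
      · exact isAlgebraic_one
      · exact isAlgebraic_zero
    · change IsAlgebraic K (∑ i ∈ Finset.range D, ∑ γ ∈ fil I (c.rep a α a + 1) (G.coeff i),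
        if β' = c.cl i (shD a (c.rep a α) (D - i) γ) then
          algebraMap (algebraicClosure K L) L (coeff γ (G.coeff i)) *
          algebraMap K L ((c.κ a α)⁻¹ * c.κ' (shD a (c.rep a α) (D - i) γ)) else 0)
      rw [← mem_algebraicClosure_iff]
      refine sum_mem fun i _ => sum_mem fun γ _ => ?_
      split_ifs
      · exact mul_mem (coeff γ (G.coeff i)).2 ((algebraicClosure K L).algebraMap_mem _)
      · exact zero_mem _
  · rcases m with α' | β'
    · exact isAlgebraic_zero
    · change IsAlgebraic K (if β' = β then (1 : L) else 0)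
      split_ifs
      · exact isAlgebraic_one
      · exact isAlgebraic_zero

variable [Fintype A] [Fintype B]

lemma lf_vD_inr (β : B) (y : A ⊕ B → K) :
    lf (vD c a I G (Sum.inr β)) y = algebraMap K L (y (Sum.inr β)) := by
  unfold lf
  rw [Finset.sum_eq_single (Sum.inr β)]
  · simp [vD]
  · rintro (α | β') _ h
    · simp [vD]
    · have : β' ≠ β := fun h' => h (by rw [h'])
      simp [vD, this]
  · intro h
    exact absurd (Finset.mem_univ _) h

lemma lf_vD_inl (α : A) (y : A ⊕ B → K) :
    lf (vD c a I G (Sum.inl α)) y = algebraMap K L (y (Sum.inl α)) +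
      ∑ β : B, vD c a I G (Sum.inl α) (Sum.inr β) * algebraMap K L (y (Sum.inr β)) := by
  unfold lf
  rw [Fintype.sum_sum_type]
  congr 1
  rw [Finset.sum_eq_single α]
  · simp [vD]
  · intro α' _ h
    simp [vD, h]
  · intro h
    exact absurd (Finset.mem_univ _) h

/-- The vector of the products of the powers of `ζ` and the characters. -/
def yD (c : ClsD K r M D A B) (ζ : K) (χ : A → K) (χ' : B → K) : A ⊕ B → K :=
  Sum.elim (fun α => ζ ^ D * χ α) (fun β => ζ ^ c.dg β * χ' β)

lemma lf_vD_y (ha : a ∉ I) {w : Fin r → K} {χ : A → K} {χ' : B → K} (hc : c.Val w χ χ')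
    (α : A) (ζ : K) :
    lf (vD c a I G (Sum.inl α)) (yD c ζ χ χ') =
      algebraMap K L (c.κ a α)⁻¹ * (algebraMap K L (ζ ^ D * mon w (c.rep a α)) +
      ∑ i ∈ Finset.range D, ∑ γ ∈ fil I (c.rep a α a + 1) (G.coeff i),
        algebraMap (algebraicClosure K L) L (coeff γ (G.coeff i)) *
          algebraMap K L (ζ ^ i * mon w (shD a (c.rep a α) (D - i) γ))) := by
  rw [lf_vD_inl, mul_add]
  congr 1
  · rw [← map_mul, hc.val]
    congr 1
    have := hc.ne a α
    simp only [yD, Sum.elim_inl]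
    field_simp
  change ∑ β : B, (∑ i ∈ Finset.range D, ∑ γ ∈ fil I (c.rep a α a + 1) (G.coeff i),
        if β = c.cl i (shD a (c.rep a α) (D - i) γ) then
          algebraMap (algebraicClosure K L) L (coeff γ (G.coeff i)) *
          algebraMap K L ((c.κ a α)⁻¹ * c.κ' (shD a (c.rep a α) (D - i) γ)) else 0) *
      algebraMap K L (ζ ^ c.dg β * χ' β) = _
  simp only [Finset.sum_mul]
  rw [Finset.sum_comm, Finset.mul_sum]
  refine Finset.sum_congr rfl fun i hi => ?_
  rw [Finset.mem_range] at hi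
  rw [Finset.sum_comm, Finset.mul_sum]
  refine Finset.sum_congr rfl fun γ hγ => ?_
  have h1 := fil_deg hγ
  have h2 : γ a = 0 := fil_a ha hγ
  rw [Finset.sum_eq_single (c.cl i (shD a (c.rep a α) (D - i) γ))]
  · rw [if_pos rfl, c.dg_cl i hi,
      hc.val' i hi _ (by rw [shD_sum a _ _ _ h2 (by omega), c.rep_sum])]
    simp only [map_mul]
    ring
  · intro β _ hβ
    rw [if_neg hβ, zero_mul]
  · intro h
    exact absurd (Finset.mem_univ _) h

lemma vD_forms : Forms (⊤ : Submodule K (A ⊕ B → K)) (vD (L := L) c a I G)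
    Finset.univ Finset.univ where
  hst := subset_rfl
  alg := vD_alg c a I G
  ind := by
    intro g hg
    have h1 : ∀ m, ∑ i, g i * vD (L := L) c a I G i m = 0 := by
      intro m
      have := hg (Pi.single m 1) Submodule.mem_top
      simpa only [lf_single'] using this
    have hl : ∀ α, g (Sum.inl α) = 0 := by
      intro α
      have h2 := h1 (Sum.inl α)
      rw [Fintype.sum_sum_type, Finset.sum_eq_single α] at h2
      · simpa [vD] using h2
      · intro α' _ h
        simp [vD, Ne.symm h]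
      · intro h
        exact absurd (Finset.mem_univ _) h
    rintro (α | β) -
    · exact hl α
    · have h2 := h1 (Sum.inr β)
      rw [Fintype.sum_sum_type] at h2
      simp only [hl, zero_mul, Finset.sum_const_zero, zero_add] at h2
      rw [Finset.sum_eq_single β] at h2
      · simpa [vD] using h2
      · intro β' _ h
        simp [vD, Ne.symm h]
      · intro h
        exact absurd (Finset.mem_univ _) h
  spn := by
    rintro (α | β)
    · refine ⟨Sum.elim (fun α' => if α' = α then 1 else 0)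
        (fun β => - vD c a I G (Sum.inl α) (Sum.inr β)), fun y _ => ?_⟩
      rw [Fintype.sum_sum_type]
      simp only [Sum.elim_inl, Sum.elim_inr, lf_vD_inr]
      rw [Finset.sum_eq_single α]
      · rw [if_pos rfl, one_mul, lf_vD_inl]
        simp only [neg_mul]
        rw [Finset.sum_neg_distrib]
        ring
      · intro α' _ h
        rw [if_neg h, zero_mul]
      · intro h
        exact absurd (Finset.mem_univ _) h
    · refine ⟨Pi.single (Sum.inr β) 1, fun y _ => ?_⟩
      rw [Finset.sum_eq_single (Sum.inr β)]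
      · rw [Pi.single_eq_same, one_mul, lf_vD_inr]
      · intro m _ h
        rw [Pi.single_eq_of_ne h, zero_mul]
      · intro h
        exact absurd (Finset.mem_univ _) h

end forms

end Pool.Agent.Helper10.TD
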