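import Pool.Agent.Helper10.TD.EngD
import Pool.Agent.Helper10.TD.Ult
import Pool.Agent.Helper10.TD.AD
import Pool.Agent.Helper38.TN.Core

/-!
# Points near corners, with two-point corners
-/

set_option autoImplicit false
set_option linter.unusedSectionVars false

namespace Pool.Agent.Helper10.TD

open Pool.Agent.Helper10.Sub Pool.Agent.Helper94.Sub Pool.Agent.Helper38.TP
open Pool.Agent.Helper38.TN MvPolynomial

section defs
variable {K : Type} [Field K] {N n : ℕ}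

/-- The cone defined by `J₀` is irreducible over `K`. -/
def IrrV (Ω : Type) [Field Ω] [Algebra K Ω] (J₀ : Set (MvPolynomial (Fin (N + 1)) K)) : Prop :=
  ∀ f g : MvPolynomial (Fin (N + 1)) K,
    (∀ A : Fin (N + 1) → Ω, OnV J₀ A → aeval A f * aeval A g = 0) →
    (∀ A : Fin (N + 1) → Ω, OnV J₀ A → aeval A f = 0) ∨
      ∀ A : Fin (N + 1) → Ω, OnV J₀ A → aeval A g = 0

/-- `X` is irreducible and the `F i`, `i ∈ I`, have two different common zeros on it. -/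
def TwoP (Ω : Type) [Field Ω] [Algebra K Ω] (J₀ : Set (MvPolynomial (Fin (N + 1)) K))
    (F : Fin (n + 1) → MvPolynomial (Fin (N + 1)) K) (I : Finset (Fin (n + 1))) : Prop :=
  IrrV Ω J₀ ∧ ∃ P P' : Fin (N + 1) → Ω, P ≠ 0 ∧ P' ≠ 0 ∧ OnV J₀ P ∧ OnV J₀ P' ∧
    (∀ i ∈ I, aeval P (F i) = 0) ∧ (∀ i ∈ I, aeval P' (F i) = 0) ∧ ∀ c : Ω, P' ≠ c • P

/-- The forms in `I` have reduced isolated common zeros, or two common zeros. -/
structure GoodD (Ω : Type) [Field Ω] [Algebra K Ω] (J₀ : Set (MvPolynomial (Fin (N + 1)) K))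
    (F : Fin (n + 1) → MvPolynomial (Fin (N + 1)) K) (L : Type) [Field L] [Algebra K L]
    (I : Finset (Fin (n + 1))) (a : Fin (n + 1)) : Prop where
  mem : a ∉ I
  ne : I.Nonempty
  red : (∀ A : Fin (N + 1) → L, A ≠ 0 → OnV (J₀ ∪ F '' (I : Set (Fin (n + 1)))) A →
    Jac (J₀ ∪ F '' (I : Set (Fin (n + 1)))) A) ∨ (I = Finset.univ.erase a ∧ TwoP Ω J₀ F I)

end defs

section pts
variable {K : Type} [Field K] [CharZero K] {Λ : Type} [Fintype Λ] [DecidableEq Λ] {L : Λ → Type}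
  [∀ s, NontriviallyNormedField (L s)] [∀ s, ProperSpace (L s)] [∀ s, Algebra K (L s)] {N n : ℕ}
  (Ω : Type) [Field Ω] [Algebra K Ω]

/-- The hypotheses on the points. -/
structure PtsD (Z : MP K L) (𝔅 : LN (Fin (N + 1) → K)) (J₀ : Set (MvPolynomial (Fin (N + 1)) K))
    (F : Fin (n + 1) → MvPolynomial (Fin (N + 1)) K) (d : Fin (n + 1) → ℕ) (D : Fin (n + 1) → K)
    (w : (Fin (N + 1) → K) → Fin (n + 1) → K) (C₁ ε C₂ : ℝ) (E : Set (Fin (N + 1) → K)) :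
    Prop where
  hJ₀ : ∀ f ∈ J₀, ∃ e, f.IsHomogeneous e
  hd : ∀ i, 1 ≤ d i
  hF : ∀ i, (F i).IsHomogeneous (d i)
  hD : ∀ i, D i ≠ 0
  hempty : ∀ A : Fin (N + 1) → Ω, OnV J₀ A → (∀ i, aeval A (F i) = 0) → A = 0
  big : 𝔅.Big E
  unit : ∀ x ∈ E, ∀ i, Z.U (w x i)
  ev : ∀ x ∈ E, ∀ i, eval x (F i) = D i * w x i ^ d i
  O : ∀ x ∈ E, ∀ k, x k ∈ Z.O
  ne : ∀ x ∈ E, x ≠ 0
  onV : ∀ x ∈ E, ∀ f ∈ J₀, eval x f = 0
  hC₁ : 1 ≤ C₁
  bal : ∀ x ∈ E, ∀ s, nrm (L s) x ≤ C₁ * Ht L x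
  up : ∀ x ∈ E, ∀ s i, ‖algebraMap K (L s) (w x i)‖ ≤ C₁ * nrm (L s) x
  low : ∀ x ∈ E, ∀ s, ∃ i, nrm (L s) x ≤ C₁ * ‖algebraMap K (L s) (w x i)‖
  hε : 0 < ε
  gap : ∀ x ∈ E, ∃ o : Λ → Option (Finset (Fin (n + 1)) × Fin (n + 1)),
    (∀ s I a, o s = some (I, a) → GoodD Ω J₀ F (L s) I a ∧
      nrm (L s) x ≤ C₁ * ‖algebraMap K (L s) (w x a)‖) ∧
    ∏ s, facN (L s) (w x) (nrm (L s) x) (o s) ≤ C₂ * Ht L x ^ (-ε)

namespace PtsD
variable {Ω} {Z : MP K L} {𝔅 : LN (Fin (N + 1) → K)} {J₀ : Set (MvPolynomial (Fin (N + 1)) K)}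
    {F : Fin (n + 1) → MvPolynomial (Fin (N + 1)) K} {d : Fin (n + 1) → ℕ} {D : Fin (n + 1) → K}
    {w : (Fin (N + 1) → K) → Fin (n + 1) → K} {C₁ ε C₂ : ℝ} {E : Set (Fin (N + 1) → K)}

/-- Smaller sets, other notions of largeness. -/
lemma chg (h : PtsD Ω Z 𝔅 J₀ F d D w C₁ ε C₂ E) {𝔅' : LN (Fin (N + 1) → K)}
    {E' : Set (Fin (N + 1) → K)} (hE : E' ⊆ E) (hB : 𝔅'.Big E') :
    PtsD Ω Z 𝔅' J₀ F d D w C₁ ε C₂ E' where
  hJ₀ := h.hJ₀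
  hd := h.hd
  hF := h.hF
  hD := h.hD
  hempty := h.hempty
  big := hB
  unit := fun x hx => h.unit x (hE hx)
  ev := fun x hx => h.ev x (hE hx)
  O := fun x hx => h.O x (hE hx)
  ne := fun x hx => h.ne x (hE hx)
  onV := fun x hx => h.onV x (hE hx)
  hC₁ := h.hC₁
  bal := fun x hx => h.bal x (hE hx)
  up := fun x hx => h.up x (hE hx)
  low := fun x hx => h.low x (hE hx)
  hε := h.hε
  gap := fun x hx => h.gap x (hE hx)

lemma toE (h : PtsD Ω Z 𝔅 J₀ F d D w C₁ ε C₂ E) {C₁' : ℝ} (hC : C₁ ≤ C₁') :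
    PtsE Z 𝔅 w C₁' E where
  big := h.big
  unit := h.unit
  O := h.O
  ne := h.ne
  hC₁ := h.hC₁.trans hC
  bal := fun x hx s => (h.bal x hx s).trans
    (mul_le_mul_of_nonneg_right hC (by
      have := one_le_Ht Z (h.O x hx) (h.ne x hx)
      linarith))
  up := fun x hx s i => (h.up x hx s i).trans (mul_le_mul_of_nonneg_right hC (nrm_nonneg _))

end PtsD

/-- Local data at all points of `E`, for the linear form or function `ξ`. -/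
def HasLoc (L : Λ → Type) [∀ s, NontriviallyNormedField (L s)] [∀ s, Algebra K (L s)]
    (w : (Fin (N + 1) → K) → Fin (n + 1) → K) (ξ : (Fin (N + 1) → K) → K)
    (C₁ ε : ℝ) (E : Set (Fin (N + 1) → K)) (D : ℕ) : Prop :=
  ∀ J : ℕ, ∃ (Ty : ∀ s, Finset (LocT K (L s) (n + 1) D)) (C₂ : ℝ), ∀ x ∈ E,
    ∃ τ : ∀ s, LocT K (L s) (n + 1) D, (∀ s, τ s ∈ Ty s) ∧
      (∀ s, (τ s).Ok x (w x) (ξ x) C₁ C₂ J) ∧
      ∏ s, facW (L s) (w x) (τ s).a (τ s).o ≤ C₂ * Ht L x ^ (-ε)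

end pts

end Pool.Agent.Helper10.TD
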