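import Pool.Agent.Helper10.TD.PtsD
import Pool.Agent.Helper10.TD.CntD
import Pool.Agent.Helper38.TN.RelN

/-!
# The relation from the Subspace theorem, for units parametrised by monomials

Compare `relN` (`Helper38/TN/RelN.lean`): `countD` gives `M`; `A = {α // α ∈ AM c M}`,
`B = Σ i : Fin D, {β // β ∈ AM c (M + (D - i))}`, the class data `ClsD K (n + 1) M D A B` has
`rep a α` = the exponent of `exists_mu`, `κ a α = ∏ κ i ^ rep i`, `dg β = β.1`, `cl i m` the class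
`cc c m` in degree `i` (if `i < D` and `cc c m ∈ AM ..`, a default otherwise), `κ' m = ∏ κ i ^ m i`;
`χ x α = u ^ M * mono (t x) α`, `χ' x β = u ^ (M + (D - i)) * mono (t x) β`. We apply `relD` with
`S₀ = min_a ∑ α, rep a α a`.
-/

set_option autoImplicit false
set_option linter.unusedSectionVars false

namespace Pool.Agent.Helper10.TD

open Pool.Agent.Helper10.Sub Pool.Agent.Helper38.TP Pool.Agent.Helper38.TN MvPolynomial

/-- Monomials in the units. -/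
lemma mon_ccD {K : Type} [Field K] {n ρ : ℕ} {c : Fin (n + 1) → Fin ρ → ℤ} {w : Fin (n + 1) → K}
    {t : Fin ρ → K} {κ : Fin (n + 1) → K} {u : K} (ht : ∀ j, t j ≠ 0)
    (hrel : ∀ i, w i = κ i * (u * mono t (c i))) (m : Fin (n + 1) →₀ ℕ) :
    mon w m = (∏ i, κ i ^ m i) * (u ^ (∑ i, m i) * mono t (cc c fun i => m i)) := by
  unfold mon cc
  rw [mono_sum _ ht, ← Finset.prod_pow_eq_pow_sum, ← Finset.prod_mul_distrib,
    ← Finset.prod_mul_distrib]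
  refine Finset.prod_congr rfl fun i _ => ?_
  rw [mono_nsmul, ← mul_pow, ← mul_pow, ← hrel i]

lemma AM_ne {n ρ : ℕ} (c : Fin (n + 1) → Fin ρ → ℤ) (q : ℕ) : (AM c q).Nonempty :=
  Finset.card_pos.1 (cnt_pos c q)

/-- The classes of the monomials, with the lower blocks. -/
noncomputable def clsD {K : Type} [Field K] {n ρ : ℕ} (c : Fin (n + 1) → Fin ρ → ℤ)
    (κ : Fin (n + 1) → K) (M D : ℕ) (hD : 0 < D) :
    ClsD K (n + 1) M D {α // α ∈ AM c M}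
      (Σ i : Fin D, {β // β ∈ AM c (M + (D - (i : ℕ)))}) where
  rep a α := Finsupp.equivFunOnFinite.symm (exists_mu a α.2).choose
  rep_sum a α := (exists_mu a α.2).choose_spec.1
  κ a α := ∏ i, κ i ^ (exists_mu a α.2).choose i
  dg β := β.1
  cl i m := if hi : i < D then
      ⟨⟨i, hi⟩, if hm : cc c (fun j => m j) ∈ AM c (M + (D - i)) then ⟨_, hm⟩ else
        ⟨_, (AM_ne c (M + (D - i))).choose_spec⟩⟩
    else ⟨⟨0, hD⟩, ⟨_, (AM_ne c (M + (D - 0))).choose_spec⟩⟩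
  dg_cl i hi m := by rw [dif_pos hi]
  κ' m := ∏ i, κ i ^ m i

variable {K : Type} [Field K] [CharZero K] {Λ : Type} [Fintype Λ] [DecidableEq Λ] {L : Λ → Type}
  [∀ s, NontriviallyNormedField (L s)] [∀ s, ProperSpace (L s)] [∀ s, Algebra K (L s)] {N n : ℕ}

theorem relGD {Z : MP K L} {𝔅 : LN (Fin (N + 1) → K)}
    {w : (Fin (N + 1) → K) → Fin (n + 1) → K} {C₁ : ℝ} {E : Set (Fin (N + 1) → K)}
    (h : PtsE Z 𝔅 w C₁ E) {ρ : ℕ} (u : (Fin (N + 1) → K) → K)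
    (t : (Fin (N + 1) → K) → Fin ρ → K) (κ : Fin (n + 1) → K) (c : Fin (n + 1) → Fin ρ → ℤ)
    (hrel : ∀ x ∈ E, ∀ i, w x i = κ i * (u x * mono (t x) (c i)))
    (hu : ∀ x ∈ E, Z.U (u x)) (ht : ∀ x ∈ E, ∀ j, Z.U (t x j)) (D : ℕ) (hD : 1 ≤ D)
    (ε : ℝ) (hε : 0 < ε) (ξ : (Fin (N + 1) → K) → K) (hξO : ∀ x ∈ E, ξ x ∈ Z.O)
    (hξ : ∀ x ∈ E, ∀ s, ‖algebraMap K (L s) (ξ x)‖ ≤ C₁ * nrm (L s) x)
    (hloc : HasLoc L w ξ C₁ ε E D) :
    ∃ E' ⊆ E, 𝔅.Big E' ∧ ∃ (M : ℕ) (A : ℕ → (Fin ρ → ℤ) → K),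
      (∃ j ≤ D, ∃ α ∈ AM c (M + (D - j)), A j α ≠ 0) ∧
      ∀ x ∈ E', ∑ j ∈ Finset.range (D + 1), ξ x ^ j * (u x ^ (M + (D - j)) *
        ∑ α ∈ AM c (M + (D - j)), A j α * mono (t x) α) = 0 := by
  classical
  obtain ⟨M, -, hcount⟩ := countD c D ε hε
  obtain ⟨x₀, hx₀⟩ := 𝔅.nonempty h.big
  have hκ0 : ∀ i, κ i ≠ 0 := by
    intro i h0
    have h1 := hrel x₀ hx₀ i
    rw [h0, zero_mul] at h1
    exact (h.unit x₀ hx₀ i).ne h1
  have ht0 : ∀ x ∈ E, ∀ j, t x j ≠ 0 := fun x hx j => (ht x hx j).ne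
  have : Nonempty {α // α ∈ AM c M} := ⟨⟨_, (AM_ne c M).choose_spec⟩⟩
  have : Nonempty (Σ i : Fin D, {β // β ∈ AM c (M + (D - (i : ℕ)))}) :=
    ⟨⟨⟨0, hD⟩, ⟨_, (AM_ne c (M + (D - 0))).choose_spec⟩⟩⟩
  set C := clsD c κ M D hD with hC
  have hrep : ∀ a (α : {α // α ∈ AM c M}), cc c (fun i => C.rep a α i) = α.1 := fun a α =>
    (exists_mu a α.2).choose_spec.2.1
  have hrepmu : ∀ a (α : {α // α ∈ AM c M}), C.rep a α a = mu c M a α.1 := fun a α =>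
    (exists_mu a α.2).choose_spec.2.2
  have hcl : ∀ (i : ℕ) (hi : i < D) (m : Fin (n + 1) →₀ ℕ)
      (hm : cc c (fun j => m j) ∈ AM c (M + (D - i))), C.cl i m = ⟨⟨i, hi⟩, ⟨_, hm⟩⟩ := by
    intro i hi m hm
    change (if hi : i < D then
      (⟨⟨i, hi⟩, if hm : cc c (fun j => m j) ∈ AM c (M + (D - i)) then ⟨_, hm⟩ else
        ⟨_, (AM_ne c (M + (D - i))).choose_spec⟩⟩ :
          Σ i : Fin D, {β // β ∈ AM c (M + (D - (i : ℕ)))})
      else ⟨⟨0, hD⟩, ⟨_, (AM_ne c (M + (D - 0))).choose_spec⟩⟩) = _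
    rw [dif_pos hi, dif_pos hm]
  set χ : (Fin (N + 1) → K) → {α // α ∈ AM c M} → K := fun x α =>
    u x ^ M * mono (t x) α.1 with hχ
  set χ' : (Fin (N + 1) → K) → (Σ i : Fin D, {β // β ∈ AM c (M + (D - (i : ℕ)))}) → K :=
    fun x β => u x ^ (M + (D - (β.1 : ℕ))) * mono (t x) β.2.1 with hχ'
  have hval : ∀ x ∈ E, C.Val (w x) (χ x) (χ' x) := by
    intro x hx
    refine ⟨fun a α => ?_, fun a α => ?_, fun i hi m hm => ?_⟩
    · change (∏ i, κ i ^ (exists_mu a α.2).choose i) ≠ 0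
      exact Finset.prod_ne_zero_iff.2 fun i _ => pow_ne_zero _ (hκ0 i)
    · rw [mon_ccD (ht0 x hx) (hrel x hx) (C.rep a α), C.rep_sum, hrep]
      rfl
    · have h1 : cc c (fun i => m i) ∈ AM c (M + (D - i)) := mem_AM.2 ⟨_, hm, rfl⟩
      rw [mon_ccD (ht0 x hx) (hrel x hx) m, hm, hcl i hi m h1]
      rfl
  obtain ⟨a₀, -, ha₀⟩ := Finset.exists_min_image (Finset.univ : Finset (Fin (n + 1)))
    (fun a => ∑ α, C.rep a α a) ⟨0, Finset.mem_univ _⟩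
  have hS₀ : ((D * Fintype.card {α // α ∈ AM c M} + ∑ β, C.dg β + 1 : ℕ) : ℝ) ≤
      ε * (∑ α, C.rep a₀ α a₀ : ℕ) := by
    have h1 := hcount a₀
    have h2 : (∑ α, C.rep a₀ α a₀ : ℕ) = ∑ α ∈ AM c M, mu c M a₀ α := by
      simp only [hrepmu]
      exact Finset.sum_coe_sort (AM c M) (fun α => mu c M a₀ α)
    have h3 : (∑ β, C.dg β : ℕ) = ∑ i ∈ Finset.range D, i * (AM c (M + (D - i))).card := by
      change (∑ β : (Σ i : Fin D, {β // β ∈ AM c (M + (D - (i : ℕ)))}), (β.1 : ℕ)) = _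
      rw [Fintype.sum_sigma, Finset.sum_range]
      refine Finset.sum_congr rfl fun i _ => ?_
      change (∑ _β : {β // β ∈ AM c (M + (D - (i : ℕ)))}, (i : ℕ)) = _
      rw [Finset.sum_const, Finset.card_univ, Fintype.card_coe, smul_eq_mul, mul_comm]
    rw [h2, h3, Fintype.card_coe]
    push_cast
    push_cast at h1
    exact h1
  obtain ⟨Ty, C₂, hTy⟩ := hloc (M + 2)
  obtain ⟨E', hE', hB', g, hg, hr⟩ := relD h hD C χ χ' hval
    (fun x hx α => ((hu x hx).pow M).mul (U_mono (ht x hx) α.1))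
    (fun x hx β => ((hu x hx).pow _).mul (U_mono (ht x hx) β.2.1)) (by
      rintro ⟨i, β⟩
      refine ⟨i.2, ?_⟩
      obtain ⟨m, hm, hmβ⟩ := mem_AM.1 β.2
      refine ⟨Finsupp.equivFunOnFinite.symm m, hm, ?_⟩
      have h1 : cc c (fun i => (Finsupp.equivFunOnFinite.symm m : Fin (n + 1) →₀ ℕ) i) = β.1 :=
        hmβ
      change C.cl (i : ℕ) _ = _
      rw [hcl i i.2 _ (h1 ▸ β.2)]
      have h2 : (⟨cc c (fun i => (Finsupp.equivFunOnFinite.symm m : Fin (n + 1) →₀ ℕ) i),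
          h1 ▸ β.2⟩ : {β // β ∈ AM c (M + (D - (i : ℕ)))}) = β := Subtype.ext h1
      rw [h2]) ε (fun a => ha₀ a (Finset.mem_univ a)) hS₀ ξ hξO hξ Ty C₂ hTy
  set A : ℕ → (Fin ρ → ℤ) → K := fun j α =>
    if hj : j < D then
      (if hα : α ∈ AM c (M + (D - j)) then g (Sum.inr ⟨⟨j, hj⟩, ⟨α, hα⟩⟩) else 0)
    else (if hα : α ∈ AM c M then g (Sum.inl ⟨α, hα⟩) else 0) with hA
  have hAD : ∀ α : {α // α ∈ AM c M}, A D α.1 = g (Sum.inl α) := by
    intro α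
    simp only [hA]
    rw [dif_neg (lt_irrefl D), dif_pos α.2]
  have hAj : ∀ (j : Fin D) (β : {β // β ∈ AM c (M + (D - (j : ℕ)))}),
      A j β.1 = g (Sum.inr ⟨j, β⟩) := by
    intro j β
    simp only [hA]
    rw [dif_pos j.2, dif_pos β.2]
  refine ⟨E', hE', hB', M, A, ?_, fun x hx => ?_⟩
  · obtain ⟨m, hm⟩ := Function.ne_iff.1 hg
    rw [Pi.zero_apply] at hm
    rcases m with α | ⟨j, β⟩
    · refine ⟨D, le_rfl, α.1, ?_, ?_⟩
      · rw [Nat.sub_self, add_zero]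
        exact α.2
      · rw [hAD]
        exact hm
    · refine ⟨j, j.2.le, β.1, β.2, ?_⟩
      rw [hAj]
      exact hm
  · have h1 := hr x hx
    rw [Finset.sum_range_succ, add_comm, ← h1]
    congr 1
    · rw [Nat.sub_self, add_zero, ← Finset.sum_coe_sort (AM c M) (fun α => A D α * mono (t x) α),
        Finset.mul_sum]
      congr 1
      refine Finset.sum_congr rfl fun α _ => ?_
      rw [hAD α, hχ]
      ring
    · rw [Fintype.sum_sigma, Finset.sum_range]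
      refine Finset.sum_congr rfl fun j _ => ?_
      rw [← Finset.sum_coe_sort (AM c (M + (D - (j : ℕ)))) (fun α => A j α * mono (t x) α),
        Finset.mul_sum, Finset.mul_sum]
      refine Finset.sum_congr rfl fun β _ => ?_
      rw [hAj j β, hχ']
      change _ = g (Sum.inr ⟨j, β⟩) * (ξ x ^ (j : ℕ) * (u x ^ (M + (D - (j : ℕ))) *
        mono (t x) β.1))
      ring

end Pool.Agent.Helper10.TD
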