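import Pool.Agent.Helper10.TD.RelGD
import Pool.Agent.Helper10.TD.LocA
import Pool.Agent.Helper10.TD.AlgA1
import Pool.Agent.Helper10.TD.AlgA2

/-!
# Independent units: a linear form in general position is a rational function of the units

Work in the ultrapower `GK 𝒰 K` with `x̂ k = gm 𝒰 (fun x => x k)`, `ŵ i = gm 𝒰 (fun x => w x i)`
(`gm_aeval`, `gm_eq`, `E ∈ 𝒰` is `h.big`). `AD K Ω (GK 𝒰 K) J₀ F d Dc x̂ ŵ` holds, and `hind` gives the
independence of `ŵ`. `algA1` for `lam`: `δ`, the equations `Φ a` and minimality.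
If `2 ≤ δ` put `D = δ - 1`. On a set `E' ∈ 𝒰`, `E' ⊆ E`, all (finitely many) relations
`ev (zz (w x) a) (lin lam x / w x a) (Φ a) = 0` hold (`gm` of the pointwise value: `ev` commutes with
`gm`, as in `gm_aeval`). `hsp` for `hasLocA`: if `res (Φ a) = (X - ρ) ^ δ`, then `algA2` for the two
points of `hgood` gives `ω, ω'` with `lin lam P / ω = ρ = lin lam P' / ω'`, `Dc a * ω ^ d a = F a (P)`,
so `lin lam P ^ d a * F a (P') = lin lam P' ^ d a * F a (P)`, a contradiction (`hx` of `algA2` holds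
because `aeval (algebraMap ∘ x) f = 0` for `x ∈ E`, `OnV` over `Ω` from `h.onV`). So `hasLocA`
(with `C₁'` at least `C₁ + ∑ ‖lam k‖`, which also gives `hξ`; `hξO` from `hZ`) and
`relGD` with `ρ = n + 1`, `u = 1`, `t = w`, `κ = 1`, `c i = Pi.single i 1` give a non-zero relation
`∑ j ≤ D, ξ ^ j B_j(w) = 0` on a set of `𝒰` (`AM c m` consists of the non-negative vectors of sum `m`;
`mono w α` is the monomial), `B_j` homogeneous of degree `M + D - j`; this contradicts the minimality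
in `algA1`. So `δ = 1`, and the monic equation of degree one for `a = 0`, multiplied by a power of
`w 0`, gives the claim (`A = X 0 ^ m`; `algA1_hom` in `AlgA1.lean`).
-/

set_option autoImplicit false
set_option linter.unusedSectionVars false

namespace Pool.Agent.Helper10.TD

open Pool.Agent.Helper10.Sub Pool.Agent.Helper38.TP Pool.Agent.Helper38.TN MvPolynomial

variable {K : Type} [Field K] {N n : ℕ}

/-- The linear form `lam` is a quotient of two forms in the units, on a set of the ultrafilter. -/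
def RelL (𝒰 : Ultrafilter (Fin (N + 1) → K)) (w : (Fin (N + 1) → K) → Fin (n + 1) → K)
    (lam : Fin (N + 1) → K) : Prop :=
  ∃ (m : ℕ) (A B : MvPolynomial (Fin (n + 1)) K), A.IsHomogeneous m ∧ B.IsHomogeneous (m + 1) ∧
    A ≠ 0 ∧ {x | lin lam x * eval (w x) A = eval (w x) B} ∈ 𝒰

section aux

variable {β : Type} {𝒰 : Ultrafilter β}

lemma relL_gm_ev {σ : Type} (z : β → σ → K) (ζ : β → K)
    (G : Polynomial (MvPolynomial σ K)) :
    ev (fun i => gm 𝒰 fun b => z b i) (gm 𝒰 ζ) G = gm 𝒰 fun b => ev (z b) (ζ b) G := by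
  have h1 : (fun b => ev (z b) (ζ b) G) = fun b => ∑ i ∈ Finset.range (G.natDegree + 1),
      eval (z b) (G.coeff i) * ζ b ^ i := by
    funext b
    rw [ev_eq_sum (z b) (ζ b) G (Nat.lt_succ_self _)]
    rfl
  rw [ev_eq_sum _ _ G (Nat.lt_succ_self _), h1, gm_sum]
  refine Finset.sum_congr rfl fun i _ => ?_
  rw [gm_aeval, gm_mul, gm_pow]

lemma relL_zz (w : β → Fin (n + 1) → K) (a : Fin (n + 1)) :
    zz (fun i => gm 𝒰 fun x => w x i) a = fun i => gm 𝒰 fun x => zz (w x) a i := by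
  funext i
  by_cases h : i = a
  · simp only [zz, if_pos h]
    rfl
  · simp only [zz, if_neg h]
    rfl

lemma relL_lin (x : β → Fin (N + 1) → K) (lam : Fin (N + 1) → K) :
    lin lam (fun k => gm 𝒰 fun b => x b k) = gm 𝒰 fun b => lin lam (x b) := by
  have h1 : (fun b => lin lam (x b)) = fun b => ∑ k, lam k * x b k := rfl
  rw [h1, gm_sum]
  rfl

lemma relL_mono (t : Fin (n + 1) → K) (i : Fin (n + 1)) :
    mono t (Pi.single i 1) = t i := by
  classical
  rw [mono, Finset.prod_eq_single i]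
  · rw [Pi.single_eq_same, zpow_one]
  · intro j _ hj
    rw [Pi.single_eq_of_ne hj, zpow_zero]
  · intro h
    exact absurd (Finset.mem_univ i) h

lemma relL_cc (m : Fin (n + 1) → ℕ) :
    cc (fun i => Pi.single i 1) m = fun i => (m i : ℤ) := by
  classical
  funext j
  rw [cc, Finset.sum_apply, Finset.sum_eq_single j]
  · rw [Pi.smul_apply, Pi.single_eq_same]
    simp
  · intro i _ hi
    rw [Pi.smul_apply, Pi.single_eq_of_ne hi.symm, smul_zero]
  · intro h
    exact absurd (Finset.mem_univ j) h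

/-- The form with the coefficients `A`. -/
noncomputable def relLB (A : (Fin (n + 1) → ℤ) → K) (m : ℕ) : MvPolynomial (Fin (n + 1)) K :=
  ∑ e ∈ Finset.univ.piAntidiag m, monomial (Finsupp.equivFunOnFinite.symm e)
    (A (fun i => (e i : ℤ)))

lemma relLB_hom (A : (Fin (n + 1) → ℤ) → K) (m : ℕ) : (relLB A m).IsHomogeneous m := by
  classical
  refine IsHomogeneous.sum _ _ _ fun e he => isHomogeneous_monomial _ ?_
  rw [Finset.mem_piAntidiag] at he
  rw [Finsupp.degree_eq_sum]
  exact he.1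

lemma relLB_eval (A : (Fin (n + 1) → ℤ) → K) (m : ℕ) (t : Fin (n + 1) → K) :
    eval t (relLB A m) = ∑ α ∈ AM (fun i => Pi.single i 1) m, A α * mono t α := by
  classical
  rw [relLB, map_sum, AM, Finset.sum_image]
  · refine Finset.sum_congr rfl fun e _ => ?_
    rw [eval_monomial_mono, relL_cc]
    rfl
  · intro e _ e' _ h
    simp only [relL_cc] at h
    funext i
    have := congrFun h i
    exact_mod_cast this

lemma relLB_coeff (A : (Fin (n + 1) → ℤ) → K) (m : ℕ) (e : Fin (n + 1) → ℕ) (he : ∑ i, e i = m) :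
    coeff (Finsupp.equivFunOnFinite.symm e) (relLB A m) = A (fun i => (e i : ℤ)) := by
  classical
  rw [relLB, coeff_sum, Finset.sum_eq_single e]
  · rw [coeff_monomial, if_pos rfl]
  · intro e' _ hne
    rw [coeff_monomial, if_neg]
    intro h
    exact hne (Finsupp.equivFunOnFinite.symm.injective h)
  · intro h
    exact absurd (Finset.mem_piAntidiag.2 ⟨he, fun i _ => Finset.mem_univ i⟩) h

end aux

variable [CharZero K] {Λ : Type} [Fintype Λ] [DecidableEq Λ] {L : Λ → Type}
  [∀ s, NontriviallyNormedField (L s)] [∀ s, ProperSpace (L s)] [∀ s, Algebra K (L s)]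
  {Ω : Type} [Field Ω] [IsAlgClosed Ω] [Algebra K Ω]

theorem relL_good {Z : MP K L} {𝒰 : Ultrafilter (Fin (N + 1) → K)}
    (h𝒰 : ∀ A ∈ 𝒰, A.Infinite) {J₀ : Set (MvPolynomial (Fin (N + 1)) K)}
    {F : Fin (n + 1) → MvPolynomial (Fin (N + 1)) K} {d : Fin (n + 1) → ℕ} {Dc : Fin (n + 1) → K}
    {w : (Fin (N + 1) → K) → Fin (n + 1) → K} {C₁ ε C₂ : ℝ} {E : Set (Fin (N + 1) → K)}
    (h : PtsD Ω Z (ultLN 𝒰 h𝒰) J₀ F d Dc w C₁ ε C₂ E)
    (hind : ∀ (m : ℕ) (p : MvPolynomial (Fin (n + 1)) K), p.IsHomogeneous m →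
      {x | eval (w x) p = 0} ∈ 𝒰 → p = 0)
    (lam : Fin (N + 1) → K) (hZ : ∃ l : Fin (N + 1) → ℤ, ∀ k, lam k = (l k : K))
    (hgood : ∀ a, TwoP Ω J₀ F (Finset.univ.erase a) → ∃ P P' : Fin (N + 1) → Ω,
      P ≠ 0 ∧ P' ≠ 0 ∧ OnV J₀ P ∧ OnV J₀ P' ∧ (∀ i, i ≠ a → aeval P (F i) = 0) ∧
      (∀ i, i ≠ a → aeval P' (F i) = 0) ∧
      lin lam P ^ d a * aeval P' (F a) ≠ lin lam P' ^ d a * aeval P (F a)) :
    RelL 𝒰 w lam := by
  classical
  have hE : E ∈ 𝒰 := h.big
  set xh : Fin (N + 1) → GK 𝒰 K := fun k => gm 𝒰 fun x => x k with hxh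
  set wh : Fin (n + 1) → GK 𝒰 K := fun i => gm 𝒰 fun x => w x i with hwh
  have hAD : AD K Ω (GK 𝒰 K) J₀ F d Dc xh wh :=
    { hJ₀ := h.hJ₀
      hd := h.hd
      hF := h.hF
      hD := h.hD
      hempty := h.hempty
      onV := fun f hf => by
        rw [hxh, gm_aeval (𝒰 := 𝒰) (fun x : Fin (N + 1) → K => x) f, gm_eq_zero]
        exact Filter.mem_of_superset hE fun x hx => h.onV x hx f hf
      val := fun i => by
        rw [hxh, gm_aeval (𝒰 := 𝒰) (fun x : Fin (N + 1) → K => x) (F i), gm_const, hwh]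
        change _ = gm 𝒰 fun x => Dc i * w x i ^ d i
        rw [gm_eq]
        exact Filter.mem_of_superset hE fun x hx => h.ev x hx i
      ne := fun i h0 => by
        rw [hwh] at h0
        have h1 : {x | w x i = 0} ∈ 𝒰 := gm_eq_zero.1 h0
        obtain ⟨x, hx1, hx2⟩ := 𝒰.nonempty_of_mem (Filter.inter_mem hE h1)
        exact (h.unit x hx1 i).ne hx2 }
  have hind' : ∀ (m : ℕ) (p : MvPolynomial (Fin (n + 1)) K), p.IsHomogeneous m →
      aeval wh p = 0 → p = 0 := by
    intro m p hp h0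
    rw [hwh, gm_aeval (𝒰 := 𝒰) w p, gm_eq_zero] at h0
    exact hind m p hp h0
  obtain ⟨δ, hδ1, hmin, hΦ⟩ := algA1 hAD hind' lam
  choose Φ hΦm hΦd hΦe using hΦ
  have hlin : lin lam xh = gm 𝒰 fun x => lin lam x := by
    rw [hxh]
    exact relL_lin (𝒰 := 𝒰) (fun x : Fin (N + 1) → K => x) lam
  rcases Nat.lt_or_ge 1 δ with h2 | h2
  · exfalso
    obtain ⟨D, rfl⟩ : ∃ D, δ = D + 1 := ⟨δ - 1, by omega⟩
    have hD : 1 ≤ D := by omega
    have hevx : ∀ a, {x | ev (zz (w x) a) (lin lam x / w x a) (Φ a) = 0} ∈ 𝒰 := by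
      intro a
      have h3 := hΦe a
      rw [hlin, hwh, relL_zz] at h3
      change ev (fun i => gm 𝒰 fun x => zz (w x) a i) (gm 𝒰 fun x => lin lam x / w x a) (Φ a) =
        0 at h3
      rw [relL_gm_ev] at h3
      exact gm_eq_zero.1 h3
    have hE1 : (⋂ a, {x | ev (zz (w x) a) (lin lam x / w x a) (Φ a) = 0}) ∈ 𝒰 :=
      Filter.iInter_mem.2 hevx
    have hE' : E ∩ (⋂ a, {x | ev (zz (w x) a) (lin lam x / w x a) (Φ a) = 0}) ∈ 𝒰 :=
      Filter.inter_mem hE hE1
    have h' := h.chg (𝔅' := ultLN 𝒰 h𝒰) Set.inter_subset_left hE'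
    have hx : ∀ (f : MvPolynomial (Fin (N + 1)) K) (e : ℕ), f.IsHomogeneous e →
        (∀ A : Fin (N + 1) → Ω, OnV J₀ A → aeval A f = 0) → aeval xh f = 0 := by
      intro f e _ hf
      rw [hxh, gm_aeval (𝒰 := 𝒰) (fun x : Fin (N + 1) → K => x) f, gm_eq_zero]
      refine Filter.mem_of_superset hE fun x hx => ?_
      have h3 : ∀ g : MvPolynomial (Fin (N + 1)) K,
          aeval (fun k => algebraMap K Ω (x k)) g = algebraMap K Ω (eval x g) := fun g =>
        aeval_algebraMap_apply Ω x g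
      have h4 := hf (fun k => algebraMap K Ω (x k)) fun g hg => by
        rw [h3, h.onV x hx g hg, map_zero]
      rw [h3] at h4
      exact (map_eq_zero _).1 h4
    have hsp : ∀ a, TwoP Ω J₀ F (Finset.univ.erase a) → ∀ ρ : K,
        res (Φ a) ≠ (Polynomial.X - Polynomial.C ρ) ^ (D + 1) := by
      intro a hT ρ hρ
      obtain ⟨P, P', hP, hP', hPV, hPV', hPF, hPF', hne⟩ := hgood a hT
      obtain ⟨ω, hω, hω1, hω2⟩ := algA2 hAD hind' hx hT.1 lam a (Φ a) (hΦe a) P hP hPV hPF
      obtain ⟨ω', hω', hω1', hω2'⟩ :=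
        algA2 hAD hind' hx hT.1 lam a (Φ a) (hΦe a) P' hP' hPV' hPF'
      have h5 : ∀ z : Ω, Polynomial.aeval z (res (Φ a)) = 0 → z = algebraMap K Ω ρ := by
        intro z hz
        rw [hρ, map_pow, map_sub, Polynomial.aeval_X, Polynomial.aeval_C] at hz
        exact sub_eq_zero.1 (pow_eq_zero_iff (by omega : D + 1 ≠ 0) |>.1 hz)
      have h6 : lin lam P = algebraMap K Ω ρ * ω := by
        rw [← h5 _ hω2, div_mul_cancel₀ _ hω]
      have h7 : lin lam P' = algebraMap K Ω ρ * ω' := by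
        rw [← h5 _ hω2', div_mul_cancel₀ _ hω']
      apply hne
      rw [h6, h7, ← hω1, ← hω1', mul_pow, mul_pow]
      ring
    set C₁' : ℝ := C₁ + ∑ s, ∑ k, ‖algebraMap K (L s) (lam k)‖ with hC₁'
    have hCle : C₁ ≤ C₁' := by
      rw [hC₁']
      have : 0 ≤ ∑ s, ∑ k, ‖algebraMap K (L s) (lam k)‖ :=
        Finset.sum_nonneg fun s _ => Finset.sum_nonneg fun k _ => norm_nonneg _
      linarith
    have hloc := hasLocA h' lam D hD Φ hΦm hΦd hsp
      (fun x hx a => Set.mem_iInter.1 hx.2 a) C₁' hCle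
    have hξ : ∀ x ∈ E ∩ (⋂ a, {x | ev (zz (w x) a) (lin lam x / w x a) (Φ a) = 0}), ∀ s,
        ‖algebraMap K (L s) (lin lam x)‖ ≤ C₁' * nrm (L s) x := by
      intro x _ s
      have h8 : algebraMap K (L s) (lin lam x) =
          ∑ k, algebraMap K (L s) (lam k) * algebraMap K (L s) (x k) := by
        have : lin lam x = ∑ k, lam k * x k := rfl
        rw [this, map_sum]
        exact Finset.sum_congr rfl fun k _ => map_mul _ _ _
      rw [h8]
      calc ‖∑ k, algebraMap K (L s) (lam k) * algebraMap K (L s) (x k)‖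
          ≤ ∑ k, ‖algebraMap K (L s) (lam k)‖ * nrm (L s) x := by
            refine (norm_sum_le _ _).trans (Finset.sum_le_sum fun k _ => ?_)
            rw [norm_mul]
            exact mul_le_mul_of_nonneg_left (le_nrm x k) (norm_nonneg _)
        _ = (∑ k, ‖algebraMap K (L s) (lam k)‖) * nrm (L s) x := (Finset.sum_mul _ _ _).symm
        _ ≤ C₁' * nrm (L s) x := by
            refine mul_le_mul_of_nonneg_right ?_ (nrm_nonneg _)
            rw [hC₁']
            have h9 : ∑ k, ‖algebraMap K (L s) (lam k)‖ ≤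
                ∑ s, ∑ k, ‖algebraMap K (L s) (lam k)‖ :=
              Finset.single_le_sum (f := fun s => ∑ k, ‖algebraMap K (L s) (lam k)‖)
                (fun s _ => Finset.sum_nonneg fun k _ => norm_nonneg _) (Finset.mem_univ s)
            have := h.hC₁
            linarith
    have hξO : ∀ x ∈ E ∩ (⋂ a, {x | ev (zz (w x) a) (lin lam x / w x a) (Φ a) = 0}),
        lin lam x ∈ Z.O := by
      intro x hx
      obtain ⟨l, hl⟩ := hZ
      have : lin lam x = ∑ k, lam k * x k := rfl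
      rw [this]
      refine Z.O.sum_mem fun k _ => Z.O.mul_mem ?_ (h.O x hx.1 k)
      rw [hl]
      exact intCast_mem Z.O (l k)
    obtain ⟨E'', hE''s, hE''b, M, A, ⟨j, hj, α, hα, hA⟩, hrel⟩ :=
      relGD (h'.toE hCle) (ρ := n + 1) (fun _ => 1) w (fun _ => 1) (fun i => Pi.single i 1)
        (fun x _ i => by rw [relL_mono, one_mul, one_mul])
        (fun _ _ => MP.U.one) (fun x hx => h'.unit x hx) D hD ε h.hε (fun x => lin lam x)
        hξO hξ hloc
    have hE''b' : E'' ∈ 𝒰 := hE''b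
    have h10 := hmin (M + D) (fun j => relLB (A j) (M + (D - j))) (by omega)
      (fun j hj => by
        have h11 : M + D - j = M + (D - j) := by omega
        rw [h11]
        exact relLB_hom _ _) (by
        rw [hlin, hwh]
        simp only [gm_aeval (𝒰 := 𝒰) w]
        change ∑ j ∈ Finset.range (D + 1), (gm 𝒰 fun x => lin lam x ^ j *
          eval (w x) (relLB (A j) (M + (D - j)))) = 0
        rw [← gm_sum, gm_eq_zero]
        refine Filter.mem_of_superset hE''b' fun x hx => ?_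
        have h12 := hrel x hx
        simp only [one_pow, one_mul] at h12
        change ∑ j ∈ Finset.range (D + 1), lin lam x ^ j *
          eval (w x) (relLB (A j) (M + (D - j))) = 0
        rw [← h12]
        refine Finset.sum_congr rfl fun j _ => ?_
        rw [relLB_eval]) j (by omega)
    obtain ⟨e, he1, he2⟩ := mem_AM.1 hα
    rw [relL_cc] at he2
    apply hA
    rw [← he2, ← relLB_coeff (A j) _ e he1]
    rw [h10, coeff_zero]
  · have hδ : δ = 1 := by omega
    subst hδ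
    set φ : MvPolynomial {i : Fin (n + 1) // i ≠ 0} K :=
      aeval (fun i : Fin (n + 1) => if h : i ≠ 0 then
        (X ⟨i, h⟩ : MvPolynomial {i : Fin (n + 1) // i ≠ 0} K) else 0) (-(Φ 0).coeff 0) with hφ
    have h3 : algA1f (K := K) wh 0 φ = aeval (zz wh 0) (-(Φ 0).coeff 0) := by
      have h4 : (algA1f (K := K) wh 0).comp (aeval (fun i : Fin (n + 1) => if h : i ≠ 0 then
          (X ⟨i, h⟩ : MvPolynomial {i : Fin (n + 1) // i ≠ 0} K) else 0)) = aeval (zz wh 0) := by
        apply algHom_ext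
        intro i
        rw [AlgHom.comp_apply, aeval_X, aeval_X]
        split_ifs with hi
        · rw [algA1f, aeval_X, zz, if_neg hi]
        · push Not at hi
          rw [map_zero, zz, if_pos hi]
      rw [← h4, AlgHom.comp_apply]
    have h5 := hΦe 0
    rw [ev_monic _ _ _ (hΦm 0) (hΦd 0), pow_one, Finset.sum_range_one, pow_zero, mul_one] at h5
    have h6 : lin lam xh = wh 0 * algA1f (K := K) wh 0 φ := by
      rw [h3, map_neg, ← eq_neg_of_add_eq_zero_left h5, mul_div_cancel₀ _ (hAD.ne 0)]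
    obtain ⟨G, hG1, hG2⟩ := algA1_hom (0 : Fin (n + 1)) φ (m := φ.totalDegree + 1) (by omega)
    refine ⟨φ.totalDegree, X 0 ^ φ.totalDegree, G, isHomogeneous_X_pow 0 _, hG1,
      pow_ne_zero _ (X_ne_zero 0), ?_⟩
    rw [← gm_eq, gm_mul, ← hlin, ← gm_aeval (𝒰 := 𝒰) w, ← gm_aeval (𝒰 := 𝒰) w]
    change lin lam xh * aeval wh (X 0 ^ φ.totalDegree) = aeval wh G
    rw [algA1_dehom wh 0 (hAD.ne 0) hG1, hG2, map_pow, aeval_X, h6, pow_succ]
    ring

end Pool.Agent.Helper10.TD
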